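import Mathlib

set_option autoImplicit false

namespace Pool.Agent.Helper284.PFIneq

/-- convexity of sinh: `sinh (μ x) < μ sinh x`. -/
theorem sinh_mul_lt {μ x : ℝ} (h0 : 0 < μ) (h1 : μ < 1) (hx : 0 < x) :
    Real.sinh (μ * x) < μ * Real.sinh x := by
  have hder : ∀ y : ℝ, HasDerivAt (fun y => μ * Real.sinh y - Real.sinh (μ * y))
      (μ * Real.cosh y - Real.cosh (μ * y) * μ) y := by
    intro y
    have h2 : HasDerivAt (fun y : ℝ => μ * y) μ y := by
      simpa using (hasDerivAt_id y).const_mul μ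
    exact ((Real.hasDerivAt_sinh y).const_mul μ).sub (h2.sinh)
  have hmono : StrictMonoOn (fun y => μ * Real.sinh y - Real.sinh (μ * y)) (Set.Ici (0:ℝ)) := by
    apply strictMonoOn_of_deriv_pos (convex_Ici 0)
    · exact fun y _ => (hder y).continuousAt.continuousWithinAt
    · intro y hy
      rw [interior_Ici] at hy
      have hy' : (0:ℝ) < y := hy
      rw [(hder y).deriv]
      have h3 : Real.cosh (μ * y) < Real.cosh y := by
        rw [Real.cosh_lt_cosh, abs_of_pos (mul_pos h0 hy'), abs_of_pos hy']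
        nlinarith
      nlinarith
  have := hmono (Set.self_mem_Ici) (Set.mem_Ici.mpr hx.le) hx
  simp at this
  linarith

/-- concavity of tanh in the form `μ sinh x cosh (μ x) < sinh (μ x) cosh x`. -/
theorem mul_sinh_cosh_lt {μ x : ℝ} (h0 : 0 < μ) (h1 : μ < 1) (hx : 0 < x) :
    μ * Real.sinh x * Real.cosh (μ * x) < Real.sinh (μ * x) * Real.cosh x := by
  have hder : ∀ y : ℝ, HasDerivAt
      (fun y => Real.sinh (μ * y) * Real.cosh y - μ * Real.sinh y * Real.cosh (μ * y))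
      ((1 - μ ^ 2) * (Real.sinh (μ * y) * Real.sinh y)) y := by
    intro y
    have h2 : HasDerivAt (fun y : ℝ => μ * y) μ y := by
      simpa using (hasDerivAt_id y).const_mul μ
    have h3 := (h2.sinh).mul (Real.hasDerivAt_cosh y)
    have h4 := ((Real.hasDerivAt_sinh y).const_mul μ).mul (h2.cosh)
    have h5 := h3.sub h4
    refine h5.congr_deriv ?_
    ring
  have hmono : StrictMonoOn
      (fun y => Real.sinh (μ * y) * Real.cosh y - μ * Real.sinh y * Real.cosh (μ * y))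
      (Set.Ici (0:ℝ)) := by
    apply strictMonoOn_of_deriv_pos (convex_Ici 0)
    · exact fun y _ => (hder y).continuousAt.continuousWithinAt
    · intro y hy
      rw [interior_Ici] at hy
      have hy' : (0:ℝ) < y := hy
      rw [(hder y).deriv]
      have h3 : 0 < Real.sinh (μ * y) := by
        rw [Real.sinh_pos_iff]; positivity
      have h4 : 0 < Real.sinh y := by
        rw [Real.sinh_pos_iff]; positivity
      have : 0 < 1 - μ ^ 2 := by nlinarith
      positivity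
  have := hmono (Set.self_mem_Ici) (Set.mem_Ici.mpr hx.le) hx
  simp at this
  linarith

/-- the algebraic heart. -/
theorem alg_ineq {t m μ : ℝ} (hμ0 : 0 < μ) (hμ1 : μ < 1) (ht1 : t < 1) (hm0 : 0 < m)
    (hmt : m < t) (hconc : μ * t < m) (hconv : m * (1 - t ^ 2) < μ * t * (1 - m ^ 2)) :
    (1 - t) * (1 + m) * ((1 - μ) * (1 - t) ^ 2 + 4 * μ * (1 - t) * (1 + m)
        - μ * (1 - μ) * (1 + m) ^ 2) * (1 + t + μ * (1 - m)) ^ 3 <
    (1 + t) * (1 - m) * ((1 - μ) * (1 + t) ^ 2 + 4 * μ * (1 + t) * (1 - m)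
        - μ * (1 - μ) * (1 - m) ^ 2) * (1 - t + μ * (1 + m)) ^ 3 := by
  have ht0 : 0 < t := hm0.trans hmt
  set D1 : ℝ := (1 - t + μ * (1 + m)) * (1 + t + μ * (1 - m)) with hD1
  have hD1' : D1 = (1 - t ^ 2) + 2 * μ * (1 + t * m) + μ ^ 2 * (1 - m ^ 2) := by
    rw [hD1]; ring
  have hm1 : m < 1 := hmt.trans ht1
  have hpi : 0 < 1 + t * m := by positivity
  have ht2 : 0 < 1 - t ^ 2 := by nlinarith
  have hm2 : 0 < 1 - m ^ 2 := by nlinarith
  have hD1lb : 2 * μ * (1 + t * m) < D1 := by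
    rw [hD1']; nlinarith [mul_pos (pow_pos hμ0 2) hm2]
  have hD1pos : 0 < D1 := lt_trans (by positivity) hD1lb
  have hsig : t + m < 1 + t * m := by nlinarith
  set M1 : ℝ := μ * t * (1 - m ^ 2) - m * (1 - t ^ 2) with hM1
  have hM1pos : 0 < M1 := by rw [hM1]; linarith
  have hM1le : M1 < μ * (t ^ 2 - m ^ 2) := by
    have e1 : μ * (t ^ 2 - m ^ 2) - M1 = (1 - t) * (m * (1 + t) - μ * (t + m ^ 2)) := by
      rw [hM1]; ring
    have e2 : μ * m ^ 2 < m * t := by nlinarith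
    have e3 : 0 < m * (1 + t) - μ * (t + m ^ 2) := by nlinarith
    have e4 : 0 < (1 - t) * (m * (1 + t) - μ * (t + m ^ 2)) := mul_pos (by linarith) e3
    linarith
  set B : ℝ := (1 + μ) ^ 2 * (1 + t * m) * D1 - (1 - μ) * (t - μ * m) * (t + m) * D1
      - 4 * (1 + μ) ^ 2 * μ * (t + m) ^ 2 with hB
  have hs : 0 < t + m := by positivity
  -- the bracket is larger than `-2 (1+μ) (t+m) D1`
  have hBlb : 0 < B + 2 * (1 + μ) * (t + m) * D1 := by
    have f1 : B + 2 * (1 + μ) * (t + m) * D1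
        = ((1 + μ) ^ 2 * (1 + t * m) + (2 * (1 + μ) - (1 - μ) * (t - μ * m)) * (t + m)) * D1
          - 4 * (1 + μ) ^ 2 * μ * (t + m) ^ 2 := by rw [hB]; ring
    have f2 : 0 < (1 - μ) * ((1 + μ) - (t - μ * m)) := by
      apply mul_pos (by linarith)
      nlinarith
    have f3 : 0 < 2 * (1 + μ) - (1 - μ) * (t - μ * m) := by nlinarith
    have f4 : 2 * (1 + μ) ^ 2 * (t + m) <
        (1 + μ) ^ 2 * (1 + t * m) + (2 * (1 + μ) - (1 - μ) * (t - μ * m)) * (t + m) := by
      have g1 : (1 + μ) ^ 2 * (t + m) < (1 + μ) ^ 2 * (1 + t * m) := by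
        apply mul_lt_mul_of_pos_left hsig (by positivity)
      have g2 : (1 + μ) ^ 2 * (t + m) <
          (2 * (1 + μ) - (1 - μ) * (t - μ * m)) * (t + m) := by
        apply mul_lt_mul_of_pos_right _ hs
        nlinarith
      linarith
    have f5 : 2 * μ * (t + m) < D1 := by
      have : 2 * μ * (t + m) < 2 * μ * (1 + t * m) :=
        mul_lt_mul_of_pos_left hsig (by positivity)
      linarith
    have f6 : (2 * (1 + μ) ^ 2 * (t + m)) * (2 * μ * (t + m)) <
        ((1 + μ) ^ 2 * (1 + t * m) + (2 * (1 + μ) - (1 - μ) * (t - μ * m)) * (t + m)) * D1 := by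
      apply mul_lt_mul'' f4 f5 (by positivity) (by positivity)
    rw [f1]
    nlinarith
  have hbig : 0 < M1 * B + 2 * μ * (t ^ 2 - m ^ 2) * ((1 + μ) * (t + m) * D1) := by
    have hX : 0 < (1 + μ) * (t + m) * D1 := by positivity
    have hY : 0 < t ^ 2 - m ^ 2 := by nlinarith
    rcases le_or_gt 0 B with hB0 | hB0
    · have : 0 ≤ M1 * B := mul_nonneg hM1pos.le hB0
      have : 0 < 2 * μ * (t ^ 2 - m ^ 2) * ((1 + μ) * (t + m) * D1) := by positivity
      linarith
    · have h1 : μ * (t ^ 2 - m ^ 2) * B < M1 * B := mul_lt_mul_of_neg_right hM1le hB0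
      have h2 : 0 < (μ * (t ^ 2 - m ^ 2)) * (B + 2 * (1 + μ) * (t + m) * D1) :=
        mul_pos (mul_pos hμ0 hY) hBlb
      have h3 : (μ * (t ^ 2 - m ^ 2)) * (B + 2 * (1 + μ) * (t + m) * D1)
        = μ * (t ^ 2 - m ^ 2) * B + 2 * μ * (t ^ 2 - m ^ 2) * ((1 + μ) * (t + m) * D1) := by ring
      linarith
  have hid : (1 + t) * (1 - m) * ((1 - μ) * (1 + t) ^ 2 + 4 * μ * (1 + t) * (1 - m)
        - μ * (1 - μ) * (1 - m) ^ 2) * (1 - t + μ * (1 + m)) ^ 3 -
      (1 - t) * (1 + m) * ((1 - μ) * (1 - t) ^ 2 + 4 * μ * (1 - t) * (1 + m)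
        - μ * (1 - μ) * (1 + m) ^ 2) * (1 + t + μ * (1 - m)) ^ 3
      = 2 * (M1 * B + 2 * μ * (t ^ 2 - m ^ 2) * ((1 + μ) * (t + m) * D1)) := by
    rw [hB, hM1, hD1]; ring
  linarith

end Pool.Agent.Helper284.PFIneq
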