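import Mathlib
import Pool.Agent.Helper284.PFIneq

set_option autoImplicit false

namespace Pool.Agent.Helper284.PFInv

open Pool.Agent.Helper284.PFIneq

/-- `fx μ x = e^x - e^{-μ x}`. -/
noncomputable def fx (μ x : ℝ) : ℝ := Real.exp x - Real.exp (-(μ * x))

theorem fx_strictMono {μ : ℝ} (hμ : 0 < μ) : StrictMono (fx μ) := by
  intro x y hxy
  unfold fx
  have h1 : Real.exp x < Real.exp y := Real.exp_lt_exp.mpr hxy
  have h2 : Real.exp (-(μ * y)) < Real.exp (-(μ * x)) := by
    apply Real.exp_lt_exp.mpr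
    nlinarith
  linarith

theorem fx_cont (μ : ℝ) : Continuous (fx μ) := by
  unfold fx
  fun_prop

theorem fx_surj {μ : ℝ} (hμ : 0 < μ) : Function.Surjective (fx μ) := by
  apply (fx_cont μ).surjective
  · have h1 : Filter.Tendsto (fun x : ℝ => Real.exp x - 1) Filter.atTop Filter.atTop :=
      Filter.tendsto_atTop_add_const_right _ _ Real.tendsto_exp_atTop
    refine Filter.tendsto_atTop_mono' _ ?_ h1
    filter_upwards [Filter.eventually_ge_atTop (0:ℝ)] with x hx
    unfold fx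
    have : Real.exp (-(μ * x)) ≤ 1 := by
      rw [Real.exp_le_one_iff]
      have := mul_nonneg hμ.le hx
      linarith
    linarith
  · have h1 : Filter.Tendsto (fun x : ℝ => 1 - Real.exp (-(μ * x))) Filter.atBot Filter.atBot := by
      have h2 : Filter.Tendsto (fun x : ℝ => -(μ * x)) Filter.atBot Filter.atTop := by
        apply Filter.tendsto_neg_atBot_atTop.comp
        exact Filter.Tendsto.const_mul_atBot hμ Filter.tendsto_id
      have h3 := Filter.tendsto_neg_atTop_atBot.comp (Real.tendsto_exp_atTop.comp h2)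
      have h4 := Filter.tendsto_atBot_add_const_left Filter.atBot (1:ℝ) h3
      refine h4.congr ?_
      intro x
      simp [sub_eq_add_neg]
    refine Filter.tendsto_atBot_mono' _ ?_ h1
    filter_upwards [Filter.eventually_le_atBot (0:ℝ)] with x hx
    unfold fx
    have : Real.exp x ≤ 1 := by
      rw [Real.exp_le_one_iff]; exact hx
    linarith

/-- inverse function of `fx μ` -/
noncomputable def G (μ u : ℝ) : ℝ := Function.invFun (fx μ) u

theorem fx_G {μ : ℝ} (hμ : 0 < μ) (u : ℝ) : fx μ (G μ u) = u :=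
  Function.rightInverse_invFun (fx_surj hμ) u

theorem G_fx {μ : ℝ} (hμ : 0 < μ) (x : ℝ) : G μ (fx μ x) = x :=
  Function.leftInverse_invFun (fx_strictMono hμ).injective x

theorem G_strictMono {μ : ℝ} (hμ : 0 < μ) : StrictMono (G μ) := by
  intro u v huv
  rw [← (fx_strictMono hμ).lt_iff_lt, fx_G hμ, fx_G hμ]
  exact huv

theorem G_cont {μ : ℝ} (hμ : 0 < μ) : Continuous (G μ) :=
  (G_strictMono hμ).monotone.continuous_of_surjective (fun x => ⟨fx μ x, G_fx hμ x⟩)

theorem fx_hasDerivAt (μ x : ℝ) :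
    HasDerivAt (fx μ) (Real.exp x + μ * Real.exp (-(μ * x))) x := by
  unfold fx
  have h1 : HasDerivAt (fun x : ℝ => -(μ * x)) (-μ) x := by
    have h0 : HasDerivAt (fun x : ℝ => μ * x) μ x := by
      simpa using (hasDerivAt_id x).const_mul μ
    exact h0.neg
  have h2 := (Real.hasDerivAt_exp x).sub h1.exp
  refine h2.congr_deriv ?_
  ring

theorem G_hasDerivAt {μ : ℝ} (hμ : 0 < μ) (u : ℝ) :
    HasDerivAt (G μ) (Real.exp (G μ u) + μ * Real.exp (-(μ * G μ u)))⁻¹ u := by
  apply HasDerivAt.of_local_left_inverse (G_cont hμ).continuousAt (fx_hasDerivAt μ (G μ u))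
  · have := Real.exp_pos (G μ u)
    have := Real.exp_pos (-(μ * G μ u))
    positivity
  · exact Filter.Eventually.of_forall (fx_G hμ)

/-- `g = exp ∘ G`, the inverse function of `z ↦ z - z^{-μ}`. -/
noncomputable def g (μ u : ℝ) : ℝ := Real.exp (G μ u)

/-- `b = exp (-μ G)`. -/
noncomputable def b (μ u : ℝ) : ℝ := Real.exp (-(μ * G μ u))

theorem g_pos (μ u : ℝ) : 0 < g μ u := Real.exp_pos _
theorem b_pos (μ u : ℝ) : 0 < b μ u := Real.exp_pos _

theorem g_sub_b {μ : ℝ} (hμ : 0 < μ) (u : ℝ) : g μ u - b μ u = u := fx_G hμ u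

theorem g_cont {μ : ℝ} (hμ : 0 < μ) : Continuous (g μ) := Real.continuous_exp.comp (G_cont hμ)
theorem b_cont {μ : ℝ} (hμ : 0 < μ) : Continuous (b μ) := by
  unfold b
  have := G_cont hμ
  fun_prop

/-- the derivative of `g`. -/
noncomputable def P (μ u : ℝ) : ℝ := g μ u / (g μ u + μ * b μ u)

/-- the derivative of `P`. -/
noncomputable def DP (μ u : ℝ) : ℝ :=
  μ * (1 + μ) * (g μ u * b μ u) / (g μ u + μ * b μ u) ^ 3

theorem den_pos {μ : ℝ} (hμ : 0 < μ) (u : ℝ) : 0 < g μ u + μ * b μ u := by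
  have := g_pos μ u
  have := b_pos μ u
  positivity

theorem P_cont {μ : ℝ} (hμ : 0 < μ) : Continuous (P μ) := by
  unfold P
  apply Continuous.div (g_cont hμ)
  · exact (g_cont hμ).add (continuous_const.mul (b_cont hμ))
  · intro u; exact (den_pos hμ u).ne'

theorem DP_cont {μ : ℝ} (hμ : 0 < μ) : Continuous (DP μ) := by
  unfold DP
  apply Continuous.div
  · exact continuous_const.mul ((g_cont hμ).mul (b_cont hμ))
  · exact ((g_cont hμ).add (continuous_const.mul (b_cont hμ))).pow 3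
  · intro u; exact (pow_pos (den_pos hμ u) 3).ne'

theorem g_hasDerivAt {μ : ℝ} (hμ : 0 < μ) (u : ℝ) : HasDerivAt (g μ) (P μ u) u := by
  have h := (G_hasDerivAt hμ u).exp
  refine h.congr_deriv ?_
  unfold P g b
  rw [div_eq_mul_inv]

theorem b_hasDerivAt {μ : ℝ} (hμ : 0 < μ) (u : ℝ) :
    HasDerivAt (b μ) (-(μ * b μ u / (g μ u + μ * b μ u))) u := by
  have h := (((G_hasDerivAt hμ u).const_mul μ).neg).exp
  refine h.congr_deriv ?_
  unfold g b
  simp only [Pi.neg_apply]
  ring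

theorem P_hasDerivAt {μ : ℝ} (hμ : 0 < μ) (u : ℝ) : HasDerivAt (P μ) (DP μ u) u := by
  have hg := g_hasDerivAt hμ u
  have hb := b_hasDerivAt hμ u
  have h := hg.div (hg.add (hb.const_mul μ)) (den_pos hμ u).ne'
  refine h.congr_deriv ?_
  have hd := (den_pos hμ u).ne'
  simp only [Pi.add_apply]
  unfold DP P
  field_simp
  ring

/-- `F = u² g'' + u g' - g`. -/
noncomputable def F (μ u : ℝ) : ℝ := u ^ 2 * DP μ u + u * P μ u - g μ u

theorem F_eq {μ : ℝ} (hμ : 0 < μ) (u : ℝ) :
    F μ u = - ((1 + μ) * (g μ u * b μ u * ((1 - μ) * ((g μ u) ^ 2 - μ * (b μ u) ^ 2)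
      + 4 * μ * (g μ u * b μ u))) / (g μ u + μ * b μ u) ^ 3) := by
  have hd := (den_pos hμ u).ne'
  have hu := g_sub_b hμ u
  unfold F DP P
  generalize g μ u = x at *
  generalize b μ u = y at *
  subst hu
  have key : ∀ D : ℝ, D ≠ 0 → (x - y) ^ 2 * (μ * (1 + μ) * (x * y) / D ^ 3) + (x - y) * (x / D) - x
      = ((x - y) ^ 2 * (μ * (1 + μ) * (x * y)) + (x - y) * x * D ^ 2 - x * D ^ 3) / D ^ 3 := by
    intro D hD
    field_simp
  rw [key _ hd, ← neg_div]
  congr 1
  ring

end Pool.Agent.Helper284.PFInv
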