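import Mathlib
import Pool.Agent.Helper284.PFIneq
import Pool.Agent.Helper284.PFInv

set_option autoImplicit false

namespace Pool.Agent.Helper284.PFOdd

open Pool.Agent.Helper284.PFIneq Pool.Agent.Helper284.PFInv

theorem F_lt {μ : ℝ} (h0 : 0 < μ) (h1 : μ < 1) {u : ℝ} (hu : 0 < u) :
    F μ u < F μ (-u) := by
  have hG : G μ (-u) < G μ u := G_strictMono h0 (by linarith)
  set l : ℝ := (G μ u + G μ (-u)) / 2 with hl
  set τ : ℝ := (G μ u - G μ (-u)) / 2 with hτdef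
  have hτ : 0 < τ := by rw [hτdef]; linarith
  have hp : G μ u = l + τ := by rw [hl, hτdef]; ring
  have hn : G μ (-u) = l - τ := by rw [hl, hτdef]; ring
  have e1 : g μ u = Real.exp l * (Real.cosh τ + Real.sinh τ) := by
    unfold g; rw [hp, Real.cosh_add_sinh, Real.exp_add]
  have e2 : g μ (-u) = Real.exp l * (Real.cosh τ - Real.sinh τ) := by
    unfold g; rw [hn, Real.cosh_sub_sinh, sub_eq_add_neg, Real.exp_add]
  have e3 : b μ u = Real.exp (-(μ * l)) * (Real.cosh (μ * τ) - Real.sinh (μ * τ)) := by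
    unfold b; rw [hp, Real.cosh_sub_sinh, ← Real.exp_add]; congr 1; ring
  have e4 : b μ (-u) = Real.exp (-(μ * l)) * (Real.cosh (μ * τ) + Real.sinh (μ * τ)) := by
    unfold b; rw [hn, Real.cosh_add_sinh, ← Real.exp_add]; congr 1; ring
  have hE := Real.exp_pos l
  have hE' := Real.exp_pos (-(μ * l))
  have hc := Real.cosh_pos τ
  have hC := Real.cosh_pos (μ * τ)
  -- common half sum
  have hsum : Real.exp l * Real.cosh τ = Real.exp (-(μ * l)) * Real.cosh (μ * τ) := by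
    have q1 := g_sub_b h0 u
    have q2 := g_sub_b h0 (-u)
    rw [e1, e3] at q1
    rw [e2, e4] at q2
    linarith
  set t : ℝ := Real.sinh τ / Real.cosh τ with ht
  set m : ℝ := Real.sinh (μ * τ) / Real.cosh (μ * τ) with hm
  set κ : ℝ := Real.exp l * Real.cosh τ with hκ
  have hκpos : 0 < κ := mul_pos hE hc
  have f1 : g μ u = κ * (1 + t) := by rw [e1, hκ, ht]; field_simp
  have f2 : g μ (-u) = κ * (1 - t) := by rw [e2, hκ, ht]; field_simp
  have f3 : b μ u = κ * (1 - m) := by rw [e3, hsum, hm]; field_simp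
  have f4 : b μ (-u) = κ * (1 + m) := by rw [e4, hsum, hm]; field_simp
  have hms : 0 < Real.sinh (μ * τ) := by rw [Real.sinh_pos_iff]; positivity
  have hts : 0 < Real.sinh τ := by rw [Real.sinh_pos_iff]; positivity
  have hm0 : 0 < m := div_pos hms hC
  have ht0 : 0 < t := div_pos hts hc
  have ht1 : t < 1 := by
    have := g_pos μ (-u)
    rw [f2] at this
    have := (pos_iff_pos_of_mul_pos this).mp hκpos
    linarith
  have hmt : m < t := by
    rw [hm, ht, div_lt_div_iff₀ hC hc]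
    have h3 : 0 < Real.sinh (τ - μ * τ) := by
      rw [Real.sinh_pos_iff]; nlinarith
    rw [Real.sinh_sub] at h3
    linarith
  have hconc : μ * t < m := by
    rw [hm, ht, ← mul_div_assoc, div_lt_div_iff₀ hc hC]
    exact mul_sinh_cosh_lt h0 h1 hτ
  have ht2 : 1 - t ^ 2 = 1 / Real.cosh τ ^ 2 := by
    rw [ht]; field_simp; rw [Real.cosh_sq]; ring
  have hm2 : 1 - m ^ 2 = 1 / Real.cosh (μ * τ) ^ 2 := by
    rw [hm]; field_simp; rw [Real.cosh_sq]; ring
  have hconv : m * (1 - t ^ 2) < μ * t * (1 - m ^ 2) := by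
    rw [ht2, hm2]
    have h3 : Real.sinh (2 * (μ * τ)) < μ * Real.sinh (2 * τ) := by
      have := sinh_mul_lt h0 h1 (x := 2 * τ) (by linarith)
      rwa [show μ * (2 * τ) = 2 * (μ * τ) by ring] at this
    rw [Real.sinh_two_mul, Real.sinh_two_mul] at h3
    have h4 : Real.sinh (μ * τ) * Real.cosh (μ * τ) < μ * (Real.sinh τ * Real.cosh τ) := by
      linarith
    have h5 : m * (1 / Real.cosh τ ^ 2) =
        (Real.sinh (μ * τ) * Real.cosh (μ * τ)) / (Real.cosh (μ * τ) ^ 2 * Real.cosh τ ^ 2) := by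
      rw [hm]; field_simp
    have h6 : μ * t * (1 / Real.cosh (μ * τ) ^ 2) =
        (μ * (Real.sinh τ * Real.cosh τ)) / (Real.cosh (μ * τ) ^ 2 * Real.cosh τ ^ 2) := by
      rw [ht]; field_simp
    rw [h5, h6]
    exact div_lt_div_of_pos_right h4 (by positivity)
  have hm1 : m < 1 := hmt.trans ht1
  have key := alg_ineq h0 h1 ht1 hm0 hmt hconc hconv
  rw [F_eq h0, F_eq h0, f1, f2, f3, f4]
  have d1 : 0 < 1 + t + μ * (1 - m) := by nlinarith
  have d2 : 0 < 1 - t + μ * (1 + m) := by nlinarith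
  have k1 : κ * (1 + t) * (κ * (1 - m)) * ((1 - μ) * ((κ * (1 + t)) ^ 2 - μ * (κ * (1 - m)) ^ 2)
      + 4 * μ * (κ * (1 + t) * (κ * (1 - m)))) =
      κ ^ 4 * ((1 + t) * (1 - m) * ((1 - μ) * (1 + t) ^ 2 + 4 * μ * (1 + t) * (1 - m)
        - μ * (1 - μ) * (1 - m) ^ 2)) := by ring
  have k2 : κ * (1 - t) * (κ * (1 + m)) * ((1 - μ) * ((κ * (1 - t)) ^ 2 - μ * (κ * (1 + m)) ^ 2)
      + 4 * μ * (κ * (1 - t) * (κ * (1 + m)))) =
      κ ^ 4 * ((1 - t) * (1 + m) * ((1 - μ) * (1 - t) ^ 2 + 4 * μ * (1 - t) * (1 + m)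
        - μ * (1 - μ) * (1 + m) ^ 2)) := by ring
  have k3 : (κ * (1 + t) + μ * (κ * (1 - m))) ^ 3 = κ ^ 3 * (1 + t + μ * (1 - m)) ^ 3 := by ring
  have k4 : (κ * (1 - t) + μ * (κ * (1 + m))) ^ 3 = κ ^ 3 * (1 - t + μ * (1 + m)) ^ 3 := by ring
  rw [k1, k2, k3, k4]
  apply neg_lt_neg
  have c1 : ∀ X Y : ℝ, (1 + μ) * (κ ^ 4 * X) / (κ ^ 3 * Y) = ((1 + μ) * κ) * (X / Y) := by
    intro X Y
    rw [show (1 + μ) * (κ ^ 4 * X) = κ ^ 3 * (((1 + μ) * κ) * X) by ring,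
      mul_div_mul_left _ _ (pow_pos hκpos 3).ne', mul_div_assoc]
  rw [c1, c1]
  apply mul_lt_mul_of_pos_left _ (by positivity)
  rw [div_lt_div_iff₀ (pow_pos d2 3) (pow_pos d1 3)]
  exact key

end Pool.Agent.Helper284.PFOdd
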