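import Mathlib
import Pool.Agent.Helper284.PFIneq
import Pool.Agent.Helper284.PFInv
import Pool.Agent.Helper284.PFOdd

set_option autoImplicit false

namespace Pool.Agent.Helper284.PFMono

open Pool.Agent.Helper284.PFIneq Pool.Agent.Helper284.PFInv Pool.Agent.Helper284.PFOdd

/-- `S e = ∫₀^{2π} P(e sin kϑ) dϑ`. -/
noncomputable def S (μ : ℝ) (k : ℕ) (e : ℝ) : ℝ :=
  ∫ x in (0:ℝ)..(2 * Real.pi), P μ (e * Real.sin (k * x))

theorem S_hasDerivAt {μ : ℝ} (h0 : 0 < μ) (k : ℕ) (e : ℝ) :
    HasDerivAt (S μ k)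
      (∫ x in (0:ℝ)..(2 * Real.pi), DP μ (e * Real.sin (k * x)) * Real.sin (k * x)) e := by
  have hP := P_cont h0
  have hDP := DP_cont h0
  obtain ⟨C, hC⟩ := (isCompact_Icc (a := -(|e| + 1)) (b := |e| + 1)).exists_bound_of_continuousOn
    (hDP.continuousOn)
  refine (intervalIntegral.hasDerivAt_integral_of_dominated_loc_of_deriv_le
    (F := fun e x => P μ (e * Real.sin (k * x)))
    (F' := fun e x => DP μ (e * Real.sin (k * x)) * Real.sin (k * x))
    (s := Metric.ball e 1) (bound := fun _ => C)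
    (Metric.ball_mem_nhds e one_pos) ?_ ?_ ?_ ?_ ?_ ?_).2
  · refine Filter.Eventually.of_forall (fun x => ?_)
    apply Continuous.aestronglyMeasurable
    fun_prop
  · apply Continuous.intervalIntegrable
    fun_prop
  · apply Continuous.aestronglyMeasurable
    fun_prop
  · refine Filter.Eventually.of_forall (fun x _ y hy => ?_)
    rw [Metric.mem_ball, Real.dist_eq] at hy
    have hy1 : |y| ≤ |e| + 1 := by
      have := abs_sub_abs_le_abs_sub y e
      linarith
    have hs := Real.abs_sin_le_one (k * x)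
    have hys : |y * Real.sin (k * x)| ≤ |e| + 1 := by
      rw [abs_mul]
      have := abs_nonneg y
      nlinarith [abs_nonneg (Real.sin (k * x))]
    have hmem : y * Real.sin (k * x) ∈ Set.Icc (-(|e| + 1)) (|e| + 1) := abs_le.mp hys
    have hb := hC _ hmem
    rw [Real.norm_eq_abs] at hb ⊢
    rw [abs_mul]
    calc |DP μ (y * Real.sin (k * x))| * |Real.sin (k * x)|
        ≤ |DP μ (y * Real.sin (k * x))| * 1 := by
          apply mul_le_mul_of_nonneg_left hs (abs_nonneg _)
      _ ≤ C := by simpa using hb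
  · exact intervalIntegrable_const
  · refine Filter.Eventually.of_forall (fun x _ y _ => ?_)
    have h1 : HasDerivAt (fun y : ℝ => y * Real.sin (k * x)) (Real.sin (k * x)) y := by
      simpa using (hasDerivAt_id y).mul_const (Real.sin (k * x))
    exact (P_hasDerivAt h0 _).comp y h1

theorem ibp {μ : ℝ} (h0 : 0 < μ) {k : ℕ} (hk : 0 < k) (e : ℝ) :
    ∫ x in (0:ℝ)..(2 * Real.pi), ((e * Real.sin (k * x)) * DP μ (e * Real.sin (k * x))
        * (e ^ 2 - (e * Real.sin (k * x)) ^ 2)
      - (e * Real.sin (k * x)) * ((e * Real.sin (k * x)) * P μ (e * Real.sin (k * x))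
        - g μ (e * Real.sin (k * x)))) = 0 := by
  have hP := P_cont h0
  have hDP := DP_cont h0
  have hg := g_cont h0
  have hk' : (k : ℝ) ≠ 0 := by exact_mod_cast hk.ne'
  have hder : ∀ x ∈ Set.uIcc (0:ℝ) (2 * Real.pi), HasDerivAt
      (fun x => (e / k) * (((e * Real.sin (k * x)) * P μ (e * Real.sin (k * x))
        - g μ (e * Real.sin (k * x))) * Real.cos (k * x)))
      ((e * Real.sin (k * x)) * DP μ (e * Real.sin (k * x))
        * (e ^ 2 - (e * Real.sin (k * x)) ^ 2)
      - (e * Real.sin (k * x)) * ((e * Real.sin (k * x)) * P μ (e * Real.sin (k * x))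
        - g μ (e * Real.sin (k * x)))) x := by
    intro x _
    have hkx : HasDerivAt (fun x : ℝ => (k : ℝ) * x) k x := by
      simpa using (hasDerivAt_id x).const_mul (k : ℝ)
    have hu : HasDerivAt (fun x : ℝ => e * Real.sin (k * x)) (e * (Real.cos (k * x) * k)) x :=
      (hkx.sin).const_mul e
    have hPu := (P_hasDerivAt h0 (e * Real.sin (k * x))).comp x hu
    have hgu := (g_hasDerivAt h0 (e * Real.sin (k * x))).comp x hu
    have h1 := (((hu.mul hPu).sub hgu).mul (hkx.cos)).const_mul (e / k)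
    refine h1.congr_deriv ?_
    simp only [Pi.mul_apply, Pi.sub_apply, Function.comp]
    have hcs := Real.sin_sq_add_cos_sq ((k : ℝ) * x)
    have hc2 : Real.cos (k * x) ^ 2 = 1 - Real.sin (k * x) ^ 2 := by linarith
    field_simp
    linear_combination (e ^ 3 * Real.sin (k * x) * DP μ (e * Real.sin (k * x))) * hc2
  rw [intervalIntegral.integral_eq_sub_of_hasDerivAt hder]
  · have s1 : Real.sin ((k : ℝ) * (2 * Real.pi)) = 0 := by
      have := Real.sin_nat_mul_pi (2 * k)
      rw [← this]; push_cast; ring_nf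
    have c1 : Real.cos ((k : ℝ) * (2 * Real.pi)) = 1 := Real.cos_nat_mul_two_pi k
    rw [s1, c1]
    simp
  · apply Continuous.intervalIntegrable
    fun_prop

theorem F_cont {μ : ℝ} (h0 : 0 < μ) : Continuous (F μ) := by
  have hP := P_cont h0
  have hDP := DP_cont h0
  have hg := g_cont h0
  unfold F
  fun_prop

/-- symmetry of the average -/
theorem integral_sin_neg {H : ℝ → ℝ} (k : ℕ) :
    ∫ x in (0:ℝ)..(2 * Real.pi), H (-Real.sin (k * x))
      = ∫ x in (0:ℝ)..(2 * Real.pi), H (Real.sin (k * x)) := by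
  have h := intervalIntegral.integral_comp_sub_left (a := 0) (b := 2 * Real.pi)
    (fun x => H (Real.sin (k * x))) (2 * Real.pi)
  simp only [sub_self, sub_zero] at h
  rw [← h]
  apply intervalIntegral.integral_congr
  intro x _
  simp only
  congr 1
  rw [mul_sub, Real.sin_sub]
  have s1 : Real.sin ((k : ℝ) * (2 * Real.pi)) = 0 := by
    have := Real.sin_nat_mul_pi (2 * k)
    rw [← this]; push_cast; ring_nf
  have c1 : Real.cos ((k : ℝ) * (2 * Real.pi)) = 1 := Real.cos_nat_mul_two_pi k
  rw [s1, c1]; ring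

theorem uF_neg {μ : ℝ} (h0 : 0 < μ) (h1 : μ < 1) {k : ℕ} (hk : 0 < k) {e : ℝ} (he : 0 < e) :
    ∫ x in (0:ℝ)..(2 * Real.pi), (e * Real.sin (k * x)) * F μ (e * Real.sin (k * x)) < 0 := by
  have hF := F_cont h0
  have hk' : (0:ℝ) < k := by exact_mod_cast hk
  have hsym := integral_sin_neg (H := fun y => (e * y) * F μ (e * y)) k
  have hadd : ∫ x in (0:ℝ)..(2 * Real.pi),
      (e * Real.sin (k * x)) * (F μ (-(e * Real.sin (k * x))) - F μ (e * Real.sin (k * x)))
      = - (2 * ∫ x in (0:ℝ)..(2 * Real.pi),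
        (e * Real.sin (k * x)) * F μ (e * Real.sin (k * x))) := by
    have e1 : ∀ x : ℝ,
      (e * Real.sin (k * x)) * (F μ (-(e * Real.sin (k * x))) - F μ (e * Real.sin (k * x)))
      = -((e * -Real.sin (k * x)) * F μ (e * -Real.sin (k * x)))
        - (e * Real.sin (k * x)) * F μ (e * Real.sin (k * x)) := by
      intro x
      rw [show e * -Real.sin (k * x) = -(e * Real.sin (k * x)) by ring]
      ring
    simp_rw [e1]
    rw [intervalIntegral.integral_sub, intervalIntegral.integral_neg, hsym]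
    · ring
    · apply Continuous.intervalIntegrable
      fun_prop
    · apply Continuous.intervalIntegrable
      fun_prop
  have hpt : ∀ v : ℝ, 0 ≤ v * (F μ (-v) - F μ v) := by
    intro v
    rcases lt_trichotomy v 0 with hv | hv | hv
    · have := F_lt h0 h1 (u := -v) (by linarith)
      rw [neg_neg] at this
      nlinarith
    · rw [hv]; simp
    · have := F_lt h0 h1 hv
      nlinarith
  have hpos : 0 < ∫ x in (0:ℝ)..(2 * Real.pi),
      (e * Real.sin (k * x)) * (F μ (-(e * Real.sin (k * x))) - F μ (e * Real.sin (k * x))) := by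
    apply intervalIntegral.integral_pos (by positivity)
    · apply Continuous.continuousOn
      fun_prop
    · intro x _
      exact hpt _
    · refine ⟨Real.pi / (2 * k), ⟨by positivity, ?_⟩, ?_⟩
      · rw [div_le_iff₀ (by positivity)]
        have : (1:ℝ) ≤ k := by exact_mod_cast hk
        nlinarith [Real.pi_pos]
      · have : (k : ℝ) * (Real.pi / (2 * k)) = Real.pi / 2 := by field_simp
        rw [this, Real.sin_pi_div_two, mul_one]
        have := F_lt h0 h1 he
        apply mul_pos he
        linarith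
  linarith

theorem S_deriv_neg {μ : ℝ} (h0 : 0 < μ) (h1 : μ < 1) {k : ℕ} (hk : 0 < k) {e : ℝ} (he : 0 < e) :
    ∫ x in (0:ℝ)..(2 * Real.pi), DP μ (e * Real.sin (k * x)) * Real.sin (k * x) < 0 := by
  have hP := P_cont h0
  have hDP := DP_cont h0
  have hg := g_cont h0
  have hF := F_cont h0
  have hneg := uF_neg h0 h1 hk he
  have hibp := ibp h0 hk e
  have e1 : ∀ x : ℝ, ((e * Real.sin (k * x)) * DP μ (e * Real.sin (k * x))
        * (e ^ 2 - (e * Real.sin (k * x)) ^ 2)
      - (e * Real.sin (k * x)) * ((e * Real.sin (k * x)) * P μ (e * Real.sin (k * x))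
        - g μ (e * Real.sin (k * x))))
      = e ^ 3 * (DP μ (e * Real.sin (k * x)) * Real.sin (k * x))
        - (e * Real.sin (k * x)) * F μ (e * Real.sin (k * x)) := by
    intro x
    unfold F
    ring
  simp_rw [e1] at hibp
  rw [intervalIntegral.integral_sub, intervalIntegral.integral_const_mul] at hibp
  · have h3 : e ^ 3 * ∫ x in (0:ℝ)..(2 * Real.pi),
        DP μ (e * Real.sin (k * x)) * Real.sin (k * x) < 0 := by linarith
    by_contra hcon
    push Not at hcon
    have : 0 ≤ e ^ 3 * ∫ x in (0:ℝ)..(2 * Real.pi),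
        DP μ (e * Real.sin (k * x)) * Real.sin (k * x) := mul_nonneg (by positivity) hcon
    linarith
  · apply Continuous.intervalIntegrable
    fun_prop
  · apply Continuous.intervalIntegrable
    fun_prop

theorem S_strictAnti {μ : ℝ} (h0 : 0 < μ) (h1 : μ < 1) {k : ℕ} (hk : 0 < k) :
    StrictAntiOn (S μ k) (Set.Ioi 0) := by
  apply strictAntiOn_of_deriv_neg (convex_Ioi 0)
  · exact fun e _ => (S_hasDerivAt h0 k e).continuousAt.continuousWithinAt
  · intro e he
    rw [interior_Ioi] at he
    rw [(S_hasDerivAt h0 k e).deriv]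
    exact S_deriv_neg h0 h1 hk he

end Pool.Agent.Helper284.PFMono
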