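import Mathlib
import Pool.Agent.Helper284.PFInv
import Pool.Agent.Helper284.PFMono

set_option autoImplicit false

namespace Pool.Agent.Helper284.PFLevel

open Pool.Agent.Helper284.PFInv Pool.Agent.Helper284.PFMono

/-- first integral in log-polar coordinates -/
noncomputable def Jf (n k : ℕ) (l θ : ℝ) : ℝ :=
  (k + 2 * (n + k) * (Real.exp ((2 * n + k) * l) * Real.sin (k * θ))) * Real.exp (-(2 * (n + k) * l))

noncomputable def mu (n k : ℕ) : ℝ := (k : ℝ) / (2 * n + k)
noncomputable def ss (n k : ℕ) : ℝ := (k : ℝ) / (2 * (n + k))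

/-- logarithm of the amplitude parameter -/
noncomputable def eps (n k : ℕ) (J : ℝ) : ℝ :=
  (-(mu n k * Real.log (ss n k)) + Real.log (2 * (n + k) / J)) / (1 + mu n k)

theorem mu_pos {n k : ℕ} (hk : 0 < k) : 0 < mu n k := by
  unfold mu
  have : (0:ℝ) < k := by exact_mod_cast hk
  positivity

theorem mu_lt_one {n k : ℕ} (hn : 0 < n) (hk : 0 < k) : mu n k < 1 := by
  unfold mu
  have h1 : (0:ℝ) < k := by exact_mod_cast hk
  have h2 : (0:ℝ) < n := by exact_mod_cast hn
  rw [div_lt_one (by positivity)]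
  linarith

theorem ss_pos {n k : ℕ} (hk : 0 < k) : 0 < ss n k := by
  unfold ss
  have : (0:ℝ) < k := by exact_mod_cast hk
  positivity

theorem ss_mul {n k : ℕ} (hk : 0 < k) : ss n k * (1 + mu n k) = mu n k := by
  unfold ss mu
  have : (0:ℝ) < k := by exact_mod_cast hk
  have h1 : (2 * (n:ℝ) + k) ≠ 0 := by positivity
  have h2 : ((n:ℝ) + k) ≠ 0 := by positivity
  field_simp
  ring

theorem eps_eq {n k : ℕ} (hk : 0 < k) (J : ℝ) :
    (1 + mu n k) * eps n k J = -(mu n k * Real.log (ss n k)) + Real.log (2 * (n + k) / J) := by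
  unfold eps
  have := mu_pos (n := n) hk
  field_simp

theorem J_const {n k : ℕ} {l θ : ℝ → ℝ}
    (hl : ∀ t, HasDerivAt l (Real.exp ((2 * n + k) * l t) * Real.cos (k * θ t)) t)
    (hθ : ∀ t, HasDerivAt θ (1 + Real.exp ((2 * n + k) * l t) * Real.sin (k * θ t)) t)
    (t : ℝ) : Jf n k (l t) (θ t) = Jf n k (l 0) (θ 0) := by
  have hder : ∀ t, HasDerivAt (fun t => Jf n k (l t) (θ t)) 0 t := by
    intro t
    unfold Jf
    have h1 := ((hl t).const_mul (2 * (n:ℝ) + k)).exp
    have h2 := ((hθ t).const_mul (k:ℝ)).sin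
    have h3 := (((hl t).const_mul (2 * ((n:ℝ) + k))).neg).exp
    have h4 := (((h1.mul h2).const_mul (2 * ((n:ℝ) + k))).const_add (k:ℝ)).mul h3
    refine h4.congr_deriv ?_
    simp only [Pi.mul_apply, Pi.neg_apply]
    ring
  exact is_const_of_deriv_eq_zero (fun t => (hder t).differentiableAt) (fun t => (hder t).deriv) t 0

theorem aux_exp {n k : ℕ} (hk : 0 < k) {l θ J : ℝ} (hJ : 0 < J) (hJl : Jf n k l θ = J) :
    Real.exp (-(mu n k * (Real.log (ss n k) + eps n k J - (2 * n + k) * l)))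
      = Real.exp (eps n k J) * (ss n k + Real.exp ((2 * n + k) * l) * Real.sin (k * θ))
        * Real.exp (-((2 * n + k) * l)) := by
  have hk' : (0:ℝ) < k := by exact_mod_cast hk
  have hm : mu n k * (2 * n + k) = k := by
    unfold mu; field_simp
  have h1 : -(mu n k * (Real.log (ss n k) + eps n k J - (2 * n + k) * l))
      = eps n k J + (-Real.log (2 * (n + k) / J) + k * l) := by
    have := eps_eq (n := n) hk J
    linear_combination -this + l * hm
  have hpos : (0:ℝ) < 2 * (n + k) / J := by positivity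
  rw [h1, Real.exp_add, Real.exp_add, Real.exp_neg (Real.log _), Real.exp_log hpos, mul_assoc]
  congr 1
  rw [← hJl]
  unfold Jf ss
  have h2 : Real.exp (-(2 * ((n:ℝ) + k) * l)) = Real.exp (-((2 * n + k) * l)) * Real.exp (-(k * l)) := by
    rw [← Real.exp_add]; congr 1; ring
  have h3 : Real.exp (-((k:ℝ) * l)) * Real.exp (k * l) = 1 := by
    rw [← Real.exp_add]; simp
  rw [h2, inv_div]
  have h4 : ((n:ℝ) + k) ≠ 0 := by positivity
  field_simp
  linear_combination ((k:ℝ) + 2 * (n + k) * Real.exp ((2 * n + k) * l) * Real.sin (k * θ)) * h3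

theorem fx_level {n k : ℕ} (hk : 0 < k) {l θ J : ℝ} (hJ : 0 < J) (hJl : Jf n k l θ = J) :
    fx (mu n k) (Real.log (ss n k) + eps n k J - (2 * n + k) * l)
      = -(Real.exp (eps n k J) * Real.sin (k * θ)) := by
  unfold fx
  rw [aux_exp hk hJ hJl, sub_eq_add_neg (Real.log (ss n k) + eps n k J), Real.exp_add,
    Real.exp_add, Real.exp_log (ss_pos hk)]
  have h3 : Real.exp (-((2 * n + k) * l)) * Real.exp ((2 * n + k) * l) = 1 := by
    rw [← Real.exp_add]; simp
  linear_combination -(Real.exp (eps n k J) * Real.sin (k * θ)) * h3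

theorem G_level {n k : ℕ} (hk : 0 < k) {l θ J : ℝ} (hJ : 0 < J) (hJl : Jf n k l θ = J) :
    G (mu n k) (-(Real.exp (eps n k J) * Real.sin (k * θ)))
      = Real.log (ss n k) + eps n k J - (2 * n + k) * l := by
  rw [← fx_level hk hJ hJl, G_fx (mu_pos hk)]

theorem P_level {n k : ℕ} (hk : 0 < k) {l θ J : ℝ} (hJ : 0 < J) (hJl : Jf n k l θ = J) :
    (1 + mu n k) * P (mu n k) (-(Real.exp (eps n k J) * Real.sin (k * θ)))
      * (1 + Real.exp ((2 * n + k) * l) * Real.sin (k * θ)) = 1 := by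
  have hG := G_level hk hJ hJl
  have hd := den_pos (mu_pos (n := n) hk) (-(Real.exp (eps n k J) * Real.sin (k * θ)))
  unfold P
  unfold g b at hd ⊢
  rw [hG] at hd ⊢
  rw [aux_exp hk hJ hJl, sub_eq_add_neg (Real.log (ss n k) + eps n k J), Real.exp_add,
    Real.exp_add, Real.exp_log (ss_pos hk)] at hd ⊢
  have hs := ss_mul (n := n) hk
  have hs0 := ss_pos (n := n) hk
  have he := Real.exp_pos (eps n k J)
  have he2 := Real.exp_pos (-((2 * n + k) * l))
  set E := Real.exp (eps n k J)
  set E2 := Real.exp (-((2 * n + k) * l))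
  set A := Real.exp ((2 * n + k) * l) * Real.sin (k * θ)
  set s := ss n k
  set m := mu n k
  rw [mul_div_assoc', div_mul_eq_mul_div, div_eq_one_iff_eq hd.ne']
  linear_combination (E * E2 * (1 + A)) * hs - (E * E2 * (1 + A)) * hs + E * E2 * A * hs

/-- the angular speed is bounded below -/
theorem speed_lb {n k : ℕ} (hk : 0 < k) {l θ J : ℝ} (hJ : 0 < J) (hJl : Jf n k l θ = J) :
    1 / (1 + mu n k) < 1 + Real.exp ((2 * n + k) * l) * Real.sin (k * θ) := by
  have h := P_level hk hJ hJl
  have hm := mu_pos (n := n) hk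
  set u := -(Real.exp (eps n k J) * Real.sin (k * θ))
  have hP : P (mu n k) u < 1 := by
    unfold P
    rw [div_lt_one (den_pos hm u)]
    have := mul_pos hm (b_pos (mu n k) u)
    linarith
  have hP0 : 0 < P (mu n k) u := div_pos (g_pos _ _) (den_pos hm u)
  set w := 1 + Real.exp ((2 * n + k) * l) * Real.sin (k * θ)
  have hw : 0 < w := by
    by_contra hcon
    push Not at hcon
    have : (1 + mu n k) * P (mu n k) u * w ≤ 0 :=
      mul_nonpos_of_nonneg_of_nonpos (by positivity) hcon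
    linarith
  rw [div_lt_iff₀ (by positivity)]
  have h5 : P (mu n k) u * (w * (1 + mu n k)) < 1 * (w * (1 + mu n k)) :=
    mul_lt_mul_of_pos_right hP (by positivity)
  have h6 : P (mu n k) u * (w * (1 + mu n k)) = 1 := by linear_combination h
  linarith

end Pool.Agent.Helper284.PFLevel
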