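import Mathlib
import Pool.Agent.Helper284.PFInv
import Pool.Agent.Helper284.PFMono
import Pool.Agent.Helper284.PFLevel

set_option autoImplicit false

namespace Pool.Agent.Helper284.PFPeriod

open Pool.Agent.Helper284.PFInv Pool.Agent.Helper284.PFMono Pool.Agent.Helper284.PFLevel

/-- a function whose derivative is at least `c` minus `c t` is monotone -/
theorem mono_sub {θ θ' : ℝ → ℝ} {c : ℝ} (h : ∀ t, HasDerivAt θ (θ' t) t) (hc : ∀ t, c ≤ θ' t) :
    Monotone (fun t => θ t - c * t) := by
  have hd : ∀ t, HasDerivAt (fun t => θ t - c * t) (θ' t - c) t := by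
    intro t
    have h2 : HasDerivAt (fun t : ℝ => c * t) c t := by
      simpa using (hasDerivAt_id t).const_mul c
    exact (h t).sub h2
  apply monotone_of_deriv_nonneg (fun t => (hd t).differentiableAt)
  intro t
  rw [(hd t).deriv]
  linarith [hc t]

theorem surj_of_deriv {θ θ' : ℝ → ℝ} {c : ℝ} (hc0 : 0 < c)
    (h : ∀ t, HasDerivAt θ (θ' t) t) (hc : ∀ t, c ≤ θ' t) : Function.Surjective θ := by
  have hm := mono_sub h hc
  have hcont : Continuous θ := continuous_iff_continuousAt.mpr (fun t => (h t).continuousAt)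
  apply hcont.surjective
  · have h1 : Filter.Tendsto (fun t : ℝ => θ 0 + c * t) Filter.atTop Filter.atTop :=
      Filter.tendsto_atTop_add_const_left _ _ (Filter.Tendsto.const_mul_atTop hc0 Filter.tendsto_id)
    refine Filter.tendsto_atTop_mono' _ ?_ h1
    filter_upwards [Filter.eventually_ge_atTop (0:ℝ)] with t ht
    have := hm ht
    simp only at this
    linarith
  · have h1 : Filter.Tendsto (fun t : ℝ => θ 0 + c * t) Filter.atBot Filter.atBot :=
      Filter.tendsto_atBot_add_const_left _ _ (Filter.Tendsto.const_mul_atBot hc0 Filter.tendsto_id)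
    refine Filter.tendsto_atBot_mono' _ ?_ h1
    filter_upwards [Filter.eventually_le_atBot (0:ℝ)] with t ht
    have := hm ht
    simp only at this
    linarith

theorem strictMono_of_deriv {θ θ' : ℝ → ℝ} {c : ℝ} (hc0 : 0 < c)
    (h : ∀ t, HasDerivAt θ (θ' t) t) (hc : ∀ t, c ≤ θ' t) : StrictMono θ := by
  have hm := mono_sub h hc
  intro a b hab
  have := hm hab.le
  simp only at this
  nlinarith

/-- the period formula -/
theorem period_formula {n k : ℕ} (hk : 0 < k) {γ : ℝ → ℂ} {l θ : ℝ → ℝ} {J T : ℝ}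
    (hγ : ∀ t, γ t = Complex.exp (l t + Complex.I * θ t))
    (hl : ∀ t, HasDerivAt l (Real.exp ((2 * n + k) * l t) * Real.cos (k * θ t)) t)
    (hθ : ∀ t, HasDerivAt θ (1 + Real.exp ((2 * n + k) * l t) * Real.sin (k * θ t)) t)
    (hJ : 0 < J) (hJl : Jf n k (l 0) (θ 0) = J)
    (hT : 0 < T) (hper : γ T = γ 0) (hmin : ∀ s : ℝ, 0 < s → s < T → γ s ≠ γ 0) :
    T = (1 + mu n k) * S (mu n k) k (Real.exp (eps n k J)) := by
  have hk' : (0:ℝ) < k := by exact_mod_cast hk
  have hm := mu_pos (n := n) hk
  have hJt : ∀ t, Jf n k (l t) (θ t) = J := fun t => (J_const hl hθ t).trans hJl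
  have hc0 : 0 < 1 / (1 + mu n k) := by positivity
  have hspeed : ∀ t, 1 / (1 + mu n k) ≤ 1 + Real.exp ((2 * n + k) * l t) * Real.sin (k * θ t) :=
    fun t => (speed_lb hk hJ (hJt t)).le
  have hmono := strictMono_of_deriv hc0 hθ hspeed
  have hθcont : Continuous θ := continuous_iff_continuousAt.mpr (fun t => (hθ t).continuousAt)
  -- same angle mod 2π implies same point
  have hret : ∀ t, ∀ j : ℤ, θ t = θ 0 + j * (2 * Real.pi) → γ t = γ 0 := by
    intro t j hj
    have hsin : Real.sin (k * θ t) = Real.sin (k * θ 0) := by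
      rw [hj, show (k:ℝ) * (θ 0 + j * (2 * Real.pi))
        = k * θ 0 + ((k * j : ℤ) : ℝ) * (2 * Real.pi) by push_cast; ring]
      exact Real.sin_add_int_mul_two_pi _ _
    have h1 := G_level hk hJ (hJt t)
    have h2 := G_level hk hJ (hJt 0)
    rw [hsin] at h1
    have h3 : (2 * (n:ℝ) + k) * l t = (2 * n + k) * l 0 := by linarith
    have h4 : l t = l 0 := by
      have : (2 * (n:ℝ) + k) ≠ 0 := by positivity
      exact mul_left_cancel₀ this h3
    rw [hγ, hγ, h4, Complex.exp_eq_exp_iff_exists_int]
    refine ⟨j, ?_⟩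
    rw [hj]; push_cast; ring
  -- the angle increases by exactly 2π
  have hang : θ T = θ 0 + 2 * Real.pi := by
    rw [hγ, hγ, Complex.exp_eq_exp_iff_exists_int] at hper
    obtain ⟨j, hj⟩ := hper
    have hj2 : θ T = θ 0 + j * (2 * Real.pi) := by
      have := congrArg Complex.im hj
      simpa using this
    have hlt : θ 0 < θ T := hmono hT
    have hj0 : 0 < j := by
      by_contra hcon
      push Not at hcon
      have : (j:ℝ) ≤ 0 := by exact_mod_cast hcon
      have := mul_nonpos_of_nonpos_of_nonneg this (by positivity : (0:ℝ) ≤ 2 * Real.pi)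
      linarith
    rcases eq_or_lt_of_le (Int.add_one_le_iff.mpr hj0) with h1 | h1
    · rw [hj2, ← h1]; simp
    · exfalso
      have hj1 : (2:ℝ) ≤ j := by
        have : (2:ℤ) ≤ j := by omega
        exact_mod_cast this
      have hmem : θ 0 + 2 * Real.pi ∈ Set.Ioo (θ 0) (θ T) := by
        constructor
        · have := Real.pi_pos; linarith
        · rw [hj2]; nlinarith [Real.pi_pos]
      obtain ⟨t, ⟨ht0, htT⟩, ht⟩ := intermediate_value_Ioo hT.le hθcont.continuousOn hmem
      apply hmin t ht0 htT
      apply hret t 1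
      rw [ht]; simp
  have hPc := P_cont hm
  have hint : ∫ t in (0:ℝ)..T, (1 + mu n k) *
      ((fun x => P (mu n k) (-(Real.exp (eps n k J) * Real.sin (k * x)))) ∘ θ) t
        * (1 + Real.exp ((2 * n + k) * l t) * Real.sin (k * θ t)) = T := by
    have : ∀ t, (1 + mu n k) *
      ((fun x => P (mu n k) (-(Real.exp (eps n k J) * Real.sin (k * x)))) ∘ θ) t
        * (1 + Real.exp ((2 * n + k) * l t) * Real.sin (k * θ t)) = 1 := by
      intro t
      exact P_level hk hJ (hJt t)
    simp_rw [this]
    simp
  have hsub : ∫ t in (0:ℝ)..T, ((fun x => (1 + mu n k) *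
      P (mu n k) (-(Real.exp (eps n k J) * Real.sin (k * x)))) ∘ θ) t
        * (1 + Real.exp ((2 * n + k) * l t) * Real.sin (k * θ t))
      = ∫ x in (θ 0)..(θ T), (1 + mu n k) *
      P (mu n k) (-(Real.exp (eps n k J) * Real.sin (k * x))) := by
    apply intervalIntegral.integral_comp_mul_deriv (fun t _ => hθ t)
    · have hlcont : Continuous l := continuous_iff_continuousAt.mpr (fun t => (hl t).continuousAt)
      apply Continuous.continuousOn
      fun_prop
    · fun_prop
  have hper2 : Function.Periodic (fun x : ℝ =>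
      P (mu n k) (-(Real.exp (eps n k J) * Real.sin (k * x)))) (2 * Real.pi) := by
    intro x
    simp only
    rw [mul_add]
    have : Real.sin (k * x + k * (2 * Real.pi)) = Real.sin (k * x) :=
      Real.sin_add_nat_mul_two_pi _ _
    rw [this]
  have hfin : ∫ x in (θ 0)..(θ T),
      P (mu n k) (-(Real.exp (eps n k J) * Real.sin (k * x)))
      = S (mu n k) k (Real.exp (eps n k J)) := by
    rw [hang, hper2.intervalIntegral_add_eq (θ 0) 0, zero_add]
    have := integral_sin_neg (H := fun y => P (mu n k) (Real.exp (eps n k J) * y)) k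
    unfold S
    rw [← this]
    apply intervalIntegral.integral_congr
    intro x _
    simp only
    congr 1
    ring
  calc T = _ := hint.symm
    _ = _ := hsub
    _ = _ := by rw [intervalIntegral.integral_const_mul, hfin]

end Pool.Agent.Helper284.PFPeriod
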