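import Mathlib

set_option autoImplicit false

namespace Pool.Agent.Helper284.Avg

open Set

lemma per_reduce {h : ℝ → ℝ → ℝ → ℝ} (hper : ∀ ε ψ r, h ε (ψ + 2 * Real.pi) r = h ε ψ r) (ψ : ℝ) :
    ∃ ψ' ∈ Icc (0:ℝ) (2*Real.pi), ∀ ε r, h ε ψ r = h ε ψ' r := by
  have hP : Function.Periodic (fun ψ => fun ε r => h ε ψ r) (2*Real.pi) := by
    intro ψ; funext ε r; exact hper ε ψ r
  obtain ⟨y, hy, hy2⟩ := hP.exists_mem_Ico₀ Real.two_pi_pos ψ
  exact ⟨y, Ico_subset_Icc_self hy, fun ε r => congrFun (congrFun hy2 ε) r⟩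

lemma per_bounded {h : ℝ → ℝ → ℝ → ℝ} {r0 ρ ε1 : ℝ}
    (hh : ContinuousOn (fun p : ℝ × ℝ × ℝ => h p.1 p.2.1 p.2.2)
      (Icc 0 ε1 ×ˢ (univ ×ˢ Icc (r0 - ρ) (r0 + ρ))))
    (hper : ∀ ε ψ r, h ε (ψ + 2 * Real.pi) r = h ε ψ r) :
    ∃ L : ℝ, 0 < L ∧ ∀ ε ∈ Icc 0 ε1, ∀ ψ, ∀ r ∈ Icc (r0-ρ) (r0+ρ), |h ε ψ r| ≤ L := by
  have hc : IsCompact (Icc (0:ℝ) ε1 ×ˢ (Icc (0:ℝ) (2*Real.pi) ×ˢ Icc (r0 - ρ) (r0 + ρ))) :=
    isCompact_Icc.prod (isCompact_Icc.prod isCompact_Icc)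
  obtain ⟨C, hC⟩ := hc.exists_bound_of_continuousOn (hh.mono (by
    apply prod_mono le_rfl
    exact prod_mono (subset_univ _) le_rfl))
  refine ⟨max C 1, lt_of_lt_of_le one_pos (le_max_right _ _), ?_⟩
  intro ε hε ψ r hr
  obtain ⟨y, hy, hy2⟩ := per_reduce hper ψ
  rw [hy2]
  have := hC (ε, y, r) ⟨hε, hy, hr⟩
  exact le_trans this (le_max_left _ _)

lemma per_uniform {h : ℝ → ℝ → ℝ → ℝ} {r0 ρ ε1 : ℝ}
    (hh : ContinuousOn (fun p : ℝ × ℝ × ℝ => h p.1 p.2.1 p.2.2)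
      (Icc 0 ε1 ×ˢ (univ ×ˢ Icc (r0 - ρ) (r0 + ρ))))
    (hper : ∀ ε ψ r, h ε (ψ + 2 * Real.pi) r = h ε ψ r) {η : ℝ} (hη : 0 < η) :
    ∃ δ : ℝ, 0 < δ ∧ ∀ ε ∈ Icc 0 ε1, ∀ ε' ∈ Icc 0 ε1, ∀ ψ, ∀ r ∈ Icc (r0-ρ) (r0+ρ),
      ∀ r' ∈ Icc (r0-ρ) (r0+ρ), |ε - ε'| < δ → |r - r'| < δ → |h ε ψ r - h ε' ψ r'| < η := by
  have hc : IsCompact (Icc (0:ℝ) ε1 ×ˢ (Icc (0:ℝ) (2*Real.pi) ×ˢ Icc (r0 - ρ) (r0 + ρ))) :=
    isCompact_Icc.prod (isCompact_Icc.prod isCompact_Icc)
  have hu := hc.uniformContinuousOn_of_continuous (hh.mono (by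
    apply prod_mono le_rfl
    exact prod_mono (subset_univ _) le_rfl))
  rw [Metric.uniformContinuousOn_iff] at hu
  obtain ⟨δ, hδ, H⟩ := hu η hη
  refine ⟨δ, hδ, ?_⟩
  intro ε hε ε' hε' ψ r hr r' hr' h1 h2
  obtain ⟨y, hy, hy2⟩ := per_reduce hper ψ
  rw [hy2, hy2]
  have := H (ε, y, r) ⟨hε, hy, hr⟩ (ε', y, r') ⟨hε', hy, hr'⟩ (by
    simp only [Prod.dist_eq, Real.dist_eq, sub_self, abs_zero]
    exact max_lt h1 (max_lt hδ h2))
  exact this

open NNReal Metric in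
lemma exists_flow {f : ℝ → ℝ → ℝ} {L K : ℝ≥0} (x0 : ℝ) (r : ℝ≥0) {T : ℝ} (hT : 0 < T)
    (hlip : ∀ t, LipschitzWith K (f t)) (hc : ∀ x, Continuous (fun t => f t x))
    (hb : ∀ t x, |f t x| ≤ L) :
    ∃ α : ℝ → ℝ → ℝ, (∀ x ∈ closedBall x0 r, α x 0 = x ∧
      (∀ t ∈ Icc (-1) (T+1), HasDerivWithinAt (α x) (f t (α x t)) (Icc (-1) (T+1)) t) ∧
      ∀ t ∈ Icc (-1) (T+1), |α x t - x| ≤ L * (T+1)) ∧
      ContinuousOn (fun x => α x T) (closedBall x0 r) := by
  have h0 : (0:ℝ) ∈ Icc (-1) (T+1) := ⟨by linarith, by linarith⟩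
  have hPL : IsPicardLindelof f (⟨0, h0⟩ : Icc (-1) (T+1)) x0 (L * (T+1).toNNReal + r) r L K := by
    refine ⟨fun t _ => (hlip t).lipschitzOnWith, fun x _ => (hc x).continuousOn,
      fun t _ x _ => ?_, ?_⟩
    · exact hb t x
    · have : max (T + 1 - 0) (0 - (-1 : ℝ)) ≤ T + 1 := by
        apply max_le <;> linarith
      simp only
      push_cast
      have h2 : (L:ℝ) * max (T + 1 - 0) (0 - (-1 : ℝ)) ≤ L * (T+1) := by gcongr
      have h3 : (((T+1).toNNReal : ℝ≥0) : ℝ) = T + 1 := Real.coe_toNNReal _ (by linarith)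
      rw [h3]
      linarith
  obtain ⟨α, hα, L', hL'⟩ := hPL.exists_forall_mem_closedBall_eq_hasDerivWithinAt_lipschitzOnWith
  refine ⟨α, ?_, ?_⟩
  · intro x hx
    obtain ⟨h1, h2⟩ := hα x hx
    refine ⟨h1, h2, ?_⟩
    intro t ht
    have h3 := (convex_Icc (-1:ℝ) (T+1)).norm_image_sub_le_of_norm_hasDerivWithin_le
      (f := α x) (f' := fun t => f t (α x t)) (C := L) h2 (fun t _ => hb t _) h0 ht
    have h1' : α x 0 = x := h1
    rw [h1'] at h3
    have h4 : ‖t - 0‖ ≤ T + 1 := by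
      rw [sub_zero, Real.norm_eq_abs, abs_le]
      exact ⟨by linarith [ht.1], ht.2⟩
    calc |α x t - x| ≤ L * ‖t - 0‖ := h3
      _ ≤ L * (T+1) := by gcongr
  · exact (hL' T ⟨by linarith, by linarith⟩).continuousOn

open NNReal in
lemma periodic_ext {f : ℝ → ℝ → ℝ} {K : ℝ≥0} {T : ℝ} (hT : 0 < T)
    (hlip : ∀ t, LipschitzWith K (f t)) (hper : ∀ t x, f (t+T) x = f t x) {β : ℝ → ℝ}
    (hβ : ∀ t ∈ Icc (-1) (T+1), HasDerivWithinAt β (f t (β t)) (Icc (-1) (T+1)) t)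
    (h0 : β T = β 0) :
    ∃ R : ℝ → ℝ, (∀ t, HasDerivAt R (f t (R t)) t) ∧ (∀ t, R (t+T) = R t) ∧
      ∀ t, ∃ s ∈ Icc 0 T, R t = β s := by
  have hβ' : ∀ t ∈ Ioo (-1) (T+1), HasDerivAt β (f t (β t)) t := fun t ht =>
    (hβ t (Ioo_subset_Icc_self ht)).hasDerivAt (Icc_mem_nhds ht.1 ht.2)
  -- uniqueness on (-1,1)
  have hun : EqOn (fun t => β (t + T)) β (Ioo (-1) 1) := by
    apply ODE_solution_unique_of_mem_Ioo (v := f) (s := fun _ => univ) (K := K) (t₀ := 0)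
      (fun t _ => (hlip t).lipschitzOnWith) ⟨by norm_num, by norm_num⟩
    · intro t ht
      refine ⟨?_, trivial⟩
      have h1 : HasDerivAt β (f (t+T) (β (t+T))) (t+T) :=
        hβ' (t+T) ⟨by linarith [ht.1], by linarith [ht.2]⟩
      have h2 := h1.comp_add_const t T
      rw [hper] at h2
      exact h2
    · intro t ht
      exact ⟨hβ' t ⟨ht.1, by linarith [ht.2]⟩, trivial⟩
    · simpa using h0
  have hfper : ∀ (k : ℤ) (t x : ℝ), f (t - k * T) x = f t x := by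
    intro k t x
    have hP : Function.Periodic (fun t => f t x) T := fun t => hper t x
    have := hP.sub_zsmul_eq (x := t) k
    simpa using this
  set R : ℝ → ℝ := fun t => β (t - ⌊t / T⌋ * T) with hR
  refine ⟨R, ?_, ?_, ?_⟩
  · intro t
    set k : ℤ := ⌊t / T⌋ with hk
    have hk1 : (k:ℝ) * T ≤ t := by
      have := Int.floor_le (t/T)
      rw [le_div_iff₀ hT] at this
      exact this
    have hk2 : t < (k + 1) * T := by
      have := Int.lt_floor_add_one (t/T)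
      rw [div_lt_iff₀ hT] at this
      exact this
    have hder : HasDerivAt (fun s => β (s - k * T)) (f t (β (t - k*T))) t := by
      have h1 : HasDerivAt β (f (t - k*T) (β (t-k*T))) (t - k*T) :=
        hβ' _ ⟨by linarith, by nlinarith⟩
      have h2 := h1.comp_sub_const t (k*T)
      rw [hfper] at h2
      exact h2
    have heq : R =ᶠ[nhds t] (fun s => β (s - k * T)) := by
      by_cases hlt : (k:ℝ) * T < t
      · filter_upwards [Ioo_mem_nhds hlt hk2] with s hs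
        have : ⌊s / T⌋ = k := by
          rw [Int.floor_eq_iff]
          refine ⟨?_, ?_⟩
          · rw [le_div_iff₀ hT]; exact hs.1.le
          · rw [div_lt_iff₀ hT]; exact hs.2
        simp only [hR, this]
      · have hkt : (k:ℝ) * T = t := le_antisymm hk1 (not_lt.mp hlt)
        have h1 : (max (t - T) (t - 1)) < t := by
          apply max_lt <;> linarith
        filter_upwards [Ioo_mem_nhds h1 hk2] with s hs
        by_cases hst : s < t
        · have hs1 : t - T < s := lt_of_le_of_lt (le_max_left _ _) hs.1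
          have hs2 : t - 1 < s := lt_of_le_of_lt (le_max_right _ _) hs.1
          have : ⌊s / T⌋ = k - 1 := by
            rw [Int.floor_eq_iff]
            push_cast
            refine ⟨?_, ?_⟩
            · rw [le_div_iff₀ hT]; nlinarith
            · rw [div_lt_iff₀ hT]; nlinarith
          simp only [hR, this]
          push_cast
          have h3 := hun (x := s - k*T) ⟨by linarith, by linarith⟩
          simp only at h3
          rw [← h3]
          congr 1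
          ring
        · have : ⌊s / T⌋ = k := by
            rw [Int.floor_eq_iff]
            refine ⟨?_, ?_⟩
            · rw [le_div_iff₀ hT]; linarith
            · rw [div_lt_iff₀ hT]; exact hs.2
          simp only [hR, this]
    have h3 : R t = β (t - k * T) := rfl
    rw [h3]
    exact hder.congr_of_eventuallyEq heq
  · intro t
    simp only [hR]
    have : ⌊(t + T) / T⌋ = ⌊t / T⌋ + 1 := by
      rw [add_div, div_self hT.ne']
      exact_mod_cast Int.floor_add_one (t/T)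
    rw [this]
    congr 1
    push_cast
    ring
  · intro t
    refine ⟨t - ⌊t / T⌋ * T, ⟨?_, ?_⟩, rfl⟩
    · have := Int.floor_le (t/T)
      rw [le_div_iff₀ hT] at this
      linarith
    · have := Int.lt_floor_add_one (t/T)
      rw [div_lt_iff₀ hT] at this
      linarith

lemma weight_prim {g0 : ℝ → ℝ} {m : ℝ} (hg : Continuous g0)
    (hgper : ∀ ψ, g0 (ψ + 2 * Real.pi) = g0 ψ)
    (hm : ∫ ψ in (0:ℝ)..(2 * Real.pi), g0 ψ = m) :
    ∃ B : ℝ, 0 < B ∧ ∃ P : ℝ → ℝ, (∀ ψ, HasDerivAt P (g0 ψ - m / (2 * Real.pi)) ψ) ∧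
      (∀ ψ, P (ψ + 2 * Real.pi) = P ψ) ∧ ∀ ψ, |P ψ| ≤ B := by
  have hc : Continuous (fun t => g0 t - m / (2 * Real.pi)) := by fun_prop
  set P : ℝ → ℝ := fun ψ => ∫ t in (0:ℝ)..ψ, (g0 t - m / (2 * Real.pi)) with hP
  have hder : ∀ ψ, HasDerivAt P (g0 ψ - m / (2 * Real.pi)) ψ := fun ψ =>
    (hc.integral_hasStrictDerivAt 0 ψ).hasDerivAt
  have hperI : ∀ ψ, P (ψ + 2 * Real.pi) = P ψ := by
    intro ψ
    have h1 : P (ψ + 2 * Real.pi) - P ψ = ∫ t in ψ..(ψ + 2 * Real.pi), (g0 t - m / (2 * Real.pi)) :=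
      intervalIntegral.integral_interval_sub_left (hc.intervalIntegrable _ _)
        (hc.intervalIntegrable _ _)
    have hp : Function.Periodic (fun t => g0 t - m / (2 * Real.pi)) (2 * Real.pi) := by
      intro t
      simp only [hgper]
    have h2 := hp.intervalIntegral_add_eq ψ 0
    rw [h2, zero_add, intervalIntegral.integral_sub (hg.intervalIntegrable _ _)
      (continuous_const.intervalIntegrable _ _), hm, intervalIntegral.integral_const] at h1
    have hpi : (2 * Real.pi) ≠ 0 := Real.two_pi_pos.ne'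
    rw [sub_zero, smul_eq_mul, mul_div_cancel₀ _ hpi, sub_self] at h1
    linarith
  have hPc : Continuous P := continuous_iff_continuousAt.mpr fun ψ => (hder ψ).continuousAt
  obtain ⟨C, hC⟩ := (isCompact_Icc (a := (0:ℝ)) (b := 2 * Real.pi)).exists_bound_of_continuousOn
    hPc.continuousOn
  refine ⟨max C 1, lt_of_lt_of_le one_pos (le_max_right _ _), P, hder, hperI, ?_⟩
  intro ψ
  have hp : Function.Periodic P (2 * Real.pi) := hperI
  obtain ⟨y, hy, hy2⟩ := hp.exists_mem_Ico₀ Real.two_pi_pos ψ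
  rw [hy2]
  exact le_trans (hC y (Ico_subset_Icc_self hy)) (le_max_left _ _)

lemma exp_small {z : ℝ} (hz : |z| ≤ 1 / 4) : 1 / 2 < Real.exp z ∧ Real.exp z < 2 := by
  have h1 := Real.add_one_le_exp z
  have h2 := Real.add_one_le_exp (-z)
  have h3 : Real.exp z * Real.exp (-z) = 1 := by rw [← Real.exp_add]; simp
  have h4 := abs_le.mp hz
  refine ⟨by linarith, ?_⟩
  by_contra hcon
  push Not at hcon
  nlinarith

open NNReal Metric in
/-- First order averaging for a scalar periodic equation `r' = ε G ε ψ r`, with a quantitative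
local uniqueness statement encoded by a weight `ω`. -/
theorem averaging {G G' : ℝ → ℝ → ℝ → ℝ} {r0 ρ ε1 m : ℝ} (hρ : 0 < ρ) (hε1 : 0 < ε1)
    (hder : ∀ ε ∈ Icc (0:ℝ) ε1, ∀ ψ : ℝ, ∀ r ∈ Icc (r0 - ρ) (r0 + ρ),
      HasDerivAt (fun r => G ε ψ r) (G' ε ψ r) r)
    (hG : ContinuousOn (fun p : ℝ × ℝ × ℝ => G p.1 p.2.1 p.2.2)
      (Icc 0 ε1 ×ˢ (univ ×ˢ Icc (r0 - ρ) (r0 + ρ))))
    (hG' : ContinuousOn (fun p : ℝ × ℝ × ℝ => G' p.1 p.2.1 p.2.2)
      (Icc 0 ε1 ×ˢ (univ ×ˢ Icc (r0 - ρ) (r0 + ρ))))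
    (hper : ∀ ε ψ r, G ε (ψ + 2 * Real.pi) r = G ε ψ r)
    (hper' : ∀ ε ψ r, G' ε (ψ + 2 * Real.pi) r = G' ε ψ r)
    (hM : ∫ ψ in (0:ℝ)..(2 * Real.pi), G 0 ψ r0 = 0)
    (hm : ∫ ψ in (0:ℝ)..(2 * Real.pi), G' 0 ψ r0 = m) (hm0 : m ≠ 0)
    {ρ0 : ℝ} (hρ0 : 0 < ρ0) :
    ∃ ρ1, 0 < ρ1 ∧ ρ1 ≤ ρ0 ∧ 16 * ρ1 ≤ ρ ∧ ∃ ε0, 0 < ε0 ∧ ε0 ≤ ε1 ∧ ∀ ε, 0 < ε → ε < ε0 →
      ∃ R : ℝ → ℝ, (∀ ψ, HasDerivAt R (ε * G ε ψ (R ψ)) ψ) ∧ (∀ ψ, R (ψ + 2 * Real.pi) = R ψ) ∧
        (∀ ψ, |R ψ - r0| < ρ1) ∧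
        ∃ ω ω' : ℝ → ℝ, (∀ ψ, HasDerivAt ω (ω' ψ) ψ) ∧ (∀ ψ, ω (ψ + 2 * Real.pi) = ω ψ) ∧
          (∀ ψ, 1 / 2 < ω ψ ∧ ω ψ < 2) ∧
          ∀ ψ r, |r - r0| ≤ 16 * ρ1 → r ≠ R ψ →
            0 < m * ((r - R ψ) * (ε * (G ε ψ r - G ε ψ (R ψ)) * ω ψ + (r - R ψ) * ω' ψ)) := by
  have hpi : 0 < Real.pi := Real.pi_pos
  set T : ℝ := 2 * Real.pi with hT
  have hTpos : 0 < T := Real.two_pi_pos
  have hmpos : 0 < |m| := abs_pos.mpr hm0
  have h00 : (0:ℝ) ∈ Icc (0:ℝ) ε1 := ⟨le_rfl, hε1.le⟩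
  have hr0 : r0 ∈ Icc (r0 - ρ) (r0 + ρ) := ⟨by linarith, by linarith⟩
  -- continuity of the basic slices
  have hGc : ∀ (ε : ℝ), ε ∈ Icc 0 ε1 → ∀ {X : Type} [TopologicalSpace X] (u v : X → ℝ),
      Continuous u → Continuous v → (∀ x, v x ∈ Icc (r0 - ρ) (r0 + ρ)) →
      Continuous (fun x => G ε (u x) (v x)) := by
    intro ε hε X _ u v hu hv hmem
    exact hG.comp_continuous (f := fun x => (ε, u x, v x)) (by fun_prop)
      (fun x => ⟨hε, trivial, hmem x⟩)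
  have hg0c : Continuous (fun ψ => G' 0 ψ r0) :=
    hG'.comp_continuous (f := fun ψ => ((0:ℝ), ψ, r0)) (by fun_prop)
      (fun x => ⟨h00, trivial, hr0⟩)
  set g0 : ℝ → ℝ := fun ψ => G' 0 ψ r0 with hg0
  obtain ⟨B, hB, P, hPder, hPper, hPB⟩ := weight_prim hg0c (fun ψ => hper' 0 ψ r0) hm
  obtain ⟨L, hL, hLb⟩ := per_bounded hG hper
  obtain ⟨L', hL', hLb'⟩ := per_bounded hG' hper'
  obtain ⟨δ1, hδ1, hu1⟩ := per_uniform hG' hper' (η := |m| / (8 * Real.pi)) (by positivity)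
  set ρ1 : ℝ := min ρ0 (min (ρ / 16) (δ1 / 17)) with hρ1
  have hρ1pos : 0 < ρ1 := lt_min hρ0 (lt_min (by positivity) (by positivity))
  have hρ1a : ρ1 ≤ ρ0 := min_le_left _ _
  have hρ1b : 16 * ρ1 ≤ ρ := by
    have : ρ1 ≤ ρ / 16 := (min_le_right _ _).trans (min_le_left _ _)
    linarith
  have hρ1c : 16 * ρ1 < δ1 := by
    have : ρ1 ≤ δ1 / 17 := (min_le_right _ _).trans (min_le_right _ _)
    linarith
  obtain ⟨δ2, hδ2, hu2⟩ := per_uniform hG hper (η := |m| * ρ1 / (32 * Real.pi)) (by positivity)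
  have hball : ∀ r, |r - r0| ≤ 16 * ρ1 → r ∈ Icc (r0 - ρ) (r0 + ρ) := by
    intro r hr
    have := abs_le.mp hr
    exact ⟨by linarith, by linarith⟩
  -- linearisation estimate
  have hlin : ∀ ε ∈ Icc 0 ε1, ε < δ1 → ∀ ψ r r', |r - r0| ≤ 16 * ρ1 → |r' - r0| ≤ 16 * ρ1 →
      |G ε ψ r - G ε ψ r' - g0 ψ * (r - r')| ≤ |m| / (8 * Real.pi) * |r - r'| := by
    intro ε hε hεδ ψ r r' hr hr'
    have hconv : Convex ℝ (Icc (r0 - 16 * ρ1) (r0 + 16 * ρ1)) := convex_Icc _ _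
    have hmem : ∀ x, |x - r0| ≤ 16 * ρ1 ↔ x ∈ Icc (r0 - 16 * ρ1) (r0 + 16 * ρ1) := by
      intro x
      rw [abs_le, mem_Icc]
      constructor
      · rintro ⟨h1, h2⟩; exact ⟨by linarith, by linarith⟩
      · rintro ⟨h1, h2⟩; exact ⟨by linarith, by linarith⟩
    have h1 := hconv.norm_image_sub_le_of_norm_hasDerivWithin_le
      (f := fun x => G ε ψ x - g0 ψ * x) (f' := fun x => G' ε ψ x - g0 ψ)
      (C := |m| / (8 * Real.pi)) (x := r') (y := r) ?_ ?_ ((hmem _).mp hr') ((hmem _).mp hr)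
    · simp only [Real.norm_eq_abs] at h1
      have h2 : G ε ψ r - G ε ψ r' - g0 ψ * (r - r') =
        G ε ψ r - g0 ψ * r - (G ε ψ r' - g0 ψ * r') := by ring
      rw [h2]
      exact h1
    · intro x hx
      have h3 := (hder ε hε ψ x (hball x ((hmem x).mpr hx)))
      have h4 : HasDerivAt (fun x => g0 ψ * x) (g0 ψ) x := by
        simpa using (hasDerivAt_id x).const_mul (g0 ψ)
      exact (h3.sub h4).hasDerivWithinAt
    · intro x hx
      have hx' := (hmem x).mpr hx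
      rw [Real.norm_eq_abs]
      refine (hu1 ε hε 0 h00 ψ x (hball x hx') r0 hr0 ?_ ?_).le
      · rw [sub_zero, abs_of_nonneg hε.1]; exact hεδ
      · exact lt_of_le_of_lt hx' hρ1c
  refine ⟨ρ1, hρ1pos, hρ1a, hρ1b, ?_⟩
  have hLT : 0 < L * (T + 1) := by positivity
  refine ⟨min ε1 (min δ1 (min δ2 (min (ρ1 / 4 / (L * (T+1))) (min (δ2 / (L * (T+1)))
    (1 / (4 * B)))))), ?_, min_le_left _ _, ?_⟩
  · refine lt_min hε1 (lt_min hδ1 (lt_min hδ2 (lt_min ?_ (lt_min ?_ ?_)))) <;> positivity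
  intro ε hεpos hεlt
  simp only [lt_min_iff] at hεlt
  obtain ⟨he1, he2, he3, he4, he5, he6⟩ := hεlt
  rw [lt_div_iff₀ hLT] at he4 he5
  rw [lt_div_iff₀ (by positivity)] at he6
  have hεI : ε ∈ Icc 0 ε1 := ⟨hεpos.le, he1.le⟩
  -- the clamped vector field
  have hle : r0 - ρ ≤ r0 + ρ := by linarith
  set cl : ℝ → ℝ := fun x => (projIcc (r0 - ρ) (r0 + ρ) hle x : ℝ) with hcl
  have hclmem : ∀ x, cl x ∈ Icc (r0 - ρ) (r0 + ρ) := fun x => (projIcc (r0 - ρ) (r0 + ρ) hle x).2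
  have hclc : Continuous cl := continuous_subtype_val.comp continuous_projIcc
  have hcleq : ∀ x, x ∈ Icc (r0 - ρ) (r0 + ρ) → cl x = x := by
    intro x hx
    simp only [hcl, projIcc_of_mem hle hx]
  have hcllip : ∀ x y, |cl x - cl y| ≤ |x - y| := by
    intro x y
    have := (LipschitzWith.projIcc hle).dist_le_mul x y
    rw [NNReal.coe_one, one_mul] at this
    exact this
  have hGlip : ∀ ψ, ∀ r ∈ Icc (r0 - ρ) (r0 + ρ), ∀ r' ∈ Icc (r0 - ρ) (r0 + ρ),
      |G ε ψ r - G ε ψ r'| ≤ L' * |r - r'| := by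
    intro ψ r hr r' hr'
    exact (convex_Icc (r0 - ρ) (r0 + ρ)).norm_image_sub_le_of_norm_hasDerivWithin_le
      (f := fun x => G ε ψ x) (f' := fun x => G' ε ψ x) (C := L')
      (fun x hx => (hder ε hεI ψ x hx).hasDerivWithinAt) (fun x hx => hLb' ε hεI ψ x hx) hr' hr
  set f : ℝ → ℝ → ℝ := fun ψ x => ε * G ε ψ (cl x) with hf
  have hflip : ∀ t, LipschitzWith (ε * L').toNNReal (f t) := by
    intro t
    apply LipschitzWith.of_dist_le_mul
    intro x y
    rw [Real.coe_toNNReal _ (by positivity), Real.dist_eq, Real.dist_eq]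
    simp only [hf]
    rw [← mul_sub, abs_mul, abs_of_pos hεpos, mul_assoc]
    apply mul_le_mul_of_nonneg_left _ hεpos.le
    calc _ ≤ L' * |cl x - cl y| := hGlip t _ (hclmem x) _ (hclmem y)
      _ ≤ L' * |x - y| := by
        apply mul_le_mul_of_nonneg_left (hcllip x y) hL'.le
  have hfc : ∀ x, Continuous (fun t => f t x) := fun x =>
    continuous_const.mul (hGc ε hεI (fun t => t) (fun _ => cl x) continuous_id continuous_const
      (fun _ => hclmem x))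
  have hfcc : Continuous (fun p : ℝ × ℝ => f p.1 p.2) :=
    continuous_const.mul (hGc ε hεI (fun p : ℝ × ℝ => p.1) (fun p => cl p.2) continuous_fst
      (hclc.comp continuous_snd) (fun p => hclmem _))
  have hfb : ∀ t x, |f t x| ≤ ((ε * L).toNNReal : ℝ) := by
    intro t x
    rw [Real.coe_toNNReal _ (by positivity)]
    simp only [hf]
    rw [abs_mul, abs_of_pos hεpos]
    exact mul_le_mul_of_nonneg_left (hLb ε hεI t _ (hclmem x)) hεpos.le
  have hfper : ∀ t x, f (t + T) x = f t x := by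
    intro t x
    simp only [hf]
    rw [hper]
  obtain ⟨α, hα, hαc⟩ := exists_flow r0 (ρ1 / 2).toNNReal hTpos hflip hfc hfb
  rw [Real.coe_toNNReal _ (by positivity), Real.coe_toNNReal _ (by positivity)] at hα
  rw [Real.coe_toNNReal _ (by positivity)] at hαc
  have hcb : ∀ x, x ∈ closedBall r0 (ρ1 / 2) ↔ |x - r0| ≤ ρ1 / 2 := fun x => by
    rw [mem_closedBall, Real.dist_eq]
  -- closeness
  have hclose : ∀ x ∈ closedBall r0 (ρ1 / 2), ∀ t ∈ Icc (-1) (T + 1), |α x t - x| < ρ1 / 4 ∧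
      |α x t - x| < δ2 ∧ |α x t - r0| < ρ1 ∧ cl (α x t) = α x t := by
    intro x hx t ht
    have h1 := (hα x hx).2.2 t ht
    have h2 := (hcb x).mp hx
    have h3 : |α x t - x| < ρ1 / 4 := by nlinarith
    have h4 : |α x t - x| < δ2 := by nlinarith
    have h5 : |α x t - r0| < ρ1 := by
      have : |α x t - r0| ≤ |α x t - x| + |x - r0| := abs_sub_le _ _ _
      linarith
    refine ⟨h3, h4, h5, hcleq _ (hball _ (by linarith))⟩
  -- displacement
  have hdisp : ∀ x ∈ closedBall r0 (ρ1 / 2), |(α x T - x) - ε * (m * (x - r0))| ≤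
      ε * (|m| * ρ1 / (32 * Real.pi) + |m| / (8 * Real.pi) * |x - r0|) * T := by
    intro x hx
    obtain ⟨hx0, hxd, _⟩ := hα x hx
    have hxr := (hcb x).mp hx
    have hxI : x ∈ Icc (r0 - ρ) (r0 + ρ) := hball x (by linarith)
    have hsub : uIcc 0 T ⊆ Ioo (-1) (T + 1) := by
      rw [uIcc_of_le hTpos.le]
      intro t ht
      exact ⟨by linarith [ht.1], by linarith [ht.2]⟩
    have hder2 : ∀ t ∈ uIcc 0 T, HasDerivAt (α x) (f t (α x t)) t := fun t ht =>
      (hxd t (Ioo_subset_Icc_self (hsub ht))).hasDerivAt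
        (Icc_mem_nhds (hsub ht).1 (hsub ht).2)
    have hαxc : ContinuousOn (α x) (uIcc 0 T) := fun t ht =>
      (hder2 t ht).continuousAt.continuousWithinAt
    have hint : IntervalIntegrable (fun t => f t (α x t)) MeasureTheory.volume 0 T := by
      apply ContinuousOn.intervalIntegrable
      exact hfcc.comp_continuousOn (continuousOn_id.prodMk hαxc)
    have hI1 := intervalIntegral.integral_eq_sub_of_hasDerivAt hder2 hint
    rw [hx0] at hI1
    have hc2 : Continuous (fun t => ε * (G 0 t r0 + g0 t * (x - r0))) := by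
      have := hGc 0 h00 (fun t : ℝ => t) (fun _ => r0) continuous_id continuous_const
        (fun _ => hr0)
      fun_prop
    have hI2 : ∫ t in (0:ℝ)..T, ε * (G 0 t r0 + g0 t * (x - r0)) = ε * (m * (x - r0)) := by
      rw [intervalIntegral.integral_const_mul, intervalIntegral.integral_add, hM,
        intervalIntegral.integral_mul_const, hm, zero_add]
      · exact (hGc 0 h00 (fun t : ℝ => t) (fun _ => r0) continuous_id continuous_const
          (fun _ => hr0)).intervalIntegrable _ _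
      · exact (hg0c.mul continuous_const).intervalIntegrable _ _
    rw [← hI1, ← hI2, ← intervalIntegral.integral_sub hint (hc2.intervalIntegrable _ _)]
    have hb := intervalIntegral.norm_integral_le_of_norm_le_const (a := 0) (b := T)
      (f := fun t => f t (α x t) - ε * (G 0 t r0 + g0 t * (x - r0)))
      (C := ε * (|m| * ρ1 / (32 * Real.pi) + |m| / (8 * Real.pi) * |x - r0|)) ?_
    · rw [sub_zero, abs_of_pos hTpos, Real.norm_eq_abs] at hb
      exact hb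
    · intro t ht
      have ht' : t ∈ Icc (-1) (T + 1) := by
        rw [uIoc_of_le hTpos.le] at ht
        exact ⟨by linarith [ht.1], by linarith [ht.2]⟩
      obtain ⟨c1, c2, c3, c4⟩ := hclose x hx t ht'
      simp only [hf, c4]
      rw [← mul_sub, norm_mul, Real.norm_eq_abs, Real.norm_eq_abs, abs_of_pos hεpos]
      apply mul_le_mul_of_nonneg_left _ hεpos.le
      have e1 : |G ε t (α x t) - G 0 t x| < |m| * ρ1 / (32 * Real.pi) := by
        apply hu2 ε hεI 0 h00 t _ (hball _ (by linarith)) _ hxI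
        · rw [sub_zero, abs_of_pos hεpos]; exact he3
        · exact c2
      have e2 := hlin 0 h00 hδ1 t x r0 (by linarith) (by rw [sub_self, abs_zero]; positivity)
      have e3 : G ε t (α x t) - (G 0 t r0 + g0 t * (x - r0)) =
        (G ε t (α x t) - G 0 t x) + (G 0 t x - G 0 t r0 - g0 t * (x - r0)) := by ring
      rw [e3]
      exact (abs_add_le _ _).trans (by linarith)
  -- sign at the two ends
  have hTm : ε * (|m| * ρ1 / (32 * Real.pi) + |m| / (8 * Real.pi) * (ρ1 / 2)) * T =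
      ε * (|m| * ρ1 * (3 / 16)) := by
    rw [hT]
    field_simp
    ring
  have habs : |m| * |m| = m * m := abs_mul_abs_self m
  have hmm : 0 < m * m := by rw [← habs]; positivity
  have hend : ∀ s : ℝ, |s| = ρ1 / 2 →
      |m * (α (r0 + s) T - (r0 + s)) - ε * (m * m) * s| ≤ ε * (m * m) * (ρ1 * (3 / 16)) := by
    intro s hs
    have h1 := hdisp (r0 + s) ((hcb _).mpr (by rw [add_sub_cancel_left, hs]))
    rw [add_sub_cancel_left, hs, hTm] at h1
    have h2 : m * (α (r0 + s) T - (r0 + s)) - ε * (m * m) * s =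
      m * ((α (r0 + s) T - (r0 + s)) - ε * (m * s)) := by ring
    rw [h2, abs_mul]
    calc _ ≤ |m| * (ε * (|m| * ρ1 * (3 / 16))) := mul_le_mul_of_nonneg_left h1 hmpos.le
      _ = ε * (|m| * |m|) * (ρ1 * (3/16)) := by ring
      _ = _ := by rw [habs]
  have hem : 0 < ε * (m * m) := mul_pos hεpos hmm
  have hright : 0 ≤ m * (α (r0 + ρ1/2) T - (r0 + ρ1/2)) := by
    have h1 := abs_le.mp (hend (ρ1/2) (abs_of_pos (by positivity)))
    have h2 : 0 < ε * (m * m) * ρ1 := mul_pos hem hρ1pos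
    nlinarith [h1.1]
  have hleft : m * (α (r0 - ρ1/2) T - (r0 - ρ1/2)) ≤ 0 := by
    have h0 := hend (-(ρ1/2)) (by rw [abs_neg]; exact abs_of_pos (by positivity))
    rw [← sub_eq_add_neg] at h0
    have h1 := abs_le.mp h0
    have h2 : 0 < ε * (m * m) * ρ1 := mul_pos hem hρ1pos
    nlinarith [h1.2]
  have hcont : ContinuousOn (fun x => m * (α x T - x)) (Icc (r0 - ρ1/2) (r0 + ρ1/2)) := by
    rw [← Real.closedBall_eq_Icc]
    exact continuousOn_const.mul (hαc.sub continuousOn_id)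
  obtain ⟨x, hx, hx0⟩ := intermediate_value_Icc (by linarith) hcont ⟨hleft, hright⟩
  have hxT : α x T = x := by
    have : α x T - x = 0 := by
      rcases mul_eq_zero.mp hx0 with h | h
      · exact absurd h hm0
      · exact h
    linarith
  have hxb : x ∈ closedBall r0 (ρ1 / 2) := by
    rw [Real.closedBall_eq_Icc]; exact hx
  obtain ⟨a1, a2, a3⟩ := hα x hxb
  obtain ⟨R, hR1, hR2, hR3⟩ := periodic_ext hTpos hflip hfper a2 (by rw [hxT, a1])
  have hRb : ∀ ψ, |R ψ - r0| < ρ1 ∧ cl (R ψ) = R ψ := by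
    intro ψ
    obtain ⟨s, hs, hs2⟩ := hR3 ψ
    have := hclose x hxb s ⟨by linarith [hs.1], by linarith [hs.2]⟩
    rw [hs2]
    exact ⟨this.2.2.1, this.2.2.2⟩
  refine ⟨R, ?_, hR2, fun ψ => (hRb ψ).1, ?_⟩
  · intro ψ
    have := hR1 ψ
    simp only [hf, (hRb ψ).2] at this
    exact this
  -- the weight
  refine ⟨fun ψ => Real.exp (-(ε * P ψ)),
    fun ψ => Real.exp (-(ε * P ψ)) * (-(ε * (g0 ψ - m / T))), ?_, ?_, ?_, ?_⟩
  · intro ψ
    exact (((hPder ψ).const_mul ε).neg).exp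
  · intro ψ
    have h9 : P (ψ + T) = P ψ := hPper ψ
    simp only [h9]
  · intro ψ
    apply exp_small
    rw [abs_neg, abs_mul, abs_of_pos hεpos]
    have := hPB ψ
    nlinarith
  · intro ψ r hr hrR
    have hω : 0 < Real.exp (-(ε * P ψ)) := Real.exp_pos _
    set w := Real.exp (-(ε * P ψ)) with hw
    have e2 := hlin ε hεI he2 ψ r (R ψ) hr (by linarith [(hRb ψ).1])
    set e := G ε ψ r - G ε ψ (R ψ) - g0 ψ * (r - R ψ) with he
    have hdiff : r - R ψ ≠ 0 := sub_ne_zero.mpr hrR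
    have hd2 : 0 < |r - R ψ| := abs_pos.mpr hdiff
    have h1 : m * ((r - R ψ) * (ε * (G ε ψ r - G ε ψ (R ψ)) * w +
        (r - R ψ) * (w * (-(ε * (g0 ψ - m / T)))))) =
        ε * w * (m * (r - R ψ) * e + (m * m) * ((r - R ψ) * (r - R ψ)) / T) := by
      rw [he]; ring
    rw [h1]
    apply mul_pos (mul_pos hεpos hω)
    have h2 : -(m * (r - R ψ) * e) ≤ |m| * |r - R ψ| * |e| := by
      rw [← abs_mul, ← abs_mul]
      exact neg_le_abs _
    have h3 : |m| * |r - R ψ| * |e| ≤ |m| * |r - R ψ| * (|m| / (8 * Real.pi) * |r - R ψ|) :=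
      mul_le_mul_of_nonneg_left e2 (by positivity)
    have h4 : |m| * |r - R ψ| * (|m| / (8 * Real.pi) * |r - R ψ|) =
      (m * m) * ((r - R ψ) * (r - R ψ)) / (8 * Real.pi) := by
      rw [← abs_mul_abs_self m, ← abs_mul_abs_self (r - R ψ)]; ring
    have h5 : 0 < (m * m) * ((r - R ψ) * (r - R ψ)) := by
      rw [← abs_mul_abs_self (r - R ψ)]; positivity
    have h6 : (m * m) * ((r - R ψ) * (r - R ψ)) / (8 * Real.pi) <
      (m * m) * ((r - R ψ) * (r - R ψ)) / T := by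
      apply div_lt_div_of_pos_left h5 hTpos
      rw [hT]; linarith
    linarith

end Pool.Agent.Helper284.Avg
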