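import Mathlib

set_option autoImplicit false

namespace Pool.Agent.Helper284.LCBase

open Set

/-- `E s = (1 - exp (-s)) / s`, extended by `E 0 = 1`. -/
noncomputable def E (s : ℝ) : ℝ := dslope (fun s : ℝ => 1 - Real.exp (-s)) 0 s

theorem mul_E (s : ℝ) : s * E s = 1 - Real.exp (-s) := by
  by_cases h : s = 0
  · subst h; simp
  · unfold E
    rw [dslope_of_ne _ h, slope_def_field]
    field_simp
    simp
    ring

theorem E_zero : E 0 = 1 := by
  unfold E
  rw [dslope_same]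
  have h : HasDerivAt (fun s : ℝ => 1 - Real.exp (-s)) 1 0 := by
    have h1 : HasDerivAt (fun s : ℝ => -s) (-1) 0 := hasDerivAt_neg 0
    have h2 := (h1.exp).const_sub 1
    simpa using h2
  exact h.deriv

theorem E_of_ne {s : ℝ} (h : s ≠ 0) : E s = (1 - Real.exp (-s)) / s := by
  rw [← mul_E s]; field_simp

theorem E_analyticAt (s : ℝ) : AnalyticAt ℝ E s := by
  by_cases h : s = 0
  · subst h
    have h1 : AnalyticAt ℝ (fun s : ℝ => 1 - Real.exp (-s)) 0 := by fun_prop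
    obtain ⟨p, hp⟩ := h1
    exact (hp.has_fpower_series_dslope_fslope).analyticAt
  · have h1 : E =ᶠ[nhds s] fun s => (1 - Real.exp (-s)) / s := by
      filter_upwards [isOpen_ne.mem_nhds h] with t ht
      exact E_of_ne ht
    refine AnalyticAt.congr ?_ h1.symm
    exact AnalyticAt.div (by fun_prop) (by fun_prop) h

theorem E_contDiff {n : WithTop ℕ∞} : ContDiff ℝ n E := by
  rw [contDiff_iff_contDiffAt]
  intro s
  exact (E_analyticAt s).contDiffAt

theorem E_pos (s : ℝ) : 0 < E s := by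
  by_cases h : s = 0
  · rw [h, E_zero]; norm_num
  · rw [E_of_ne h]
    rcases lt_or_gt_of_ne h with h | h
    · apply div_pos_of_neg_of_neg _ h
      have : 1 < Real.exp (-s) := by rw [Real.one_lt_exp_iff]; linarith
      linarith
    · apply div_pos _ h
      have : Real.exp (-s) < 1 := by rw [Real.exp_lt_one_iff]; linarith
      linarith

/-- `κ r = (1 + r^2) e^{-r^2}` labels the level curves. -/
noncomputable def kap (r : ℝ) : ℝ := (1 + r ^ 2) * Real.exp (-r ^ 2)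

theorem kap_cont : Continuous kap := by unfold kap; fun_prop

theorem kap_zero : kap 0 = 1 := by simp [kap]

theorem kap_pos (r : ℝ) : 0 < kap r := by unfold kap; positivity

theorem kap_hasDerivAt (r : ℝ) : HasDerivAt kap (-(2 * r ^ 3 * Real.exp (-r ^ 2))) r := by
  have h1 : HasDerivAt (fun r : ℝ => r ^ 2) (2 * r) r := by
    simpa using hasDerivAt_pow 2 r
  have h2 := (h1.const_add 1).mul (h1.neg.exp)
  refine h2.congr_deriv ?_
  simp only [Pi.neg_apply]
  ring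

theorem kap_strictAnti : StrictAntiOn kap (Ici 0) := by
  apply strictAntiOn_of_deriv_neg (convex_Ici 0) kap_cont.continuousOn
  intro r hr
  rw [interior_Ici] at hr
  have hr' : (0:ℝ) < r := hr
  rw [(kap_hasDerivAt r).deriv]
  have : 0 < 2 * r ^ 3 * Real.exp (-r ^ 2) := by positivity
  linarith

theorem kap_lt_one {r : ℝ} (hr : 0 < r) : kap r < 1 := by
  rw [← kap_zero]
  exact kap_strictAnti (mem_Ici.mpr le_rfl) (mem_Ici.mpr hr.le) hr

theorem kap_tendsto : Filter.Tendsto kap Filter.atTop (nhds 0) := by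
  have h1 : Filter.Tendsto (fun y : ℝ => (1 + y) * Real.exp (-y)) Filter.atTop (nhds 0) := by
    have ha := Real.tendsto_pow_mul_exp_neg_atTop_nhds_zero 0
    have hb := Real.tendsto_pow_mul_exp_neg_atTop_nhds_zero 1
    have := ha.add hb
    simp only [pow_zero, one_mul, pow_one, add_zero] at this
    refine this.congr (fun y => ?_)
    ring
  have h2 : Filter.Tendsto (fun r : ℝ => r ^ 2) Filter.atTop Filter.atTop :=
    Filter.tendsto_pow_atTop (by norm_num)
  exact h1.comp h2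

theorem kap_surj {c : ℝ} (h0 : 0 < c) (h1 : c < 1) : ∃ r, 0 < r ∧ kap r = c := by
  have h2 : ∀ᶠ r in Filter.atTop, kap r < c := kap_tendsto.eventually (gt_mem_nhds h0)
  obtain ⟨r1, hr1, hr1'⟩ := (h2.and (Filter.eventually_gt_atTop 0)).exists
  have h3 : c ∈ Icc (kap r1) (kap 0) := ⟨hr1.le, by rw [kap_zero]; exact h1.le⟩
  obtain ⟨r, hr, hrc⟩ := intermediate_value_Icc' hr1'.le kap_cont.continuousOn h3
  refine ⟨r, ?_, hrc⟩
  rcases eq_or_lt_of_le hr.1 with h | h
  · rw [← h, kap_zero] at hrc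
    linarith
  · exact h

/-- the squared second coordinate divided by `r^2 sin^2` -/
noncomputable def Sf (r ψ : ℝ) : ℝ := (1 + r ^ 2) * E (r ^ 2 * Real.sin ψ ^ 2) - 1

noncomputable def Tf (r ψ : ℝ) : ℝ := Real.sqrt (Sf r ψ)

theorem Sf_pos {r : ℝ} (hr : 0 < r) (ψ : ℝ) : 0 < Sf r ψ := by
  unfold Sf
  set s := r ^ 2 * Real.sin ψ ^ 2 with hs
  have hs0 : 0 ≤ s := by positivity
  have hs1 : s ≤ r ^ 2 := by
    rw [hs]
    have := Real.sin_sq_le_one ψ
    nlinarith [sq_nonneg r]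
  rcases eq_or_lt_of_le hs0 with h | h
  · rw [← h, E_zero]
    have : 0 < r ^ 2 := by positivity
    linarith
  · rw [E_of_ne h.ne', ← mul_div_assoc, sub_pos, one_lt_div h]
    have h1 : (1 + s) * Real.exp (-s) < 1 := by
      rw [Real.exp_neg, ← div_eq_mul_inv, div_lt_one (Real.exp_pos s), add_comm]
      exact Real.add_one_lt_exp h.ne'
    have h2 : Real.exp (-s) < 1 := by rw [Real.exp_lt_one_iff]; linarith
    nlinarith

theorem Tf_pos {r : ℝ} (hr : 0 < r) (ψ : ℝ) : 0 < Tf r ψ := Real.sqrt_pos.mpr (Sf_pos hr ψ)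

theorem Tf_sq {r : ℝ} (hr : 0 < r) (ψ : ℝ) : Tf r ψ ^ 2 = Sf r ψ := Real.sq_sqrt (Sf_pos hr ψ).le

/-- coordinates -/
noncomputable def xf (r ψ : ℝ) : ℝ := r * Real.cos ψ
noncomputable def uf (r ψ : ℝ) : ℝ := -(r * Real.sin ψ * Tf r ψ)

theorem uf_sq {r : ℝ} (hr : 0 < r) (ψ : ℝ) : uf r ψ ^ 2 =
    (1 + r ^ 2) * (1 - Real.exp (-(r ^ 2 * Real.sin ψ ^ 2))) - r ^ 2 * Real.sin ψ ^ 2 := by
  unfold uf
  have h1 := Tf_sq hr ψ
  have h2 := mul_E (r ^ 2 * Real.sin ψ ^ 2)
  unfold Sf at h1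
  rw [← h2]
  linear_combination (r ^ 2 * Real.sin ψ ^ 2) * h1

/-- first integral of the unperturbed system -/
noncomputable def Cf (x u : ℝ) : ℝ := Real.exp (-x ^ 2) * (1 + x ^ 2 - u ^ 2)

theorem Cf_coord {r : ℝ} (hr : 0 < r) (ψ : ℝ) : Cf (xf r ψ) (uf r ψ) = kap r := by
  unfold Cf kap
  rw [uf_sq hr]
  unfold xf
  have h1 := Real.sin_sq_add_cos_sq ψ
  have h2 : (r * Real.cos ψ) ^ 2 = r ^ 2 - r ^ 2 * Real.sin ψ ^ 2 := by
    linear_combination r ^ 2 * h1
  rw [h2]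
  have h3 : Real.exp (-(r ^ 2 - r ^ 2 * Real.sin ψ ^ 2)) * Real.exp (-(r ^ 2 * Real.sin ψ ^ 2))
      = Real.exp (-r ^ 2) := by rw [← Real.exp_add]; congr 1; ring
  linear_combination (1 + r ^ 2) * h3

theorem Tf_congr {r ψ ψ' : ℝ} (h : Real.sin ψ ^ 2 = Real.sin ψ' ^ 2) : Tf r ψ = Tf r ψ' := by
  unfold Tf Sf; rw [h]

/-- injectivity of the coordinates -/
theorem coord_inj {r r' ψ ψ' : ℝ} (hr : 0 < r) (hr' : 0 < r') (hx : xf r ψ = xf r' ψ')
    (hu : uf r ψ = uf r' ψ') : r = r' ∧ ∃ k : ℤ, ψ = ψ' + k * (2 * Real.pi) := by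
  have hk : kap r = kap r' := by rw [← Cf_coord hr ψ, ← Cf_coord hr' ψ', hx, hu]
  have hrr : r = r' := kap_strictAnti.injOn (mem_Ici.mpr hr.le) (mem_Ici.mpr hr'.le) hk
  subst hrr
  refine ⟨rfl, ?_⟩
  have hcos : Real.cos ψ = Real.cos ψ' := mul_left_cancel₀ hr.ne' hx
  have hsq : Real.sin ψ ^ 2 = Real.sin ψ' ^ 2 := by
    rw [Real.sin_sq, Real.sin_sq, hcos]
  have hsin : Real.sin ψ = Real.sin ψ' := by
    unfold uf at hu
    rw [Tf_congr hsq] at hu
    have hT := Tf_pos hr ψ'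
    have h1 : (r * Tf r ψ') * Real.sin ψ = (r * Tf r ψ') * Real.sin ψ' := by linarith
    exact mul_left_cancel₀ (by positivity) h1
  have h2 : Complex.exp (ψ * Complex.I) = Complex.exp (ψ' * Complex.I) := by
    rw [Complex.exp_mul_I, Complex.exp_mul_I, ← Complex.ofReal_cos, ← Complex.ofReal_sin,
      ← Complex.ofReal_cos, ← Complex.ofReal_sin, hcos, hsin]
  rw [Complex.exp_eq_exp_iff_exists_int] at h2
  obtain ⟨k, hk⟩ := h2
  refine ⟨k, ?_⟩
  have h3 := congrArg Complex.im hk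
  simpa using h3

/-- surjectivity of the coordinates -/
theorem coord_surj {x u : ℝ} (h0 : 0 < Cf x u) (h1 : Cf x u < 1) :
    ∃ r ψ : ℝ, 0 < r ∧ kap r = Cf x u ∧ xf r ψ = x ∧ uf r ψ = u := by
  obtain ⟨r, hr, hk⟩ := kap_surj h0 h1
  have hxr : x ^ 2 ≤ r ^ 2 := by
    by_contra hcon
    push Not at hcon
    have h2 : r < |x| := by
      rw [← abs_of_pos hr]; exact sq_lt_sq.mp hcon
    have h3 : kap |x| < kap r := kap_strictAnti (mem_Ici.mpr hr.le) (mem_Ici.mpr (abs_nonneg x)) h2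
    have h4 : Cf x u ≤ kap |x| := by
      unfold Cf kap
      rw [sq_abs]
      have := Real.exp_pos (-x ^ 2)
      nlinarith [sq_nonneg u]
    linarith
  have hxr' : |x| ≤ r := by
    have := sq_le_sq.mp hxr
    rwa [abs_of_pos hr] at this
  have hq : -1 ≤ x / r ∧ x / r ≤ 1 := by
    obtain ⟨ha, hb⟩ := abs_le.mp hxr'
    constructor
    · rw [le_div_iff₀ hr]; linarith
    · rw [div_le_one hr]; exact hb
  -- an angle with the right cosine
  set φ := Real.arccos (x / r) with hφ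
  have hcos : Real.cos φ = x / r := Real.cos_arccos hq.1 hq.2
  have hxφ : xf r φ = x := by unfold xf; rw [hcos]; field_simp
  have hsq : uf r φ ^ 2 = u ^ 2 := by
    have h5 := Cf_coord hr φ
    rw [hxφ, hk] at h5
    unfold Cf at h5
    have h6 := mul_left_cancel₀ (Real.exp_pos (-x ^ 2)).ne' h5
    linarith
  rcases sq_eq_sq_iff_eq_or_eq_neg.mp hsq with h | h
  · exact ⟨r, φ, hr, hk, hxφ, h⟩
  · refine ⟨r, -φ, hr, hk, ?_, ?_⟩
    · unfold xf at hxφ ⊢; rw [Real.cos_neg]; exact hxφ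
    · unfold uf at h ⊢
      have : Tf r (-φ) = Tf r φ := Tf_congr (by rw [Real.sin_neg]; ring)
      rw [this, Real.sin_neg]
      linarith

end Pool.Agent.Helper284.LCBase
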