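import Mathlib
import Pool.Agent.Helper284.LCBase

set_option autoImplicit false

namespace Pool.Agent.Helper284.LCField

open Set Pool.Agent.Helper284.LCBase

noncomputable def ff (a b r ψ : ℝ) : ℝ := a + b * xf r ψ ^ 2 + uf r ψ ^ 2

noncomputable def hf (a b r ψ : ℝ) : ℝ :=
  Real.exp (r ^ 2 * Real.sin ψ ^ 2) * Sf r ψ * ff a b r ψ / r ^ 2

noncomputable def Om (a b ε r ψ : ℝ) : ℝ := Tf r ψ + ε * hf a b r ψ * (Real.sin ψ * Real.cos ψ)

/-- the second component of the planar field in the coordinates `(x,u)` -/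
noncomputable def vf (a b ε x u : ℝ) : ℝ := -x ^ 3 + x * u ^ 2 + ε * u * (a + b * x ^ 2 + u ^ 2)

theorem Tf_deriv {r ψ : ℝ → ℝ} {t r' ψ' : ℝ} (hr0 : 0 < r t) (hr : HasDerivAt r r' t)
    (hψ : HasDerivAt ψ ψ' t) : ∃ τ', HasDerivAt (fun t => Tf (r t) (ψ t)) τ' t := by
  have hE : DifferentiableAt ℝ E (r t ^ 2 * Real.sin (ψ t) ^ 2) :=
    (E_analyticAt _).differentiableAt
  have h1 : DifferentiableAt ℝ (fun t => r t ^ 2 * Real.sin (ψ t) ^ 2) t :=
    ((hr.differentiableAt).pow 2).mul ((hψ.differentiableAt.sin).pow 2)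
  have h2 : DifferentiableAt ℝ (fun t => E (r t ^ 2 * Real.sin (ψ t) ^ 2)) t :=
    DifferentiableAt.comp t hE h1
  have h3 : DifferentiableAt ℝ (fun t => Sf (r t) (ψ t)) t := by
    unfold Sf
    exact ((((hr.differentiableAt).pow 2).const_add 1).mul h2).sub_const 1
  have h4 : DifferentiableAt ℝ (fun t => Tf (r t) (ψ t)) t := by
    unfold Tf
    exact h3.sqrt (Sf_pos hr0 _).ne'
  exact ⟨_, h4.hasDerivAt⟩

theorem planar_deriv {a b ε : ℝ} {r ψ : ℝ → ℝ} {t : ℝ} (hr0 : 0 < r t)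
    (hr : HasDerivAt r (ε * (r t * hf a b (r t) (ψ t) * Real.sin (ψ t) ^ 2)) t)
    (hψ : HasDerivAt ψ (Om a b ε (r t) (ψ t)) t) :
    HasDerivAt (fun t => xf (r t) (ψ t)) (uf (r t) (ψ t)) t ∧
    HasDerivAt (fun t => uf (r t) (ψ t)) (vf a b ε (xf (r t) (ψ t)) (uf (r t) (ψ t))) t := by
  have hsc := Real.sin_sq_add_cos_sq (ψ t)
  constructor
  · have h1 := hr.mul hψ.cos
    refine h1.congr_deriv ?_
    unfold uf Om
    ring
  · obtain ⟨τ', hτ⟩ := Tf_deriv hr0 hr hψ
    have h1 := ((hr.mul hψ.sin).mul hτ).neg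
    have h2 : HasDerivAt (fun t => uf (r t) (ψ t))
        (-((ε * (r t * hf a b (r t) (ψ t) * Real.sin (ψ t) ^ 2) * Real.sin (ψ t)
          + r t * (Real.cos (ψ t) * Om a b ε (r t) (ψ t))) * Tf (r t) (ψ t)
          + r t * Real.sin (ψ t) * τ')) t := h1
    refine h2.congr_deriv ?_
    by_cases hs : Real.sin (ψ t) = 0
    · have hc2 : Real.cos (ψ t) ^ 2 = 1 := by rw [hs] at hsc; linarith
      have hT := Tf_sq hr0 (ψ t)
      have hS : Sf (r t) (ψ t) = r t ^ 2 := by
        unfold Sf; rw [hs]; simp [E_zero]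
      rw [hS] at hT
      unfold vf
      have hu : uf (r t) (ψ t) = 0 := by unfold uf; rw [hs]; ring
      have hO : Om a b ε (r t) (ψ t) = Tf (r t) (ψ t) := by unfold Om; rw [hs]; ring
      rw [hu, hO, hs]
      unfold xf
      linear_combination (-(r t * Real.cos (ψ t))) * hT + (r t ^ 3 * Real.cos (ψ t)) * hc2
    · -- use the formula for the square
      have hu0 : uf (r t) (ψ t) ≠ 0 := by
        unfold uf
        have hT := Tf_pos hr0 (ψ t)
        exact neg_ne_zero.mpr (mul_ne_zero (mul_ne_zero hr0.ne' hs) hT.ne')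
      have hsq1 := h2.pow 2
      have hs1 : HasDerivAt (fun t => r t ^ 2 * Real.sin (ψ t) ^ 2)
          (2 * r t * (ε * (r t * hf a b (r t) (ψ t) * Real.sin (ψ t) ^ 2)) * Real.sin (ψ t) ^ 2
            + r t ^ 2 * (2 * Real.sin (ψ t) * (Real.cos (ψ t) * Om a b ε (r t) (ψ t)))) t := by
        have := (hr.pow 2).mul (hψ.sin.pow 2)
        refine this.congr_deriv ?_
        simp
      have hsq2 : HasDerivAt (fun t => (1 + r t ^ 2) *
          (1 - Real.exp (-(r t ^ 2 * Real.sin (ψ t) ^ 2))) - r t ^ 2 * Real.sin (ψ t) ^ 2)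
          (2 * r t * (ε * (r t * hf a b (r t) (ψ t) * Real.sin (ψ t) ^ 2)) *
            (1 - Real.exp (-(r t ^ 2 * Real.sin (ψ t) ^ 2)))
            + ((1 + r t ^ 2) * Real.exp (-(r t ^ 2 * Real.sin (ψ t) ^ 2)) - 1) *
            (2 * r t * (ε * (r t * hf a b (r t) (ψ t) * Real.sin (ψ t) ^ 2)) * Real.sin (ψ t) ^ 2
            + r t ^ 2 * (2 * Real.sin (ψ t) * (Real.cos (ψ t) * Om a b ε (r t) (ψ t))))) t := by
        have := (((hr.pow 2).const_add 1).mul ((hs1.neg.exp).const_sub 1)).sub hs1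
        refine this.congr_deriv ?_
        simp
        ring
      have hev : (fun t => uf (r t) (ψ t) ^ 2) =ᶠ[nhds t] (fun t => (1 + r t ^ 2) *
          (1 - Real.exp (-(r t ^ 2 * Real.sin (ψ t) ^ 2))) - r t ^ 2 * Real.sin (ψ t) ^ 2) := by
        have : ∀ᶠ t' in nhds t, 0 < r t' := hr.continuousAt.eventually (lt_mem_nhds hr0)
        filter_upwards [this] with t' ht'
        exact uf_sq ht' _
      have hun := (hsq1.congr_of_eventuallyEq hev.symm).unique hsq2
      set D := -((ε * (r t * hf a b (r t) (ψ t) * Real.sin (ψ t) ^ 2) * Real.sin (ψ t)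
          + r t * (Real.cos (ψ t) * Om a b ε (r t) (ψ t))) * Tf (r t) (ψ t)
          + r t * Real.sin (ψ t) * τ') with hD
      have hT := Tf_sq hr0 (ψ t)
      have husq := uf_sq hr0 (ψ t)
      have hE := mul_E (r t ^ 2 * Real.sin (ψ t) ^ 2)
      have hee : Real.exp (r t ^ 2 * Real.sin (ψ t) ^ 2) *
          Real.exp (-(r t ^ 2 * Real.sin (ψ t) ^ 2)) = 1 := by rw [← Real.exp_add]; simp
      have hh : hf a b (r t) (ψ t) * r t ^ 2 * Real.exp (-(r t ^ 2 * Real.sin (ψ t) ^ 2)) *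
          (r t ^ 2 * Real.sin (ψ t) ^ 2) = uf (r t) (ψ t) ^ 2 * ff a b (r t) (ψ t) := by
        have h5 : uf (r t) (ψ t) ^ 2 = r t ^ 2 * Real.sin (ψ t) ^ 2 * Sf (r t) (ψ t) := by
          unfold uf; linear_combination (r t ^ 2 * Real.sin (ψ t) ^ 2) * hT
        unfold hf
        rw [h5]
        have hr0' := hr0.ne'
        field_simp
        linear_combination (Sf (r t) (ψ t) * ff a b (r t) (ψ t)) * hee
      have key : 2 * uf (r t) (ψ t) * D
          = 2 * uf (r t) (ψ t) * vf a b ε (xf (r t) (ψ t)) (uf (r t) (ψ t)) := by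
        have h6 : 2 * uf (r t) (ψ t) * D =
          2 * r t * (ε * (r t * hf a b (r t) (ψ t) * Real.sin (ψ t) ^ 2)) *
            (1 - Real.exp (-(r t ^ 2 * Real.sin (ψ t) ^ 2)))
            + ((1 + r t ^ 2) * Real.exp (-(r t ^ 2 * Real.sin (ψ t) ^ 2)) - 1) *
            (2 * r t * (ε * (r t * hf a b (r t) (ψ t) * Real.sin (ψ t) ^ 2)) * Real.sin (ψ t) ^ 2
            + r t ^ 2 * (2 * Real.sin (ψ t) * (Real.cos (ψ t) * Om a b ε (r t) (ψ t)))) := by
          rw [← hun]; simp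
        rw [h6]
        unfold vf Om
        have hff : ff a b (r t) (ψ t) = a + b * xf (r t) (ψ t) ^ 2 + uf (r t) (ψ t) ^ 2 := rfl
        rw [← hff]
        have hu1 : uf (r t) (ψ t) * xf (r t) (ψ t) =
            -(r t ^ 2 * Real.sin (ψ t) * Real.cos (ψ t) * Tf (r t) (ψ t)) := by
          unfold uf xf; ring
        have hx2 : xf (r t) (ψ t) ^ 2 = r t ^ 2 * Real.cos (ψ t) ^ 2 := by unfold xf; ring
        generalize uf (r t) (ψ t) = U at *
        generalize xf (r t) (ψ t) = X at *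
        generalize ff a b (r t) (ψ t) = f at *
        generalize hf a b (r t) (ψ t) = h at *
        generalize Tf (r t) (ψ t) = T at *
        generalize Real.exp (-(r t ^ 2 * Real.sin (ψ t) ^ 2)) = e at *
        generalize Real.sin (ψ t) = σ at *
        generalize Real.cos (ψ t) = c at *
        generalize r t = ρ at *
        linear_combination (((1 + ρ ^ 2) * e - 1) * (2 * ρ ^ 2 * ε * h * σ ^ 2)) * hsc
          - 2 * (U ^ 2 - X ^ 2) * hu1 + 2 * ρ ^ 2 * σ * c * T * (husq - hx2 - ρ ^ 2 * hsc)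
          + 2 * ε * hh
      exact mul_left_cancel₀ (mul_ne_zero two_ne_zero hu0) key

end Pool.Agent.Helper284.LCField
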