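import Mathlib
import Pool.Agent.Helper284.PFPeriod
import Pool.Agent.Helper284.LCBase
import Pool.Agent.Helper284.LCField

set_option autoImplicit false

namespace Pool.Agent.Helper284.LCPlane

open Set Pool.Agent.Helper284.LCBase Pool.Agent.Helper284.LCField Pool.Agent.Helper284.PFPeriod

/-! ### time change -/

theorem time_change {Ω : ℝ → ℝ} (hc : Continuous Ω) (hpos : ∀ x, 0 < Ω x)
    (hper : ∀ x, Ω (x + 2 * Real.pi) = Ω x) :
    ∃ ψ : ℝ → ℝ, ∃ T0 : ℝ, 0 < T0 ∧ (∀ t, HasDerivAt ψ (Ω (ψ t)) t) ∧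
      (∀ t, ψ (t + T0) = ψ t + 2 * Real.pi) ∧ Function.Surjective ψ := by
  have hci : Continuous (fun x => (Ω x)⁻¹) := hc.inv₀ (fun x => (hpos x).ne')
  set τ : ℝ → ℝ := fun x => ∫ y in (0:ℝ)..x, (Ω y)⁻¹ with hτ
  have hτd : ∀ x, HasDerivAt τ (Ω x)⁻¹ x := fun x => (hci.integral_hasStrictDerivAt 0 x).hasDerivAt
  -- lower bound of the derivative
  obtain ⟨x0, _, hx0⟩ := (isCompact_Icc (a := (0:ℝ)) (b := 2 * Real.pi)).exists_isMinOn
    (nonempty_Icc.mpr (by positivity)) hci.continuousOn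
  have hperi : Function.Periodic (fun x => (Ω x)⁻¹) (2 * Real.pi) := by
    intro x; simp only; rw [hper]
  have hlb : ∀ x, (Ω x0)⁻¹ ≤ (Ω x)⁻¹ := by
    intro x
    obtain ⟨y, hy, hxy⟩ := hperi.exists_mem_Ico₀ (by positivity) x
    rw [hxy]
    exact hx0 ⟨hy.1, hy.2.le⟩
  have hc0 : 0 < (Ω x0)⁻¹ := inv_pos.mpr (hpos x0)
  have hmono := strictMono_of_deriv hc0 hτd hlb
  have hsurj := surj_of_deriv hc0 hτd hlb
  have hcont : Continuous τ := continuous_iff_continuousAt.mpr (fun x => (hτd x).continuousAt)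
  obtain ⟨ψ, hψ⟩ := hsurj.hasRightInverse
  have hψ2 : ∀ x, ψ (τ x) = x := fun x => hmono.injective (hψ (τ x))
  have hψmono : StrictMono ψ := by
    intro s t hst
    rw [← hmono.lt_iff_lt, hψ, hψ]; exact hst
  have hψcont : Continuous ψ := hψmono.monotone.continuous_of_surjective (fun x => ⟨τ x, hψ2 x⟩)
  have hadd : ∀ x, τ (x + 2 * Real.pi) = τ x + τ (2 * Real.pi) := by
    intro x
    have h1 := hperi.intervalIntegral_add_eq x 0
    simp only [hτ]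
    rw [zero_add] at h1
    rw [← h1]
    exact (intervalIntegral.integral_add_adjacent_intervals (hci.intervalIntegrable _ _)
      (hci.intervalIntegrable _ _)).symm
  refine ⟨ψ, τ (2 * Real.pi), ?_, ?_, ?_, fun x => ⟨τ x, hψ2 x⟩⟩
  · have h0 : τ 0 = 0 := by simp [hτ]
    rw [← h0]
    exact hmono (by positivity)
  · intro t
    have h1 := HasDerivAt.of_local_left_inverse hψcont.continuousAt (hτd (ψ t))
      (inv_pos.mpr (hpos _)).ne' (Filter.Eventually.of_forall hψ)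
    simpa using h1
  · intro t
    apply hmono.injective
    rw [hadd, hψ, hψ]

/-! ### the vector field -/

noncomputable def V (a b ε : ℝ) (p : ℝ × ℝ) : ℝ × ℝ := (p.2, vf a b ε p.1 p.2)

theorem V_contDiff (a b ε : ℝ) : ContDiff ℝ 1 (V a b ε) := by
  unfold V vf
  fun_prop

theorem local_unique {a b ε : ℝ} {f g : ℝ → ℝ × ℝ} {t0 : ℝ}
    (hf : ∀ᶠ t in nhds t0, HasDerivAt f (V a b ε (f t)) t)
    (hg : ∀ᶠ t in nhds t0, HasDerivAt g (V a b ε (g t)) t) (h : f t0 = g t0) :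
    f =ᶠ[nhds t0] g := by
  obtain ⟨K, s, hs, hK⟩ := ((V_contDiff a b ε).contDiffAt (x := f t0)).exists_lipschitzOnWith
  have hfc : ContinuousAt f t0 := hf.self_of_nhds.continuousAt
  have hgc : ContinuousAt g t0 := hg.self_of_nhds.continuousAt
  refine ODE_solution_unique_of_eventually (v := fun _ => V a b ε) (s := fun _ => s) (K := K)
    (Filter.Eventually.of_forall (fun _ => hK)) ?_ ?_ h
  · filter_upwards [hf, hfc hs] with t h1 h2 using ⟨h1, h2⟩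
  · rw [h] at hs
    filter_upwards [hg, hgc hs] with t h1 h2 using ⟨h1, h2⟩

theorem global_unique {a b ε : ℝ} {f g : ℝ → ℝ × ℝ} {t0 : ℝ}
    (hf : ∀ t, HasDerivAt f (V a b ε (f t)) t)
    (hg : ∀ t, HasDerivAt g (V a b ε (g t)) t) (h : f t0 = g t0) : f = g := by
  have hfc : Continuous f := continuous_iff_continuousAt.mpr (fun t => (hf t).continuousAt)
  have hgc : Continuous g := continuous_iff_continuousAt.mpr (fun t => (hg t).continuousAt)
  have hclopen : IsClopen {t | f t = g t} := by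
    constructor
    · exact isClosed_eq hfc hgc
    · rw [isOpen_iff_mem_nhds]
      intro t ht
      exact local_unique (Filter.Eventually.of_forall hf) (Filter.Eventually.of_forall hg) ht
  have huniv := hclopen.eq_univ ⟨t0, h⟩
  funext t
  have : t ∈ {t | f t = g t} := by rw [huniv]; trivial
  exact this

/-! ### smoothness of the coordinate field -/

theorem Sf_contDiff {n : WithTop ℕ∞} : ContDiff ℝ n (fun p : ℝ × ℝ => Sf p.1 p.2) := by
  unfold Sf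
  have h1 : ContDiff ℝ n (fun p : ℝ × ℝ => p.1 ^ 2 * Real.sin p.2 ^ 2) := by fun_prop
  exact ((contDiff_const.add (contDiff_fst.pow 2)).mul (E_contDiff.comp h1)).sub contDiff_const

theorem Tf_contDiffAt {n : WithTop ℕ∞} {p : ℝ × ℝ} (hp : 0 < p.1) :
    ContDiffAt ℝ n (fun p : ℝ × ℝ => Tf p.1 p.2) p := by
  unfold Tf
  exact Sf_contDiff.contDiffAt.sqrt (Sf_pos hp _).ne'

theorem ff_contDiffAt {n : WithTop ℕ∞} (a b : ℝ) {p : ℝ × ℝ} (hp : 0 < p.1) :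
    ContDiffAt ℝ n (fun p : ℝ × ℝ => ff a b p.1 p.2) p := by
  have hT := Tf_contDiffAt (n := n) hp
  have hx : ContDiffAt ℝ n (fun p : ℝ × ℝ => xf p.1 p.2) p := by unfold xf; fun_prop
  have hs : ContDiffAt ℝ n (fun p : ℝ × ℝ => p.1 * Real.sin p.2) p := by fun_prop
  have hu : ContDiffAt ℝ n (fun p : ℝ × ℝ => uf p.1 p.2) p := by
    unfold uf; exact (hs.mul hT).neg
  unfold ff
  exact (contDiffAt_const.add (contDiffAt_const.mul (hx.pow 2))).add (hu.pow 2)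

theorem hf_contDiffAt {n : WithTop ℕ∞} (a b : ℝ) {p : ℝ × ℝ} (hp : 0 < p.1) :
    ContDiffAt ℝ n (fun p : ℝ × ℝ => hf a b p.1 p.2) p := by
  have h1 : ContDiffAt ℝ n (fun p : ℝ × ℝ => Real.exp (p.1 ^ 2 * Real.sin p.2 ^ 2)) p := by
    fun_prop
  unfold hf
  exact ((h1.mul Sf_contDiff.contDiffAt).mul (ff_contDiffAt a b hp)).div
    (contDiffAt_fst.pow 2) (pow_ne_zero 2 hp.ne')

/-- the field in coordinates `(r, ψ)` -/
noncomputable def W (a b ε : ℝ) (p : ℝ × ℝ) : ℝ × ℝ :=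
  (ε * (p.1 * hf a b p.1 p.2 * Real.sin p.2 ^ 2), Om a b ε p.1 p.2)

theorem Om_contDiffAt {n : WithTop ℕ∞} (a b ε : ℝ) {p : ℝ × ℝ} (hp : 0 < p.1) :
    ContDiffAt ℝ n (fun p : ℝ × ℝ => Om a b ε p.1 p.2) p := by
  have h1 : ContDiffAt ℝ n (fun p : ℝ × ℝ => Real.sin p.2 * Real.cos p.2) p := by fun_prop
  unfold Om
  exact (Tf_contDiffAt hp).add ((contDiffAt_const.mul (hf_contDiffAt a b hp)).mul h1)

theorem W_contDiffAt {n : WithTop ℕ∞} (a b ε : ℝ) {p : ℝ × ℝ} (hp : 0 < p.1) :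
    ContDiffAt ℝ n (W a b ε) p := by
  have h1 : ContDiffAt ℝ n (fun p : ℝ × ℝ => Real.sin p.2 ^ 2) p := by fun_prop
  unfold W
  exact (contDiffAt_const.mul ((contDiffAt_fst.mul (hf_contDiffAt a b hp)).mul h1)).prodMk
    (Om_contDiffAt a b ε hp)

/-- local representation of planar solutions in the coordinates -/
theorem local_rep {a b ε : ℝ} {γ : ℝ → ℝ × ℝ} (hγ : ∀ t, HasDerivAt γ (V a b ε (γ t)) t)
    {t1 r1 ψ1 : ℝ} (hr1 : 0 < r1) (h1 : γ t1 = (xf r1 ψ1, uf r1 ψ1)) :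
    ∃ r ψ : ℝ → ℝ, r t1 = r1 ∧ ψ t1 = ψ1 ∧ ∀ᶠ t in nhds t1, 0 < r t ∧
      γ t = (xf (r t) (ψ t), uf (r t) (ψ t)) ∧
      HasDerivAt r (ε * (r t * hf a b (r t) (ψ t) * Real.sin (ψ t) ^ 2)) t ∧
      HasDerivAt ψ (Om a b ε (r t) (ψ t)) t := by
  obtain ⟨α, hα, δ, hδ, hαd⟩ :=
    (W_contDiffAt (n := 1) a b ε (p := (r1, ψ1)) hr1).exists_forall_mem_closedBall_exists_eq_forall_mem_Ioo_hasDerivAt₀ t1
  have hev : ∀ᶠ t in nhds t1, HasDerivAt α (W a b ε (α t)) t := by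
    filter_upwards [Ioo_mem_nhds (by linarith : t1 - δ < t1) (by linarith : t1 < t1 + δ)] with t ht
    exact hαd t ht
  have hr : ∀ᶠ t in nhds t1, HasDerivAt (fun t => (α t).1)
      (ε * ((α t).1 * hf a b (α t).1 (α t).2 * Real.sin (α t).2 ^ 2)) t := by
    filter_upwards [hev] with t ht
    exact (hasFDerivAt_fst.comp_hasDerivAt t ht)
  have hψ : ∀ᶠ t in nhds t1, HasDerivAt (fun t => (α t).2)
      (Om a b ε (α t).1 (α t).2) t := by
    filter_upwards [hev] with t ht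
    exact (hasFDerivAt_snd.comp_hasDerivAt t ht)
  have hpos : ∀ᶠ t in nhds t1, 0 < (α t).1 := by
    have hc : ContinuousAt (fun t => (α t).1) t1 := hr.self_of_nhds.continuousAt
    have h2 : (0:ℝ) < (α t1).1 := by rw [hα]; exact hr1
    exact hc.eventually (lt_mem_nhds h2)
  have hZ : ∀ᶠ t in nhds t1, HasDerivAt
      (fun t => (xf (α t).1 (α t).2, uf (α t).1 (α t).2))
      (V a b ε (xf (α t).1 (α t).2, uf (α t).1 (α t).2)) t := by
    filter_upwards [hr, hψ, hpos] with t h2 h3 h4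
    have h5 := planar_deriv (r := fun t => (α t).1) (ψ := fun t => (α t).2) h4 h2 h3
    exact h5.1.prodMk h5.2
  have heq := local_unique (Filter.Eventually.of_forall hγ) hZ (by rw [h1, hα])
  refine ⟨fun t => (α t).1, fun t => (α t).2, by simp only [hα], by simp only [hα], ?_⟩
  filter_upwards [hr, hψ, hpos, heq] with t h2 h3 h4 h5
  exact ⟨h4, h5, h2, h3⟩

/-! ### existence of the planar periodic orbit -/

/-- the scalar right-hand side -/
noncomputable def G (a b ε ψ r : ℝ) : ℝ :=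
  r * hf a b r ψ * Real.sin ψ ^ 2 / Om a b ε r ψ

theorem Tf_per (r ψ : ℝ) : Tf r (ψ + 2 * Real.pi) = Tf r ψ :=
  Tf_congr (by rw [Real.sin_add_two_pi])

theorem xf_per (r ψ : ℝ) : xf r (ψ + 2 * Real.pi) = xf r ψ := by
  unfold xf; rw [Real.cos_add_two_pi]

theorem uf_per (r ψ : ℝ) : uf r (ψ + 2 * Real.pi) = uf r ψ := by
  unfold uf; rw [Real.sin_add_two_pi, Tf_per]

theorem hf_per (a b r ψ : ℝ) : hf a b r (ψ + 2 * Real.pi) = hf a b r ψ := by
  unfold hf ff Sf; rw [Real.sin_add_two_pi, uf_per, xf_per]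

theorem Om_per (a b ε r ψ : ℝ) : Om a b ε r (ψ + 2 * Real.pi) = Om a b ε r ψ := by
  unfold Om; rw [Real.sin_add_two_pi, Real.cos_add_two_pi, hf_per, Tf_per]

theorem G_per (a b ε ψ r : ℝ) : G a b ε (ψ + 2 * Real.pi) r = G a b ε ψ r := by
  unfold G; rw [Real.sin_add_two_pi, hf_per, Om_per]

theorem orbit_exists {a b ε : ℝ} {R : ℝ → ℝ} (hR0 : ∀ ψ, 0 < R ψ)
    (hOm : ∀ ψ, 0 < Om a b ε (R ψ) ψ)
    (hR : ∀ ψ, HasDerivAt R (ε * G a b ε ψ (R ψ)) ψ) (hRper : ∀ ψ, R (ψ + 2 * Real.pi) = R ψ) :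
    ∃ γ : ℝ → ℝ × ℝ, ∃ T0 : ℝ, 0 < T0 ∧ (∀ t, HasDerivAt γ (V a b ε (γ t)) t) ∧
      (∀ t, γ (t + T0) = γ t) ∧ range γ = range (fun ψ => (xf (R ψ) ψ, uf (R ψ) ψ)) := by
  have hRc : Continuous R := continuous_iff_continuousAt.mpr (fun t => (hR t).continuousAt)
  have hΩc : Continuous (fun ψ => Om a b ε (R ψ) ψ) := by
    rw [continuous_iff_continuousAt]
    intro ψ
    have h1 : ContinuousAt (fun p : ℝ × ℝ => Om a b ε p.1 p.2) (R ψ, ψ) :=
      (Om_contDiffAt (n := 1) a b ε (p := (R ψ, ψ)) (hR0 ψ)).continuousAt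
    exact ContinuousAt.comp (f := fun ψ => (R ψ, ψ)) h1 (hRc.prodMk continuous_id).continuousAt
  obtain ⟨ψ, T0, hT0, hψ, hψper, hψs⟩ := time_change hΩc hOm
    (fun x => by rw [hRper, Om_per])
  refine ⟨fun t => (xf (R (ψ t)) (ψ t), uf (R (ψ t)) (ψ t)), T0, hT0, ?_, ?_, ?_⟩
  · intro t
    have h1 : HasDerivAt (fun t => R (ψ t))
        (ε * (R (ψ t) * hf a b (R (ψ t)) (ψ t) * Real.sin (ψ t) ^ 2)) t := by
      have := (hR (ψ t)).comp t (hψ t)
      refine this.congr_deriv ?_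
      unfold G
      have := (hOm (ψ t)).ne'
      field_simp
    have h2 := planar_deriv (r := fun t => R (ψ t)) (ψ := ψ) (hR0 _) h1 (hψ t)
    exact h2.1.prodMk h2.2
  · intro t
    simp only [hψper, hRper, xf_per, uf_per]
  · ext z
    constructor
    · rintro ⟨t, rfl⟩
      exact ⟨ψ t, rfl⟩
    · rintro ⟨x, rfl⟩
      obtain ⟨t, rfl⟩ := hψs x
      exact ⟨t, rfl⟩

/-! ### isolation -/

theorem per_int {f : ℝ → ℝ} (h : ∀ x, f (x + 2 * Real.pi) = f x) (k : ℤ) (x : ℝ) :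
    f (x + k * (2 * Real.pi)) = f x := by
  have hp : Function.Periodic f (2 * Real.pi) := h
  have := hp.int_mul k x
  exact this

theorem isolated {a b ε r0 ρ1 m : ℝ} (hρ1 : 0 < ρ1) (hr0 : 0 < r0 - 16 * ρ1)
    (hOm : ∀ ψ r, |r - r0| ≤ 16 * ρ1 → 0 < Om a b ε r ψ) {R ω ω' : ℝ → ℝ}
    (hR : ∀ ψ, HasDerivAt R (ε * G a b ε ψ (R ψ)) ψ)
    (hRper : ∀ ψ, R (ψ + 2 * Real.pi) = R ψ) (hRr : ∀ ψ, |R ψ - r0| < ρ1)
    (hω : ∀ ψ, HasDerivAt ω (ω' ψ) ψ) (hωper : ∀ ψ, ω (ψ + 2 * Real.pi) = ω ψ)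
    (hωb : ∀ ψ, 1 / 2 < ω ψ ∧ ω ψ < 2)
    (key : ∀ ψ r, |r - r0| ≤ 16 * ρ1 → r ≠ R ψ →
      0 < m * ((r - R ψ) * (ε * (G a b ε ψ r - G a b ε ψ (R ψ)) * ω ψ + (r - R ψ) * ω' ψ)))
    {γ : ℝ → ℝ × ℝ} {T : ℝ} (hT : 0 < T) (hγ : ∀ t, HasDerivAt γ (V a b ε (γ t)) t)
    (hper : ∀ t, γ (t + T) = γ t) {t0 : ℝ}
    (hin : kap (r0 + ρ1) < Cf (γ t0).1 (γ t0).2 ∧ Cf (γ t0).1 (γ t0).2 < kap (r0 - ρ1)) :
    ∃ t1 ψ1, γ t1 = (xf (R ψ1) ψ1, uf (R ψ1) ψ1) := by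
  have hγc : Continuous γ := continuous_iff_continuousAt.mpr (fun t => (hγ t).continuousAt)
  have hC : Continuous (fun p : ℝ × ℝ => Cf p.1 p.2) := by unfold Cf; fun_prop
  have hCt : Continuous (fun t => Cf (γ t).1 (γ t).2) := hC.comp hγc
  -- choose coordinates
  have hch : ∀ t, ∃ p : ℝ × ℝ, (0 < Cf (γ t).1 (γ t).2 ∧ Cf (γ t).1 (γ t).2 < 1) →
      0 < p.1 ∧ kap p.1 = Cf (γ t).1 (γ t).2 ∧ γ t = (xf p.1 p.2, uf p.1 p.2) := by
    intro t
    by_cases h : 0 < Cf (γ t).1 (γ t).2 ∧ Cf (γ t).1 (γ t).2 < 1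
    · obtain ⟨r, ψ, h1, h2, h3, h4⟩ := coord_surj h.1 h.2
      exact ⟨(r, ψ), fun _ => ⟨h1, h2, Prod.ext h3.symm h4.symm⟩⟩
    · exact ⟨(0, 0), fun h' => absurd h' h⟩
  choose c hc using hch
  set v : ℝ → ℝ := fun t => |(c t).1 - R (c t).2| * ω (c t).2 with hv
  -- value of v from any representation
  have hveq : ∀ t r ψ, 0 < r → γ t = (xf r ψ, uf r ψ) → v t = |r - R ψ| * ω ψ := by
    intro t r ψ hr h
    have hCr : Cf (γ t).1 (γ t).2 = kap r := by rw [h]; exact Cf_coord hr ψ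
    have h01 : 0 < Cf (γ t).1 (γ t).2 ∧ Cf (γ t).1 (γ t).2 < 1 := by
      rw [hCr]; exact ⟨kap_pos r, kap_lt_one hr⟩
    obtain ⟨h1, h2, h3⟩ := hc t h01
    rw [h3] at h
    obtain ⟨e1, k, e2⟩ := coord_inj h1 hr (congrArg Prod.fst h) (congrArg Prod.snd h)
    simp only [hv]
    rw [e1, e2, per_int hRper, per_int hωper]
  -- radius estimates from the label
  have hrad : ∀ t δ, 0 < δ → δ ≤ 16 * ρ1 → kap (r0 + δ) ≤ Cf (γ t).1 (γ t).2 →
      Cf (γ t).1 (γ t).2 ≤ kap (r0 - δ) →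
      0 < (c t).1 ∧ |(c t).1 - r0| ≤ δ ∧ γ t = (xf (c t).1 (c t).2, uf (c t).1 (c t).2) := by
    intro t δ hδ hδ2 h1 h2
    have hp1 : 0 < r0 - δ := by linarith
    have h01 : 0 < Cf (γ t).1 (γ t).2 ∧ Cf (γ t).1 (γ t).2 < 1 :=
      ⟨(kap_pos _).trans_le h1, h2.trans_lt (kap_lt_one hp1)⟩
    obtain ⟨h3, h4, h5⟩ := hc t h01
    refine ⟨h3, ?_, h5⟩
    rw [← h4] at h1 h2
    have h6 := (kap_strictAnti.le_iff_ge (mem_Ici.mpr (by linarith : (0:ℝ) ≤ r0 + δ))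
      (mem_Ici.mpr h3.le)).mp h1
    have h7 := (kap_strictAnti.le_iff_ge (mem_Ici.mpr h3.le) (mem_Ici.mpr hp1.le)).mp h2
    rw [abs_le]; constructor <;> linarith
  have hlabel : ∀ t, (0 < (c t).1 ∧ γ t = (xf (c t).1 (c t).2, uf (c t).1 (c t).2)) →
      ∀ δ, 0 < δ → δ ≤ 16 * ρ1 → |(c t).1 - r0| < δ →
      kap (r0 + δ) < Cf (γ t).1 (γ t).2 ∧ Cf (γ t).1 (γ t).2 < kap (r0 - δ) := by
    intro t ht δ hδ hδ2 h
    have hCr : Cf (γ t).1 (γ t).2 = kap (c t).1 := by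
      rw [ht.2]; exact Cf_coord ht.1 _
    rw [hCr]
    obtain ⟨h1, h2⟩ := abs_lt.mp h
    constructor
    · exact kap_strictAnti (mem_Ici.mpr ht.1.le) (mem_Ici.mpr (by linarith)) (by linarith)
    · exact kap_strictAnti (mem_Ici.mpr (by linarith)) (mem_Ici.mpr ht.1.le) (by linarith)
  -- local structure of v
  have hloc : ∀ t1, 0 < (c t1).1 → γ t1 = (xf (c t1).1 (c t1).2, uf (c t1).1 (c t1).2) →
      ∃ r ψ : ℝ → ℝ, r t1 = (c t1).1 ∧ ψ t1 = (c t1).2 ∧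
        HasDerivAt r (ε * (r t1 * hf a b (r t1) (ψ t1) * Real.sin (ψ t1) ^ 2)) t1 ∧
        HasDerivAt ψ (Om a b ε (r t1) (ψ t1)) t1 ∧
        ∀ᶠ t in nhds t1, v t = |r t - R (ψ t)| * ω (ψ t) := by
    intro t1 hr1 h1
    obtain ⟨r, ψ, e1, e2, hev⟩ := local_rep hγ hr1 h1
    refine ⟨r, ψ, e1, e2, hev.self_of_nhds.2.2.1, hev.self_of_nhds.2.2.2, ?_⟩
    filter_upwards [hev] with t ht
    exact hveq t _ _ ht.1 ht.2.1
  have hRc : Continuous R := continuous_iff_continuousAt.mpr (fun t => (hR t).continuousAt)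
  have hωc : Continuous ω := continuous_iff_continuousAt.mpr (fun t => (hω t).continuousAt)
  -- the compact set of times
  set A : Set ℝ := {t | t ∈ Icc 0 T ∧ kap (r0 + 12 * ρ1) ≤ Cf (γ t).1 (γ t).2 ∧
    Cf (γ t).1 (γ t).2 ≤ kap (r0 - 12 * ρ1)} with hA
  have hAcomp : IsCompact A := by
    have h1 : A = Icc 0 T ∩ ({t | kap (r0 + 12 * ρ1) ≤ Cf (γ t).1 (γ t).2} ∩
      {t | Cf (γ t).1 (γ t).2 ≤ kap (r0 - 12 * ρ1)}) := by
      ext t; simp [hA]
    rw [h1]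
    exact isCompact_Icc.inter_right
      ((isClosed_le continuous_const hCt).inter (isClosed_le hCt continuous_const))
  have hvc : ContinuousOn v A := by
    intro t ht
    obtain ⟨h1, h2, h3⟩ := hrad t (12 * ρ1) (by positivity) (by linarith) ht.2.1 ht.2.2
    obtain ⟨r, ψ, e1, e2, d1, d2, hev⟩ := hloc t h1 h3
    apply ContinuousAt.continuousWithinAt
    have h4 : ContinuousAt (fun t => |r t - R (ψ t)| * ω (ψ t)) t :=
      ((d1.continuousAt.sub (ContinuousAt.comp hRc.continuousAt d2.continuousAt)).abs).mul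
        (ContinuousAt.comp hωc.continuousAt d2.continuousAt)
    exact h4.congr (Filter.EventuallyEq.symm hev)
  have hγp : Function.Periodic γ T := hper
  -- the starting point
  obtain ⟨t0', ht0', hγt0⟩ := hγp.exists_mem_Ico₀ hT t0
  rw [hγt0] at hin
  obtain ⟨g1, g2, g3⟩ := hrad t0' ρ1 hρ1 (by linarith) hin.1.le hin.2.le
  have ht0A : t0' ∈ A := by
    have := hlabel t0' ⟨g1, g3⟩ (12 * ρ1) (by positivity) (by linarith) (by linarith)
    exact ⟨⟨ht0'.1, ht0'.2.le⟩, this.1.le, this.2.le⟩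
  obtain ⟨ts, htsA, hmin⟩ := hAcomp.exists_isMinOn ⟨t0', ht0A⟩ hvc
  have hv0 : v t0' < 4 * ρ1 := by
    simp only [hv]
    have h1 : |(c t0').1 - R (c t0').2| < 2 * ρ1 := by
      have h2 := abs_sub_le (c t0').1 r0 (R (c t0').2)
      have h3 := hRr (c t0').2
      rw [abs_sub_comm] at h3
      linarith
    have h4 := hωb (c t0').2
    have h5 := abs_nonneg ((c t0').1 - R (c t0').2)
    nlinarith
  have hvs : v ts < 4 * ρ1 := lt_of_le_of_lt (hmin ht0A) hv0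
  obtain ⟨g4, g5, g6⟩ := hrad ts (12 * ρ1) (by positivity) (by linarith) htsA.2.1 htsA.2.2
  have hrs : |(c ts).1 - r0| < 9 * ρ1 := by
    have h4 := hωb (c ts).2
    have h5 := abs_nonneg ((c ts).1 - R (c ts).2)
    have h6 : |(c ts).1 - R (c ts).2| < 8 * ρ1 := by
      have h7 : |(c ts).1 - R (c ts).2| * ω (c ts).2 < 4 * ρ1 := hvs
      nlinarith
    have h8 := abs_sub_le (c ts).1 (R (c ts).2) r0
    have h9 := hRr (c ts).2
    linarith
  have hlab := hlabel ts ⟨g4, g6⟩ (12 * ρ1) (by positivity) (by linarith) (by linarith)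
  -- local minimum on the whole line
  have hvper : ∀ s t, γ s = γ t → (0 < Cf (γ s).1 (γ s).2 ∧ Cf (γ s).1 (γ s).2 < 1) →
      v s = v t := by
    intro s t hst h01
    obtain ⟨h1, h2, h3⟩ := hc s h01
    rw [hveq s _ _ h1 h3, hveq t _ _ h1 (by rw [← hst]; exact h3)]
  have hlocmin : IsLocalMin v ts := by
    have hop : ∀ᶠ t in nhds ts, kap (r0 + 12 * ρ1) < Cf (γ t).1 (γ t).2 ∧
        Cf (γ t).1 (γ t).2 < kap (r0 - 12 * ρ1) := by
      exact (hCt.continuousAt.eventually (lt_mem_nhds hlab.1)).and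
        (hCt.continuousAt.eventually (gt_mem_nhds hlab.2))
    filter_upwards [hop] with t ht
    obtain ⟨t', ht', hγt'⟩ := hγp.exists_mem_Ico₀ hT t
    have h01 : 0 < Cf (γ t).1 (γ t).2 ∧ Cf (γ t).1 (γ t).2 < 1 :=
      ⟨(kap_pos _).trans ht.1, ht.2.trans (kap_lt_one (by linarith))⟩
    rw [hvper t t' hγt' h01]
    apply hmin
    rw [hγt'] at ht
    exact ⟨⟨ht'.1, ht'.2.le⟩, ht.1.le, ht.2.le⟩
  -- conclude
  refine ⟨ts, (c ts).2, ?_⟩
  by_cases heq : (c ts).1 = R (c ts).2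
  · rw [← heq]; exact g6
  exfalso
  obtain ⟨r, ψ, e1, e2, d1, d2, hev⟩ := hloc ts g4 g6
  have hkey := key (c ts).2 (c ts).1 (by linarith) heq
  have hOmp := hOm (c ts).2 (c ts).1 (by linarith)
  rw [← e1, ← e2] at hkey hOmp
  have dR : HasDerivAt (fun t => R (ψ t)) (ε * G a b ε (ψ ts) (R (ψ ts)) * Om a b ε (r ts) (ψ ts)) ts :=
    (hR (ψ ts)).comp ts d2
  have dω : HasDerivAt (fun t => ω (ψ t)) (ω' (ψ ts) * Om a b ε (r ts) (ψ ts)) ts :=
    (hω (ψ ts)).comp ts d2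
  have dprod := (d1.sub dR).mul dω
  have hprodeq : (ε * (r ts * hf a b (r ts) (ψ ts) * Real.sin (ψ ts) ^ 2)
      - ε * G a b ε (ψ ts) (R (ψ ts)) * Om a b ε (r ts) (ψ ts)) * ω (ψ ts)
      + (r ts - R (ψ ts)) * (ω' (ψ ts) * Om a b ε (r ts) (ψ ts))
      = Om a b ε (r ts) (ψ ts) * (ε * (G a b ε (ψ ts) (r ts) - G a b ε (ψ ts) (R (ψ ts))) * ω (ψ ts)
        + (r ts - R (ψ ts)) * ω' (ψ ts)) := by
    have h1 : G a b ε (ψ ts) (r ts) * Om a b ε (r ts) (ψ ts)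
        = r ts * hf a b (r ts) (ψ ts) * Real.sin (ψ ts) ^ 2 := by
      unfold G; field_simp
    linear_combination (-(ε * ω (ψ ts))) * h1
  have hne : r ts - R (ψ ts) ≠ 0 := by rw [e1, e2]; exact sub_ne_zero.mpr heq
  have hcd : ContinuousAt (fun t => r t - R (ψ t)) ts := (d1.sub dR).continuousAt
  rcases lt_or_gt_of_ne hne with hneg | hpos
  · have hev2 : v =ᶠ[nhds ts] fun t => -((r t - R (ψ t)) * ω (ψ t)) := by
      filter_upwards [hev, hcd.eventually (gt_mem_nhds hneg)] with t h1 h2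
      rw [h1, abs_of_neg h2]; ring
    have hmin2 : IsLocalMin (fun t => -((r t - R (ψ t)) * ω (ψ t))) ts := hlocmin.congr hev2
    have h0 := hmin2.hasDerivAt_eq_zero dprod.neg
    simp only [Pi.sub_apply] at h0
    have h0' : Om a b ε (r ts) (ψ ts) * (ε * (G a b ε (ψ ts) (r ts) - G a b ε (ψ ts) (R (ψ ts)))
        * ω (ψ ts) + (r ts - R (ψ ts)) * ω' (ψ ts)) = 0 := by
      rw [← hprodeq]; linarith
    have h1 := (mul_eq_zero.mp h0').resolve_left hOmp.ne'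
    rw [h1] at hkey
    simp at hkey
  · have hev2 : v =ᶠ[nhds ts] fun t => (r t - R (ψ t)) * ω (ψ t) := by
      filter_upwards [hev, hcd.eventually (lt_mem_nhds hpos)] with t h1 h2
      rw [h1, abs_of_pos h2]
    have hmin2 : IsLocalMin (fun t => (r t - R (ψ t)) * ω (ψ t)) ts := hlocmin.congr hev2
    have h0 := hmin2.hasDerivAt_eq_zero dprod
    simp only [Pi.sub_apply] at h0
    have h0' : Om a b ε (r ts) (ψ ts) * (ε * (G a b ε (ψ ts) (r ts) - G a b ε (ψ ts) (R (ψ ts)))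
        * ω (ψ ts) + (r ts - R (ψ ts)) * ω' (ψ ts)) = 0 := by
      rw [← hprodeq]; exact h0
    have h1 := (mul_eq_zero.mp h0').resolve_left hOmp.ne'
    rw [h1] at hkey
    simp at hkey

end Pool.Agent.Helper284.LCPlane
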