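import Mathlib

set_option autoImplicit false

namespace Pool.Agent.Helper284.Melnikov

/-- upper half of the level curve through `(r,0)` -/
noncomputable def uu (r x : ℝ) : ℝ :=
  Real.sqrt (1 + x ^ 2 - (1 + r ^ 2) * Real.exp (x ^ 2 - r ^ 2))

noncomputable def NN (a b r : ℝ) : ℝ :=
  ∫ x in (0:ℝ)..r, Real.exp (-x ^ 2) * uu r x * (a + b * x ^ 2 + uu r x ^ 2)

noncomputable def ww (x : ℝ) : ℝ := Real.sqrt (1 + x ^ 2)

noncomputable def cc (r : ℝ) : ℝ := (1 + r ^ 2) * Real.exp (-r ^ 2)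

noncomputable def L0 (r : ℝ) : ℝ := ∫ x in (0:ℝ)..r, Real.exp (-x ^ 2) * ww x
noncomputable def L1 (r : ℝ) : ℝ := ∫ x in (0:ℝ)..r, Real.exp (-x ^ 2) * (x ^ 2 * ww x)

lemma ww_cont : Continuous ww := by unfold ww; fun_prop
lemma ww_sq (x : ℝ) : ww x ^ 2 = 1 + x ^ 2 := Real.sq_sqrt (by positivity)
lemma ww_ge_one (x : ℝ) : 1 ≤ ww x := by
  unfold ww; rw [Real.one_le_sqrt]; nlinarith [sq_nonneg x]
lemma ww_ge (x : ℝ) : x ≤ ww x := by
  unfold ww; exact Real.le_sqrt_of_sq_le (by linarith)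
lemma ww_le {x : ℝ} (hx : 0 ≤ x) : ww x ≤ 1 + x := by
  unfold ww; rw [Real.sqrt_le_left (by linarith)]; nlinarith

lemma uu_cont (r : ℝ) : Continuous (uu r) := by unfold uu; fun_prop
lemma cc_pos (r : ℝ) : 0 < cc r := by unfold cc; positivity

lemma key_one_add_exp {s t : ℝ} (hs : 0 ≤ s) (hst : s ≤ t) :
    (1 + t) * Real.exp (s - t) ≤ 1 + s := by
  have h1 : 1 + (t - s) ≤ Real.exp (t - s) := by linarith [Real.add_one_le_exp (t - s)]
  have h2 : Real.exp (s - t) * Real.exp (t - s) = 1 := by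
    rw [← Real.exp_add]; simp
  have h3 : 0 < Real.exp (s - t) := Real.exp_pos _
  have h4 : (1 + t) ≤ (1 + s) * (1 + (t - s)) := by nlinarith
  have h5 : (1 + t) ≤ (1 + s) * Real.exp (t - s) := by nlinarith
  calc (1 + t) * Real.exp (s - t) ≤ ((1 + s) * Real.exp (t - s)) * Real.exp (s - t) := by
        exact mul_le_mul_of_nonneg_right h5 h3.le
    _ = (1 + s) := by rw [mul_assoc, mul_comm (Real.exp (t - s)), h2, mul_one]

lemma uu_sq {r x : ℝ} (hx : 0 ≤ x) (hxr : x ≤ r) :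
    uu r x ^ 2 = ww x ^ 2 - cc r * Real.exp (x ^ 2) := by
  have h : (1 + r ^ 2) * Real.exp (x ^ 2 - r ^ 2) ≤ 1 + x ^ 2 :=
    key_one_add_exp (sq_nonneg x) (by nlinarith)
  unfold uu
  rw [Real.sq_sqrt (by linarith), ww_sq]
  unfold cc
  rw [mul_assoc, ← Real.exp_add]
  congr 3; ring

lemma uu_nonneg (r x : ℝ) : 0 ≤ uu r x := Real.sqrt_nonneg _

lemma uu_le_ww {r x : ℝ} (hx : 0 ≤ x) (hxr : x ≤ r) : uu r x ≤ ww x := by
  have h := uu_sq hx hxr
  have h1 := cc_pos r
  have h2 := Real.exp_pos (x ^ 2)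
  have h3 : 0 < cc r * Real.exp (x ^ 2) := by positivity
  apply le_of_sq_le_sq _ (by linarith [ww_ge_one x])
  linarith

lemma ident {r x : ℝ} (hx : 0 ≤ x) (hxr : x ≤ r) (a b : ℝ) :
    Real.exp (-x ^ 2) * uu r x * (a + b * x ^ 2 + uu r x ^ 2) =
      Real.exp (-x ^ 2) * ww x * (a + b * x ^ 2 + ww x ^ 2) -
      cc r * ((a + b * x ^ 2 + ww x ^ 2 + ww x * uu r x + uu r x ^ 2) / (ww x + uu r x)) := by
  have h := uu_sq hx hxr
  have hw := ww_ge_one x
  have hu := uu_nonneg r x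
  have hwu : 0 < ww x + uu r x := by linarith
  have hE : Real.exp (-x ^ 2) * Real.exp (x ^ 2) = 1 := by
    rw [← Real.exp_add]; simp
  have hc : cc r = Real.exp (-x ^ 2) * ((ww x - uu r x) * (ww x + uu r x)) := by
    have : (ww x - uu r x) * (ww x + uu r x) = cc r * Real.exp (x ^ 2) := by
      have : (ww x - uu r x) * (ww x + uu r x) = ww x ^ 2 - uu r x ^ 2 := by ring
      rw [this, h]; ring
    rw [this, mul_left_comm, hE, mul_one]
  rw [hc]
  field_simp
  ring


lemma L0_int_cont : Continuous (fun x : ℝ => Real.exp (-x ^ 2) * ww x) := by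
  have := ww_cont; fun_prop
lemma L1_int_cont : Continuous (fun x : ℝ => Real.exp (-x ^ 2) * (x ^ 2 * ww x)) := by
  have := ww_cont; fun_prop

lemma L0_deriv (r : ℝ) : HasDerivAt L0 (Real.exp (-r ^ 2) * ww r) r := by
  unfold L0
  exact intervalIntegral.integral_hasDerivAt_right (L0_int_cont.intervalIntegrable _ _)
    (L0_int_cont.stronglyMeasurableAtFilter _ _) L0_int_cont.continuousAt
lemma L1_deriv (r : ℝ) : HasDerivAt L1 (Real.exp (-r ^ 2) * (r ^ 2 * ww r)) r := by
  unfold L1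
  exact intervalIntegral.integral_hasDerivAt_right (L1_int_cont.intervalIntegrable _ _)
    (L1_int_cont.stronglyMeasurableAtFilter _ _) L1_int_cont.continuousAt

lemma ww_deriv (r : ℝ) : HasDerivAt ww (r / ww r) r := by
  unfold ww
  have h : HasDerivAt (fun x : ℝ => 1 + x ^ 2) (2 * r) r := by
    have := (hasDerivAt_pow 2 r).const_add 1
    simpa using this
  have h2 := h.sqrt (by positivity)
  convert h2 using 1
  field_simp

lemma exp_sq_deriv (r : ℝ) : HasDerivAt (fun x : ℝ => Real.exp (-x ^ 2)) (-2 * r * Real.exp (-r ^ 2)) r := by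
  have h : HasDerivAt (fun x : ℝ => -x ^ 2) (-(2 * r)) r := by
    have := (hasDerivAt_pow 2 r).fun_neg
    simpa using this
  have h2 := h.exp
  convert h2 using 1
  ring

lemma cc_deriv (r : ℝ) : HasDerivAt cc (-2 * r ^ 3 * Real.exp (-r ^ 2)) r := by
  unfold cc
  have h : HasDerivAt (fun x : ℝ => 1 + x ^ 2) (2 * r) r := by
    have := (hasDerivAt_pow 2 r).const_add 1
    simpa using this
  have h2 := h.fun_mul (exp_sq_deriv r)
  refine h2.congr_deriv ?_
  ring

/-- polynomial bound -/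
lemma poly_exp (x : ℝ) : (1 + x ^ 2) ^ 2 * Real.exp (-x ^ 2) ≤ 8 * Real.exp (-(1/2) * x ^ 2) := by
  have h1 : 1 + x ^ 2 / 2 + (x ^ 2 / 2) ^ 2 / 2 ≤ Real.exp (x ^ 2 / 2) :=
    Real.quadratic_le_exp_of_nonneg (by positivity)
  have h2 : (1 + x ^ 2) ^ 2 ≤ 8 * Real.exp (x ^ 2 / 2) := by nlinarith [sq_nonneg x, sq_nonneg (x^2)]
  have h3 : Real.exp (-(1/2) * x ^ 2) = Real.exp (x ^ 2 / 2) * Real.exp (-x ^ 2) := by
    rw [← Real.exp_add]; congr 1; ring
  rw [h3]
  nlinarith [Real.exp_pos (-x ^ 2)]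

lemma int_bound : MeasureTheory.Integrable (fun x : ℝ => 8 * Real.exp (-(1/2) * x ^ 2)) :=
  (integrable_exp_neg_mul_sq (by norm_num)).const_mul 8

lemma L0_integrable : MeasureTheory.Integrable (fun x : ℝ => Real.exp (-x ^ 2) * ww x) := by
  refine int_bound.mono' L0_int_cont.aestronglyMeasurable ?_
  refine Filter.Eventually.of_forall fun x => ?_
  have hw := ww_ge_one x
  have h2 := ww_sq x
  rw [Real.norm_of_nonneg (by positivity)]
  refine le_trans ?_ (poly_exp x)
  have : ww x ≤ (1 + x ^ 2) ^ 2 := by nlinarith [sq_nonneg x]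
  nlinarith [Real.exp_pos (-x ^ 2)]

lemma L1_integrable : MeasureTheory.Integrable (fun x : ℝ => Real.exp (-x ^ 2) * (x ^ 2 * ww x)) := by
  refine int_bound.mono' L1_int_cont.aestronglyMeasurable ?_
  refine Filter.Eventually.of_forall fun x => ?_
  have hw := ww_ge_one x
  have h2 := ww_sq x
  rw [Real.norm_of_nonneg (by positivity)]
  refine le_trans ?_ (poly_exp x)
  have h3 : ww x ≤ (1 + x ^ 2) := by nlinarith [sq_nonneg x]
  have : x ^ 2 * ww x ≤ (1 + x ^ 2) ^ 2 := by nlinarith [sq_nonneg x]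
  nlinarith [Real.exp_pos (-x ^ 2)]

noncomputable def m0 : ℝ := ∫ x in Set.Ioi (0:ℝ), Real.exp (-x ^ 2) * ww x
noncomputable def m1 : ℝ := ∫ x in Set.Ioi (0:ℝ), Real.exp (-x ^ 2) * (x ^ 2 * ww x)

lemma L0_tendsto : Filter.Tendsto L0 Filter.atTop (nhds m0) := by
  unfold L0 m0
  exact MeasureTheory.intervalIntegral_tendsto_integral_Ioi 0 L0_integrable.integrableOn Filter.tendsto_id
lemma L1_tendsto : Filter.Tendsto L1 Filter.atTop (nhds m1) := by
  unfold L1 m1
  exact MeasureTheory.intervalIntegral_tendsto_integral_Ioi 0 L1_integrable.integrableOn Filter.tendsto_id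

/-- `C r * r ^ 2 → 0` and friends: `cc r * r^2 ≤ 8 exp(-r²/2)` -/
lemma cc_sq_le (r : ℝ) : cc r * (1 + r ^ 2) ≤ 8 * Real.exp (-(1/2) * r ^ 2) := by
  have := poly_exp r
  unfold cc
  nlinarith

lemma exp_half_tendsto : Filter.Tendsto (fun r : ℝ => 8 * Real.exp (-(1/2) * r ^ 2)) Filter.atTop (nhds 0) := by
  have h : Filter.Tendsto (fun r : ℝ => -(1/2) * r ^ 2) Filter.atTop Filter.atBot := by
    apply Filter.Tendsto.const_mul_atTop_of_neg (by norm_num)
    exact Filter.tendsto_pow_atTop (by norm_num)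
  have h2 := (Real.tendsto_exp_atBot.comp h).const_mul 8
  simpa using h2

lemma cc_tendsto : Filter.Tendsto (fun r : ℝ => cc r * (1 + r ^ 2)) Filter.atTop (nhds 0) := by
  refine squeeze_zero (fun r => ?_) cc_sq_le exp_half_tendsto
  have := cc_pos r
  positivity

lemma cc_tendsto' : Filter.Tendsto cc Filter.atTop (nhds 0) := by
  refine squeeze_zero (fun r => (cc_pos r).le) (fun r => ?_) cc_tendsto
  have := cc_pos r
  nlinarith [sq_nonneg r]

lemma L0_zero : L0 0 = 0 := by simp [L0]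
lemma L1_zero : L1 0 = 0 := by simp [L1]

lemma L0_mono : Monotone L0 := by
  apply monotone_of_deriv_nonneg (fun r => (L0_deriv r).differentiableAt)
  intro r
  rw [(L0_deriv r).deriv]
  have := ww_ge_one r
  positivity

lemma L0_one_pos : 0 < L0 1 := by
  unfold L0
  apply intervalIntegral.intervalIntegral_pos_of_pos (L0_int_cont.intervalIntegrable _ _) _ one_pos
  intro x
  have := ww_ge_one x
  positivity

lemma m0_pos : 0 < m0 := by
  have h : L0 1 ≤ m0 := by
    refine ge_of_tendsto L0_tendsto ?_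
    filter_upwards [Filter.eventually_ge_atTop (1:ℝ)] with r hr
    exact L0_mono hr
  linarith [L0_one_pos]

/-- `E r = 2 L1 r - L0 r + r w(r) exp(-r²)` is monotone with derivative `exp(-r²) r²/w`. -/
lemma E_deriv (r : ℝ) : HasDerivAt (fun x => 2 * L1 x - L0 x + x * ww x * Real.exp (-x ^ 2))
    (Real.exp (-r ^ 2) * (r ^ 2 / ww r)) r := by
  have h := (((L1_deriv r).const_mul 2).fun_sub (L0_deriv r)).fun_add
    (((hasDerivAt_id' r).fun_mul (ww_deriv r)).fun_mul (exp_sq_deriv r))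
  refine h.congr_deriv ?_
  have hw : ww r ≠ 0 := by linarith [ww_ge_one r]
  field_simp
  ring

lemma tail_tendsto : Filter.Tendsto (fun x => x * ww x * Real.exp (-x ^ 2)) Filter.atTop (nhds 0) := by
  refine squeeze_zero' ?_ ?_ exp_half_tendsto
  · filter_upwards [Filter.eventually_ge_atTop (0:ℝ)] with r hr
    have := ww_ge_one r
    positivity
  · filter_upwards [Filter.eventually_ge_atTop (0:ℝ)] with r hr
    refine le_trans ?_ (poly_exp r)
    have h1 := ww_le hr
    have h2 := ww_ge_one r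
    have : r * ww r ≤ (1 + r ^ 2) ^ 2 := by
      have h3 := ww_sq r
      have : r * ww r ≤ (r ^ 2 + ww r ^ 2) / 2 := by nlinarith [sq_nonneg (r - ww r)]
      nlinarith [sq_nonneg r, sq_nonneg (r^2)]
    nlinarith [Real.exp_pos (-r ^ 2)]

lemma m_pos : 0 < 2 * m1 - m0 := by
  have hmono : Monotone (fun x => 2 * L1 x - L0 x + x * ww x * Real.exp (-x ^ 2)) := by
    apply monotone_of_deriv_nonneg (fun r => (E_deriv r).differentiableAt)
    intro r
    rw [(E_deriv r).deriv]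
    have := ww_ge_one r
    positivity
  have hsm : StrictMonoOn (fun x => 2 * L1 x - L0 x + x * ww x * Real.exp (-x ^ 2)) (Set.Icc 0 1) := by
    apply strictMonoOn_of_deriv_pos (convex_Icc 0 1)
    · exact fun r _ => (E_deriv r).continuousAt.continuousWithinAt
    · intro r hr
      rw [interior_Icc] at hr
      rw [(E_deriv r).deriv]
      have := ww_ge_one r
      have := hr.1
      positivity
  have h1 : (0:ℝ) < (fun x => 2 * L1 x - L0 x + x * ww x * Real.exp (-x ^ 2)) 1 := by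
    have := hsm (by simp) (by simp) (show (0:ℝ) < 1 by norm_num)
    simpa [L0_zero, L1_zero] using this
  have ht : Filter.Tendsto (fun x => 2 * L1 x - L0 x + x * ww x * Real.exp (-x ^ 2)) Filter.atTop
      (nhds (2 * m1 - m0 + 0)) :=
    ((L1_tendsto.const_mul 2).sub L0_tendsto).add tail_tendsto
  have h2 : (fun x => 2 * L1 x - L0 x + x * ww x * Real.exp (-x ^ 2)) 1 ≤ 2 * m1 - m0 + 0 := by
    refine ge_of_tendsto ht ?_
    filter_upwards [Filter.eventually_ge_atTop (1:ℝ)] with r hr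
    exact hmono hr
  linarith


noncomputable def JJ (a b r : ℝ) : ℝ := a * L0 r + b * L1 r + (L0 r + L1 r)

lemma JJ_cont (a b : ℝ) : Continuous (fun x : ℝ => Real.exp (-x ^ 2) * ww x * (a + b * x ^ 2 + ww x ^ 2)) := by
  have := ww_cont; fun_prop

lemma JJ_eq (a b r : ℝ) :
    ∫ x in (0:ℝ)..r, Real.exp (-x ^ 2) * ww x * (a + b * x ^ 2 + ww x ^ 2) = JJ a b r := by
  unfold JJ L0 L1
  rw [← intervalIntegral.integral_const_mul, ← intervalIntegral.integral_const_mul,
    ← intervalIntegral.integral_add, ← intervalIntegral.integral_add,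
    ← intervalIntegral.integral_add]
  · congr 1
    funext x
    rw [ww_sq]
    ring
  all_goals
    apply Continuous.intervalIntegrable
    have := ww_cont
    fun_prop

lemma JJ_deriv (a b r : ℝ) : HasDerivAt (JJ a b) (Real.exp (-r ^ 2) * ww r * (a + b * r ^ 2 + 1 + r ^ 2)) r := by
  unfold JJ
  have h := (((L0_deriv r).const_mul a).fun_add ((L1_deriv r).const_mul b)).fun_add
    ((L0_deriv r).fun_add (L1_deriv r))
  refine h.congr_deriv ?_
  ring

lemma NN_cont (a b r : ℝ) : Continuous (fun x : ℝ => Real.exp (-x ^ 2) * uu r x * (a + b * x ^ 2 + uu r x ^ 2)) := by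
  have := uu_cont r; fun_prop

noncomputable def K0 (r : ℝ) : ℝ := ∫ x in (0:ℝ)..r, Real.exp (-x ^ 2) * uu r x
noncomputable def K1 (r : ℝ) : ℝ := ∫ x in (0:ℝ)..r, Real.exp (-x ^ 2) * uu r x * x ^ 2

lemma NN_lin (a b r : ℝ) : NN a b r = a * K0 r + b * K1 r + NN 0 0 r := by
  unfold NN K0 K1
  have hu := uu_cont r
  rw [← intervalIntegral.integral_const_mul, ← intervalIntegral.integral_const_mul,
    ← intervalIntegral.integral_add, ← intervalIntegral.integral_add]
  · congr 1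
    funext x
    ring
  all_goals
    apply Continuous.intervalIntegrable
    fun_prop

lemma K0_nonneg {r : ℝ} (hr : 0 ≤ r) : 0 ≤ K0 r := by
  unfold K0
  apply intervalIntegral.integral_nonneg hr
  intro x _
  have := uu_nonneg r x
  positivity

/-- comparison principle -/
lemma NN_le {a b r : ℝ} (hr : 0 ≤ r) (g G : ℝ → ℝ) (hgc : Continuous g)
    (hG : ∀ x, 0 ≤ x → x ≤ r → HasDerivAt G (g x) x)
    (h : ∀ x, 0 ≤ x → x ≤ r →
      Real.exp (-x ^ 2) * uu r x * (a + b * x ^ 2 + uu r x ^ 2) ≤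
        Real.exp (-x ^ 2) * ww x * (a + b * x ^ 2 + ww x ^ 2) + g x) :
    NN a b r ≤ JJ a b r + (G r - G 0) := by
  have h1 : ∫ x in (0:ℝ)..r, g x = G r - G 0 := by
    apply intervalIntegral.integral_eq_sub_of_hasDerivAt _ (hgc.intervalIntegrable _ _)
    intro x hx
    rw [Set.uIcc_of_le hr] at hx
    exact hG x hx.1 hx.2
  rw [← JJ_eq, ← h1, ← intervalIntegral.integral_add ((JJ_cont a b).intervalIntegrable _ _)
    (hgc.intervalIntegrable _ _)]
  unfold NN
  apply intervalIntegral.integral_mono_on hr ((NN_cont a b r).intervalIntegrable _ _)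
    (((JJ_cont a b).add hgc).intervalIntegrable _ _)
  intro x hx
  exact h x hx.1 hx.2

lemma NN_ge {a b r : ℝ} (hr : 0 ≤ r) (g G : ℝ → ℝ) (hgc : Continuous g)
    (hG : ∀ x, 0 ≤ x → x ≤ r → HasDerivAt G (g x) x)
    (h : ∀ x, 0 ≤ x → x ≤ r →
      Real.exp (-x ^ 2) * ww x * (a + b * x ^ 2 + ww x ^ 2) + g x ≤
      Real.exp (-x ^ 2) * uu r x * (a + b * x ^ 2 + uu r x ^ 2)) :
    JJ a b r + (G r - G 0) ≤ NN a b r := by
  have h1 : ∫ x in (0:ℝ)..r, g x = G r - G 0 := by
    apply intervalIntegral.integral_eq_sub_of_hasDerivAt _ (hgc.intervalIntegrable _ _)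
    intro x hx
    rw [Set.uIcc_of_le hr] at hx
    exact hG x hx.1 hx.2
  rw [← JJ_eq, ← h1, ← intervalIntegral.integral_add ((JJ_cont a b).intervalIntegrable _ _)
    (hgc.intervalIntegrable _ _)]
  unfold NN
  apply intervalIntegral.integral_mono_on hr 
    (((JJ_cont a b).add hgc).intervalIntegrable _ _) ((NN_cont a b r).intervalIntegrable _ _)
  intro x hx
  exact h x hx.1 hx.2

/-- bound (iii) -/
lemma NN_lower {a s r : ℝ} (ha : 0 ≤ a) (hs : 0 ≤ s) (hr : 0 ≤ r) :
    JJ a (-(3 + s)) r + (-(cc r) * ((a + 3) * r - s * (r ^ 2 / 2 - r) / 2) - 0) ≤ NN a (-(3 + s)) r := by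
  have h := NN_ge (a := a) (b := -(3 + s)) hr (fun x => -(cc r) * ((a + 3) - s * (x - 1) / 2))
    (fun x => -(cc r) * ((a + 3) * x - s * (x ^ 2 / 2 - x) / 2)) (by fun_prop) ?_ ?_
  · simpa using h
  · intro x _ _
    have h1 : HasDerivAt (fun x : ℝ => x ^ 2) (2 * x) x := by simpa using hasDerivAt_pow 2 x
    have h2 := ((((hasDerivAt_id' x).const_mul (a + 3)).fun_sub
      ((((h1.div_const 2).fun_sub (hasDerivAt_id' x)).const_mul s).div_const 2))).const_mul (-(cc r))
    refine h2.congr_deriv ?_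
    ring
  · intro x hx hxr
    rw [ident hx hxr]
    have hw := ww_ge_one x
    have hw2 := ww_sq x
    have hw3 := ww_le hx
    have hu := uu_nonneg r x
    have huw := uu_le_ww hx hxr
    have hc := cc_pos r
    have hwu : 0 < ww x + uu r x := by linarith
    have key : (a + -(3 + s) * x ^ 2 + ww x ^ 2 + ww x * uu r x + uu r x ^ 2) / (ww x + uu r x) ≤
        (a + 3) - s * (x - 1) / 2 := by
      rw [div_le_iff₀ hwu]
      have e1 : ww x * uu r x ≤ ww x ^ 2 := by nlinarith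
      have e2 : uu r x ^ 2 ≤ ww x ^ 2 := by nlinarith
      have e3 : (a + 3) ≤ (a + 3) * (ww x + uu r x) := by nlinarith
      have e4 : (x - 1) * (ww x + uu r x) ≤ 2 * x ^ 2 := by
        by_cases hx1 : x ≤ 1
        · nlinarith [sq_nonneg x]
        · have : (x - 1) * (ww x + uu r x) ≤ (x - 1) * (2 * (1 + x)) := by
            apply mul_le_mul_of_nonneg_left _ (by linarith)
            linarith
          nlinarith
      nlinarith [mul_le_mul_of_nonneg_left e4 hs]
    nlinarith [mul_le_mul_of_nonneg_left key hc.le]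

/-- bound (vi) -/
lemma NN_upper {a s r : ℝ} (ha : 0 ≤ a) (hs : 0 ≤ s) (hr : 0 ≤ r) :
    NN a (-(3 + s)) r ≤ JJ a (-(3 + s)) r + (cc r * ((3 + s) * (r ^ 2 / 2)) - 0) := by
  have h := NN_le (a := a) (b := -(3 + s)) hr (fun x => cc r * ((3 + s) * x))
    (fun x => cc r * ((3 + s) * (x ^ 2 / 2))) (by fun_prop) ?_ ?_
  · simpa using h
  · intro x _ _
    have h1 : HasDerivAt (fun x : ℝ => x ^ 2) (2 * x) x := by simpa using hasDerivAt_pow 2 x
    have h2 := ((h1.div_const 2).const_mul (3 + s)).const_mul (cc r)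
    refine h2.congr_deriv ?_
    ring
  · intro x hx hxr
    rw [ident hx hxr]
    have hw := ww_ge_one x
    have hw2 := ww_sq x
    have hw3 := ww_ge x
    have hu := uu_nonneg r x
    have huw := uu_le_ww hx hxr
    have hc := cc_pos r
    have hwu : 0 < ww x + uu r x := by linarith
    have key : -((3 + s) * x) ≤
        (a + -(3 + s) * x ^ 2 + ww x ^ 2 + ww x * uu r x + uu r x ^ 2) / (ww x + uu r x) := by
      rw [le_div_iff₀ hwu]
      have e1 : x ^ 2 ≤ x * (ww x + uu r x) := by nlinarith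
      have e2 : 0 ≤ ww x ^ 2 + ww x * uu r x + uu r x ^ 2 := by positivity
      nlinarith [mul_le_mul_of_nonneg_left e1 (show 0 ≤ 3 + s by linarith)]
    nlinarith [mul_le_mul_of_nonneg_left key hc.le]

noncomputable def hh (x : ℝ) : ℝ := Real.exp (x ^ 2) / (1 + x ^ 2)

lemma hh_deriv (x : ℝ) : HasDerivAt hh (2 * x ^ 3 * Real.exp (x ^ 2) / (1 + x ^ 2) ^ 2) x := by
  unfold hh
  have h1 : HasDerivAt (fun x : ℝ => x ^ 2) (2 * x) x := by simpa using hasDerivAt_pow 2 x
  have h2 := h1.exp.fun_div (h1.const_add 1) (by positivity)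
  refine h2.congr_deriv ?_
  field_simp
  ring

lemma hh_bound {x : ℝ} (hx : 0 ≤ x) :
    Real.exp (x ^ 2) / ww x ≤ 2 * x ^ 3 * Real.exp (x ^ 2) / (1 + x ^ 2) ^ 2 + Real.exp 4 := by
  have hw := ww_ge_one x
  by_cases h2 : x ≤ 2
  · have e1 : Real.exp (x ^ 2) / ww x ≤ Real.exp (x ^ 2) := div_le_self (Real.exp_pos _).le hw
    have e2 : Real.exp (x ^ 2) ≤ Real.exp 4 := Real.exp_le_exp.mpr (by nlinarith)
    have e3 : 0 ≤ 2 * x ^ 3 * Real.exp (x ^ 2) / (1 + x ^ 2) ^ 2 := by positivity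
    linarith
  · push Not at h2
    have e1 : Real.exp (x ^ 2) / ww x ≤ 2 * x ^ 3 * Real.exp (x ^ 2) / (1 + x ^ 2) ^ 2 := by
      rw [div_le_div_iff₀ (by linarith) (by positivity)]
      have hw2 := ww_sq x
      have hw3 : ww x ≤ 9 / 8 * x := by
        unfold ww
        rw [Real.sqrt_le_left (by linarith)]
        nlinarith
      have e2 : (1 + x ^ 2) ^ 2 ≤ 2 * x ^ 3 * ww x := by
        rw [← hw2]
        have : ww x ^ 3 ≤ 2 * x ^ 3 := by
          calc ww x ^ 3 ≤ (9 / 8 * x) ^ 3 := by gcongr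
            _ = 729 / 512 * x ^ 3 := by ring
            _ ≤ 2 * x ^ 3 := by nlinarith [pow_pos (show 0 < x by linarith) 3]
        nlinarith
      nlinarith [Real.exp_pos (x ^ 2)]
    linarith [Real.exp_pos 4]

/-- bound (i) -/
lemma NN_upper0 {a r : ℝ} (ha : 0 ≤ a) (hr : 0 ≤ r) :
    NN a (-3) r ≤ JJ a (-3) r + (cc r * (2 * cc r * (hh r + Real.exp 4 * r)
      - (a + 3) / 2 * Real.log (1 + r)) - cc r * (2 * cc r * (hh 0))) := by
  have h := NN_le (a := a) (b := -3) hr
    (fun x => cc r * (2 * cc r * (2 * x ^ 3 * Real.exp (x ^ 2) / (1 + x ^ 2) ^ 2 + Real.exp 4)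
      - (a + 3) / 2 * (1 / (1 + |x|))))
    (fun x => cc r * (2 * cc r * (hh x + Real.exp 4 * x) - (a + 3) / 2 * Real.log (1 + x))) ?_ ?_ ?_
  · simpa using h
  · have h1 : ∀ x : ℝ, (1 + x ^ 2) ^ 2 ≠ 0 := fun x => by positivity
    have h2 : ∀ x : ℝ, 1 + |x| ≠ 0 := fun x => by positivity
    have h3 : Continuous (fun x : ℝ => 2 * x ^ 3 * Real.exp (x ^ 2) / (1 + x ^ 2) ^ 2) :=
      Continuous.div (by fun_prop) (by fun_prop) h1
    have h4 : Continuous (fun x : ℝ => 1 / (1 + |x|)) :=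
      Continuous.div (by fun_prop) (by fun_prop) h2
    fun_prop
  · intro x hx _
    have h1 : HasDerivAt (fun x : ℝ => Real.log (1 + x)) (1 / (1 + |x|)) x := by
      rw [abs_of_nonneg hx]
      exact ((hasDerivAt_id' x).const_add 1).log (by positivity)
    have h2 := ((((hh_deriv x).fun_add ((hasDerivAt_id' x).const_mul (Real.exp 4))).const_mul (2 * cc r)).fun_sub
      (h1.const_mul ((a + 3) / 2))).const_mul (cc r)
    refine h2.congr_deriv ?_
    ring
  · intro x hx hxr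
    rw [ident hx hxr]
    have hw := ww_ge_one x
    have hw2 := ww_sq x
    have hw3 := ww_le hx
    have hu := uu_nonneg r x
    have huw := uu_le_ww hx hxr
    have hc := cc_pos r
    have hwu : 0 < ww x + uu r x := by linarith
    have hus := uu_sq hx hxr
    have hb := hh_bound hx
    rw [abs_of_nonneg hx]
    have key : (a + 3) / 2 * (1 / (1 + x)) - 2 * cc r * (Real.exp (x ^ 2) / ww x) ≤
        (a + -3 * x ^ 2 + ww x ^ 2 + ww x * uu r x + uu r x ^ 2) / (ww x + uu r x) := by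
      have e0 : a + -3 * x ^ 2 + ww x ^ 2 + ww x * uu r x + uu r x ^ 2 =
          (a + 3) - (ww x - uu r x) * (2 * ww x + uu r x) := by
        have : x ^ 2 = ww x ^ 2 - 1 := by linarith
        rw [this]; ring
      rw [e0, sub_div]
      have e1 : (a + 3) / 2 * (1 / (1 + x)) ≤ (a + 3) / (ww x + uu r x) := by
        rw [div_mul_div_comm, mul_one]
        apply div_le_div_of_nonneg_left (by linarith) hwu
        linarith
      have e2 : (ww x - uu r x) * (2 * ww x + uu r x) / (ww x + uu r x) ≤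
          2 * cc r * (Real.exp (x ^ 2) / ww x) := by
        have e3 : 2 * cc r * (Real.exp (x ^ 2) / ww x) =
            2 * ((ww x - uu r x) * (ww x + uu r x)) / ww x := by
          have : (ww x - uu r x) * (ww x + uu r x) = cc r * Real.exp (x ^ 2) := by
            have : (ww x - uu r x) * (ww x + uu r x) = ww x ^ 2 - uu r x ^ 2 := by ring
            rw [this, hus]; ring
          rw [this]; ring
        rw [e3, div_le_div_iff₀ hwu (by linarith)]
        have e4 : (2 * ww x + uu r x) * ww x ≤ 2 * (ww x + uu r x) * (ww x + uu r x) := by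
          nlinarith
        have := mul_le_mul_of_nonneg_left e4 (show 0 ≤ ww x - uu r x by linarith)
        linarith
      linarith
    have h5 : 2 * cc r * (Real.exp (x ^ 2) / ww x) ≤
        2 * cc r * (2 * x ^ 3 * Real.exp (x ^ 2) / (1 + x ^ 2) ^ 2 + Real.exp 4) :=
      mul_le_mul_of_nonneg_left hb (by linarith)
    have h6 := le_trans (sub_le_sub_left h5 _) key
    nlinarith [mul_le_mul_of_nonneg_left h6 hc.le]


noncomputable def kap : ℝ := m1 / m0
noncomputable def aa (s : ℝ) : ℝ := (2 + s) * kap - 1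

lemma kap_gt : 1 / 2 < kap := by
  unfold kap
  rw [lt_div_iff₀ m0_pos]
  linarith [m_pos]

lemma aa_pos {s : ℝ} (hs : 0 ≤ s) : 0 < aa s := by
  unfold aa
  nlinarith [kap_gt]

lemma aa_eq (s : ℝ) : aa s * m0 + (-(3 + s)) * m1 + (m0 + m1) = 0 := by
  unfold aa kap
  have := m0_pos.ne'
  field_simp
  ring

lemma JJ_tendsto (s : ℝ) : Filter.Tendsto (JJ (aa s) (-(3 + s))) Filter.atTop (nhds 0) := by
  have h := ((L0_tendsto.const_mul (aa s)).add (L1_tendsto.const_mul (-(3 + s)))).add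
    (L0_tendsto.add L1_tendsto)
  rw [aa_eq s] at h
  exact h

lemma JJ0_le {r : ℝ} (hr : 0 ≤ r) : JJ (aa 0) (-3) r ≤ cc r := by
  have ha := aa_pos (le_refl (0:ℝ))
  have hmono : MonotoneOn (fun r => JJ (aa 0) (-3) r - cc r) (Set.Ici 0) := by
    apply monotoneOn_of_deriv_nonneg (convex_Ici 0)
    · exact fun r _ => ((JJ_deriv _ _ r).fun_sub (cc_deriv r)).continuousAt.continuousWithinAt
    · exact fun r _ => ((JJ_deriv _ _ r).fun_sub (cc_deriv r)).differentiableAt.differentiableWithinAt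
    · intro r hr
      rw [interior_Ici] at hr
      have hr0 : 0 < r := hr
      rw [((JJ_deriv (aa 0) (-3) r).fun_sub (cc_deriv r)).deriv]
      have hw := ww_ge_one r
      have hw2 := ww_sq r
      have hw3 := ww_ge r
      have e1 : 0 ≤ ww r * (aa 0 + 1 - 2 * r ^ 2) + 2 * r ^ 3 := by
        have e2 : 2 * r * (ww r - r) ≤ 1 := by nlinarith
        nlinarith
      have e3 := mul_nonneg (Real.exp_pos (-r ^ 2)).le e1
      nlinarith
  have ht : Filter.Tendsto (fun r => JJ (aa 0) (-3) r - cc r) Filter.atTop (nhds (0 - 0)) := by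
    have h := JJ_tendsto 0
    rw [add_zero] at h
    exact h.sub cc_tendsto'
  have h2 : JJ (aa 0) (-3) r - cc r ≤ 0 - 0 := by
    refine ge_of_tendsto ht ?_
    filter_upwards [Filter.eventually_ge_atTop r] with t htr
    exact hmono hr (le_trans hr htr) htr
  linarith

lemma step2 : ∀ᶠ r in Filter.atTop, NN (aa 0) (-3) r < 0 := by
  have ha := aa_pos (le_refl (0:ℝ))
  have hlog : Filter.Tendsto (fun r : ℝ => Real.log (1 + r)) Filter.atTop Filter.atTop :=
    Real.tendsto_log_atTop.comp (Filter.tendsto_atTop_add_const_left _ _ Filter.tendsto_id)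
  filter_upwards [Filter.eventually_ge_atTop (0:ℝ),
    hlog.eventually_gt_atTop ((1 + 2 * (1 + Real.exp 4)) / ((aa 0 + 3) / 2))] with r hr hl
  rw [div_lt_iff₀ (by linarith)] at hl
  have h1 := NN_upper0 ha.le hr
  have h2 := JJ0_le hr
  have hc := cc_pos r
  have h3 : cc r * hh r = 1 := by
    unfold cc hh
    have : Real.exp (-r ^ 2) * Real.exp (r ^ 2) = 1 := by rw [← Real.exp_add]; simp
    field_simp
    linarith
  have h4 : cc r * r ≤ 1 := by
    have e1 : 1 + r ^ 2 + (r ^ 2) ^ 2 / 2 ≤ Real.exp (r ^ 2) :=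
      Real.quadratic_le_exp_of_nonneg (by positivity)
    have e2 : Real.exp (-r ^ 2) * Real.exp (r ^ 2) = 1 := by rw [← Real.exp_add]; simp
    have e3 : (1 + r ^ 2) * r ≤ Real.exp (r ^ 2) := by nlinarith [sq_nonneg (r - 1), sq_nonneg r]
    unfold cc
    nlinarith [Real.exp_pos (-r ^ 2)]
  have h5 : 0 ≤ hh 0 := by unfold hh; positivity
  have h6 : 2 * cc r * (hh r + Real.exp 4 * r) ≤ 2 * (1 + Real.exp 4) := by
    have : 2 * cc r * (hh r + Real.exp 4 * r) = 2 * (cc r * hh r + Real.exp 4 * (cc r * r)) := by ring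
    rw [this, h3]
    nlinarith [Real.exp_pos 4]
  have h7 : 0 ≤ cc r * (2 * cc r * hh 0) := by positivity
  have h8 : cc r * (2 * cc r * (hh r + Real.exp 4 * r) - (aa 0 + 3) / 2 * Real.log (1 + r)) < cc r * (-1) := by
    apply mul_lt_mul_of_pos_left _ hc
    linarith
  linarith

lemma step3 {s : ℝ} (hs : 0 < s) : ∀ᶠ r in Filter.atTop, 0 < NN (aa s) (-(3 + s)) r := by
  have ha := aa_pos hs.le
  have hanti : AntitoneOn (JJ (aa s) (-(3 + s))) (Set.Ici (aa s + 1)) := by
    apply antitoneOn_of_deriv_nonpos (convex_Ici _)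
    · exact fun r _ => (JJ_deriv _ _ r).continuousAt.continuousWithinAt
    · exact fun r _ => (JJ_deriv _ _ r).differentiableAt.differentiableWithinAt
    · intro r hr
      rw [interior_Ici] at hr
      have hr0 : aa s + 1 < r := hr
      rw [(JJ_deriv (aa s) (-(3 + s)) r).deriv]
      have hw := ww_ge_one r
      have e1 : aa s + -(3 + s) * r ^ 2 + 1 + r ^ 2 ≤ 0 := by nlinarith
      have e2 : 0 ≤ Real.exp (-r ^ 2) * ww r := by positivity
      exact mul_nonpos_of_nonneg_of_nonpos e2 e1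
  filter_upwards [Filter.eventually_ge_atTop (aa s + 1),
    Filter.eventually_gt_atTop (2 + 4 * (aa s + 3) / s)] with r hr hr2
  have hr0 : 0 ≤ r := by linarith
  have h1 := NN_lower ha.le hs.le hr0
  have h2 : 0 ≤ JJ (aa s) (-(3 + s)) r := by
    refine le_of_tendsto (JJ_tendsto s) ?_
    filter_upwards [Filter.eventually_ge_atTop r] with t htr
    exact hanti hr (le_trans hr htr) htr
  have hc := cc_pos r
  have h3 : (aa s + 3) * r - s * (r ^ 2 / 2 - r) / 2 < 0 := by
    have e1 : 4 * (aa s + 3) < s * (r - 2) := by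
      have : 4 * (aa s + 3) / s < r - 2 := by linarith
      rw [div_lt_iff₀ hs] at this
      linarith
    have e2 : (aa s + 3) * r - s * (r ^ 2 / 2 - r) / 2 = r * (4 * (aa s + 3) - s * (r - 2)) / 4 := by ring
    rw [e2]
    have : 0 < r := by linarith
    have : r * (4 * (aa s + 3) - s * (r - 2)) < 0 := mul_neg_of_pos_of_neg this (by linarith)
    linarith
  nlinarith [mul_pos hc (neg_pos.mpr h3)]

lemma step4 : ∃ c > 0, ∀ᶠ r in Filter.atTop, c ≤ K0 r := by
  refine ⟨Real.exp (-1) * (1 / 2), by positivity, ?_⟩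
  have h := cc_tendsto'.eventually_lt_const (show (0:ℝ) < 3 / 4 * Real.exp (-1) by positivity)
  filter_upwards [h, Filter.eventually_ge_atTop (1:ℝ)] with r hr hr1
  have hcont : Continuous (fun x : ℝ => Real.exp (-x ^ 2) * uu r x) := by
    have := uu_cont r; fun_prop
  have h1 : ∫ x in (0:ℝ)..1, Real.exp (-x ^ 2) * uu r x ≤ K0 r := by
    unfold K0
    apply intervalIntegral.integral_mono_interval (le_refl _) zero_le_one hr1 _
      (hcont.intervalIntegrable _ _)
    apply Filter.Eventually.of_forall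
    intro x
    have := uu_nonneg r x
    positivity
  have h2 : ∫ x in (0:ℝ)..1, (Real.exp (-1) * (1 / 2) : ℝ) ≤ ∫ x in (0:ℝ)..1, Real.exp (-x ^ 2) * uu r x := by
    apply intervalIntegral.integral_mono_on zero_le_one (continuous_const.intervalIntegrable _ _)
      (hcont.intervalIntegrable _ _)
    intro x hx
    have hx0 := hx.1
    have hx1 := hx.2
    have e1 : Real.exp (-1) ≤ Real.exp (-x ^ 2) := Real.exp_le_exp.mpr (by nlinarith)
    have e2 : 1 / 2 ≤ uu r x := by
      have e3 := uu_sq hx0 (hx1.trans hr1)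
      have e4 : Real.exp (x ^ 2) ≤ Real.exp 1 := Real.exp_le_exp.mpr (by nlinarith)
      have e5 : Real.exp (-1) * Real.exp 1 = 1 := by rw [← Real.exp_add]; simp
      have e6 : cc r * Real.exp (x ^ 2) ≤ 3 / 4 := by
        calc cc r * Real.exp (x ^ 2) ≤ (3 / 4 * Real.exp (-1)) * Real.exp 1 := by
              apply mul_le_mul hr.le e4 (Real.exp_pos _).le (by positivity)
          _ = 3 / 4 := by rw [mul_assoc, e5]; ring
      have e7 := ww_sq x
      have e8 : (1/2 : ℝ) ^ 2 ≤ uu r x ^ 2 := by nlinarith [sq_nonneg x]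
      exact le_of_sq_le_sq e8 (uu_nonneg r x)
    have := Real.exp_pos (-1)
    exact mul_le_mul e1 e2 (by norm_num) (Real.exp_pos _).le
  simp at h2
  simp only [one_div] at *
  linarith

lemma step5 {s η : ℝ} (hs : 0 < s) (hη : 0 < η) : ∀ᶠ r in Filter.atTop, NN (aa s - η) (-(3 + s)) r < 0 := by
  obtain ⟨c, hc, hK⟩ := step4
  have ha := aa_pos hs.le
  have h1 : Filter.Tendsto (fun r => JJ (aa s) (-(3 + s)) r + (3 + s) / 2 * (cc r * (1 + r ^ 2)))
      Filter.atTop (nhds (0 + (3 + s) / 2 * 0)) :=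
    (JJ_tendsto s).add (cc_tendsto.const_mul _)
  rw [mul_zero, add_zero] at h1
  have h2 := h1.eventually_lt_const (show 0 < η * c by positivity)
  filter_upwards [hK, h2, Filter.eventually_ge_atTop (0:ℝ)] with r hr hr2 hr0
  have h3 := NN_upper ha.le hs.le hr0
  have h4 : NN (aa s - η) (-(3 + s)) r = NN (aa s) (-(3 + s)) r - η * K0 r := by
    rw [NN_lin (aa s - η), NN_lin (aa s)]; ring
  have h5 := cc_pos r
  have h6 : η * c ≤ η * K0 r := mul_le_mul_of_nonneg_left hr hη.le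
  have h7 : cc r * ((3 + s) * (r ^ 2 / 2)) ≤ (3 + s) / 2 * (cc r * (1 + r ^ 2)) := by
    have : 0 ≤ (3 + s) / 2 * cc r := by positivity
    nlinarith
  linarith

lemma uu_pos {r x : ℝ} (hx : 0 < x) (hxr : x < r) : 0 < uu r x := by
  have hs : 0 < x ^ 2 := by positivity
  have hst : x ^ 2 < r ^ 2 := by nlinarith
  have h1 : (r ^ 2 - x ^ 2) + 1 < Real.exp (r ^ 2 - x ^ 2) := Real.add_one_lt_exp (by linarith)
  have h2 : Real.exp (x ^ 2 - r ^ 2) * Real.exp (r ^ 2 - x ^ 2) = 1 := by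
    rw [← Real.exp_add]; simp
  have h3 : 0 < Real.exp (x ^ 2 - r ^ 2) := Real.exp_pos _
  have h4 : (1 + r ^ 2) < (1 + x ^ 2) * Real.exp (r ^ 2 - x ^ 2) := by nlinarith
  have h5 : (1 + r ^ 2) * Real.exp (x ^ 2 - r ^ 2) < (1 + x ^ 2) := by
    calc (1 + r ^ 2) * Real.exp (x ^ 2 - r ^ 2)
        < ((1 + x ^ 2) * Real.exp (r ^ 2 - x ^ 2)) * Real.exp (x ^ 2 - r ^ 2) :=
          mul_lt_mul_of_pos_right h4 h3
      _ = 1 + x ^ 2 := by rw [mul_assoc, mul_comm (Real.exp (r ^ 2 - x ^ 2)), h2, mul_one]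
  unfold uu
  exact Real.sqrt_pos.mpr (by linarith)

lemma step1 {a b r : ℝ} (hr : 0 < r) (hab : |b| * r ^ 2 ≤ a) : 0 < NN a b r := by
  unfold NN
  apply intervalIntegral.intervalIntegral_pos_of_pos_on ((NN_cont a b r).intervalIntegrable _ _) _ hr
  intro x hx
  have hu := uu_pos hx.1 hx.2
  have h1 : x ^ 2 ≤ r ^ 2 := by nlinarith [hx.1, hx.2]
  have h2 : -(|b| * x ^ 2) ≤ b * x ^ 2 := by
    nlinarith [neg_abs_le b, sq_nonneg x]
  have h3 : |b| * x ^ 2 ≤ |b| * r ^ 2 := mul_le_mul_of_nonneg_left h1 (abs_nonneg b)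
  have h4 : 0 < a + b * x ^ 2 + uu r x ^ 2 := by
    have : 0 < uu r x ^ 2 := by positivity
    linarith
  positivity

theorem sign_pattern : ∃ b A η0 r1 r2 r3 : ℝ, 0 < η0 ∧ 0 < r1 ∧ r1 < r2 ∧ r2 < r3 ∧
    ∀ η, 0 < η → η < η0 →
      0 < NN (A - η) b r1 ∧ NN (A - η) b r2 < 0 ∧ 0 < NN (A - η) b r3 ∧
      ∃ r4, r3 < r4 ∧ NN (A - η) b r4 < 0 := by
  obtain ⟨r2, hr2, hr2'⟩ := (step2.and (Filter.eventually_ge_atTop (1:ℝ))).exists
  -- choose s
  have hcont : Continuous (fun s : ℝ => NN (aa s) (-(3 + s)) r2) := by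
    have : (fun s : ℝ => NN (aa s) (-(3 + s)) r2) =
        fun s => aa s * K0 r2 + (-(3 + s)) * K1 r2 + NN 0 0 r2 := by
      funext s; exact NN_lin _ _ _
    rw [this]
    unfold aa
    fun_prop
  have h0 : NN (aa 0) (-(3 + 0)) r2 < 0 := by rw [add_zero]; exact hr2
  have hev : ∀ᶠ s in nhds (0:ℝ), NN (aa s) (-(3 + s)) r2 < 0 :=
    (hcont.tendsto 0).eventually_lt_const h0
  obtain ⟨s, hs2, hs⟩ : ∃ s : ℝ, NN (aa s) (-(3 + s)) r2 < 0 ∧ 0 < s := by
    have h1 : ∀ᶠ s in nhdsWithin (0:ℝ) (Set.Ioi 0), NN (aa s) (-(3 + s)) r2 < 0 :=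
      hev.filter_mono nhdsWithin_le_nhds
    obtain ⟨s, h2, h3⟩ := (h1.and self_mem_nhdsWithin).exists
    exact ⟨s, h2, h3⟩
  have ha := aa_pos hs.le
  obtain ⟨r3, hr3, hr3'⟩ := ((step3 hs).and (Filter.eventually_gt_atTop r2)).exists
  -- r1
  obtain ⟨r1, hr1, hr1', hr1''⟩ : ∃ r1 : ℝ, 0 < r1 ∧ r1 < 1 ∧ (3 + s) * r1 ≤ aa s := by
    refine ⟨min (1/2) (aa s / (3 + s)), by positivity, ?_, ?_⟩
    · exact lt_of_le_of_lt (min_le_left _ _) (by norm_num)
    · have : min (1/2) (aa s / (3 + s)) ≤ aa s / (3 + s) := min_le_right _ _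
      rw [le_div_iff₀ (by linarith)] at this
      linarith
  have hN1 : 0 < NN (aa s) (-(3 + s)) r1 := by
    apply step1 hr1
    rw [abs_neg, abs_of_pos (by linarith)]
    nlinarith
  have hK1 := K0_nonneg hr1.le
  have hK2 := K0_nonneg (show 0 ≤ r2 by linarith)
  have hK3 := K0_nonneg (show 0 ≤ r3 by linarith)
  have hlin : ∀ η r, NN (aa s - η) (-(3 + s)) r = NN (aa s) (-(3 + s)) r - η * K0 r := by
    intro η r
    rw [NN_lin (aa s - η), NN_lin (aa s)]; ring
  refine ⟨-(3 + s), aa s, min (NN (aa s) (-(3 + s)) r1 / (K0 r1 + 1)) (NN (aa s) (-(3 + s)) r3 / (K0 r3 + 1)),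
    r1, r2, r3, by positivity, hr1, by linarith, hr3', ?_⟩
  intro η hη hη0
  have hη1 : η < NN (aa s) (-(3 + s)) r1 / (K0 r1 + 1) := lt_of_lt_of_le hη0 (min_le_left _ _)
  have hη3 : η < NN (aa s) (-(3 + s)) r3 / (K0 r3 + 1) := lt_of_lt_of_le hη0 (min_le_right _ _)
  rw [lt_div_iff₀ (by linarith)] at hη1 hη3
  refine ⟨?_, ?_, ?_, ?_⟩
  · rw [hlin]; linarith
  · rw [hlin]; nlinarith
  · rw [hlin]; linarith
  · obtain ⟨r4, h1, h2⟩ := ((step5 hs hη).and (Filter.eventually_gt_atTop r3)).exists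
    exact ⟨r4, h2, h1⟩

end Pool.Agent.Helper284.Melnikov
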