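import Mathlib
import Pool.Agent.Helper284.LCBase
import Pool.Agent.Helper284.LCField
import Pool.Agent.Helper284.LCPlane
import Pool.Agent.Helper284.LCSign

set_option autoImplicit false

namespace Pool.Agent.Helper284.LCMel

open Set Pool.Agent.Helper284.LCBase Pool.Agent.Helper284.LCField Pool.Agent.Helper284.LCPlane
  Pool.Agent.Helper284.Melnikov

/-- the scalar right-hand side as a function of `(ε, ψ, r)` -/
noncomputable def Gu (a b : ℝ) (p : ℝ × ℝ × ℝ) : ℝ := G a b p.1 p.2.1 p.2.2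

theorem Gu_contDiffAt (a b : ℝ) {p : ℝ × ℝ × ℝ} (hp : 0 < p.2.2)
    (hOm : Om a b p.1 p.2.2 p.2.1 ≠ 0) : ContDiffAt ℝ 1 (Gu a b) p := by
  have hsw : ContDiffAt ℝ 1 (fun p : ℝ × ℝ × ℝ => (p.2.2, p.2.1)) p := by fun_prop
  have hh : ContDiffAt ℝ 1 (fun p : ℝ × ℝ × ℝ => hf a b p.2.2 p.2.1) p :=
    ContDiffAt.comp p (g := fun q : ℝ × ℝ => hf a b q.1 q.2)
      (hf_contDiffAt (n := 1) a b (p := (p.2.2, p.2.1)) hp) hsw
  have hT : ContDiffAt ℝ 1 (fun p : ℝ × ℝ × ℝ => Tf p.2.2 p.2.1) p :=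
    ContDiffAt.comp p (g := fun q : ℝ × ℝ => Tf q.1 q.2)
      (Tf_contDiffAt (n := 1) (p := (p.2.2, p.2.1)) hp) hsw
  have h1 : ContDiffAt ℝ 1 (fun p : ℝ × ℝ × ℝ => Real.sin p.2.1 * Real.cos p.2.1) p := by fun_prop
  have h2 : ContDiffAt ℝ 1 (fun p : ℝ × ℝ × ℝ => p.1) p := by fun_prop
  have h3 : ContDiffAt ℝ 1 (fun p : ℝ × ℝ × ℝ => p.2.2) p := by fun_prop
  have h4 : ContDiffAt ℝ 1 (fun p : ℝ × ℝ × ℝ => Real.sin p.2.1 ^ 2) p := by fun_prop
  unfold Gu G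
  apply ((h3.mul hh).mul h4).div
  · unfold Om
    exact hT.add ((h2.mul hh).mul h1)
  · exact hOm

/-- the `r`-derivative of the scalar right-hand side -/
noncomputable def G' (a b ε ψ r : ℝ) : ℝ := fderiv ℝ (Gu a b) (ε, ψ, r) (0, 0, 1)

theorem G_hasDerivAt (a b : ℝ) {ε ψ r : ℝ} (hr : 0 < r) (hOm : Om a b ε r ψ ≠ 0) :
    HasDerivAt (fun r => G a b ε ψ r) (G' a b ε ψ r) r := by
  have h1 : DifferentiableAt ℝ (Gu a b) (ε, ψ, r) :=
    (Gu_contDiffAt a b (p := (ε, ψ, r)) hr hOm).differentiableAt (by norm_num)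
  have h2 : HasDerivAt (fun r : ℝ => ((ε, ψ, r) : ℝ × ℝ × ℝ)) ((0, 0, 1) : ℝ × ℝ × ℝ) r :=
    (hasDerivAt_const r ε).prodMk ((hasDerivAt_const r ψ).prodMk (hasDerivAt_id r))
  exact h1.hasFDerivAt.comp_hasDerivAt r h2

theorem G'_continuousAt (a b : ℝ) {p : ℝ × ℝ × ℝ} (hr : 0 < p.2.2)
    (hOm : Om a b p.1 p.2.2 p.2.1 ≠ 0) :
    ContinuousAt (fun p : ℝ × ℝ × ℝ => G' a b p.1 p.2.1 p.2.2) p := by
  have h1 : ContinuousAt (fderiv ℝ (Gu a b)) p :=
    ((Gu_contDiffAt a b hr hOm).fderiv_right (m := 0) (by norm_num)).continuousAt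
  exact h1.clm_apply continuousAt_const

theorem G'_per (a b ε ψ r : ℝ) (hr : 0 < r) (hOm : Om a b ε r ψ ≠ 0) :
    G' a b ε (ψ + 2 * Real.pi) r = G' a b ε ψ r := by
  have h1 := G_hasDerivAt a b hr hOm
  have h2 := G_hasDerivAt a b (ψ := ψ + 2 * Real.pi) hr (by rw [Om_per]; exact hOm)
  have h3 : (fun r => G a b ε (ψ + 2 * Real.pi) r) = fun r => G a b ε ψ r := by
    funext r; exact G_per a b ε ψ r
  rw [h3] at h2
  exact h2.unique h1

/-- the averaged function -/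
noncomputable def Mel (a b r : ℝ) : ℝ := ∫ ψ in (0:ℝ)..(2 * Real.pi), G a b 0 ψ r

theorem Om_zero (a b r ψ : ℝ) : Om a b 0 r ψ = Tf r ψ := by unfold Om; ring

theorem Mel_hasDerivAt (a b : ℝ) {r0 : ℝ} (hr0 : 0 < r0) :
    HasDerivAt (Mel a b) (∫ ψ in (0:ℝ)..(2 * Real.pi), G' a b 0 ψ r0) r0 := by
  have hball : ∀ r ∈ Metric.ball r0 (r0 / 2), 0 < r := by
    intro r hr
    rw [Metric.mem_ball, Real.dist_eq] at hr
    have := abs_lt.mp hr
    linarith
  have hcG : ∀ r, 0 < r → Continuous (fun ψ => G a b 0 ψ r) := by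
    intro r hr
    rw [continuous_iff_continuousAt]
    intro ψ
    have h1 : ContinuousAt (Gu a b) (0, ψ, r) :=
      (Gu_contDiffAt a b (p := (0, ψ, r)) hr (by
        simp only [Om_zero]; exact (Tf_pos hr ψ).ne')).continuousAt
    exact ContinuousAt.comp (f := fun ψ : ℝ => ((0:ℝ), ψ, r)) h1 (by fun_prop)
  have hcG' : ∀ p : ℝ × ℝ, 0 < p.2 → ContinuousAt (fun p : ℝ × ℝ => G' a b 0 p.1 p.2) p := by
    intro p hp
    have h1 : ContinuousAt (fun p : ℝ × ℝ × ℝ => G' a b p.1 p.2.1 p.2.2) (0, p.1, p.2) :=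
      G'_continuousAt a b (p := (0, p.1, p.2)) hp (by
        simp only [Om_zero]; exact (Tf_pos hp p.1).ne')
    exact ContinuousAt.comp (f := fun p : ℝ × ℝ => ((0:ℝ), p.1, p.2)) h1 (by fun_prop)
  have hcomp : IsCompact ((Icc 0 (2 * Real.pi)) ×ˢ (Metric.closedBall r0 (r0 / 2))) :=
    isCompact_Icc.prod (isCompact_closedBall _ _)
  obtain ⟨C, hC⟩ := hcomp.exists_bound_of_continuousOn (f := fun p : ℝ × ℝ => G' a b 0 p.1 p.2) (by
    intro p hp
    apply (hcG' p _).continuousWithinAt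
    have h1 := hp.2
    rw [Metric.mem_closedBall, Real.dist_eq] at h1
    have := abs_le.mp h1
    linarith)
  refine (intervalIntegral.hasDerivAt_integral_of_dominated_loc_of_deriv_le
    (F := fun r ψ => G a b 0 ψ r) (F' := fun r ψ => G' a b 0 ψ r)
    (s := Metric.ball r0 (r0 / 2)) (bound := fun _ => C)
    (Metric.ball_mem_nhds r0 (by positivity)) ?_ ?_ ?_ ?_ ?_ ?_).2
  · filter_upwards [Metric.ball_mem_nhds r0 (half_pos hr0)] with r hr
    exact (hcG r (hball r hr)).aestronglyMeasurable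
  · exact (hcG r0 hr0).intervalIntegrable _ _
  · apply Continuous.aestronglyMeasurable
    rw [continuous_iff_continuousAt]
    intro ψ
    exact ContinuousAt.comp (f := fun ψ : ℝ => (ψ, r0)) (hcG' (ψ, r0) hr0) (by fun_prop)
  · refine Filter.Eventually.of_forall (fun ψ hψ r hr => ?_)
    rw [uIoc_of_le (by positivity)] at hψ
    exact hC (ψ, r) ⟨⟨hψ.1.le, hψ.2⟩, Metric.ball_subset_closedBall hr⟩
  · exact intervalIntegrable_const
  · refine Filter.Eventually.of_forall (fun ψ _ r hr => ?_)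
    have hr' := hball r hr
    exact G_hasDerivAt a b hr' (by rw [Om_zero]; exact (Tf_pos hr' ψ).ne')

/-- formula for the integrand -/
theorem G_zero {a b r ψ : ℝ} (hr : 0 < r) : G a b 0 ψ r =
    Real.exp (r ^ 2 * Real.sin ψ ^ 2) * Tf r ψ * ff a b r ψ * Real.sin ψ ^ 2 / r := by
  unfold G hf
  rw [Om_zero, ← Tf_sq hr]
  have := (Tf_pos hr ψ).ne'
  field_simp

theorem G_zero_neg {a b r ψ : ℝ} (hr : 0 < r) : G a b 0 (-ψ) r = G a b 0 ψ r := by
  rw [G_zero hr, G_zero hr]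
  have hT : Tf r (-ψ) = Tf r ψ := Tf_congr (by rw [Real.sin_neg]; ring)
  have hff : ff a b r (-ψ) = ff a b r ψ := by
    unfold ff xf uf; rw [hT, Real.sin_neg, Real.cos_neg]; ring
  rw [hT, hff, Real.sin_neg]; ring_nf

theorem G_zero_pi {a b r ψ : ℝ} (hr : 0 < r) : G a b 0 (ψ + Real.pi) r = G a b 0 ψ r := by
  rw [G_zero hr, G_zero hr]
  have hT : Tf r (ψ + Real.pi) = Tf r ψ := Tf_congr (by rw [Real.sin_add_pi]; ring)
  have hff : ff a b r (ψ + Real.pi) = ff a b r ψ := by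
    unfold ff xf uf; rw [hT, Real.sin_add_pi, Real.cos_add_pi]; ring
  rw [hT, hff, Real.sin_add_pi]; ring_nf

theorem G_zero_cont {a b r : ℝ} (hr : 0 < r) : Continuous (fun ψ => G a b 0 ψ r) := by
  rw [continuous_iff_continuousAt]
  intro ψ
  have h1 : ContinuousAt (Gu a b) (0, ψ, r) :=
    (Gu_contDiffAt a b (p := (0, ψ, r)) hr (by
      simp only [Om_zero]; exact (Tf_pos hr ψ).ne')).continuousAt
  exact ContinuousAt.comp (f := fun ψ : ℝ => ((0:ℝ), ψ, r)) h1 (by fun_prop)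

theorem Mel_quarter {a b r : ℝ} (hr : 0 < r) :
    Mel a b r = 4 * ∫ ψ in (0:ℝ)..(Real.pi / 2), G a b 0 ψ r := by
  have hc := G_zero_cont (a := a) (b := b) hr
  have hi : ∀ x y, IntervalIntegrable (fun ψ => G a b 0 ψ r) MeasureTheory.volume x y :=
    fun x y => hc.intervalIntegrable x y
  unfold Mel
  have h1 : ∫ ψ in (0:ℝ)..(2 * Real.pi), G a b 0 ψ r =
      (∫ ψ in (0:ℝ)..Real.pi, G a b 0 ψ r) + ∫ ψ in Real.pi..(2 * Real.pi), G a b 0 ψ r :=
    (intervalIntegral.integral_add_adjacent_intervals (hi _ _) (hi _ _)).symm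
  have h2 : ∫ ψ in Real.pi..(2 * Real.pi), G a b 0 ψ r = ∫ ψ in (0:ℝ)..Real.pi, G a b 0 ψ r := by
    have := intervalIntegral.integral_comp_add_right (a := 0) (b := Real.pi)
      (fun ψ => G a b 0 ψ r) Real.pi
    simp only [G_zero_pi hr] at this
    rw [this, zero_add]
    congr 1; ring
  have h3 : ∫ ψ in (0:ℝ)..Real.pi, G a b 0 ψ r =
      (∫ ψ in (0:ℝ)..(Real.pi / 2), G a b 0 ψ r) + ∫ ψ in (Real.pi / 2)..Real.pi, G a b 0 ψ r :=
    (intervalIntegral.integral_add_adjacent_intervals (hi _ _) (hi _ _)).symm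
  have h4 : ∫ ψ in (Real.pi / 2)..Real.pi, G a b 0 ψ r =
      ∫ ψ in (0:ℝ)..(Real.pi / 2), G a b 0 ψ r := by
    have h5 := intervalIntegral.integral_comp_sub_left (a := 0) (b := Real.pi / 2)
      (fun ψ => G a b 0 ψ r) Real.pi
    have h6 : ∀ ψ, G a b 0 (Real.pi - ψ) r = G a b 0 ψ r := by
      intro ψ
      rw [show Real.pi - ψ = -ψ + Real.pi by ring, G_zero_pi hr, G_zero_neg hr]
    simp only [h6] at h5
    rw [h5]
    congr 1 <;> ring
  rw [h1, h2, h3, h4]; ring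

theorem uu_coord {r ψ : ℝ} (hr : 0 < r) (h : 0 ≤ Real.sin ψ) :
    uu r (r * Real.cos ψ) = r * Real.sin ψ * Tf r ψ := by
  unfold uu
  have h1 : 1 + (r * Real.cos ψ) ^ 2 - (1 + r ^ 2) * Real.exp ((r * Real.cos ψ) ^ 2 - r ^ 2)
      = (r * Real.sin ψ * Tf r ψ) ^ 2 := by
    have h2 := uf_sq hr ψ
    have h3 : (r * Real.sin ψ * Tf r ψ) ^ 2 = uf r ψ ^ 2 := by unfold uf; ring
    rw [h3, h2]
    have hsc := Real.sin_sq_add_cos_sq ψ
    have h4 : (r * Real.cos ψ) ^ 2 = r ^ 2 - r ^ 2 * Real.sin ψ ^ 2 := by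
      linear_combination r ^ 2 * hsc
    rw [h4]
    have h5 : r ^ 2 - r ^ 2 * Real.sin ψ ^ 2 - r ^ 2 = -(r ^ 2 * Real.sin ψ ^ 2) := by ring
    rw [h5]; ring
  rw [h1, Real.sqrt_sq]
  exact mul_nonneg (mul_nonneg hr.le h) (Tf_pos hr ψ).le

theorem Mel_eq_NN {a b r : ℝ} (hr : 0 < r) :
    Mel a b r = 4 * Real.exp (r ^ 2) / r ^ 3 * NN a b r := by
  rw [Mel_quarter hr]
  have hF : Continuous (fun x => Real.exp (-x ^ 2) * uu r x * (a + b * x ^ 2 + uu r x ^ 2)) := by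
    have : Continuous (uu r) := by unfold uu; fun_prop
    fun_prop
  have hsub : ∫ ψ in (0:ℝ)..(Real.pi / 2),
      ((fun x => Real.exp (-x ^ 2) * uu r x * (a + b * x ^ 2 + uu r x ^ 2)) ∘
        (fun ψ => r * Real.cos ψ)) ψ * (-(r * Real.sin ψ)) =
      ∫ x in (r * Real.cos 0)..(r * Real.cos (Real.pi / 2)),
        Real.exp (-x ^ 2) * uu r x * (a + b * x ^ 2 + uu r x ^ 2) := by
    apply intervalIntegral.integral_comp_mul_deriv
    · intro ψ _
      have := (Real.hasDerivAt_cos ψ).const_mul r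
      refine this.congr_deriv ?_
      ring
    · apply Continuous.continuousOn; fun_prop
    · exact hF
  rw [Real.cos_zero, Real.cos_pi_div_two, mul_one, mul_zero,
    intervalIntegral.integral_symm 0 r] at hsub
  have hpt : ∫ ψ in (0:ℝ)..(Real.pi / 2), G a b 0 ψ r
      = (Real.exp (r ^ 2) / r ^ 3) * ∫ ψ in (0:ℝ)..(Real.pi / 2),
      -(((fun x => Real.exp (-x ^ 2) * uu r x * (a + b * x ^ 2 + uu r x ^ 2)) ∘
        (fun ψ => r * Real.cos ψ)) ψ * (-(r * Real.sin ψ))) := by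
    rw [← intervalIntegral.integral_const_mul]
    apply intervalIntegral.integral_congr
    intro ψ hψ
    rw [uIcc_of_le (by positivity)] at hψ
    have hs : 0 ≤ Real.sin ψ := Real.sin_nonneg_of_nonneg_of_le_pi hψ.1 (by
      have := hψ.2; have := Real.pi_pos; linarith)
    simp only [Function.comp]
    rw [G_zero hr, uu_coord hr hs]
    have hsc := Real.sin_sq_add_cos_sq ψ
    have h4 : (r * Real.cos ψ) ^ 2 = r ^ 2 - r ^ 2 * Real.sin ψ ^ 2 := by
      linear_combination r ^ 2 * hsc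
    have h5 : Real.exp (-(r * Real.cos ψ) ^ 2) = Real.exp (r ^ 2 * Real.sin ψ ^ 2) /
        Real.exp (r ^ 2) := by
      rw [← Real.exp_sub]; congr 1; rw [h4]; ring
    have hff : ff a b r ψ = a + b * (r * Real.cos ψ) ^ 2 + (r * Real.sin ψ * Tf r ψ) ^ 2 := by
      unfold ff xf uf; ring
    rw [h5, ← hff]
    have he := (Real.exp_pos (r ^ 2)).ne'
    field_simp
  rw [hpt, intervalIntegral.integral_neg, hsub]
  unfold NN
  ring

end Pool.Agent.Helper284.LCMel
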