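import Mathlib
import Pool.Agent.Helper284.LCBase
import Pool.Agent.Helper284.LCField
import Pool.Agent.Helper284.LCPlane
import Pool.Agent.Helper284.LCSign
import Pool.Agent.Helper284.LCMel

set_option autoImplicit false

namespace Pool.Agent.Helper284.LCSard

open Set Pool.Agent.Helper284.LCBase Pool.Agent.Helper284.LCField Pool.Agent.Helper284.LCPlane
  Pool.Agent.Helper284.Melnikov Pool.Agent.Helper284.LCMel

theorem G'_per_all (a b ε ψ r : ℝ) : G' a b ε (ψ + 2 * Real.pi) r = G' a b ε ψ r := by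
  unfold G'
  have h1 : (fun p => Gu a b (p + ((0:ℝ), 2 * Real.pi, (0:ℝ)))) = Gu a b := by
    funext p
    unfold Gu
    simp only [Prod.fst_add, Prod.snd_add, add_zero]
    exact G_per a b _ _ _
  have h2 := fderiv_comp_add_right (𝕜 := ℝ) (f := Gu a b) (x := (ε, ψ, r))
    ((0:ℝ), 2 * Real.pi, (0:ℝ))
  rw [h1] at h2
  have h3 : ((ε, ψ, r) : ℝ × ℝ × ℝ) + ((0:ℝ), 2 * Real.pi, (0:ℝ)) = (ε, ψ + 2 * Real.pi, r) := by
    simp
  rw [h3] at h2
  rw [h2]

/-- coefficient of the parameter `a` -/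
noncomputable def DD (A b r : ℝ) : ℝ := Mel A b r - Mel (A - 1) b r

theorem G_lin {A b η r ψ : ℝ} (hr : 0 < r) : G (A - η) b 0 ψ r =
    G A b 0 ψ r - η * (G A b 0 ψ r - G (A - 1) b 0 ψ r) := by
  rw [G_zero hr, G_zero hr, G_zero hr]
  unfold ff
  ring

theorem Mel_lin {A b η r : ℝ} (hr : 0 < r) :
    Mel (A - η) b r = Mel A b r - η * DD A b r := by
  unfold DD Mel
  have h1 := (G_zero_cont (a := A) (b := b) hr).intervalIntegrable
    (μ := MeasureTheory.volume) 0 (2 * Real.pi)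
  have h2 := (G_zero_cont (a := A - 1) (b := b) hr).intervalIntegrable
    (μ := MeasureTheory.volume) 0 (2 * Real.pi)
  rw [← intervalIntegral.integral_sub h1 h2, ← intervalIntegral.integral_const_mul,
    ← intervalIntegral.integral_sub h1 ((h1.sub h2).const_mul η)]
  simp only [G_lin (A := A) (b := b) (η := η) hr]

theorem DD_pos {A b r : ℝ} (hr : 0 < r) : 0 < DD A b r := by
  unfold DD Mel
  have h1 := (G_zero_cont (a := A) (b := b) hr).intervalIntegrable
    (μ := MeasureTheory.volume) 0 (2 * Real.pi)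
  have h2 := (G_zero_cont (a := A - 1) (b := b) hr).intervalIntegrable
    (μ := MeasureTheory.volume) 0 (2 * Real.pi)
  rw [← intervalIntegral.integral_sub h1 h2]
  have hform : ∀ ψ, G A b 0 ψ r - G (A - 1) b 0 ψ r =
      Real.exp (r ^ 2 * Real.sin ψ ^ 2) * Tf r ψ * Real.sin ψ ^ 2 / r := by
    intro ψ
    rw [G_zero hr, G_zero hr]; unfold ff; ring
  apply intervalIntegral.integral_pos (by positivity)
  · exact ((G_zero_cont hr).sub (G_zero_cont hr)).continuousOn
  · intro ψ _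
    rw [hform]
    have := (Tf_pos hr ψ).le
    positivity
  · refine ⟨Real.pi / 2, ⟨by positivity, by linarith [Real.pi_pos]⟩, ?_⟩
    rw [hform, Real.sin_pi_div_two]
    have := Tf_pos hr (Real.pi / 2)
    positivity

theorem exists_params : ∃ a b r1 r2 r3 r4 : ℝ, 0 < r1 ∧ r1 < r2 ∧ r2 < r3 ∧ r3 < r4 ∧
    0 < Mel a b r1 ∧ Mel a b r2 < 0 ∧ 0 < Mel a b r3 ∧ Mel a b r4 < 0 ∧
    ∀ r, 0 < r → Mel a b r = 0 → (∫ ψ in (0:ℝ)..(2 * Real.pi), G' a b 0 ψ r) ≠ 0 := by
  obtain ⟨b, A, η0, r1, r2, r3, hη0, hr1, hr12, hr23, hsign⟩ := sign_pattern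
  -- derivative of the quotient
  set h : ℝ → ℝ := fun r => Mel A b r / DD A b r with hh
  set mA : ℝ → ℝ := fun r => ∫ ψ in (0:ℝ)..(2 * Real.pi), G' A b 0 ψ r with hmA
  set mB : ℝ → ℝ := fun r => ∫ ψ in (0:ℝ)..(2 * Real.pi), G' (A - 1) b 0 ψ r with hmB
  set h' : ℝ → ℝ := fun r => (mA r * DD A b r - Mel A b r * (mA r - mB r)) / DD A b r ^ 2 with hh'
  have hDd : ∀ r, 0 < r → HasDerivAt (DD A b) (mA r - mB r) r := by
    intro r hr
    exact (Mel_hasDerivAt A b hr).sub (Mel_hasDerivAt (A - 1) b hr)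
  have hhd : ∀ r, 0 < r → HasDerivAt h (h' r) r := by
    intro r hr
    exact (Mel_hasDerivAt A b hr).div (hDd r hr) (DD_pos hr).ne'
  have hsard : MeasureTheory.volume (h '' {r | 0 < r ∧ h' r = 0}) = 0 := by
    apply MeasureTheory.addHaar_image_eq_zero_of_det_fderivWithin_eq_zero MeasureTheory.volume
      (f' := fun _ => (0 : ℝ →L[ℝ] ℝ))
    · intro r hr
      have h1 := (hhd r hr.1)
      rw [hr.2] at h1
      have h2 := h1.hasFDerivAt.hasFDerivWithinAt (s := {r | 0 < r ∧ h' r = 0})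
      have h3 : ContinuousLinearMap.toSpanSingleton ℝ (0:ℝ) = 0 := by ext; simp
      rw [h3] at h2
      exact h2
    · intro r _
      simp [ContinuousLinearMap.det]
  have hη : ∃ η, 0 < η ∧ η < η0 ∧ η ∉ h '' {r | 0 < r ∧ h' r = 0} := by
    by_contra hcon
    push Not at hcon
    have hsub : Ioo 0 η0 ⊆ h '' {r | 0 < r ∧ h' r = 0} := fun η hη => hcon η hη.1 hη.2
    have h1 := MeasureTheory.measure_mono (μ := MeasureTheory.volume) hsub
    rw [hsard, Real.volume_Ioo, sub_zero] at h1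
    simp only [nonpos_iff_eq_zero, ENNReal.ofReal_eq_zero] at h1
    linarith
  obtain ⟨η, hη1, hη2, hη3⟩ := hη
  obtain ⟨s1, s2, s3, r4, hr34, s4⟩ := hsign η hη1 hη2
  have hr2 : 0 < r2 := hr1.trans hr12
  have hr3 : 0 < r3 := hr2.trans hr23
  have hr4 : 0 < r4 := hr3.trans hr34
  refine ⟨A - η, b, r1, r2, r3, r4, hr1, hr12, hr23, hr34, ?_, ?_, ?_, ?_, ?_⟩
  · rw [Mel_eq_NN hr1]; positivity
  · rw [Mel_eq_NN hr2]; exact mul_neg_of_pos_of_neg (by positivity) s2
  · rw [Mel_eq_NN hr3]; positivity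
  · rw [Mel_eq_NN hr4]; exact mul_neg_of_pos_of_neg (by positivity) s4
  · intro r hr hMr hzero
    have hD := DD_pos (A := A) (b := b) hr
    have h1 : Mel A b r = η * DD A b r := by
      have := Mel_lin (A := A) (b := b) (η := η) hr
      rw [hMr] at this; linarith
    have h2 : h r = η := by
      simp only [hh]; rw [h1]; field_simp
    have h3 : h' r ≠ 0 := by
      intro h3
      exact hη3 ⟨r, ⟨hr, h3⟩, h2⟩
    -- derivative of Mel (A - η)
    have h4 : HasDerivAt (Mel (A - η) b) (mA r - η * (mA r - mB r)) r := by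
      have h5 := (Mel_hasDerivAt A b hr).sub ((hDd r hr).const_mul η)
      refine h5.congr_of_eventuallyEq ?_
      filter_upwards [lt_mem_nhds hr] with x hx
      exact Mel_lin hx
    have h6 := (Mel_hasDerivAt (A - η) b hr).unique h4
    rw [hzero] at h6
    apply h3
    simp only [hh']
    rw [div_eq_zero_iff]
    left
    rw [h1]
    linear_combination (-(DD A b r)) * h6

end Pool.Agent.Helper284.LCSard
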