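import Mathlib
import Pool.Agent.Helper284.LCBase
import Pool.Agent.Helper284.LCField
import Pool.Agent.Helper284.LCPlane
import Pool.Agent.Helper284.LCMel
import Pool.Agent.Helper284.LCSard
import Pool.Agent.Helper284.LCAvg

set_option autoImplicit false

namespace Pool.Agent.Helper284.LCLocal

open Set Pool.Agent.Helper284.LCBase Pool.Agent.Helper284.LCField Pool.Agent.Helper284.LCPlane
  Pool.Agent.Helper284.LCMel Pool.Agent.Helper284.LCSard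

/-- the angular speed is positive for small `ε` near a circle -/
theorem Om_pos_unif (a b : ℝ) {r0 : ℝ} (hr0 : 0 < r0) :
    ∃ ε1, 0 < ε1 ∧ ∀ ε ∈ Icc (0:ℝ) ε1, ∀ r ∈ Icc (r0 - r0 / 2) (r0 + r0 / 2), ∀ ψ,
      0 < Om a b ε r ψ := by
  set K : Set (ℝ × ℝ) := Icc (r0 - r0 / 2) (r0 + r0 / 2) ×ˢ Icc 0 (2 * Real.pi) with hK
  have hKc : IsCompact K := isCompact_Icc.prod isCompact_Icc
  have hKpos : ∀ p ∈ K, 0 < p.1 := by
    rintro p ⟨hp, _⟩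
    have := hp.1
    linarith
  have hTc : ContinuousOn (fun p : ℝ × ℝ => Tf p.1 p.2) K := fun p hp =>
    (Tf_contDiffAt (n := 1) (hKpos p hp)).continuousAt.continuousWithinAt
  have hhc : ContinuousOn (fun p : ℝ × ℝ => hf a b p.1 p.2) K := fun p hp =>
    (hf_contDiffAt (n := 1) a b (hKpos p hp)).continuousAt.continuousWithinAt
  have hKne : K.Nonempty := by
    refine ⟨(r0, 0), ⟨⟨?_, ?_⟩, ⟨le_rfl, by positivity⟩⟩⟩
    · show r0 - r0 / 2 ≤ r0; linarith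
    · show r0 ≤ r0 + r0 / 2; linarith
  obtain ⟨p0, hp0, hmin⟩ := hKc.exists_isMinOn hKne hTc
  obtain ⟨H, hH⟩ := hKc.exists_bound_of_continuousOn hhc
  set c := Tf p0.1 p0.2 with hc
  have hcpos : 0 < c := Tf_pos (hKpos p0 hp0) _
  have hH0 : 0 ≤ H := (norm_nonneg _).trans (hH p0 hp0)
  refine ⟨c / (2 * (H + 1)), by positivity, ?_⟩
  intro ε hε r hr ψ
  have hper : Function.Periodic (fun ψ => Om a b ε r ψ) (2 * Real.pi) := fun x => Om_per a b ε r x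
  obtain ⟨y, hy, hxy⟩ := hper.exists_mem_Ico₀ (by positivity) ψ
  rw [hxy]
  have hmem : (r, y) ∈ K := ⟨hr, ⟨hy.1, hy.2.le⟩⟩
  have h1 : c ≤ Tf r y := hmin hmem
  have h2 : |hf a b r y| ≤ H := hH (r, y) hmem
  have h3 : |Real.sin y * Real.cos y| ≤ 1 := by
    rw [abs_mul]
    exact mul_le_one₀ (Real.abs_sin_le_one y) (abs_nonneg _) (Real.abs_cos_le_one y)
  have h4 : |ε * hf a b r y * (Real.sin y * Real.cos y)| ≤ ε * H := by
    rw [abs_mul, abs_mul, abs_of_nonneg hε.1]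
    have h5 : ε * |hf a b r y| ≤ ε * H := mul_le_mul_of_nonneg_left h2 hε.1
    have h6 : 0 ≤ ε * |hf a b r y| := mul_nonneg hε.1 (abs_nonneg _)
    calc ε * |hf a b r y| * |Real.sin y * Real.cos y| ≤ ε * |hf a b r y| * 1 :=
          mul_le_mul_of_nonneg_left h3 h6
      _ ≤ ε * H := by linarith
  have h7 : ε * H ≤ c / 2 := by
    have h8 : ε * H ≤ c / (2 * (H + 1)) * H := mul_le_mul_of_nonneg_right hε.2 hH0
    have h9 : c / (2 * (H + 1)) * H ≤ c / 2 := by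
      rw [div_mul_eq_mul_div, div_le_div_iff₀ (by positivity) (by positivity)]
      nlinarith
    linarith
  unfold Om
  have := (abs_le.mp h4).1
  linarith

theorem local_cycle {a b r0 : ℝ} (hr0 : 0 < r0) (hM : Mel a b r0 = 0)
    (hm : (∫ ψ in (0:ℝ)..(2 * Real.pi), G' a b 0 ψ r0) ≠ 0) {ρ0 : ℝ} (hρ0 : 0 < ρ0) :
    ∃ ρ1, 0 < ρ1 ∧ ρ1 ≤ ρ0 ∧ 0 < r0 - 16 * ρ1 ∧ ∃ ε0, 0 < ε0 ∧ ∀ ε, 0 < ε → ε < ε0 →
      ∃ (γ : ℝ → ℝ × ℝ) (T : ℝ), 0 < T ∧ (∀ t, HasDerivAt γ (V a b ε (γ t)) t) ∧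
        (∀ t, γ (t + T) = γ t) ∧ (∃ t, γ t ≠ γ 0) ∧
        (∀ t, kap (r0 + ρ1) < Cf (γ t).1 (γ t).2 ∧ Cf (γ t).1 (γ t).2 < kap (r0 - ρ1)) ∧
        ∀ (γ2 : ℝ → ℝ × ℝ) (T2 : ℝ), 0 < T2 → (∀ t, HasDerivAt γ2 (V a b ε (γ2 t)) t) →
          (∀ t, γ2 (t + T2) = γ2 t) → ∀ t0, (kap (r0 + ρ1) < Cf (γ2 t0).1 (γ2 t0).2 ∧
            Cf (γ2 t0).1 (γ2 t0).2 < kap (r0 - ρ1)) → range γ2 = range γ := by
  obtain ⟨ε1, hε1, hOm⟩ := Om_pos_unif a b hr0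
  have hpos : ∀ r ∈ Icc (r0 - r0 / 2) (r0 + r0 / 2), 0 < r := by
    intro r hr; have := hr.1; linarith
  obtain ⟨ρ1, hρ1, hρ1a, hρ1b, ε0, hε0, hε0b, hex⟩ := Avg.averaging (G := fun ε ψ r => G a b ε ψ r)
    (G' := G' a b) (r0 := r0) (ρ := r0 / 2) (ε1 := ε1)
    (m := ∫ ψ in (0:ℝ)..(2 * Real.pi), G' a b 0 ψ r0) (half_pos hr0) hε1
    (fun ε hε ψ r hr => G_hasDerivAt a b (hpos r hr) (hOm ε hε r hr ψ).ne')
    (fun p hp => (Gu_contDiffAt a b (p := p) (hpos _ hp.2.2)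
      (hOm _ hp.1 _ hp.2.2 _).ne').continuousAt.continuousWithinAt)
    (fun p hp => (G'_continuousAt a b (p := p) (hpos _ hp.2.2)
      (hOm _ hp.1 _ hp.2.2 _).ne').continuousWithinAt)
    (fun ε ψ r => G_per a b ε ψ r) (fun ε ψ r => G'_per_all a b ε ψ r) hM rfl hm
    (ρ0 := min ρ0 (r0 / 64)) (by positivity)
  have hρ1c : ρ1 ≤ ρ0 := hρ1a.trans (min_le_left _ _)
  have hρ1d : ρ1 ≤ r0 / 64 := hρ1a.trans (min_le_right _ _)
  have h16 : 0 < r0 - 16 * ρ1 := by linarith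
  refine ⟨ρ1, hρ1, hρ1c, h16, ε0, hε0, ?_⟩
  intro ε hεpos hεlt
  obtain ⟨R, hR, hRper, hRr, ω, ω', hω, hωper, hωb, key⟩ := hex ε hεpos hεlt
  have hεmem : ε ∈ Icc (0:ℝ) ε1 := ⟨hεpos.le, (hεlt.trans_le hε0b).le⟩
  have hOm' : ∀ ψ r, |r - r0| ≤ 16 * ρ1 → 0 < Om a b ε r ψ := by
    intro ψ r h
    apply hOm ε hεmem r _ ψ
    obtain ⟨h1, h2⟩ := abs_le.mp h
    constructor <;> linarith
  have hRpos : ∀ ψ, 0 < R ψ := by
    intro ψ
    have := abs_lt.mp (hRr ψ)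
    linarith
  obtain ⟨γ, T, hT, hγ, hγper, hrange⟩ := orbit_exists hRpos
    (fun ψ => hOm' ψ (R ψ) (by have := hRr ψ; linarith)) hR hRper
  refine ⟨γ, T, hT, hγ, hγper, ?_, ?_, ?_⟩
  · -- nonconstant
    by_contra hcon
    push Not at hcon
    have h1 : (xf (R 0) 0, uf (R 0) 0) ∈ range γ := by rw [hrange]; exact ⟨0, rfl⟩
    have h2 : (xf (R Real.pi) Real.pi, uf (R Real.pi) Real.pi) ∈ range γ := by
      rw [hrange]; exact ⟨Real.pi, rfl⟩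
    obtain ⟨t1, ht1⟩ := h1
    obtain ⟨t2, ht2⟩ := h2
    rw [hcon] at ht1 ht2
    have h3 := congrArg Prod.fst (ht1.symm.trans ht2)
    unfold xf at h3
    simp only [Real.cos_zero, Real.cos_pi] at h3
    have := hRpos 0
    have := hRpos Real.pi
    linarith
  · intro t
    have h1 : γ t ∈ range γ := ⟨t, rfl⟩
    rw [hrange] at h1
    obtain ⟨ψ, hψ⟩ := h1
    simp only at hψ
    rw [← hψ]
    simp only
    rw [Cf_coord (hRpos ψ)]
    obtain ⟨h2, h3⟩ := abs_lt.mp (hRr ψ)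
    constructor
    · exact kap_strictAnti (mem_Ici.mpr (hRpos ψ).le) (mem_Ici.mpr (by linarith)) (by linarith)
    · exact kap_strictAnti (mem_Ici.mpr (by linarith)) (mem_Ici.mpr (hRpos ψ).le) (by linarith)
  · intro γ2 T2 hT2 hγ2 hγ2per t0 hin
    obtain ⟨t1, ψ1, h1⟩ := isolated hρ1 h16 hOm' hR hRper hRr hω hωper hωb key hT2 hγ2 hγ2per hin
    have h2 : γ2 t1 ∈ range γ := by rw [h1, hrange]; exact ⟨ψ1, rfl⟩
    obtain ⟨t2, ht2⟩ := h2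
    -- shift
    have hshift : ∀ s t, HasDerivAt (fun t => γ (t + s)) (V a b ε (γ (t + s))) t := by
      intro s t
      exact (hγ (t + s)).comp_add_const t s
    have heq : γ2 = fun t => γ (t + (t2 - t1)) := by
      apply global_unique (t0 := t1) hγ2 (hshift (t2 - t1))
      rw [show t1 + (t2 - t1) = t2 by ring]
      exact ht2.symm
    rw [heq]
    ext z
    constructor
    · rintro ⟨t, rfl⟩; exact ⟨_, rfl⟩
    · rintro ⟨t, rfl⟩
      exact ⟨t - (t2 - t1), by simp⟩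

end Pool.Agent.Helper284.LCLocal
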