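import Mathlib
import Pool.Agent.Helper284.LCLocal

set_option autoImplicit false

namespace Pool.Agent.Helper284.LCThree

open Set Pool.Agent.Helper284.LCBase Pool.Agent.Helper284.LCField Pool.Agent.Helper284.LCPlane
  Pool.Agent.Helper284.LCMel Pool.Agent.Helper284.LCSard Pool.Agent.Helper284.LCLocal

/-- `D` is a non-constant periodic orbit of the planar field `F`. -/
def IsPer (F : ℝ × ℝ → ℝ × ℝ) (D : Set (ℝ × ℝ)) : Prop :=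
  ∃ γ : ℝ → ℝ × ℝ, ∃ T : ℝ, 0 < T ∧ (∀ t, HasDerivAt γ (F (γ t)) t) ∧
    (∀ t, γ (t + T) = γ t) ∧ (∃ t, γ t ≠ γ 0) ∧ D = range γ

/-- `C` is a limit cycle. -/
def IsLC (F : ℝ × ℝ → ℝ × ℝ) (C : Set (ℝ × ℝ)) : Prop :=
  IsPer F C ∧ ∃ U : Set (ℝ × ℝ), IsOpen U ∧ C ⊆ U ∧ ∀ D, IsPer F D → (D ∩ U).Nonempty → D = C

theorem lc_of_local {a b ε r0 ρ1 : ℝ}
    (h : ∃ (γ : ℝ → ℝ × ℝ) (T : ℝ), 0 < T ∧ (∀ t, HasDerivAt γ (V a b ε (γ t)) t) ∧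
        (∀ t, γ (t + T) = γ t) ∧ (∃ t, γ t ≠ γ 0) ∧
        (∀ t, kap (r0 + ρ1) < Cf (γ t).1 (γ t).2 ∧ Cf (γ t).1 (γ t).2 < kap (r0 - ρ1)) ∧
        ∀ (γ2 : ℝ → ℝ × ℝ) (T2 : ℝ), 0 < T2 → (∀ t, HasDerivAt γ2 (V a b ε (γ2 t)) t) →
          (∀ t, γ2 (t + T2) = γ2 t) → ∀ t0, (kap (r0 + ρ1) < Cf (γ2 t0).1 (γ2 t0).2 ∧
            Cf (γ2 t0).1 (γ2 t0).2 < kap (r0 - ρ1)) → range γ2 = range γ) :
    ∃ C : Set (ℝ × ℝ), IsLC (V a b ε) C ∧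
      ∀ z ∈ C, kap (r0 + ρ1) < Cf z.1 z.2 ∧ Cf z.1 z.2 < kap (r0 - ρ1) := by
  obtain ⟨γ, T, hT, hγ, hper, hnc, hin, huniq⟩ := h
  have hC : Continuous (fun p : ℝ × ℝ => Cf p.1 p.2) := by unfold Cf; fun_prop
  refine ⟨range γ, ⟨⟨γ, T, hT, hγ, hper, hnc, rfl⟩,
    {z | kap (r0 + ρ1) < Cf z.1 z.2 ∧ Cf z.1 z.2 < kap (r0 - ρ1)}, ?_, ?_, ?_⟩, ?_⟩
  · exact (isOpen_lt continuous_const hC).inter (isOpen_lt hC continuous_const)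
  · rintro z ⟨t, rfl⟩
    exact hin t
  · rintro D ⟨γ2, T2, hT2, hγ2, hper2, -, rfl⟩ ⟨z, ⟨t0, rfl⟩, hz⟩
    exact huniq γ2 T2 hT2 hγ2 hper2 t0 hz
  · rintro z ⟨t, rfl⟩
    exact hin t

theorem Mel_zero {a b s t : ℝ} (hs : 0 < s) (hst : s < t) (h : Mel a b s * Mel a b t < 0) :
    ∃ r, s < r ∧ r < t ∧ Mel a b r = 0 := by
  have hc : ContinuousOn (Mel a b) (Icc s t) := fun x hx =>
    (Mel_hasDerivAt a b (hs.trans_le hx.1)).continuousAt.continuousWithinAt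
  have hex : ∃ r ∈ Icc s t, Mel a b r = 0 := by
    rcases mul_neg_iff.mp h with ⟨h1, h2⟩ | ⟨h1, h2⟩
    · obtain ⟨r, hr, h3⟩ := intermediate_value_Icc' hst.le hc ⟨h2.le, h1.le⟩
      exact ⟨r, hr, h3⟩
    · obtain ⟨r, hr, h3⟩ := intermediate_value_Icc hst.le hc ⟨h1.le, h2.le⟩
      exact ⟨r, hr, h3⟩
  obtain ⟨r, hr, h0⟩ := hex
  refine ⟨r, ?_, ?_, h0⟩
  · rcases eq_or_lt_of_le hr.1 with e | e
    · rw [e, h0] at h; simp at h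
    · exact e
  · rcases eq_or_lt_of_le hr.2 with e | e
    · rw [← e, h0] at h; simp at h
    · exact e

theorem three_cycles : ∃ a b ε : ℝ, ∃ C1 C2 C3 : Set (ℝ × ℝ),
    IsLC (V a b ε) C1 ∧ IsLC (V a b ε) C2 ∧ IsLC (V a b ε) C3 ∧ C1 ≠ C2 ∧ C1 ≠ C3 ∧ C2 ≠ C3 := by
  obtain ⟨a, b, r1, r2, r3, r4, hr1, h12, h23, h34, m1, m2, m3, m4, hnd⟩ := exists_params
  obtain ⟨s1, hs1a, hs1b, hs1⟩ := Mel_zero hr1 h12 (mul_neg_of_pos_of_neg m1 m2)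
  obtain ⟨s2, hs2a, hs2b, hs2⟩ := Mel_zero (hr1.trans h12) h23 (mul_neg_of_neg_of_pos m2 m3)
  obtain ⟨s3, hs3a, hs3b, hs3⟩ := Mel_zero ((hr1.trans h12).trans h23) h34
    (mul_neg_of_pos_of_neg m3 m4)
  have p1 : 0 < s1 := hr1.trans hs1a
  have p12 : s1 < s2 := hs1b.trans hs2a
  have p23 : s2 < s3 := hs2b.trans hs3a
  have p2 : 0 < s2 := p1.trans p12
  have p3 : 0 < s3 := p2.trans p23
  set ρ0 := min ((s2 - s1) / 4) ((s3 - s2) / 4) with hρ0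
  have hρ0pos : 0 < ρ0 := by
    apply lt_min <;> linarith
  have hρa : ρ0 ≤ (s2 - s1) / 4 := min_le_left _ _
  have hρb : ρ0 ≤ (s3 - s2) / 4 := min_le_right _ _
  obtain ⟨ρ1, q1, q1', q1'', ε1, hε1, H1⟩ := local_cycle p1 hs1 (hnd s1 p1 hs1) hρ0pos
  obtain ⟨ρ2, q2, q2', q2'', ε2, hε2, H2⟩ := local_cycle p2 hs2 (hnd s2 p2 hs2) hρ0pos
  obtain ⟨ρ3, q3, q3', q3'', ε3, hε3, H3⟩ := local_cycle p3 hs3 (hnd s3 p3 hs3) hρ0pos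
  set ε := min ε1 (min ε2 ε3) / 2 with hε
  have hmin : 0 < min ε1 (min ε2 ε3) := lt_min hε1 (lt_min hε2 hε3)
  have hεpos : 0 < ε := by rw [hε]; positivity
  have he1 : ε < ε1 := lt_of_lt_of_le (by rw [hε]; linarith) (min_le_left _ _)
  have he2 : ε < ε2 := lt_of_lt_of_le (by rw [hε]; linarith)
    ((min_le_right _ _).trans (min_le_left _ _))
  have he3 : ε < ε3 := lt_of_lt_of_le (by rw [hε]; linarith)
    ((min_le_right _ _).trans (min_le_right _ _))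
  obtain ⟨C1, L1, B1⟩ := lc_of_local (H1 ε hεpos he1)
  obtain ⟨C2, L2, B2⟩ := lc_of_local (H2 ε hεpos he2)
  obtain ⟨C3, L3, B3⟩ := lc_of_local (H3 ε hεpos he3)
  have hne : ∀ {C : Set (ℝ × ℝ)}, IsLC (V a b ε) C → C.Nonempty := by
    rintro C ⟨⟨γ, -, -, -, -, -, rfl⟩, -⟩
    exact ⟨γ 0, 0, rfl⟩
  have hk : ∀ {x y : ℝ}, 0 < x → x < y → kap y < kap x := fun hx hxy =>
    kap_strictAnti (mem_Ici.mpr hx.le) (mem_Ici.mpr (hx.le.trans hxy.le)) hxy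
  refine ⟨a, b, ε, C1, C2, C3, L1, L2, L3, ?_, ?_, ?_⟩
  · intro h
    obtain ⟨z, hz⟩ := hne L1
    have h1 := (B1 z hz).1
    have h2 := (B2 z (h ▸ hz)).2
    have h3 : kap (s2 - ρ2) < kap (s1 + ρ1) := hk (by linarith) (by linarith)
    linarith
  · intro h
    obtain ⟨z, hz⟩ := hne L1
    have h1 := (B1 z hz).1
    have h2 := (B3 z (h ▸ hz)).2
    have h3 : kap (s3 - ρ3) < kap (s1 + ρ1) := hk (by linarith) (by linarith)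
    linarith
  · intro h
    obtain ⟨z, hz⟩ := hne L2
    have h1 := (B2 z hz).1
    have h2 := (B3 z (h ▸ hz)).2
    have h3 : kap (s3 - ρ3) < kap (s2 + ρ2) := hk (by linarith) (by linarith)
    linarith

end Pool.Agent.Helper284.LCThree
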