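import Mathlib
import Pool.Agent.Helper284.LCThree

set_option autoImplicit false

namespace Pool.Agent.Helper284.LCPoly

open Set MvPolynomial Pool.Agent.Helper284.LCField Pool.Agent.Helper284.LCPlane
  Pool.Agent.Helper284.LCThree

/-- the linear component -/
noncomputable def P1 (a : ℝ) : MvPolynomial (Fin 2) ℝ := X 1 + C a * X 0

/-- the cubic component -/
noncomputable def Q3 (a b ε : ℝ) : MvPolynomial (Fin 2) ℝ :=
  -(X 0) ^ 3 + X 0 * (X 1 + C a * X 0) ^ 2 + C b * (X 0 ^ 2 * (X 1 + C a * X 0))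
    + C ε * (X 1 + C a * X 0) ^ 3

theorem P1_hom (a : ℝ) : (P1 a).IsHomogeneous 1 := by
  unfold P1
  have h1 := (isHomogeneous_X ℝ (0 : Fin 2)).C_mul a
  exact (isHomogeneous_X ℝ (1 : Fin 2)).add h1

theorem Q3_hom (a b ε : ℝ) : (Q3 a b ε).IsHomogeneous 3 := by
  have h0 := P1_hom a
  unfold P1 at h0
  have hX := isHomogeneous_X ℝ (0 : Fin 2)
  have h1 : ((X 0 : MvPolynomial (Fin 2) ℝ) ^ 3).IsHomogeneous 3 := hX.pow 3
  have h2 : ((X 0 : MvPolynomial (Fin 2) ℝ) * (X 1 + C a * X 0) ^ 2).IsHomogeneous 3 := by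
    have := hX.mul (h0.pow 2)
    exact this
  have h3 : ((X 0 : MvPolynomial (Fin 2) ℝ) ^ 2 * (X 1 + C a * X 0)).IsHomogeneous 3 := by
    have := (hX.pow 2).mul h0
    exact this
  have h4 : ((X 1 + C a * X 0 : MvPolynomial (Fin 2) ℝ) ^ 3).IsHomogeneous 3 := h0.pow 3
  unfold Q3
  have h5 : (-(X 0 : MvPolynomial (Fin 2) ℝ) ^ 3).IsHomogeneous 3 := h1.neg
  exact ((h5.add h2).add (h3.C_mul b)).add (h4.C_mul ε)

theorem P1_eval (a x y : ℝ) : eval (![x, y] : Fin 2 → ℝ) (P1 a) = y + a * x := by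
  simp [P1]

theorem Q3_eval (a b ε x y : ℝ) : eval (![x, y] : Fin 2 → ℝ) (Q3 a b ε) =
    -x ^ 3 + x * (y + a * x) ^ 2 + b * (x ^ 2 * (y + a * x)) + ε * (y + a * x) ^ 3 := by
  simp [Q3]

/-- the planar field of the polynomial system -/
noncomputable def FP (P Q : MvPolynomial (Fin 2) ℝ) (z : ℝ × ℝ) : ℝ × ℝ :=
  (eval (![z.1, z.2] : Fin 2 → ℝ) P, eval (![z.1, z.2] : Fin 2 → ℝ) Q)

/-- the linear change of variables -/
def Lm (a : ℝ) (z : ℝ × ℝ) : ℝ × ℝ := (z.1, z.2 + a * z.1)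
def Li (a : ℝ) (z : ℝ × ℝ) : ℝ × ℝ := (z.1, z.2 - a * z.1)

theorem Lm_Li (a : ℝ) (z : ℝ × ℝ) : Lm a (Li a z) = z := by
  unfold Lm Li; ext <;> simp

theorem Li_Lm (a : ℝ) (z : ℝ × ℝ) : Li a (Lm a z) = z := by
  unfold Lm Li; ext <;> simp

theorem Lm_cont (a : ℝ) : Continuous (Lm a) := by unfold Lm; fun_prop

theorem to_V {a b ε : ℝ} {γ : ℝ → ℝ × ℝ}
    (h : ∀ t, HasDerivAt γ (FP (P1 (ε * a)) (Q3 (ε * a) (ε * b) ε) (γ t)) t) (t : ℝ) :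
    HasDerivAt (fun t => Lm (ε * a) (γ t)) (V a b ε (Lm (ε * a) (γ t))) t := by
  have h1 : HasDerivAt (fun t => (γ t).1) _ t := hasFDerivAt_fst.comp_hasDerivAt t (h t)
  have h2 : HasDerivAt (fun t => (γ t).2) _ t := hasFDerivAt_snd.comp_hasDerivAt t (h t)
  have h3 := h1.prodMk (h2.add (h1.const_mul (ε * a)))
  refine h3.congr_deriv ?_
  simp only [FP, P1_eval, Q3_eval, V, Lm, vf, ContinuousLinearMap.coe_fst',
    ContinuousLinearMap.coe_snd']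
  ext
  · rfl
  · simp only; ring

theorem of_V {a b ε : ℝ} {γ : ℝ → ℝ × ℝ} (h : ∀ t, HasDerivAt γ (V a b ε (γ t)) t) (t : ℝ) :
    HasDerivAt (fun t => Li (ε * a) (γ t))
      (FP (P1 (ε * a)) (Q3 (ε * a) (ε * b) ε) (Li (ε * a) (γ t))) t := by
  have h1 : HasDerivAt (fun t => (γ t).1) _ t := hasFDerivAt_fst.comp_hasDerivAt t (h t)
  have h2 : HasDerivAt (fun t => (γ t).2) _ t := hasFDerivAt_snd.comp_hasDerivAt t (h t)
  have h3 := h1.prodMk (h2.sub (h1.const_mul (ε * a)))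
  refine h3.congr_deriv ?_
  simp only [FP, P1_eval, Q3_eval, V, Li, vf, ContinuousLinearMap.coe_fst',
    ContinuousLinearMap.coe_snd']
  ext
  · simp
  · simp only; ring

theorem per_to {a b ε : ℝ} {D : Set (ℝ × ℝ)}
    (h : IsPer (FP (P1 (ε * a)) (Q3 (ε * a) (ε * b) ε)) D) :
    IsPer (V a b ε) (Lm (ε * a) '' D) := by
  obtain ⟨γ, T, hT, hγ, hper, ⟨t, ht⟩, rfl⟩ := h
  refine ⟨fun t => Lm (ε * a) (γ t), T, hT, to_V hγ, fun t => by simp only [hper], ⟨t, ?_⟩, ?_⟩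
  · intro he
    apply ht
    have := congrArg (Li (ε * a)) he
    simpa only [Li_Lm] using this
  · rw [← range_comp]; rfl

theorem per_of {a b ε : ℝ} {D : Set (ℝ × ℝ)} (h : IsPer (V a b ε) D) :
    IsPer (FP (P1 (ε * a)) (Q3 (ε * a) (ε * b) ε)) (Li (ε * a) '' D) := by
  obtain ⟨γ, T, hT, hγ, hper, ⟨t, ht⟩, rfl⟩ := h
  refine ⟨fun t => Li (ε * a) (γ t), T, hT, of_V hγ, fun t => by simp only [hper], ⟨t, ?_⟩, ?_⟩
  · intro he
    apply ht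
    have := congrArg (Lm (ε * a)) he
    simpa only [Lm_Li] using this
  · rw [← range_comp]; rfl

theorem Lm_image_Li (a : ℝ) (D : Set (ℝ × ℝ)) : Lm a '' (Li a '' D) = D := by
  rw [image_image]; simp only [Lm_Li, image_id']

theorem Li_image_Lm (a : ℝ) (D : Set (ℝ × ℝ)) : Li a '' (Lm a '' D) = D := by
  rw [image_image]; simp only [Li_Lm, image_id']

theorem lc_of {a b ε : ℝ} {D : Set (ℝ × ℝ)} (h : IsLC (V a b ε) D) :
    IsLC (FP (P1 (ε * a)) (Q3 (ε * a) (ε * b) ε)) (Li (ε * a) '' D) := by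
  obtain ⟨h1, U, hU, hDU, huniq⟩ := h
  refine ⟨per_of h1, Lm (ε * a) ⁻¹' U, hU.preimage (Lm_cont _), ?_, ?_⟩
  · rintro z ⟨w, hw, rfl⟩
    rw [mem_preimage, Lm_Li]
    exact hDU hw
  · rintro E hE ⟨z, hzE, hzU⟩
    have h2 := huniq _ (per_to hE) ⟨Lm (ε * a) z, ⟨z, hzE, rfl⟩, hzU⟩
    rw [← h2, Li_image_Lm]

theorem three_poly : ∃ P Q : MvPolynomial (Fin 2) ℝ, P.IsHomogeneous 1 ∧ Q.IsHomogeneous 3 ∧
    ∃ C1 C2 C3 : Set (ℝ × ℝ), IsLC (FP P Q) C1 ∧ IsLC (FP P Q) C2 ∧ IsLC (FP P Q) C3 ∧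
      C1 ≠ C2 ∧ C1 ≠ C3 ∧ C2 ≠ C3 := by
  obtain ⟨a, b, ε, C1, C2, C3, L1, L2, L3, n1, n2, n3⟩ := three_cycles
  have hinj : ∀ {A B : Set (ℝ × ℝ)}, A ≠ B → Li (ε * a) '' A ≠ Li (ε * a) '' B := by
    intro A B hAB h
    apply hAB
    rw [← Lm_image_Li (ε * a) A, ← Lm_image_Li (ε * a) B, h]
  exact ⟨P1 (ε * a), Q3 (ε * a) (ε * b) ε, P1_hom _, Q3_hom _ _ _, _, _, _,
    lc_of L1, lc_of L2, lc_of L3, hinj n1, hinj n2, hinj n3⟩

end Pool.Agent.Helper284.LCPoly
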