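import Mathlib

/-!
The attractor of the pair `z ↦ q z`, `z ↦ q z + 1` is connected exactly when `q` is a zero of a
power series with coefficients in `{-1,0,1}` and constant term `1`.
(Lemmas by helper555, helper349, helper200 through the job board.)
-/

set_option autoImplicit false

namespace Pool.Agent.LinPair


/-- The attractor of the pair `z ↦ q z`, `z ↦ q z + 1`. -/
def Attr (q : ℂ) : Set ℂ :=
  {z | ∃ σ : ℕ → ℂ, (∀ k, σ k = 0 ∨ σ k = 1) ∧ z = ∑' k, σ k * q ^ k}

/-- `q` is a zero of a power series with coefficients in `{-1,0,1}` and constant term `1`. -/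
def Ser (q : ℂ) : Prop :=
  ∃ a : ℕ → ℤ, (∀ k, a k = -1 ∨ a k = 0 ∨ a k = 1) ∧ a 0 = 1 ∧ ∑' k, (a k : ℂ) * q ^ k = 0

/-- The coding map. -/
noncomputable def code (q : ℂ) (s : ℕ → Bool) : ℂ := ∑' k, (if s k then (1 : ℂ) else 0) * q ^ k

theorem code_bound (q : ℂ) (s : ℕ → Bool) (k : ℕ) : ‖(if s k then (1 : ℂ) else 0) * q ^ k‖ ≤ ‖q‖ ^ k := by
  rw [norm_mul, norm_pow]
  split_ifs
  · simp
  · simp

theorem code_summable (q : ℂ) (hq : ‖q‖ < 1) (s : ℕ → Bool) :
    Summable fun k => (if s k then (1 : ℂ) else 0) * q ^ k :=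
  Summable.of_norm_bounded (summable_geometric_of_lt_one (norm_nonneg q) hq) (code_bound q s)

theorem code_continuous (q : ℂ) (hq : ‖q‖ < 1) : Continuous (code q) := by
  refine continuous_tsum (fun k => ?_) (summable_geometric_of_lt_one (norm_nonneg q) hq)
    (fun k s => code_bound q s k)
  refine Continuous.mul ?_ continuous_const
  exact (continuous_of_discreteTopology (f := fun b : Bool => (if b then (1 : ℂ) else 0))).comp
    (continuous_apply k)

theorem attr_eq (q : ℂ) : Attr q = Set.range (code q) := by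
  ext z
  constructor
  · rintro ⟨σ, hσ, rfl⟩
    classical
    refine ⟨fun k => decide (σ k = 1), ?_⟩
    unfold code
    refine tsum_congr fun k => ?_
    rcases hσ k with h | h
    · simp [h]
    · simp [h]
  · rintro ⟨s, rfl⟩
    refine ⟨fun k => if s k then 1 else 0, fun k => ?_, rfl⟩
    cases s k <;> simp

theorem code_shift (q : ℂ) (hq : ‖q‖ < 1) (s : ℕ → Bool) :
    code q s = (if s 0 then 1 else 0) + q * code q (fun k => s (k + 1)) := by
  unfold code
  rw [(code_summable q hq s).tsum_eq_zero_add, ← tsum_mul_left]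
  congr 1
  · simp
  · refine tsum_congr fun k => ?_
    rw [pow_succ]; ring

theorem ser_of_connected (q : ℂ) (hq : ‖q‖ < 1) (h : IsConnected (Attr q)) : Ser q := by
  have hcomp : IsCompact (Attr q) := by
    rw [attr_eq]
    exact isCompact_range (code_continuous q hq)
  have hne : (Attr q).Nonempty := h.nonempty
  obtain ⟨z0, hz0⟩ := hne
  have hc1 : IsClosed ((fun z => q * z) '' Attr q) := (hcomp.image (by fun_prop)).isClosed
  have hc2 : IsClosed ((fun z => q * z + 1) '' Attr q) := (hcomp.image (by fun_prop)).isClosed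
  have hsub1 : (fun z => q * z) '' Attr q ⊆ Attr q := by
    rw [attr_eq]
    rintro _ ⟨_, ⟨s, rfl⟩, rfl⟩
    refine ⟨fun k => match k with | 0 => false | k + 1 => s k, ?_⟩
    rw [code_shift q hq]
    simp
  have hsub2 : (fun z => q * z + 1) '' Attr q ⊆ Attr q := by
    rw [attr_eq]
    rintro _ ⟨_, ⟨s, rfl⟩, rfl⟩
    refine ⟨fun k => match k with | 0 => true | k + 1 => s k, ?_⟩
    rw [code_shift q hq]
    simp [add_comm]
  have hcover : Attr q ⊆ (fun z => q * z) '' Attr q ∪ (fun z => q * z + 1) '' Attr q := by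
    intro z hz
    rw [attr_eq] at hz
    obtain ⟨s, rfl⟩ := hz
    have hmem : code q (fun k => s (k + 1)) ∈ Attr q := by rw [attr_eq]; exact ⟨_, rfl⟩
    rw [code_shift q hq]
    cases h0 : s 0
    · left
      exact ⟨_, hmem, by simp⟩
    · right
      exact ⟨_, hmem, by simp [add_comm]⟩
  obtain ⟨w, -, hw1, hw2⟩ := isPreconnected_closed_iff.mp h.isPreconnected _ _ hc1 hc2 hcover
    ⟨q * z0, hsub1 ⟨z0, hz0, rfl⟩, ⟨z0, hz0, rfl⟩⟩ ⟨q * z0 + 1, hsub2 ⟨z0, hz0, rfl⟩, ⟨z0, hz0, rfl⟩⟩
  rw [attr_eq] at hw1 hw2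
  obtain ⟨_, ⟨s, rfl⟩, hs⟩ := hw1
  obtain ⟨_, ⟨t, rfl⟩, ht⟩ := hw2
  simp only at hs ht
  refine ⟨fun k => match k with | 0 => 1 | k + 1 => (if t k then 1 else 0) - (if s k then 1 else 0), ?_, rfl, ?_⟩
  · intro k
    cases k with
    | zero => right; right; rfl
    | succ k =>
      simp only
      cases t k <;> cases s k <;> simp
  · have hsumm : Summable fun k : ℕ => (((match k with
        | 0 => 1
        | k + 1 => (if t k then 1 else 0) - (if s k then 1 else 0) : ℤ)) : ℂ) * q ^ k := by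
      refine Summable.of_norm_bounded (summable_geometric_of_lt_one (norm_nonneg q) hq) fun k => ?_
      rw [norm_mul, norm_pow]
      refine mul_le_of_le_one_left (by positivity) ?_
      cases k with
      | zero => simp
      | succ k =>
        simp only
        cases t k <;> cases s k <;> simp
    rw [hsumm.tsum_eq_zero_add]
    simp only
    have h1 : ∑' b : ℕ, ((((if t b then 1 else 0) - (if s b then 1 else 0) : ℤ)) : ℂ) * q ^ (b + 1) =
        q * code q t - q * code q s := by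
      unfold code
      rw [← tsum_mul_left, ← tsum_mul_left, ← Summable.tsum_sub ((code_summable q hq t).mul_left q)
        ((code_summable q hq s).mul_left q)]
      refine tsum_congr fun b => ?_
      rw [pow_succ]
      cases t b <;> cases s b <;> simp <;> ring
    rw [h1]
    have h2 : q * code q s = q * code q t + 1 := by rw [hs, ht]
    rw [h2]
    simp



theorem A2_summable {q : ℂ} (hq : ‖q‖ < 1) {σ : ℕ → ℂ} (hσ : ∀ k, ‖σ k‖ ≤ 1) :
    Summable (fun k => σ k * q ^ k) := by
  refine Summable.of_norm_bounded (g := fun k => ‖q‖ ^ k)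
    (summable_geometric_of_lt_one (norm_nonneg _) hq) fun k => ?_
  rw [norm_mul, norm_pow]
  exact mul_le_of_le_one_left (by positivity) (hσ k)

theorem A2_norm_le {s : ℂ} (h : s = 0 ∨ s = 1) : ‖s‖ ≤ 1 := by
  rcases h with h | h <;> simp [h]

theorem A2_isCompact (q : ℂ) (hq : ‖q‖ < 1) : IsCompact (Attr q) := by
  have h1 : Attr q = Set.range (fun b : ℕ → Bool => ∑' k, (if b k then (1 : ℂ) else 0) * q ^ k) := by
    ext z
    constructor
    · rintro ⟨σ, hσ, rfl⟩
      classical
      refine ⟨fun k => decide (σ k = 1), ?_⟩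
      simp only
      congr 1
      ext k
      rcases hσ k with h | h <;> simp [h]
    · rintro ⟨b, rfl⟩
      refine ⟨fun k => if b k then (1 : ℂ) else 0, fun k => ?_, rfl⟩
      by_cases h : b k <;> simp [h]
  rw [h1]
  apply isCompact_range
  refine continuous_tsum (u := fun k => ‖q‖ ^ k) (fun k => ?_)
    (summable_geometric_of_lt_one (norm_nonneg _) hq) (fun k b => ?_)
  · refine Continuous.mul ?_ continuous_const
    exact (continuous_of_discreteTopology (f := fun c : Bool => if c then (1 : ℂ) else 0)).comp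
      (continuous_apply k)
  · rw [norm_mul, norm_pow]
    apply mul_le_of_le_one_left (by positivity)
    split_ifs <;> simp

theorem A2_zero_mem (q : ℂ) : (0 : ℂ) ∈ Attr q := ⟨fun _ => 0, fun _ => Or.inl rfl, by simp⟩

theorem A2_map_mem {q : ℂ} (hq : ‖q‖ < 1) {z : ℂ} (hz : z ∈ Attr q) {i : ℂ} (hi : i = 0 ∨ i = 1) :
    q * z + i ∈ Attr q := by
  obtain ⟨σ, hσ, rfl⟩ := hz
  let τ : ℕ → ℂ := fun k => Nat.casesOn k i σ
  have hτ : ∀ k, τ k = 0 ∨ τ k = 1 := by
    intro k
    cases k with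
    | zero => exact hi
    | succ k => exact hσ k
  refine ⟨τ, hτ, ?_⟩
  rw [(A2_summable hq fun k => A2_norm_le (hτ k)).tsum_eq_zero_add]
  simp only [τ, pow_zero, mul_one, pow_succ]
  rw [add_comm, ← tsum_mul_left]
  congr 1
  congr 1
  ext k
  ring

theorem A2_exists_pre {q : ℂ} (hq : ‖q‖ < 1) {z : ℂ} (hz : z ∈ Attr q) :
    ∃ w ∈ Attr q, ∃ i : ℂ, (i = 0 ∨ i = 1) ∧ z = q * w + i := by
  obtain ⟨σ, hσ, rfl⟩ := hz
  refine ⟨∑' k, σ (k + 1) * q ^ k, ⟨fun k => σ (k + 1), fun k => hσ _, rfl⟩, σ 0, hσ 0, ?_⟩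
  rw [(A2_summable hq fun k => A2_norm_le (hσ k)).tsum_eq_zero_add, ← tsum_mul_left, add_comm,
    pow_zero, mul_one]
  congr 1
  congr 1
  ext k
  ring

theorem A2_common {q : ℂ} (hq : ‖q‖ < 1) (h : Ser q) :
    ∃ u ∈ Attr q, ∃ v ∈ Attr q, q * u = q * v + 1 := by
  obtain ⟨a, ha, ha0, hsum⟩ := h
  let s : ℕ → ℂ := fun k => if a (k + 1) = -1 then 1 else 0
  let t : ℕ → ℂ := fun k => if a (k + 1) = 1 then 1 else 0
  have hs : ∀ k, s k = 0 ∨ s k = 1 := by
    intro k
    by_cases h : a (k + 1) = -1 <;> simp [s, h]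
  have ht : ∀ k, t k = 0 ∨ t k = 1 := by
    intro k
    by_cases h : a (k + 1) = 1 <;> simp [t, h]
  have hst : ∀ k, (a (k + 1) : ℂ) = t k - s k := by
    intro k
    rcases ha (k + 1) with h | h | h <;> simp [s, t, h]
  refine ⟨_, ⟨s, hs, rfl⟩, _, ⟨t, ht, rfl⟩, ?_⟩
  have h1 := A2_summable hq fun k => A2_norm_le (hs k)
  have h2 := A2_summable hq fun k => A2_norm_le (ht k)
  have h3 : Summable (fun k => (a k : ℂ) * q ^ k) := by
    apply A2_summable hq
    intro k
    rcases ha k with h | h | h <;> simp [h]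
  rw [h3.tsum_eq_zero_add, ha0, pow_zero] at hsum
  have h4 : ∑' k, (a (k + 1) : ℂ) * q ^ (k + 1) = q * ∑' k, t k * q ^ k - q * ∑' k, s k * q ^ k := by
    rw [← mul_sub, ← h2.tsum_sub h1, ← tsum_mul_left]
    congr 1
    ext k
    rw [hst]
    ring
  rw [h4] at hsum
  push_cast at hsum
  linear_combination -hsum

theorem connected_of_ser (q : ℂ) (hq : ‖q‖ < 1) (h : Ser q) : IsConnected (Attr q) := by
  have hq0 : q ≠ 0 := by
    rintro rfl
    obtain ⟨u, _, v, _, huv⟩ := A2_common hq h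
    simp at huv
  have hq0' : 0 < ‖q‖ := norm_pos_iff.2 hq0
  obtain ⟨u, hu, v, hv, huv⟩ := A2_common hq h
  have hK := A2_isCompact q hq
  obtain ⟨D, hD0, hD⟩ : ∃ D : ℝ, 0 < D ∧ ∀ x ∈ Attr q, ∀ y ∈ Attr q, dist x y < D := by
    refine ⟨Metric.diam (Attr q) + 1, by positivity, fun x hx y hy => ?_⟩
    have := Metric.dist_le_diam_of_mem hK.isBounded hx hy
    linarith
  have key : ∀ n : ℕ, ∀ x ∈ Attr q, ∀ y ∈ Attr q,
      Relation.ReflTransGen (fun a b : ℂ => b ∈ Attr q ∧ dist a b < D * ‖q‖ ^ n) x y := by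
    intro n
    induction n with
    | zero =>
      intro x hx y hy
      refine Relation.ReflTransGen.single ⟨hy, ?_⟩
      simpa using hD x hx y hy
    | succ n ih =>
      have tr : ∀ (i : ℂ), (i = 0 ∨ i = 1) → ∀ x ∈ Attr q, ∀ y ∈ Attr q,
          Relation.ReflTransGen (fun a b : ℂ => b ∈ Attr q ∧ dist a b < D * ‖q‖ ^ (n + 1))
            (q * x + i) (q * y + i) := by
        intro i hi x hx y hy
        refine Relation.ReflTransGen.lift (fun z => q * z + i) ?_ _ _ (ih x hx y hy)
        rintro a b ⟨hb, hab⟩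
        refine ⟨A2_map_mem hq hb hi, ?_⟩
        rw [dist_add_right, dist_eq_norm, ← mul_sub, norm_mul, ← dist_eq_norm, pow_succ]
        nlinarith
      intro x hx y hy
      obtain ⟨x1, hx1, i, hi, rfl⟩ := A2_exists_pre hq hx
      obtain ⟨y1, hy1, j, hj, rfl⟩ := A2_exists_pre hq hy
      rcases hi with rfl | rfl <;> rcases hj with rfl | rfl
      · exact tr 0 (Or.inl rfl) x1 hx1 y1 hy1
      · refine (tr 0 (Or.inl rfl) x1 hx1 u hu).trans ?_
        rw [add_zero, huv]
        exact tr 1 (Or.inr rfl) v hv y1 hy1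
      · refine (tr 1 (Or.inr rfl) x1 hx1 v hv).trans ?_
        rw [← huv, ← add_zero (q * u)]
        exact tr 0 (Or.inl rfl) u hu y1 hy1
      · exact tr 1 (Or.inr rfl) x1 hx1 y1 hy1
  refine ⟨⟨0, A2_zero_mem q⟩, ?_⟩
  rw [isPreconnected_closed_iff]
  intro t t' ht ht' hcov hne hne'
  by_contra hcon
  rw [Set.not_nonempty_iff_eq_empty] at hcon
  have hdisj : Disjoint (Attr q ∩ t) (Attr q ∩ t') := by
    rw [Set.disjoint_iff_inter_eq_empty, ← hcon]
    ext z
    simp only [Set.mem_inter_iff]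
    tauto
  obtain ⟨δ, hδ, hth⟩ := hdisj.exists_thickenings (hK.inter_right ht) (hK.inter_right ht').isClosed
  obtain ⟨x, hxA, hxt⟩ := hne
  obtain ⟨y, hyA, hyt⟩ := hne'
  obtain ⟨n, hn⟩ : ∃ n : ℕ, D * ‖q‖ ^ n < δ := by
    obtain ⟨n, hn⟩ := exists_pow_lt_of_lt_one (div_pos hδ hD0) hq
    refine ⟨n, ?_⟩
    rw [lt_div_iff₀ hD0] at hn
    linarith
  have hch := key n x hxA y hyA
  have : y ∈ Attr q ∩ t := by
    refine Relation.ReflTransGen.head_induction_on (motive := fun a _ => a ∈ Attr q ∩ t → y ∈ Attr q ∩ t) hch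
      (fun h => h) ?_ ⟨hxA, hxt⟩
    rintro a b ⟨hb, hab⟩ _ ih ⟨haA, hat⟩
    apply ih
    refine ⟨hb, ?_⟩
    rcases hcov hb with h | h
    · exact h
    · exfalso
      have hb1 : b ∈ Metric.thickening δ (Attr q ∩ t) := by
        rw [Metric.mem_thickening_iff]
        exact ⟨a, ⟨haA, hat⟩, by rw [dist_comm]; exact hab.trans hn⟩
      exact Set.disjoint_left.1 hth hb1 (Metric.self_subset_thickening hδ _ ⟨hb, h⟩)
  exact Set.disjoint_left.1 hdisj this ⟨hyA, hyt⟩



theorem isCompact_ser (R : ℝ) (hR : R < 1) : IsCompact {q : ℂ | ‖q‖ ≤ R ∧ Ser q} := by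
  by_cases hR0 : R < 0
  · have : {q : ℂ | ‖q‖ ≤ R ∧ Ser q} = ∅ := by
      ext q
      simp only [Set.mem_ofPred_eq, Set.mem_empty_iff_false, iff_false, not_and]
      intro h
      linarith [norm_nonneg q]
    rw [this]
    exact isCompact_empty
  push Not at hR0
  -- coefficient map
  let c : Fin 3 → ℂ := fun i => (i : ℂ) - 1
  let S : Set (ℂ × (ℕ → Fin 3)) := Metric.closedBall (0 : ℂ) R ×ˢ Set.univ
  have hS : IsCompact S := (isCompact_closedBall 0 R).prod isCompact_univ
  let F : ℂ × (ℕ → Fin 3) → ℂ := fun p => ∑' k, c (p.2 k) * p.1 ^ k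
  have hc : ∀ i, ‖c i‖ ≤ 1 := by
    intro i
    fin_cases i <;> simp [c] <;> norm_num
  have hF : ContinuousOn F S := by
    apply continuousOn_tsum (u := fun k => R ^ k)
    · intro k
      apply Continuous.continuousOn
      have h1 : Continuous (fun p : ℂ × (ℕ → Fin 3) => c (p.2 k)) := by
        have : Continuous c := continuous_of_discreteTopology
        exact this.comp ((continuous_apply k).comp continuous_snd)
      exact h1.mul (continuous_fst.pow k)
    · exact summable_geometric_of_lt_one hR0 hR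
    · rintro k ⟨q, s⟩ ⟨hq, -⟩
      have hq' : ‖q‖ ≤ R := by simpa using hq
      rw [norm_mul, norm_pow]
      calc ‖c (s k)‖ * ‖q‖ ^ k ≤ 1 * R ^ k := by
            gcongr
            exact hc _
        _ = R ^ k := one_mul _
  have hclosed : IsClosed (S ∩ F ⁻¹' {0}) :=
    hF.preimage_isClosed_of_isClosed hS.isClosed isClosed_singleton
  have hcl2 : IsClosed {p : ℂ × (ℕ → Fin 3) | p.2 0 = 2} :=
    isClosed_eq ((continuous_apply 0).comp continuous_snd) continuous_const
  let K : Set (ℂ × (ℕ → Fin 3)) := (S ∩ F ⁻¹' {0}) ∩ {p | p.2 0 = 2}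
  have hK : IsCompact K :=
    hS.of_isClosed_subset (hclosed.inter hcl2) (fun p hp => hp.1.1)
  have himg : {q : ℂ | ‖q‖ ≤ R ∧ Ser q} = Prod.fst '' K := by
    ext q
    constructor
    · rintro ⟨hq, a, ha, ha0, hsum⟩
      refine ⟨(q, fun k => if a k = -1 then 0 else if a k = 0 then 1 else 2), ⟨⟨⟨by simpa using hq, trivial⟩, ?_⟩, ?_⟩, rfl⟩
      · have : (fun k => c ((fun k => if a k = -1 then (0 : Fin 3) else if a k = 0 then 1 else 2) k) * q ^ k)
            = fun k => (a k : ℂ) * q ^ k := by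
          funext k
          congr 1
          rcases ha k with h | h | h <;> simp [c, h]
          norm_num
        show (∑' k, c ((fun k => if a k = -1 then (0 : Fin 3) else if a k = 0 then 1 else 2) k) * q ^ k) = 0
        rw [this]
        exact hsum
      · simp [ha0]
    · rintro ⟨⟨q', s⟩, ⟨⟨⟨hq, -⟩, hF0⟩, hs⟩, rfl⟩
      refine ⟨by simpa using hq, fun k => ((s k : ℕ) : ℤ) - 1, ?_, ?_, ?_⟩
      · intro k
        have := (s k).isLt
        show ((s k : ℕ) : ℤ) - 1 = -1 ∨ ((s k : ℕ) : ℤ) - 1 = 0 ∨ ((s k : ℕ) : ℤ) - 1 = 1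
        omega
      · have : s 0 = 2 := hs
        simp [this]
      · have h0 : (∑' k, c (s k) * q' ^ k) = 0 := hF0
        rw [← h0]
        congr 1
        funext k
        congr 1
        have : ∀ i : Fin 3, ((((i : ℕ) : ℤ) - 1 : ℤ) : ℂ) = c i := by
          intro i
          fin_cases i <;> simp [c]
          norm_num
        exact this (s k)
  rw [himg]
  exact hK.image continuous_fst



/-- a polynomial has a zero at distance at most `n |P(z)| / |P'(z)|` from `z` -/
theorem root_near (P : Polynomial ℂ) (z : ℂ) (hP : 0 < P.natDegree) :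
    ∃ w, P.eval w = 0 ∧ ‖z - w‖ * ‖P.derivative.eval z‖ ≤ P.natDegree * ‖P.eval z‖ := by
  classical
  by_cases hz : P.eval z = 0
  · exact ⟨z, hz, by simp [hz]⟩
  have hP0 : P ≠ 0 := by
    rintro rfl
    simp at hP
  have hsp : P.Splits := IsAlgClosed.splits P
  have hcard : P.roots.card = P.natDegree := by
    rw [hsp.natDegree_eq_card_roots]
  have hne : P.roots.toFinset.Nonempty := by
    rw [Multiset.toFinset_nonempty]
    intro h0
    rw [h0] at hcard
    simp at hcard
    omega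
  obtain ⟨w, hw, hmin⟩ := Finset.exists_min_image P.roots.toFinset (fun w => ‖z - w‖) hne
  have hwr : P.eval w = 0 := by
    have := (Polynomial.mem_roots hP0).1 (Multiset.mem_toFinset.1 hw)
    exact this
  refine ⟨w, hwr, ?_⟩
  have hzw : 0 < ‖z - w‖ := by
    rw [norm_pos_iff, sub_ne_zero]
    rintro rfl
    exact hz hwr
  rw [hsp.eval_derivative_eq_eval_mul_sum hz, norm_mul]
  have hsum : ‖(P.roots.map fun y => 1 / (z - y)).sum‖ ≤ P.natDegree * (1 / ‖z - w‖) := by
    calc ‖(P.roots.map fun y => 1 / (z - y)).sum‖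
        ≤ ((P.roots.map fun y => 1 / (z - y)).map norm).sum := by
          exact norm_multiset_sum_le _
      _ ≤ (P.roots.map fun _ => 1 / ‖z - w‖).sum := by
          rw [Multiset.map_map]
          apply Multiset.sum_map_le_sum_map
          intro y hy
          simp only [Function.comp, norm_div, norm_one]
          exact one_div_le_one_div_of_le hzw (hmin y (Multiset.mem_toFinset.2 hy))
      _ = P.natDegree * (1 / ‖z - w‖) := by
          rw [Multiset.map_const', Multiset.sum_replicate, hcard, nsmul_eq_mul]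
  calc ‖z - w‖ * (‖P.eval z‖ * ‖(P.roots.map fun y => 1 / (z - y)).sum‖)
      ≤ ‖z - w‖ * (‖P.eval z‖ * (P.natDegree * (1 / ‖z - w‖))) := by
        gcongr
    _ = P.natDegree * ‖P.eval z‖ := by
        field_simp


end Pool.Agent.LinPair
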