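import Pool.Agent.Helper284.LPMath
import Pool.Agent.Helper284.LPAttr

/-!
A kernel-checkable branch and bound procedure which excludes zeros of power series with
coefficients in `{-1,0,1}`, and its soundness.
-/

set_option autoImplicit false

namespace Pool.Agent.LinPair

/-- Table of the search in a box. -/
inductive Tb : Type
  | nil : Tb
  | cons (T2 lo hi off Up Um Vp Vm : ℕ) (t : Tb) : Tb

/-- `dead t a b`: every continuation of the partial sum `(a, b)` is too large at some stage. -/
noncomputable def dead (t : Tb) : ℕ → ℕ → Bool :=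
  Tb.rec (motive := fun _ => ℕ → ℕ → Bool) (fun _ _ => false)
    (fun T2 lo hi off Up Um Vp Vm _ ih a b =>
      cond (Nat.ble b hi) (cond (Nat.ble lo b)
        (cond (Nat.ble (Nat.add (Nat.pow (Nat.add (Nat.sub a off) (Nat.sub off a)) 2)
           (Nat.pow (Nat.add (Nat.sub b off) (Nat.sub off b)) 2)) T2)
          (cond (ih (Nat.add a Um) (Nat.add b Vm))
            (cond (ih (Nat.add a 1180591620717411303424) (Nat.add b 1180591620717411303424))
              (ih (Nat.add a Up) (Nat.add b Vp)) false) false)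
          true) true) true) t

/-- evaluate `n` first -/
noncomputable def fc {α : Type} (n : ℕ) (k : ℕ → α) : α :=
  Nat.rec (motive := fun _ => α) (k 0) (fun m _ => k (Nat.succ m)) n

theorem fc_eq {α : Type} (n : ℕ) (k : ℕ → α) : fc n k = k n := by
  cases n <;> rfl

/-- The table for the box with centre `(X + i Y) / sh`. -/
noncomputable def mk (sh X Y rn D1 D2 fuel : ℕ) : ℕ → ℕ → ℕ → ℕ → ℕ → ℕ → Tb :=
  Nat.rec (motive := fun _ => ℕ → ℕ → ℕ → ℕ → ℕ → ℕ → Tb) (fun _ _ _ _ _ _ => Tb.nil)
   (fun _ ih U V w z s off =>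
    cond (cond (Nat.ble (Nat.mul 3 D1) (Nat.mul 10 w)) false
       (cond (Nat.ble (Nat.mul 3 D2) (Nat.mul 10 z))
        (Nat.ble (Nat.add (Nat.add w D1) s) (Nat.div (Nat.mul Y (Nat.add z D2)) sh)) true)) Tb.nil
    (fc (Nat.pow (Nat.add (Nat.add w D1) s) 2) fun T2 =>
      fc (Nat.add (Nat.div (Nat.mul Y (Nat.add z D2)) sh) s) fun T' =>
      Tb.cons T2 (Nat.sub off T') (Nat.add off T') off U (Nat.sub 2361183241434822606848 U) V
      (Nat.sub 2361183241434822606848 V)
      (fc (Nat.div (Nat.sub (Nat.add (Nat.mul U X) (Nat.mul 1180591620717411303424 (Nat.add Y sh)))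
        (Nat.add (Nat.mul V Y) (Nat.mul 1180591620717411303424 X))) sh) fun U1 =>
       fc (Nat.div (Nat.sub (Nat.add (Nat.add (Nat.mul U Y) (Nat.mul V X))
        (Nat.mul 1180591620717411303424 sh))
        (Nat.mul 1180591620717411303424 (Nat.add X Y))) sh) fun V1 =>
       fc (Nat.add (Nat.div (Nat.mul w rn) 16384) 1) fun w1 =>
       fc (Nat.add (Nat.add (Nat.div (Nat.mul z rn) 16384) 1) w) fun z1 =>
       fc (Nat.add s 6) fun s1 => fc (Nat.add off 1180591620717411303424) fun off1 =>
        ih U1 V1 w1 z1 s1 off1))) fuel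

/-- test of a box with data `rL`, `rn`; `p` is the inverse side length -/
noncomputable def deadBox (p i j rL rn : ℕ) : Bool :=
  dead (mk (Nat.mul 2 p) (Nat.succ (Nat.mul 2 i)) (Nat.succ (Nat.mul 2 j)) rn
    (Nat.succ (Nat.div 3501884783130483721634642605 (Nat.mul p (Nat.pow (Nat.sub 16384 rL) 2))))
    (Nat.succ (Nat.div 114749760573619690590523968875765
      (Nat.mul p (Nat.pow (Nat.sub 16384 rL) 3)))) 150
     (Nat.add 1180591620717411303424
      (Nat.div (Nat.mul (Nat.succ (Nat.mul 2 i)) 9223372036854775808) p))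
     (Nat.add 1180591620717411303424
      (Nat.div (Nat.mul (Nat.succ (Nat.mul 2 j)) 9223372036854775808) p))
     (Nat.succ (Nat.div (Nat.mul 18446744073709551616 rn) (Nat.sub 16384 rn)))
     (Nat.succ (Nat.div 4951760157141521099596496896 (Nat.pow (Nat.sub 16384 rn) 2))) 8
     1180591620717411303424)
    1199038364791120855040 1180591620717411303424

/-- choose a radius from a list -/
noncomputable def sel (c : ℕ) (rs : List ℕ) (k : ℕ → Bool) : Bool :=
  List.rec (motive := fun _ => Bool) false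
    (fun r _ ih => cond (Nat.ble c (Nat.pow r 2)) (k r) ih) rs

/-- the radii (over `16384`) -/
def rlist : List ℕ := [8192, 8448, 8704, 8960, 9216, 9472, 9728, 9984, 10240, 10414, 10496, 10752,
  11008, 11264, 11520, 11776, 12032, 12288]

/-- test of a box -/
noncomputable def boxT (p i j : ℕ) : Bool :=
  sel (Nat.succ (Nat.div (Nat.mul (Nat.add (Nat.pow (Nat.succ i) 2) (Nat.pow (Nat.succ j) 2))
    268435456) (Nat.pow p 2))) rlist (fun r => deadBox p i j r (cond (Nat.ble r 10414) r 10414))

/-- The search; `RN / 10^26` is the square of the radius, the target box is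
`[x0,x1] × [y0,y1]` over `tp`. -/
noncomputable def chk (RN tp x0 x1 y0 y1 fuel : ℕ) : ℕ → ℕ → ℕ → Bool :=
  Nat.rec (motive := fun _ => ℕ → ℕ → ℕ → Bool) (fun _ _ _ => false)
  (fun _ ih p i j =>
    cond (Nat.ble (Nat.succ (Nat.mul RN (Nat.pow p 2)))
      (Nat.mul (Nat.add (Nat.pow i 2) (Nat.pow j 2)) 100000000000000000000000000)) true
    (cond (cond (Nat.ble (Nat.mul x0 p) (Nat.mul i tp))
       (cond (Nat.ble (Nat.mul (Nat.succ i) tp) (Nat.mul x1 p))
       (cond (Nat.ble (Nat.mul y0 p) (Nat.mul j tp))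
        (Nat.ble (Nat.mul (Nat.succ j) tp) (Nat.mul y1 p)) false) false) false) true
     (cond (cond (Nat.ble 16 p) (boxT p i j) false) true
      (cond (ih (Nat.mul 2 p) (Nat.mul 2 i) (Nat.mul 2 j))
      (cond (ih (Nat.mul 2 p) (Nat.succ (Nat.mul 2 i)) (Nat.mul 2 j))
      (cond (ih (Nat.mul 2 p) (Nat.mul 2 i) (Nat.succ (Nat.mul 2 j)))
        (ih (Nat.mul 2 p) (Nat.succ (Nat.mul 2 i)) (Nat.succ (Nat.mul 2 j)))
          false) false) false)))) fuel

/-! ### Soundness -/

/-- a complex number from shifted coordinates -/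
noncomputable def cx (U V O : ℕ) : ℂ := ⟨(U : ℝ) - O, (V : ℝ) - O⟩

theorem dead_cons_false {T2 lo hi off Up Um Vp Vm a b : ℕ} {t : Tb} (h1 : b ≤ hi) (h2 : lo ≤ b)
    (h3 : ((a - off) + (off - a)) ^ 2 + ((b - off) + (off - b)) ^ 2 ≤ T2)
    (h : dead t (a + Um) (b + Vm) = false ∨
      dead t (a + 1180591620717411303424) (b + 1180591620717411303424) = false ∨
      dead t (a + Up) (b + Vp) = false) :
    dead (Tb.cons T2 lo hi off Up Um Vp Vm t) a b = false := by
  have e1 : Nat.ble b hi = true := by rw [Nat.ble_eq]; exact h1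
  have e2 : Nat.ble lo b = true := by rw [Nat.ble_eq]; exact h2
  have e3 : Nat.ble (Nat.add (Nat.pow (Nat.add (Nat.sub a off) (Nat.sub off a)) 2)
           (Nat.pow (Nat.add (Nat.sub b off) (Nat.sub off b)) 2)) T2 = true := by
    rw [Nat.ble_eq]; exact h3
  show cond (Nat.ble b hi) (cond (Nat.ble lo b)
        (cond (Nat.ble (Nat.add (Nat.pow (Nat.add (Nat.sub a off) (Nat.sub off a)) 2)
           (Nat.pow (Nat.add (Nat.sub b off) (Nat.sub off b)) 2)) T2)
          (cond (dead t (a + Um) (b + Vm))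
            (cond (dead t (a + 1180591620717411303424) (b + 1180591620717411303424))
              (dead t (a + Up) (b + Vp)) false) false)
          true) true) true = false
  rw [e1, e2, e3]
  rcases h with h | h | h
  · rw [h]; rfl
  · rw [h]; cases dead t (a + Um) (b + Vm) <;> rfl
  · rw [h]
    cases dead t (a + Um) (b + Vm) <;>
      cases dead t (a + 1180591620717411303424) (b + 1180591620717411303424) <;> rfl

theorem mk_succ (sh X Y rn D1 D2 fuel U V w z s off : ℕ) :
    mk sh X Y rn D1 D2 (fuel + 1) U V w z s off = Tb.nil ∨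
    mk sh X Y rn D1 D2 (fuel + 1) U V w z s off =
      Tb.cons ((w + D1 + s) ^ 2) (off - (Y * (z + D2) / sh + s)) (off + (Y * (z + D2) / sh + s))
        off U (2361183241434822606848 - U) V (2361183241434822606848 - V)
        (mk sh X Y rn D1 D2 fuel
          ((U * X + 1180591620717411303424 * (Y + sh) - (V * Y + 1180591620717411303424 * X)) / sh)
          ((U * Y + V * X + 1180591620717411303424 * sh - 1180591620717411303424 * (X + Y)) / sh)
          (w * rn / 16384 + 1) (z * rn / 16384 + 1 + w) (s + 6)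
          (off + 1180591620717411303424)) := by
  have key : mk sh X Y rn D1 D2 (fuel + 1) U V w z s off =
      cond (cond (Nat.ble (Nat.mul 3 D1) (Nat.mul 10 w)) false
       (cond (Nat.ble (Nat.mul 3 D2) (Nat.mul 10 z))
        (Nat.ble (Nat.add (Nat.add w D1) s) (Nat.div (Nat.mul Y (Nat.add z D2)) sh)) true)) Tb.nil
      (fc (Nat.pow (Nat.add (Nat.add w D1) s) 2) fun T2 =>
      fc (Nat.add (Nat.div (Nat.mul Y (Nat.add z D2)) sh) s) fun T' =>
      Tb.cons T2 (Nat.sub off T') (Nat.add off T') off U (Nat.sub 2361183241434822606848 U) V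
      (Nat.sub 2361183241434822606848 V)
      (fc (Nat.div (Nat.sub (Nat.add (Nat.mul U X) (Nat.mul 1180591620717411303424 (Nat.add Y sh)))
        (Nat.add (Nat.mul V Y) (Nat.mul 1180591620717411303424 X))) sh) fun U1 =>
       fc (Nat.div (Nat.sub (Nat.add (Nat.add (Nat.mul U Y) (Nat.mul V X))
        (Nat.mul 1180591620717411303424 sh))
        (Nat.mul 1180591620717411303424 (Nat.add X Y))) sh) fun V1 =>
       fc (Nat.add (Nat.div (Nat.mul w rn) 16384) 1) fun w1 =>
       fc (Nat.add (Nat.add (Nat.div (Nat.mul z rn) 16384) 1) w) fun z1 =>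
       fc (Nat.add s 6) fun s1 => fc (Nat.add off 1180591620717411303424) fun off1 =>
        mk sh X Y rn D1 D2 fuel U1 V1 w1 z1 s1 off1)) := rfl
  rw [key]
  generalize (cond (Nat.ble (Nat.mul 3 D1) (Nat.mul 10 w)) false
       (cond (Nat.ble (Nat.mul 3 D2) (Nat.mul 10 z))
        (Nat.ble (Nat.add (Nat.add w D1) s) (Nat.div (Nat.mul Y (Nat.add z D2)) sh)) true)) = bb
  cases bb with
  | true => left; rfl
  | false =>
    right
    simp only [fc_eq]
    rfl

theorem natsq_cast (x y : ℕ) : ((((x - y) + (y - x)) ^ 2 : ℕ) : ℝ) = ((x : ℝ) - y) ^ 2 := by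
  rcases le_total x y with h | h
  · rw [Nat.sub_eq_zero_of_le h, zero_add, Nat.cast_pow, Nat.cast_sub h]
    ring
  · rw [Nat.sub_eq_zero_of_le h, add_zero, Nat.cast_pow, Nat.cast_sub h]

theorem nat_div_bounds (x y : ℕ) (hy : 0 < y) :
    (x : ℝ) / y - 1 ≤ ((x / y : ℕ) : ℝ) ∧ ((x / y : ℕ) : ℝ) ≤ (x : ℝ) / y := by
  constructor
  · have h2 : x < y * (x / y + 1) := Nat.lt_mul_div_succ x hy
    have h3 : (x : ℝ) < y * ((x / y : ℕ) + 1) := by exact_mod_cast h2
    have hy' : (0 : ℝ) < y := by exact_mod_cast hy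
    rw [sub_le_iff_le_add, div_le_iff₀ hy']
    linarith
  · exact Nat.cast_div_le

end Pool.Agent.LinPair
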