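import Pool.Agent.Helper284.LPNum

/-!
Explicit numbers: the centre of the discs containing the minimisers, and the first 301 signs.
-/

set_option autoImplicit false

namespace Pool.Agent.LinPair

open Complex

/-- real part of the centre, times `10^60` -/
def X1 : ℤ := 378777074017180905751270553784999624437672467958834123086276

/-- imaginary part of the centre, times `10^60` -/
def Y1 : ℤ := 510414940715334451548668891643427241081803698880050844655317

/-- `10^60` -/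
def S1 : ℤ := 1000000000000000000000000000000000000000000000000000000000000

/-- the signs: bit `k` tells whether the coefficient of `z^k` is `1` or `-1` (`k ≤ 300`) -/
def bitsN : ℕ :=
  3620955661235874597639598531940717164945531386814671439396344544985627284307570336658329117

/-- the signs -/
def sg (k : ℕ) : ℤ := if bitsN.testBit k then 1 else -1

theorem sg_mem (k : ℕ) : sg k = -1 ∨ sg k = 0 ∨ sg k = 1 := by
  unfold sg; split_ifs <;> simp

/-- the centre -/
noncomputable def q1 : ℂ := ((X1 : ℂ) + Y1 * I) / S1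

theorem q1_re : q1.re = (X1 : ℝ) / S1 := by
  have : q1 = (((X1 : ℝ) / S1 : ℝ) : ℂ) + (((Y1 : ℝ) / S1 : ℝ) : ℂ) * I := by
    rw [q1]; push_cast; ring
  rw [this]; simp

theorem q1_im : q1.im = (Y1 : ℝ) / S1 := by
  have : q1 = (((X1 : ℝ) / S1 : ℝ) : ℂ) + (((Y1 : ℝ) / S1 : ℝ) : ℂ) * I := by
    rw [q1]; push_cast; ring
  rw [this]; simp

theorem q1_norm_sq : ‖q1‖ ^ 2 = ((X1 : ℝ) / S1) ^ 2 + ((Y1 : ℝ) / S1) ^ 2 := by
  rw [Complex.sq_norm, Complex.normSq_apply, q1_re, q1_im]; ring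

/-- the modulus of the centre, times `10^60` -/
def R1 : ℕ := 635606390391455492692046961203672079812337096587786905118449

theorem q1_norm_lower : (R1 : ℝ) / 10 ^ 60 ≤ ‖q1‖ := by
  have h := q1_norm_sq
  have h1 : ((R1 : ℝ) / 10 ^ 60) ^ 2 ≤ ‖q1‖ ^ 2 := by
    rw [h]
    norm_num [X1, Y1, S1, R1]
  exact abs_le_of_sq_le_sq' h1 (norm_nonneg _) |>.2

theorem q1_norm_upper : ‖q1‖ ≤ ((R1 : ℝ) + 1) / 10 ^ 60 := by
  have h := q1_norm_sq
  have h1 : ‖q1‖ ^ 2 ≤ (((R1 : ℝ) + 1) / 10 ^ 60) ^ 2 := by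
    rw [h]
    norm_num [X1, Y1, S1, R1]
  exact abs_le_of_sq_le_sq' h1 (by positivity) |>.2

theorem q1_norm_r : ‖q1‖ ≤ 10414 / 16384 :=
  q1_norm_upper.trans (by norm_num [R1])

set_option maxRecDepth 100000 in
theorem P300_check : ((gv X1 Y1 S1 ((List.range 301).map sg)).1 ^ 2 +
    (gv X1 Y1 S1 ((List.range 301).map sg)).2.1 ^ 2) *
      1000000000000000000000000000000000000000000000000000000000000 ^ 2 ≤
      12 ^ 2 * (gv X1 Y1 S1 ((List.range 301).map sg)).2.2 ^ 2 := by decide +kernel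

set_option maxRecDepth 100000 in
theorem dP300_check : 466 ^ 2 * (gv X1 Y1 S1 ((List.range 300).map
      (fun k : ℕ => ((k : ℤ) + 1) * sg (k + 1)))).2.2 ^ 2 ≤
    ((gv X1 Y1 S1 ((List.range 300).map (fun k : ℕ => ((k : ℤ) + 1) * sg (k + 1)))).1 ^ 2 +
    (gv X1 Y1 S1 ((List.range 300).map (fun k : ℕ => ((k : ℤ) + 1) * sg (k + 1)))).2.1 ^ 2) *
      100 ^ 2 := by decide +kernel

set_option maxRecDepth 100000 in
theorem P100_check : ((gv X1 Y1 S1 ((List.range 101).map sg)).1 ^ 2 +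
    (gv X1 Y1 S1 ((List.range 101).map sg)).2.1 ^ 2) * 10000000000000000 ^ 2 ≤
      1 ^ 2 * (gv X1 Y1 S1 ((List.range 101).map sg)).2.2 ^ 2 := by decide +kernel

set_option maxRecDepth 100000 in
theorem dP100_check : 466 ^ 2 * (gv X1 Y1 S1 ((List.range 100).map
      (fun k : ℕ => ((k : ℤ) + 1) * sg (k + 1)))).2.2 ^ 2 ≤
    ((gv X1 Y1 S1 ((List.range 100).map (fun k : ℕ => ((k : ℤ) + 1) * sg (k + 1)))).1 ^ 2 +
    (gv X1 Y1 S1 ((List.range 100).map (fun k : ℕ => ((k : ℤ) + 1) * sg (k + 1)))).2.1 ^ 2) *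
      100 ^ 2 := by decide +kernel

/-- the approximate derivative, real part times `10^6` -/
def DX : ℤ := -1625577

/-- the approximate derivative, imaginary part times `10^6` -/
def DY : ℤ := 4374515

set_option maxRecDepth 100000 in
theorem dP24_check :
    ((gv X1 Y1 S1 ((List.range 24).map (fun k : ℕ => ((k : ℤ) + 1) * sg (k + 1)))).1 * 1000000 -
      DX * (gv X1 Y1 S1 ((List.range 24).map (fun k : ℕ => ((k : ℤ) + 1) * sg (k + 1)))).2.2) ^ 2 +
    ((gv X1 Y1 S1 ((List.range 24).map (fun k : ℕ => ((k : ℤ) + 1) * sg (k + 1)))).2.1 * 1000000 -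
      DY * (gv X1 Y1 S1 ((List.range 24).map (fun k : ℕ => ((k : ℤ) + 1) * sg (k + 1)))).2.2) ^ 2 ≤
    (10 * (gv X1 Y1 S1 ((List.range 24).map (fun k : ℕ => ((k : ℤ) + 1) * sg (k + 1)))).2.2) ^ 2 := by
  decide +kernel

/-- sign test of `conj q q^m conj D` for `m, …, m + f - 1` -/
def sgnChk (X Y : ℤ) (N : ℕ) : ℕ → ℕ → ℤ → ℤ → Bool
  | 0, _, _, _ => true
  | f + 1, m, u, v =>
    (if N.testBit m then decide (0 < u) else decide (u < 0)) &&
      decide ((if m = 25 then 100 else 36) * (u * u + v * v) ≤ 1000000 * (u * u)) &&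
      sgnChk X Y N f (m + 1) (X * u - Y * v) (X * v + Y * u)

/-- `conj Q Q^m conj D` in integers -/
def FF (X Y U V : ℤ) : ℕ → ℤ × ℤ
  | 0 => (X * U - Y * V, - (X * V + Y * U))
  | m + 1 => (X * (FF X Y U V m).1 - Y * (FF X Y U V m).2,
      X * (FF X Y U V m).2 + Y * (FF X Y U V m).1)

set_option maxRecDepth 100000 in
theorem sgn_run : sgnChk X1 Y1 bitsN 276 25 (FF X1 Y1 DX DY 25).1 (FF X1 Y1 DX DY 25).2 = true := by
  decide +kernel

end Pool.Agent.LinPair
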