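import Pool.Agent.Helper284.LPTarget

/-!
The coefficients at a zero of minimal modulus, its position, existence of minimisers.
-/

set_option autoImplicit false

namespace Pool.Agent.LinPair

open Complex

/-- `conj Q Q^m conj D` -/
noncomputable def FC (m : ℕ) : ℂ :=
  (starRingEnd ℂ) ((X1 : ℂ) + Y1 * I) * ((X1 : ℂ) + Y1 * I) ^ m *
    (starRingEnd ℂ) ((DX : ℂ) + DY * I)

theorem FC_succ (m : ℕ) : FC (m + 1) = ((X1 : ℂ) + Y1 * I) * FC m := by
  simp only [FC]; ring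

theorem FF_spec (m : ℕ) :
    (((FF X1 Y1 DX DY m).1 : ℂ) + (FF X1 Y1 DX DY m).2 * I) = FC m := by
  induction m with
  | zero =>
    simp only [FF, FC, pow_zero, mul_one, map_add, map_mul, Complex.conj_I, map_intCast]
    push_cast
    ring_nf
    rw [Complex.I_sq]
    ring
  | succ m ih =>
    rw [FC_succ, ← ih]
    simp only [FF]
    push_cast
    ring_nf
    rw [Complex.I_sq]
    ring

/-- the margin -/
noncomputable def mu (m : ℕ) : ℝ := if m = 25 then 1 / 100 else 6 / 1000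

theorem mu_pos (m : ℕ) : 0 < mu m := by
  unfold mu; split_ifs <;> norm_num

theorem sgnChk_sound (f : ℕ) : ∀ (m : ℕ) (u v : ℤ), (u : ℂ) + v * I = FC m →
    sgnChk X1 Y1 bitsN f m u v = true → ∀ j < f,
      (bitsN.testBit (m + j) = true → mu (m + j) * ‖FC (m + j)‖ ≤ (FC (m + j)).re) ∧
      (bitsN.testBit (m + j) = false → (FC (m + j)).re ≤ -(mu (m + j) * ‖FC (m + j)‖)) := by
  induction f with
  | zero => intro m u v _ _ j hj; exact absurd hj (by omega)
  | succ f ih =>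
    intro m u v huv h j hj
    simp only [sgnChk, Bool.and_eq_true, decide_eq_true_eq] at h
    obtain ⟨⟨h1, h2⟩, h3⟩ := h
    cases j with
    | succ j =>
      have hnext : ((X1 * u - Y1 * v : ℤ) : ℂ) + ((X1 * v + Y1 * u : ℤ) : ℂ) * I = FC (m + 1) := by
        rw [FC_succ, ← huv]
        push_cast
        ring_nf
        rw [Complex.I_sq]
        ring
      have := ih (m + 1) _ _ hnext h3 j (by omega)
      rwa [show m + (j + 1) = m + 1 + j by ring]
    | zero =>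
      rw [add_zero]
      have hre : (FC m).re = u := by rw [← huv]; simp
      have hn : ‖FC m‖ ^ 2 = (u : ℝ) ^ 2 + (v : ℝ) ^ 2 := by
        rw [← huv, Complex.sq_norm, Complex.normSq_apply]; simp; ring
      have h4 : (mu m * ‖FC m‖) ^ 2 ≤ (u : ℝ) ^ 2 := by
        rw [mul_pow, hn]
        have h5 : (((if m = 25 then 100 else 36) * (u * u + v * v) : ℤ) : ℝ) ≤
            ((1000000 * (u * u) : ℤ) : ℝ) := by exact_mod_cast h2
        unfold mu
        split_ifs at h5 ⊢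
        · push_cast at h5; nlinarith
        · push_cast at h5; nlinarith
      have h0 : 0 ≤ mu m * ‖FC m‖ := mul_nonneg (mu_pos m).le (norm_nonneg _)
      constructor
      · intro hb
        rw [hb] at h1
        have h6 : 0 < u := by simpa using h1
        have h7 : (0 : ℝ) < u := by exact_mod_cast h6
        rw [hre]
        exact abs_le_of_sq_le_sq' h4 h7.le |>.2
      · intro hb
        rw [hb] at h1
        have h6 : u < 0 := by simpa using h1
        have h7 : (u : ℝ) < 0 := by exact_mod_cast h6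
        rw [hre]
        have h8 : (mu m * ‖FC m‖) ^ 2 ≤ (-(u : ℝ)) ^ 2 := by rw [neg_sq]; exact h4
        have := abs_le_of_sq_le_sq' h8 (by linarith) |>.2
        linarith

theorem sgn_all (m : ℕ) (h1 : 25 ≤ m) (h2 : m ≤ 300) :
    (bitsN.testBit m = true → mu m * ‖FC m‖ ≤ (FC m).re) ∧
      (bitsN.testBit m = false → (FC m).re ≤ -(mu m * ‖FC m‖)) := by
  have := sgnChk_sound 276 25 _ _ (FF_spec 25) sgn_run (m - 25) (by omega)
  rwa [show 25 + (m - 25) = m by omega] at this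

theorem FC_scale (m : ℕ) : (starRingEnd ℂ) q1 * q1 ^ m * (starRingEnd ℂ) D0 =
    (((1 / ((S1 : ℝ) ^ (m + 1) * 1000000) : ℝ)) : ℂ) * FC m := by
  have hS : (S1 : ℂ) ≠ 0 := by
    have : (S1 : ℤ) ≠ 0 := by norm_num [S1]
    exact_mod_cast this
  simp only [q1, D0, FC, map_div₀, map_intCast]
  have h6 : (starRingEnd ℂ) (1000000 : ℂ) = 1000000 := by
    have : (1000000 : ℂ) = ((1000000 : ℝ) : ℂ) := by push_cast; rfl
    rw [this, Complex.conj_ofReal]
  rw [h6]
  push_cast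
  rw [div_pow, pow_succ (S1 : ℂ) m]
  field_simp

/-- The coefficients with index between `25` and `300` at a minimiser. -/
theorem Tgt.sign {a : ℕ → ℤ} {q : ℂ} (h : Tgt a q)
    (hmin : ∀ w : ℂ, w.im ≠ 0 → ‖w‖ < 1 → Ser w → ‖q‖ ≤ ‖w‖) :
    ∀ m : ℕ, 12 ≤ m →
    (3 * m * ‖q‖ ^ (2 * m) < ((starRingEnd ℂ) q * q ^ m /
      (∑' k : ℕ, ((k : ℂ) + 1) * (a (k + 1) : ℂ) * q ^ k)).re → a m = 1) ∧
    (((starRingEnd ℂ) q * q ^ m / (∑' k : ℕ, ((k : ℂ) + 1) * (a (k + 1) : ℂ) * q ^ k)).re <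
      -(3 * m * ‖q‖ ^ (2 * m)) → a m = -1) := by
  intro m hm
  have hn1 : 1 / 2 ≤ ‖q‖ := by
    have h1 := h.norm_sub_q1
    have h2 := q1_norm_lower
    have h3 : ‖q1‖ ≤ ‖q‖ + ‖q - q1‖ := by
      have e : q1 = q - (q - q1) := by ring
      calc ‖q1‖ = ‖q - (q - q1)‖ := by rw [← e]
        _ ≤ _ := norm_sub_le _ _
    have h4 : (63 / 100 : ℝ) ≤ (R1 : ℝ) / 10 ^ 60 := by norm_num [R1]
    linarith
  have hn2 : ‖q‖ ≤ 16 / 25 := h.hq.trans (by norm_num)
  have him : 1 / 2 ≤ q.im := le_trans (by norm_num) h.y1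
  exact sign_rule q hmin hn1 hn2 him a h.ha h.ha0 h.h0 _ h.deriv_ge m hm
    (fun b hb => perturb a h.ha q hn1 hn2 h.h0 h.deriv_ge m hm b hb)

theorem Tgt.coeff {a : ℕ → ℤ} {q : ℂ} (h : Tgt a q)
    (hmin : ∀ w : ℂ, w.im ≠ 0 → ‖w‖ < 1 → Ser w → ‖q‖ ≤ ‖w‖) (m : ℕ) (hm : m ≤ 300) :
    a m = sg m := by
  rcases Nat.eq_zero_or_pos m with rfl | hpos
  · rw [h.ha0]; decide
  by_cases h24 : m ≤ 24
  · have := h.first (m - 1) (by omega)
    rwa [show m - 1 + 1 = m by omega] at this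
  have h25 : 25 ≤ m := by omega
  obtain ⟨s1, s2⟩ := h.sign hmin m (by omega)
  have hμ : (m = 25 ∧ mu m = 1 / 100) ∨ (26 ≤ m ∧ m ≤ 300 ∧ mu m = 6 / 1000) := by
    unfold mu
    by_cases h : m = 25
    · left; simp [h]
    · right; simp [h]; omega
  obtain ⟨t1, t2⟩ := sign_transfer q q1 (∑' k : ℕ, ((k : ℂ) + 1) * (a (k + 1) : ℂ) * q ^ k) D0 m
    (mu m) (le_trans (by norm_num [R1]) q1_norm_lower) (q1_norm_upper.trans (by norm_num [R1]))
    h.norm_sub_q1 D0_norm.1 D0_norm.2 h.deriv hμ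
  obtain ⟨c1, c2⟩ := sgn_all m h25 hm
  have ht : 0 < 1 / ((S1 : ℝ) ^ (m + 1) * 1000000) := by
    have : (0 : ℝ) < S1 := by norm_num [S1]
    positivity
  rw [FC_scale] at t1 t2
  rw [norm_mul, Complex.re_ofReal_mul, Complex.norm_real, Real.norm_eq_abs, abs_of_pos ht] at t1 t2
  by_cases hb : bitsN.testBit m = true
  · have h1 := c1 hb
    have h2 : a m = 1 := s1 (t1 (by nlinarith))
    rw [h2, sg, hb]; rfl
  · have hb' : bitsN.testBit m = false := by simpa using hb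
    have h1 := c2 hb'
    have h2 : a m = -1 := s2 (t2 (by nlinarith))
    rw [h2, sg, hb']; rfl

theorem PS300 : ‖PS sg q1 300‖ ≤ 12 / 10 ^ 60 := by
  have hS : (0 : ℤ) < S1 := by norm_num [S1]
  rw [PS_eq_lv]
  simp only [Nat.reduceAdd]
  have := norm_lv_le hS (z := q1) rfl ((List.range 301).map sg) 12
    1000000000000000000000000000000000000000000000000000000000000 (by norm_num) (by norm_num)
    P300_check
  refine this.trans (le_of_eq ?_)
  norm_num

theorem dPS300 : 466 / 100 ≤ ‖dPS sg q1 300‖ := by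
  have hS : (0 : ℤ) < S1 := by norm_num [S1]
  rw [dPS_eq_lv]
  have := le_norm_lv hS (z := q1) rfl
    ((List.range 300).map (fun k : ℕ => ((k : ℤ) + 1) * sg (k + 1))) 466 100 (by norm_num)
    dP300_check
  refine le_trans (le_of_eq ?_) this
  norm_num

theorem PS100 : ‖PS sg q1 100‖ ≤ 1 / 10 ^ 16 := by
  have hS : (0 : ℤ) < S1 := by norm_num [S1]
  rw [PS_eq_lv]
  simp only [Nat.reduceAdd]
  have := norm_lv_le hS (z := q1) rfl ((List.range 101).map sg) 1
    10000000000000000 (by norm_num) (by norm_num) P100_check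
  refine this.trans (le_of_eq ?_)
  norm_num

theorem dPS100 : 466 / 100 ≤ ‖dPS sg q1 100‖ := by
  have hS : (0 : ℤ) < S1 := by norm_num [S1]
  rw [dPS_eq_lv]
  have := le_norm_lv hS (z := q1) rfl
    ((List.range 100).map (fun k : ℕ => ((k : ℤ) + 1) * sg (k + 1))) 466 100 (by norm_num)
    dP100_check
  refine le_trans (le_of_eq ?_) this
  norm_num

/-- position of a minimiser -/
theorem Tgt.close {a : ℕ → ℤ} {q : ℂ} (h : Tgt a q)
    (hmin : ∀ w : ℂ, w.im ≠ 0 → ‖w‖ < 1 → Ser w → ‖q‖ ≤ ‖w‖) : ‖q - q1‖ ≤ 1 / 10 ^ 59 := by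
  have hq : ‖q‖ ≤ 10414 / 16384 := h.hq.trans (by norm_num)
  have h1 := norm_PS_le h.ha hq (by norm_num) h.h0 300
  have h2 : PS a q 300 = PS sg q 300 := PS_congr (fun k hk => h.coeff hmin k hk) q
  rw [h2] at h1
  have h3 := PS_taylor sg_mem hq q1_norm_r (by norm_num) 300
  have h4 := PS300
  have h5 := dPS300
  have h6 := h.norm_sub_q1
  have h7 : WW (10414 / 16384) 300 ≤ 16 / 10 ^ 60 := by
    have e : ∀ x : ℝ, x ^ (300 + 1) = (x ^ 75) ^ 4 * x := fun x => by ring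
    have e2 : ((10414 / 16384 : ℝ)) ^ 75 ≤ 1738 / 10 ^ 18 := by norm_num
    have e3 : ((10414 / 16384 : ℝ) ^ 75) ^ 4 ≤ (1738 / 10 ^ 18) ^ 4 :=
      pow_le_pow_left₀ (by positivity) e2 4
    simp only [WW]
    rw [e, div_le_iff₀ (by norm_num)]
    have e4 : (1738 / 10 ^ 18 : ℝ) ^ 4 * (10414 / 16384) ≤ 16 / 10 ^ 60 * (1 - 10414 / 16384) := by
      norm_num
    refine le_trans ?_ e4
    exact mul_le_mul_of_nonneg_right e3 (by norm_num)
  have h8 : ‖dPS sg q1 300 * (q - q1)‖ ≤ ‖PS sg q 300‖ + ‖PS sg q1 300‖ +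
      ‖PS sg q 300 - PS sg q1 300 - dPS sg q1 300 * (q - q1)‖ := by
    have e : dPS sg q1 300 * (q - q1) = PS sg q 300 - PS sg q1 300 -
        (PS sg q 300 - PS sg q1 300 - dPS sg q1 300 * (q - q1)) := by ring
    calc ‖dPS sg q1 300 * (q - q1)‖ = ‖PS sg q 300 - PS sg q1 300 -
        (PS sg q 300 - PS sg q1 300 - dPS sg q1 300 * (q - q1))‖ := by rw [← e]
      _ ≤ ‖PS sg q 300 - PS sg q1 300‖ + _ := norm_sub_le _ _
      _ ≤ _ := by gcongr; exact norm_sub_le _ _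
  rw [norm_mul] at h8
  have h9 : ‖q - q1‖ ^ 2 * (2 / (1 - 10414 / 16384) ^ 3) ≤ ‖q - q1‖ * (1 / 1000) := by
    have n0 := norm_nonneg (q - q1)
    have : ‖q - q1‖ * (2 / (1 - 10414 / 16384) ^ 3) ≤ 1 / 1000 := by
      calc ‖q - q1‖ * (2 / (1 - 10414 / 16384) ^ 3) ≤
          (3 / 2000000) * (2 / (1 - 10414 / 16384) ^ 3) := by gcongr
        _ ≤ 1 / 1000 := by norm_num
    calc ‖q - q1‖ ^ 2 * (2 / (1 - 10414 / 16384) ^ 3) =
        ‖q - q1‖ * (‖q - q1‖ * (2 / (1 - 10414 / 16384) ^ 3)) := by ring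
      _ ≤ _ := by gcongr
  have h10 : (466 / 100) * ‖q - q1‖ ≤ 16 / 10 ^ 60 + 12 / 10 ^ 60 + ‖q - q1‖ * (1 / 1000) := by
    have : (466 / 100) * ‖q - q1‖ ≤ ‖dPS sg q1 300‖ * ‖q - q1‖ := by gcongr
    linarith
  have h11 : (1 : ℝ) / 10 ^ 59 = 10 / 10 ^ 60 := by norm_num
  rw [h11]
  nlinarith

/-- the witness polynomial -/
noncomputable def witP : Polynomial ℂ :=
  ∑ k ∈ Finset.range 101, Polynomial.C (sg k : ℂ) * Polynomial.X ^ k

theorem witP_eval (z : ℂ) : witP.eval z = PS sg z 100 := by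
  rw [witP, PS, Polynomial.eval_finsetSum]
  simp

theorem witP_deriv (z : ℂ) : witP.derivative.eval z = dPS sg z 100 := by
  rw [witP, dPS, Polynomial.derivative_sum, Polynomial.eval_finsetSum, Finset.sum_range_succ']
  simp only [Polynomial.derivative_mul, Polynomial.derivative_C, zero_mul, zero_add,
    Polynomial.derivative_X_pow, Polynomial.eval_mul, Polynomial.eval_C, Polynomial.eval_pow,
    Polynomial.eval_X]
  simp only [Nat.cast_zero, zero_mul, mul_zero, add_zero]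
  apply Finset.sum_congr rfl
  intro k _
  rw [Nat.add_sub_cancel]
  push_cast
  ring

theorem witP_coeff (n : ℕ) : witP.coeff n = if n < 101 then (sg n : ℂ) else 0 := by
  rw [witP, Polynomial.finsetSum_coeff]
  simp only [Polynomial.coeff_C_mul, Polynomial.coeff_X_pow]
  by_cases h : n < 101
  · rw [Finset.sum_eq_single n]
    · simp [h]
    · intro b _ hb; simp [hb.symm]
    · intro hn; exact absurd (Finset.mem_range.mpr h) hn
  · rw [if_neg h]
    apply Finset.sum_eq_zero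
    intro b hb
    have : b < 101 := Finset.mem_range.mp hb
    have hne : n ≠ b := by omega
    simp [hne]

theorem witP_deg : 0 < witP.natDegree ∧ witP.natDegree ≤ 100 := by
  constructor
  · have h1 : witP.coeff 1 ≠ 0 := by
      rw [witP_coeff]
      have : sg 1 = -1 := by decide
      simp [this]
    exact lt_of_lt_of_le one_pos (Polynomial.le_natDegree_of_ne_zero h1)
  · rw [Polynomial.natDegree_le_iff_coeff_eq_zero]
    intro n hn
    rw [witP_coeff, if_neg (by omega)]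

theorem exists_witness : ∃ w : ℂ, 0 ≤ w.re ∧ 0 < w.im ∧ ‖w‖ ≤ 6356063904 / 10 ^ 10 ∧ Ser w := by
  obtain ⟨w, hw0, hw⟩ := root_near witP q1 witP_deg.1
  rw [witP_deriv, witP_eval] at hw
  have h1 : ‖q1 - w‖ ≤ 1 / 10 ^ 14 := by
    have h2 : (witP.natDegree : ℝ) ≤ 100 := by exact_mod_cast witP_deg.2
    have h3 := PS100
    have h4 := dPS100
    have h5 : ‖q1 - w‖ * (466 / 100) ≤ 100 * (1 / 10 ^ 16) := by
      calc ‖q1 - w‖ * (466 / 100) ≤ ‖q1 - w‖ * ‖dPS sg q1 100‖ := by gcongr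
        _ ≤ witP.natDegree * ‖PS sg q1 100‖ := hw
        _ ≤ 100 * (1 / 10 ^ 16) := by gcongr
    have h6 : (1 : ℝ) / 10 ^ 14 = 100 * (1 / 10 ^ 16) := by norm_num
    have := norm_nonneg (q1 - w)
    nlinarith
  have hn : ‖w‖ ≤ ‖q1‖ + ‖q1 - w‖ := by
    have e : w = q1 - (q1 - w) := by ring
    calc ‖w‖ = ‖q1 - (q1 - w)‖ := by rw [← e]
      _ ≤ _ := norm_sub_le _ _
  have hre : |(q1 - w).re| ≤ 1 / 10 ^ 14 := (Complex.abs_re_le_norm _).trans h1
  have him : |(q1 - w).im| ≤ 1 / 10 ^ 14 := (Complex.abs_im_le_norm _).trans h1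
  rw [Complex.sub_re, abs_le] at hre
  rw [Complex.sub_im, abs_le] at him
  have hq1re : (3 / 10 : ℝ) ≤ q1.re := by rw [q1_re]; norm_num [X1, S1]
  have hq1im : (5 / 10 : ℝ) ≤ q1.im := by rw [q1_im]; norm_num [Y1, S1]
  have hsmall : (1 : ℝ) / 10 ^ 14 ≤ 1 / 10 := by norm_num
  refine ⟨w, by linarith, by linarith, ?_, ?_⟩
  · refine hn.trans ?_
    have h2 := q1_norm_upper
    have h3 : ((R1 : ℝ) + 1) / 10 ^ 60 + 1 / 10 ^ 14 ≤ 6356063904 / 10 ^ 10 := by norm_num [R1]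
    linarith
  · refine ⟨fun k => if k < 101 then sg k else 0, ?_, ?_, ?_⟩
    · intro k
      by_cases h : k < 101
      · simp only [h, if_true]; exact sg_mem k
      · simp [h]
    · have : sg 0 = 1 := by decide
      simp [this]
    · rw [tsum_eq_sum (s := Finset.range 101)]
      · rw [witP_eval] at hw0
        rw [← hw0, PS]
        apply Finset.sum_congr rfl
        intro k hk
        have : k < 101 := Finset.mem_range.mp hk
        simp [this]
      · intro k hk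
        have : ¬ k < 101 := by simpa using hk
        simp [this]

theorem Ser_conj {q : ℂ} (h : Ser q) : Ser ((starRingEnd ℂ) q) := by
  obtain ⟨a, ha, ha0, h0⟩ := h
  refine ⟨a, ha, ha0, ?_⟩
  have h1 : ∑' k, (a k : ℂ) * (starRingEnd ℂ) q ^ k =
      (starRingEnd ℂ) (∑' k, (a k : ℂ) * q ^ k) := by
    rw [Complex.conj_tsum]
    apply tsum_congr
    intro k
    simp
  rw [h1, h0, map_zero]

theorem Ser_neg {q : ℂ} (h : Ser q) : Ser (-q) := by
  obtain ⟨a, ha, ha0, h0⟩ := h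
  refine ⟨fun k => (-1) ^ k * a k, ?_, by simp [ha0], ?_⟩
  · intro k
    rcases neg_one_pow_eq_or ℤ k with h | h <;> rcases ha k with h' | h' | h' <;> simp [h, h']
  · rw [← h0]
    apply tsum_congr
    intro k
    push_cast
    rw [neg_pow q k]
    have : ((-1 : ℂ) ^ k) * (-1) ^ k = 1 := by
      rw [← mul_pow]; simp
    linear_combination ((a k : ℂ) * q ^ k) * this

/-- symmetric copy in the upper right quadrant -/
theorem exists_sym {q : ℂ} (hq : q.im ≠ 0) (h : Ser q) :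
    ∃ q' : ℂ, (q' = q ∨ q' = -q ∨ q' = (starRingEnd ℂ) q ∨ q' = -(starRingEnd ℂ) q) ∧
      0 ≤ q'.re ∧ 0 < q'.im ∧ ‖q'‖ = ‖q‖ ∧ Ser q' := by
  rcases lt_or_gt_of_ne hq with hi | hi
  · rcases le_total 0 q.re with hr | hr
    · refine ⟨(starRingEnd ℂ) q, by simp, by simpa using hr, by simpa using hi,
        Complex.norm_conj q, Ser_conj h⟩
    · refine ⟨-q, by simp, by simpa using hr, by simpa using hi, norm_neg q, Ser_neg h⟩
  · rcases le_total 0 q.re with hr | hr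
    · exact ⟨q, by simp, hr, hi, rfl, h⟩
    · refine ⟨-(starRingEnd ℂ) q, by simp, by simpa using hr, by simpa using hi, ?_,
        Ser_neg (Ser_conj h)⟩
      rw [norm_neg, Complex.norm_conj]

theorem tgt_of {q : ℂ} {a : ℕ → ℤ} (ha : ∀ k, a k = -1 ∨ a k = 0 ∨ a k = 1)
    (ha0 : a 0 = 1) (h0 : ∑' k, (a k : ℂ) * q ^ k = 0) (hre : 0 ≤ q.re) (him : 0 < q.im)
    (hq : ‖q‖ ≤ 6356063904 / 10 ^ 10) : Tgt a q := by
  obtain ⟨h1, h2, h3, h4⟩ := localise ha ha0 h0 hre him hq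
  exact ⟨ha, ha0, h0, hq, h1, h2, h3, h4⟩

/-- existence of a minimiser -/
theorem exists_min : ∃ q : ℂ, 0 ≤ q.re ∧ 0 < q.im ∧ ‖q‖ ≤ 6356063904 / 10 ^ 10 ∧ Ser q ∧
    ∀ w : ℂ, w.im ≠ 0 → ‖w‖ < 1 → Ser w → ‖q‖ ≤ ‖w‖ := by
  have hK := isCompact_ser (6356063904 / 10 ^ 10) (by norm_num)
  have hcl : IsClosed {q : ℂ | 0 ≤ q.re ∧ 1 / 2 ≤ q.im} :=
    (isClosed_le continuous_const Complex.continuous_re).inter
      (isClosed_le continuous_const Complex.continuous_im)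
  have hK2 := hK.inter_right hcl
  have him_of : ∀ w : ℂ, 0 ≤ w.re → 0 < w.im → ‖w‖ ≤ 6356063904 / 10 ^ 10 → Ser w →
      1 / 2 ≤ w.im := by
    intro w h1 h2 h3 ⟨a, ha, ha0, h0⟩
    exact le_trans (by norm_num) (tgt_of ha ha0 h0 h1 h2 h3).y1
  have hne : ({q : ℂ | ‖q‖ ≤ 6356063904 / 10 ^ 10 ∧ Ser q} ∩
      {q : ℂ | 0 ≤ q.re ∧ 1 / 2 ≤ q.im}).Nonempty := by
    obtain ⟨w, h1, h2, h3, h4⟩ := exists_witness
    exact ⟨w, ⟨h3, h4⟩, h1, him_of w h1 h2 h3 h4⟩
  obtain ⟨q, ⟨⟨hq1, hq2⟩, hq3, hq4⟩, hmin⟩ := hK2.exists_isMinOn hne continuous_norm.continuousOn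
  refine ⟨q, hq3, by linarith, hq1, hq2, ?_⟩
  intro w hw1 _ hw3
  by_cases hbig : ‖w‖ ≤ 6356063904 / 10 ^ 10
  · obtain ⟨w', _, g1, g2, g3, g4⟩ := exists_sym hw1 hw3
    rw [← g3]
    exact hmin ⟨⟨by rw [g3]; exact hbig, g4⟩, g1, him_of w' g1 g2 (by rw [g3]; exact hbig) g4⟩
  · push Not at hbig
    exact hq1.trans hbig.le

end Pool.Agent.LinPair
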