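import Pool.Agent.Helper284.LPSound

/-!
Forced coefficients in a small box.
-/

set_option autoImplicit false

namespace Pool.Agent.LinPair

open Complex

/-- every deviation from the given list of signs is excluded -/
noncomputable def forced : List Bool → Tb → ℕ → ℕ → Bool
  | [], _, _, _ => true
  | _ :: _, Tb.nil, _, _ => false
  | true :: ss, Tb.cons _ _ _ _ Up Um Vp Vm t, a, b =>
    dead t (a + Um) (b + Vm) &&
      dead t (a + 1180591620717411303424) (b + 1180591620717411303424) &&
      forced ss t (a + Up) (b + Vp)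
  | false :: ss, Tb.cons _ _ _ _ Up Um Vp Vm t, a, b =>
    dead t (a + Up) (b + Vp) &&
      dead t (a + 1180591620717411303424) (b + 1180591620717411303424) &&
      forced ss t (a + Um) (b + Vm)

theorem child {a : ℕ → ℤ} {q c : ℂ} {r rL δ : ℝ} {sh X Y rn D1 D2 : ℕ}
    (hB : Box a q c r rL δ sh X Y rn D1 D2) {n U V w z s off A B : ℕ}
    (hS : St c r n U V w z s off)
    (hA : ‖cx A B off - 2 ^ 64 * PS a c n‖ ≤ 6 * (n + 1)) :
    (a (n + 1) = -1 → ‖cx (A + (2361183241434822606848 - U)) (B + (2361183241434822606848 - V))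
      (off + 1180591620717411303424) - 2 ^ 64 * PS a c (n + 1)‖ ≤ 6 * ((n + 1 : ℕ) + 1)) ∧
    (a (n + 1) = 0 → ‖cx (A + 1180591620717411303424) (B + 1180591620717411303424)
      (off + 1180591620717411303424) - 2 ^ 64 * PS a c (n + 1)‖ ≤ 6 * ((n + 1 : ℕ) + 1)) ∧
    (a (n + 1) = 1 → ‖cx (A + U) (B + V)
      (off + 1180591620717411303424) - 2 ^ 64 * PS a c (n + 1)‖ ≤ 6 * ((n + 1 : ℕ) + 1)) := by
  have hc1 : ‖c‖ ≤ 1 := by linarith [hB.hcL, hB.hL]
  obtain ⟨hb1, hb2⟩ := hS.bound hc1
  have hO : (OO : ℝ) = 1180591620717411303424 := by norm_num [OO]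
  have hU2 : U ≤ 2361183241434822606848 := by
    have h1 := (abs_le.mp hb1).2
    have : (U : ℝ) ≤ ((2361183241434822606848 : ℕ) : ℝ) := by
      rw [hO] at h1
      push_cast
      linarith
    exact_mod_cast this
  have hV2 : V ≤ 2361183241434822606848 := by
    have h1 := (abs_le.mp hb2).2
    have : (V : ℝ) ≤ ((2361183241434822606848 : ℕ) : ℝ) := by
      rw [hO] at h1
      push_cast
      linarith
    exact_mod_cast this
  have hSU := hS.hU
  refine ⟨fun hcase => ?_, fun hcase => ?_, fun hcase => ?_⟩
  · have e1 : cx (A + (2361183241434822606848 - U)) (B + (2361183241434822606848 - V))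
        (off + 1180591620717411303424) = cx A B off - cx U V OO := by
      apply Complex.ext
      · simp only [cx, Complex.sub_re]
        rw [Nat.cast_add, Nat.cast_sub hU2, hO]
        push_cast; ring
      · simp only [cx, Complex.sub_im]
        rw [Nat.cast_add, Nat.cast_sub hV2, hO]
        push_cast; ring
    rw [e1, PS_succ, hcase]
    have e2 : cx A B off - cx U V OO - 2 ^ 64 * (PS a c n + ((-1 : ℤ) : ℂ) * c ^ (n + 1)) =
        (cx A B off - 2 ^ 64 * PS a c n) - (cx U V OO - 2 ^ 64 * c ^ (n + 1)) := by
      push_cast; ring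
    rw [e2]
    refine (norm_sub_le _ _).trans ?_
    push_cast
    linarith
  · have e1 : cx (A + 1180591620717411303424) (B + 1180591620717411303424)
        (off + 1180591620717411303424) = cx A B off := by
      apply Complex.ext
      · simp only [cx]
        push_cast; ring
      · simp only [cx]
        push_cast; ring
    rw [e1, PS_succ, hcase]
    have e2 : cx A B off - 2 ^ 64 * (PS a c n + ((0 : ℤ) : ℂ) * c ^ (n + 1)) =
        (cx A B off - 2 ^ 64 * PS a c n) := by
      push_cast; ring
    rw [e2]
    push_cast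
    linarith
  · have e1 : cx (A + U) (B + V)
        (off + 1180591620717411303424) = cx A B off + cx U V OO := cx_add _ _ _ _ _ _
    rw [e1, PS_succ, hcase]
    have e2 : cx A B off + cx U V OO - 2 ^ 64 * (PS a c n + ((1 : ℤ) : ℂ) * c ^ (n + 1)) =
        (cx A B off - 2 ^ 64 * PS a c n) + (cx U V OO - 2 ^ 64 * c ^ (n + 1)) := by
      push_cast; ring
    rw [e2]
    refine (norm_add_le _ _).trans ?_
    push_cast
    linarith

theorem forced_sound {a : ℕ → ℤ} {q c : ℂ} {r rL δ : ℝ} {sh X Y rn D1 D2 : ℕ}
    (hB : Box a q c r rL δ sh X Y rn D1 D2) (ss : List Bool) :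
    ∀ fuel n U V w z s off A B : ℕ, St c r n U V w z s off →
      ‖cx A B off - 2 ^ 64 * PS a c n‖ ≤ 6 * (n + 1) →
      forced ss (mk sh X Y rn D1 D2 fuel U V w z s off) A B = true →
      ∀ k (hk : k < ss.length), a (n + 1 + k) = if ss[k] then 1 else -1 := by
  induction ss with
  | nil => intro _ _ _ _ _ _ _ _ _ _ _ _ _ k hk; exact absurd hk (by simp)
  | cons b ss ih =>
    intro fuel n U V w z s off A B hS hA hf
    obtain _ | fuel := fuel
    · exact absurd hf (by cases b <;> simp [mk, forced])
    rcases mk_succ sh X Y rn D1 D2 fuel U V w z s off with h | h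
    · rw [h] at hf
      exact absurd hf (by cases b <;> simp [forced])
    rw [h] at hf
    have hnext := hS.next hB
    obtain ⟨hm, hz, hp⟩ := child hB hS hA
    cases b with
    | true =>
      simp only [forced, Bool.and_eq_true] at hf
      obtain ⟨⟨f1, f2⟩, f3⟩ := hf
      have ha1 : a (n + 1) = 1 := by
        rcases hB.ha (n + 1) with hc | hc | hc
        · have := dead_mk hB fuel (n + 1) _ _ _ _ _ _ _ _ hnext (hm hc)
          rw [this] at f1; exact absurd f1 (by simp)
        · have := dead_mk hB fuel (n + 1) _ _ _ _ _ _ _ _ hnext (hz hc)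
          rw [this] at f2; exact absurd f2 (by simp)
        · exact hc
      have hrec := ih fuel (n + 1) _ _ _ _ _ _ _ _ hnext (hp ha1) f3
      intro k hk
      cases k with
      | zero => simpa using ha1
      | succ k =>
        have := hrec k (by simpa using hk)
        rw [show n + 1 + (k + 1) = n + 1 + 1 + k by ring, this]
        simp
    | false =>
      simp only [forced, Bool.and_eq_true] at hf
      obtain ⟨⟨f1, f2⟩, f3⟩ := hf
      have ha1 : a (n + 1) = -1 := by
        rcases hB.ha (n + 1) with hc | hc | hc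
        · exact hc
        · have := dead_mk hB fuel (n + 1) _ _ _ _ _ _ _ _ hnext (hz hc)
          rw [this] at f2; exact absurd f2 (by simp)
        · have := dead_mk hB fuel (n + 1) _ _ _ _ _ _ _ _ hnext (hp hc)
          rw [this] at f1; exact absurd f1 (by simp)
      have hrec := ih fuel (n + 1) _ _ _ _ _ _ _ _ hnext (hm ha1) f3
      intro k hk
      cases k with
      | zero => simpa using ha1
      | succ k =>
        have := hrec k (by simpa using hk)
        rw [show n + 1 + (k + 1) = n + 1 + 1 + k by ring, this]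
        simp

end Pool.Agent.LinPair
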