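import Mathlib

/-!
Power series with coefficients in `{-1,0,1}`: bounds for partial sums at a point near a zero.
-/

set_option autoImplicit false

namespace Pool.Agent.LinPair

open Finset Complex

/-- partial sums -/
noncomputable def PS (a : ℕ → ℤ) (z : ℂ) (n : ℕ) : ℂ := ∑ k ∈ range (n + 1), (a k : ℂ) * z ^ k

theorem PS_succ (a : ℕ → ℤ) (z : ℂ) (n : ℕ) :
    PS a z (n + 1) = PS a z n + (a (n + 1) : ℂ) * z ^ (n + 1) := by
  rw [PS, sum_range_succ]; rfl

theorem PS_zero (a : ℕ → ℤ) (z : ℂ) : PS a z 0 = a 0 := by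
  simp [PS]

/-- `∑_{k>n} r^k` -/
noncomputable def WW (r : ℝ) (n : ℕ) : ℝ := r ^ (n + 1) / (1 - r)

/-- `k r^(k-1)` -/
noncomputable def g1 (r : ℝ) : ℕ → ℝ
  | 0 => 0
  | k + 1 => r * g1 r k + r ^ k

/-- `k (k-1) r^(k-2)` -/
noncomputable def g2 (r : ℝ) : ℕ → ℝ
  | 0 => 0
  | k + 1 => r * g2 r k + 2 * g1 r k

/-- `∑_{k>n} k r^(k-1)` -/
noncomputable def ZZ (r : ℝ) : ℕ → ℝ
  | 0 => 1 / (1 - r) ^ 2
  | n + 1 => r * ZZ r n + WW r n

section
variable {r : ℝ}

theorem g1_nonneg (hr : 0 ≤ r) (k : ℕ) : 0 ≤ g1 r k := by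
  induction k with
  | zero => simp [g1]
  | succ k ih => simp only [g1]; positivity

theorem g2_nonneg (hr : 0 ≤ r) (k : ℕ) : 0 ≤ g2 r k := by
  induction k with
  | zero => simp [g2]
  | succ k ih => simp only [g2]; have := g1_nonneg hr k; positivity

theorem WW_sub (hr1 : r < 1) (n : ℕ) : WW r n - WW r (n + 1) = r ^ (n + 1) := by
  have : (1 - r) ≠ 0 := by linarith
  simp only [WW]
  field_simp
  ring

theorem WW_succ (n : ℕ) : WW r (n + 1) = r * WW r n := by
  simp only [WW]; ring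

theorem WW_nonneg (hr : 0 ≤ r) (hr1 : r < 1) (n : ℕ) : 0 ≤ WW r n := by
  have : 0 < 1 - r := by linarith
  simp only [WW]; positivity

theorem ZZ_nonneg (hr : 0 ≤ r) (hr1 : r < 1) (n : ℕ) : 0 ≤ ZZ r n := by
  have : 0 < 1 - r := by linarith
  induction n with
  | zero => simp only [ZZ]; positivity
  | succ n ih => simp only [ZZ]; have := WW_nonneg hr hr1 n; positivity

theorem ZZ_sub (hr1 : r < 1) (n : ℕ) : ZZ r n - ZZ r (n + 1) = g1 r (n + 1) := by
  have h1 : (1 - r) ≠ 0 := by linarith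
  induction n with
  | zero =>
    simp only [ZZ, g1, WW]
    field_simp
    ring
  | succ n ih =>
    have h2 : ZZ r (n + 1) - ZZ r (n + 1 + 1) = r * (ZZ r n - ZZ r (n + 1)) +
        (WW r n - WW r (n + 1)) := by
      show r * ZZ r n + WW r n - (r * ZZ r (n + 1) + WW r (n + 1)) = _
      ring
    rw [h2, ih, WW_sub hr1]
    rfl

theorem sum_g1_le (hr : 0 ≤ r) (hr1 : r < 1) (n : ℕ) :
    ∑ k ∈ range n, g1 r k ≤ 1 / (1 - r) ^ 2 := by
  have h0 : 0 < 1 - r := by linarith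
  induction n with
  | zero => simp; positivity
  | succ n ih =>
    rw [sum_range_succ']
    simp only [g1, add_zero]
    rw [sum_add_distrib, ← mul_sum]
    have h1 : ∑ k ∈ range n, r ^ k ≤ 1 / (1 - r) := by
      rw [le_div_iff₀ h0]
      have := mul_neg_geom_sum r n
      nlinarith [pow_nonneg hr n]
    have h2 : 1 / (1 - r) ^ 2 = r * (1 / (1 - r) ^ 2) + 1 / (1 - r) := by
      field_simp; ring
    rw [h2]
    gcongr

theorem sum_g2_le (hr : 0 ≤ r) (hr1 : r < 1) (n : ℕ) :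
    ∑ k ∈ range n, g2 r k ≤ 2 / (1 - r) ^ 3 := by
  have h0 : 0 < 1 - r := by linarith
  induction n with
  | zero => simp; positivity
  | succ n ih =>
    rw [sum_range_succ']
    simp only [g2, add_zero]
    rw [sum_add_distrib, ← mul_sum, ← mul_sum]
    have h1 := sum_g1_le hr hr1 n
    have h2 : 2 / (1 - r) ^ 3 = r * (2 / (1 - r) ^ 3) + 2 * (1 / (1 - r) ^ 2) := by
      field_simp; ring
    rw [h2]
    gcongr

end

theorem abs_int_le_one {a : ℤ} (ha : a = -1 ∨ a = 0 ∨ a = 1) : ‖(a : ℂ)‖ ≤ 1 := by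
  rcases ha with rfl | rfl | rfl <;> simp

/-- the norm of a partial sum at a zero -/
theorem norm_PS_le {a : ℕ → ℤ} (ha : ∀ k, a k = -1 ∨ a k = 0 ∨ a k = 1) {q : ℂ} {r : ℝ}
    (hq : ‖q‖ ≤ r) (hr1 : r < 1) (h0 : ∑' k, (a k : ℂ) * q ^ k = 0) (n : ℕ) :
    ‖PS a q n‖ ≤ WW r n := by
  have hr : 0 ≤ r := (norm_nonneg q).trans hq
  have hsum : Summable (fun k => (a k : ℂ) * q ^ k) := by
    apply Summable.of_norm_bounded (g := fun k => r ^ k) (summable_geometric_of_lt_one hr hr1)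
    intro k
    rw [norm_mul, norm_pow]
    calc ‖(a k : ℂ)‖ * ‖q‖ ^ k ≤ 1 * r ^ k := by
          gcongr; exact abs_int_le_one (ha k)
      _ = r ^ k := one_mul _
  have hlim : Filter.Tendsto (fun N => ‖PS a q N‖) Filter.atTop (nhds 0) := by
    have h1 := hsum.hasSum.tendsto_sum_nat
    rw [h0] at h1
    have h2 := (h1.comp (Filter.tendsto_add_atTop_nat 1)).norm
    simpa [PS] using h2
  have hstep : ∀ m, ‖PS a q n‖ ≤ ‖PS a q (n + m)‖ + (WW r n - WW r (n + m)) := by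
    intro m
    induction m with
    | zero => simp
    | succ m ih =>
      have h1 : PS a q (n + m) = PS a q (n + (m + 1)) - (a (n + m + 1) : ℂ) * q ^ (n + m + 1) := by
        rw [← add_assoc, PS_succ]; ring
      have h2 : ‖PS a q (n + m)‖ ≤ ‖PS a q (n + (m + 1))‖ + r ^ (n + m + 1) := by
        rw [h1]
        refine (norm_sub_le _ _).trans ?_
        gcongr
        rw [norm_mul, norm_pow]
        calc ‖(a (n + m + 1) : ℂ)‖ * ‖q‖ ^ (n + m + 1) ≤ 1 * r ^ (n + m + 1) := by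
              gcongr; exact abs_int_le_one (ha _)
          _ = _ := one_mul _
      have h3 := WW_sub hr1 (n + m)
      have h4 : n + m + 1 = n + (m + 1) := by ring
      rw [h4] at h3 h2
      linarith
  have hlim2 : Filter.Tendsto (fun m => ‖PS a q (n + m)‖ + WW r n) Filter.atTop
      (nhds (0 + WW r n)) := by
    apply Filter.Tendsto.add_const
    have := hlim.comp (Filter.tendsto_add_atTop_nat n)
    simpa [add_comm, Function.comp_def] using this
  rw [zero_add] at hlim2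
  apply ge_of_tendsto' hlim2
  intro m
  have h1 := hstep m
  have h2 := WW_nonneg hr hr1 (n + m)
  linarith

theorem pow_im_abs_le {z : ℂ} {r : ℝ} (hz : 0 ≤ z.im) (hr : ‖z‖ ≤ r) (k : ℕ) :
    |(z ^ k).im| ≤ z.im * g1 r k := by
  have hr0 : 0 ≤ r := (norm_nonneg z).trans hr
  induction k with
  | zero => simp [g1]
  | succ k ih =>
    rw [pow_succ, Complex.mul_im]
    simp only [g1]
    have h1 : |(z ^ k).re| ≤ r ^ k := by
      refine (Complex.abs_re_le_norm _).trans ?_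
      rw [norm_pow]
      gcongr
    have h2 : |z.re| ≤ r := (Complex.abs_re_le_norm _).trans hr
    calc |(z ^ k).re * z.im + (z ^ k).im * z.re| ≤ |(z ^ k).re * z.im| + |(z ^ k).im * z.re| :=
          abs_add_le _ _
      _ = |(z ^ k).re| * z.im + |(z ^ k).im| * |z.re| := by
          rw [abs_mul, abs_mul, abs_of_nonneg hz]
      _ ≤ r ^ k * z.im + (z.im * g1 r k) * r := by
          gcongr
          exact mul_nonneg hz (g1_nonneg hr0 k)
      _ = z.im * (r * g1 r k + r ^ k) := by ring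

/-- the imaginary part of a partial sum at a zero -/
theorem im_PS_le {a : ℕ → ℤ} (ha : ∀ k, a k = -1 ∨ a k = 0 ∨ a k = 1) {q : ℂ} {r : ℝ}
    (hq : ‖q‖ ≤ r) (hr1 : r < 1) (hi : 0 ≤ q.im) (h0 : ∑' k, (a k : ℂ) * q ^ k = 0) (n : ℕ) :
    |(PS a q n).im| ≤ q.im * ZZ r n := by
  have hr : 0 ≤ r := (norm_nonneg q).trans hq
  have hstep : ∀ m, |(PS a q n).im| ≤ |(PS a q (n + m)).im| +
      q.im * (ZZ r n - ZZ r (n + m)) := by
    intro m
    induction m with
    | zero => simp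
    | succ m ih =>
      have h1 : PS a q (n + m) = PS a q (n + (m + 1)) - (a (n + m + 1) : ℂ) * q ^ (n + m + 1) := by
        rw [← add_assoc, PS_succ]; ring
      have h5 : |((a (n + m + 1) : ℂ) * q ^ (n + m + 1)).im| ≤ q.im * g1 r (n + m + 1) := by
        have h6 : ((a (n + m + 1) : ℂ) * q ^ (n + m + 1)).im =
            (a (n + m + 1) : ℝ) * (q ^ (n + m + 1)).im := by
          rw [Complex.mul_im]; simp
        rw [h6, abs_mul]
        have h7 : |(a (n + m + 1) : ℝ)| ≤ 1 := by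
          rcases ha (n + m + 1) with h | h | h <;> rw [h] <;> simp
        calc |(a (n + m + 1) : ℝ)| * |(q ^ (n + m + 1)).im| ≤ 1 * (q.im * g1 r (n + m + 1)) := by
              gcongr
              exact pow_im_abs_le hi hq _
          _ = _ := one_mul _
      have h2 : |(PS a q (n + m)).im| ≤ |(PS a q (n + (m + 1))).im| + q.im * g1 r (n + m + 1) := by
        rw [h1, Complex.sub_im]
        refine (abs_sub _ _).trans ?_
        gcongr
      have h3 := ZZ_sub (r := r) hr1 (n + m)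
      have h4 : n + m + 1 = n + (m + 1) := by ring
      rw [h4] at h3 h2
      rw [← h3] at h2
      nlinarith
  have hnorm : Filter.Tendsto (fun m => |(PS a q (n + m)).im|) Filter.atTop (nhds 0) := by
    have h1 : Filter.Tendsto (fun m => WW r (n + m)) Filter.atTop (nhds 0) := by
      have h2 : Filter.Tendsto (fun m : ℕ => r ^ m) Filter.atTop (nhds 0) :=
        tendsto_pow_atTop_nhds_zero_of_lt_one hr hr1
      have h3 : (fun m => WW r (n + m)) = fun m => (r ^ (n + 1) / (1 - r)) * r ^ m := by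
        funext m; simp only [WW]; ring
      rw [h3]
      simpa using h2.const_mul (r ^ (n + 1) / (1 - r))
    refine squeeze_zero (fun m => abs_nonneg _) (fun m => ?_) h1
    exact (Complex.abs_im_le_norm _).trans (norm_PS_le ha hq hr1 h0 _)
  have hlim2 := hnorm.add_const (q.im * ZZ r n)
  rw [zero_add] at hlim2
  apply ge_of_tendsto' hlim2
  intro m
  have h1 := hstep m
  have h2 := mul_nonneg hi (ZZ_nonneg hr hr1 (n + m))
  linarith

theorem pow_sub_pow_le {q c : ℂ} {r δ : ℝ} (hq : ‖q‖ ≤ r) (hc : ‖c‖ ≤ r) (hd : ‖q - c‖ ≤ δ)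
    (k : ℕ) : ‖q ^ k - c ^ k‖ ≤ δ * g1 r k := by
  have hr : 0 ≤ r := (norm_nonneg q).trans hq
  have hδ : 0 ≤ δ := (norm_nonneg _).trans hd
  induction k with
  | zero => simp [g1]
  | succ k ih =>
    have h1 : q ^ (k + 1) - c ^ (k + 1) = q * (q ^ k - c ^ k) + (q - c) * c ^ k := by ring
    rw [h1]
    calc ‖q * (q ^ k - c ^ k) + (q - c) * c ^ k‖ ≤ ‖q‖ * ‖q ^ k - c ^ k‖ + ‖q - c‖ * ‖c‖ ^ k := by
          refine (norm_add_le _ _).trans ?_
          rw [norm_mul, norm_mul, norm_pow]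
      _ ≤ r * (δ * g1 r k) + δ * r ^ k := by
          gcongr
      _ = δ * g1 r (k + 1) := by simp only [g1]; ring

theorem norm_PS_center {a : ℕ → ℤ} (ha : ∀ k, a k = -1 ∨ a k = 0 ∨ a k = 1) {q c : ℂ}
    {r rL δ : ℝ} (hq : ‖q‖ ≤ r) (hr1 : r < 1) (hqL : ‖q‖ ≤ rL) (hcL : ‖c‖ ≤ rL) (hL1 : rL < 1)
    (hd : ‖q - c‖ ≤ δ) (h0 : ∑' k, (a k : ℂ) * q ^ k = 0) (n : ℕ) :
    ‖PS a c n‖ ≤ WW r n + δ / (1 - rL) ^ 2 := by
  have hL : 0 ≤ rL := (norm_nonneg q).trans hqL
  have hδ : 0 ≤ δ := (norm_nonneg _).trans hd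
  have h1 := norm_PS_le ha hq hr1 h0 n
  have h2 : ‖PS a q n - PS a c n‖ ≤ δ * (1 / (1 - rL) ^ 2) := by
    have h3 : PS a q n - PS a c n = ∑ k ∈ range (n + 1), (a k : ℂ) * (q ^ k - c ^ k) := by
      simp only [PS, mul_sub, sum_sub_distrib]
    rw [h3]
    calc ‖∑ k ∈ range (n + 1), (a k : ℂ) * (q ^ k - c ^ k)‖
        ≤ ∑ k ∈ range (n + 1), ‖(a k : ℂ) * (q ^ k - c ^ k)‖ := norm_sum_le _ _
      _ ≤ ∑ k ∈ range (n + 1), δ * g1 rL k := by
          apply sum_le_sum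
          intro k _
          rw [norm_mul]
          calc ‖(a k : ℂ)‖ * ‖q ^ k - c ^ k‖ ≤ 1 * (δ * g1 rL k) := by
                gcongr
                · exact abs_int_le_one (ha k)
                · exact pow_sub_pow_le hqL hcL hd k
            _ = _ := one_mul _
      _ = δ * ∑ k ∈ range (n + 1), g1 rL k := by rw [mul_sum]
      _ ≤ δ * (1 / (1 - rL) ^ 2) := by
          gcongr
          exact sum_g1_le hL hL1 _
  have h4 : PS a c n = PS a q n - (PS a q n - PS a c n) := by ring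
  rw [h4]
  refine (norm_sub_le _ _).trans ?_
  rw [div_eq_mul_one_div]
  linarith

theorem im_div_rec (z : ℂ) (hz : 0 < z.im) (k : ℕ) :
    (((z ^ (k + 1)).im / z.im : ℝ) : ℂ) = z * (((z ^ k).im / z.im : ℝ) : ℂ) +
      (starRingEnd ℂ) z ^ k := by
  have h0 : z.im ≠ 0 := hz.ne'
  rw [← map_pow]
  apply Complex.ext
  · rw [Complex.add_re, Complex.re_mul_ofReal, Complex.ofReal_re, Complex.conj_re, pow_succ,
      Complex.mul_im]
    field_simp
    ring
  · rw [Complex.add_im, Complex.im_mul_ofReal, Complex.ofReal_im, Complex.conj_im]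
    field_simp
    ring

theorem im_div_sub_le {q c : ℂ} {r δ : ℝ} (hq : ‖q‖ ≤ r) (hc : ‖c‖ ≤ r) (hd : ‖q - c‖ ≤ δ)
    (hqi : 0 < q.im) (hci : 0 < c.im) (k : ℕ) :
    |(q ^ k).im / q.im - (c ^ k).im / c.im| ≤ δ * g2 r k := by
  have hr : 0 ≤ r := (norm_nonneg q).trans hq
  have hδ : 0 ≤ δ := (norm_nonneg _).trans hd
  induction k with
  | zero => simp [g2]
  | succ k ih =>
    have h1 : (((q ^ (k + 1)).im / q.im - (c ^ (k + 1)).im / c.im : ℝ) : ℂ) =
        q * (((q ^ k).im / q.im - (c ^ k).im / c.im : ℝ) : ℂ) +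
        (q - c) * (((c ^ k).im / c.im : ℝ) : ℂ) +
        ((starRingEnd ℂ) q ^ k - (starRingEnd ℂ) c ^ k) := by
      rw [Complex.ofReal_sub, im_div_rec q hqi, im_div_rec c hci, Complex.ofReal_sub]
      ring
    have h2 : |(q ^ (k + 1)).im / q.im - (c ^ (k + 1)).im / c.im| =
        ‖(((q ^ (k + 1)).im / q.im - (c ^ (k + 1)).im / c.im : ℝ) : ℂ)‖ := by
      rw [Complex.norm_real, Real.norm_eq_abs]
    rw [h2, h1]
    have h3 : ‖((starRingEnd ℂ) q ^ k - (starRingEnd ℂ) c ^ k)‖ ≤ δ * g1 r k := by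
      rw [← map_pow, ← map_pow, ← map_sub, Complex.norm_conj]
      exact pow_sub_pow_le hq hc hd k
    have h4 : ‖(((c ^ k).im / c.im : ℝ) : ℂ)‖ ≤ g1 r k := by
      rw [Complex.norm_real, Real.norm_eq_abs, abs_div, abs_of_pos hci, div_le_iff₀ hci]
      have := pow_im_abs_le hci.le hc k
      linarith
    have h5 : ‖(((q ^ k).im / q.im - (c ^ k).im / c.im : ℝ) : ℂ)‖ ≤ δ * g2 r k := by
      rw [Complex.norm_real, Real.norm_eq_abs]
      exact ih
    calc ‖q * (((q ^ k).im / q.im - (c ^ k).im / c.im : ℝ) : ℂ) +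
        (q - c) * (((c ^ k).im / c.im : ℝ) : ℂ) +
        ((starRingEnd ℂ) q ^ k - (starRingEnd ℂ) c ^ k)‖
        ≤ ‖q‖ * ‖(((q ^ k).im / q.im - (c ^ k).im / c.im : ℝ) : ℂ)‖ +
          ‖q - c‖ * ‖(((c ^ k).im / c.im : ℝ) : ℂ)‖ +
          ‖((starRingEnd ℂ) q ^ k - (starRingEnd ℂ) c ^ k)‖ := by
          refine (norm_add₃_le).trans ?_
          rw [norm_mul, norm_mul]
      _ ≤ r * (δ * g2 r k) + δ * g1 r k + δ * g1 r k := by
          gcongr
      _ = δ * g2 r (k + 1) := by simp only [g2]; ring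

theorem im_PS_eq (a : ℕ → ℤ) (z : ℂ) (n : ℕ) :
    (PS a z n).im = ∑ k ∈ range (n + 1), (a k : ℝ) * (z ^ k).im := by
  rw [PS, Complex.im_sum]
  apply sum_congr rfl
  intro k _
  rw [Complex.mul_im]; simp

theorem im_PS_center {a : ℕ → ℤ} (ha : ∀ k, a k = -1 ∨ a k = 0 ∨ a k = 1) {q c : ℂ}
    {r rL δ : ℝ} (hq : ‖q‖ ≤ r) (hr1 : r < 1) (hqL : ‖q‖ ≤ rL) (hcL : ‖c‖ ≤ rL) (hL1 : rL < 1)
    (hd : ‖q - c‖ ≤ δ) (hqi : 0 < q.im) (hci : 0 < c.im)
    (h0 : ∑' k, (a k : ℂ) * q ^ k = 0) (n : ℕ) :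
    |(PS a c n).im| ≤ c.im * (ZZ r n + 2 * δ / (1 - rL) ^ 3) := by
  have hL : 0 ≤ rL := (norm_nonneg q).trans hqL
  have hδ : 0 ≤ δ := (norm_nonneg _).trans hd
  have h1 := im_PS_le ha hq hr1 hqi.le h0 n
  have h2 : |(PS a q n).im / q.im - (PS a c n).im / c.im| ≤ δ * (2 / (1 - rL) ^ 3) := by
    rw [im_PS_eq, im_PS_eq, sum_div, sum_div, ← sum_sub_distrib]
    calc |∑ k ∈ range (n + 1), ((a k : ℝ) * (q ^ k).im / q.im - (a k : ℝ) * (c ^ k).im / c.im)|
        ≤ ∑ k ∈ range (n + 1),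
          |((a k : ℝ) * (q ^ k).im / q.im - (a k : ℝ) * (c ^ k).im / c.im)| :=
          abs_sum_le_sum_abs _ _
      _ ≤ ∑ k ∈ range (n + 1), δ * g2 rL k := by
          apply sum_le_sum
          intro k _
          have h7 : |(a k : ℝ)| ≤ 1 := by
            rcases ha k with h | h | h <;> rw [h] <;> simp
          have h8 : (a k : ℝ) * (q ^ k).im / q.im - (a k : ℝ) * (c ^ k).im / c.im =
              (a k : ℝ) * ((q ^ k).im / q.im - (c ^ k).im / c.im) := by ring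
          rw [h8, abs_mul]
          calc |(a k : ℝ)| * |(q ^ k).im / q.im - (c ^ k).im / c.im| ≤ 1 * (δ * g2 rL k) := by
                gcongr
                exact im_div_sub_le hqL hcL hd hqi hci k
            _ = _ := one_mul _
      _ = δ * ∑ k ∈ range (n + 1), g2 rL k := by rw [mul_sum]
      _ ≤ δ * (2 / (1 - rL) ^ 3) := by
          gcongr
          exact sum_g2_le hL hL1 _
  have h3 : |(PS a q n).im / q.im| ≤ ZZ r n := by
    rw [abs_div, abs_of_pos hqi, div_le_iff₀ hqi]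
    linarith
  have h4 : |(PS a c n).im / c.im| ≤ ZZ r n + 2 * δ / (1 - rL) ^ 3 := by
    have h5 : (PS a c n).im / c.im = (PS a q n).im / q.im -
        ((PS a q n).im / q.im - (PS a c n).im / c.im) := by ring
    rw [h5]
    refine (abs_sub _ _).trans ?_
    have h6 : 2 * δ / (1 - rL) ^ 3 = δ * (2 / (1 - rL) ^ 3) := by ring
    rw [h6]
    linarith
  rw [abs_div, abs_of_pos hci, div_le_iff₀ hci] at h4
  linarith

end Pool.Agent.LinPair
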