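import Pool.Agent.Helper284.LPMath

/-!
Exact evaluation of polynomials at Gaussian rationals, derivatives of partial sums.
-/

set_option autoImplicit false

namespace Pool.Agent.LinPair

open Complex Finset

/-- exact evaluation at `(X + i Y) / S` of the polynomial with coefficients `l` (low to high);
numerators and the common denominator -/
def gv (X Y S : ℤ) : List ℤ → ℤ × ℤ × ℤ
  | [] => (0, 0, 1)
  | c :: t =>
    match gv X Y S t with
    | (u, v, p) => (c * (S * p) + (X * u - Y * v), X * v + Y * u, S * p)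

/-- value of the polynomial with coefficients `l` -/
noncomputable def lv : List ℤ → ℂ → ℂ
  | [], _ => 0
  | c :: t, z => c + z * lv t z

theorem gv_spec {X Y S : ℤ} (hS : 0 < S) {z : ℂ} (hz : z = ((X : ℂ) + Y * I) / S) (l : List ℤ) :
    0 < (gv X Y S l).2.2 ∧
    (((gv X Y S l).1 : ℂ) + (gv X Y S l).2.1 * I) = (gv X Y S l).2.2 * lv l z := by
  induction l with
  | nil => simp [gv, lv]
  | cons c t ih =>
    obtain ⟨h1, h2⟩ := ih
    simp only [gv, lv]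
    constructor
    · positivity
    · have hS' : (S : ℂ) ≠ 0 := by exact_mod_cast hS.ne'
      have h3 : (S : ℂ) * z = (X : ℂ) + Y * I := by rw [hz]; field_simp
      push_cast
      calc (c : ℂ) * (S * (gv X Y S t).2.2) + (X * (gv X Y S t).1 - Y * (gv X Y S t).2.1) +
            (X * (gv X Y S t).2.1 + Y * (gv X Y S t).1) * I
          = (c : ℂ) * (S * (gv X Y S t).2.2) + ((X : ℂ) + Y * I) *
            ((gv X Y S t).1 + (gv X Y S t).2.1 * I) := by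
            ring_nf
            rw [Complex.I_sq]
            ring
        _ = (c : ℂ) * (S * (gv X Y S t).2.2) + ((S : ℂ) * z) * ((gv X Y S t).2.2 * lv t z) := by
            rw [h2, h3]
        _ = _ := by ring

theorem norm_lv_le {X Y S : ℤ} (hS : 0 < S) {z : ℂ} (hz : z = ((X : ℂ) + Y * I) / S)
    (l : List ℤ) (num den : ℤ) (hnum : 0 ≤ num) (hden : 0 < den)
    (h : ((gv X Y S l).1 ^ 2 + (gv X Y S l).2.1 ^ 2) * den ^ 2 ≤
      num ^ 2 * (gv X Y S l).2.2 ^ 2) : ‖lv l z‖ ≤ (num : ℝ) / den := by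
  obtain ⟨h1, h2⟩ := gv_spec hS hz l
  have hp : (0 : ℝ) < (gv X Y S l).2.2 := by exact_mod_cast h1
  have hd : (0 : ℝ) < den := by exact_mod_cast hden
  have hn : (0 : ℝ) ≤ num := by exact_mod_cast hnum
  have h3 : ‖(((gv X Y S l).1 : ℂ) + (gv X Y S l).2.1 * I)‖ ^ 2 =
      ((gv X Y S l).1 : ℝ) ^ 2 + ((gv X Y S l).2.1 : ℝ) ^ 2 := by
    rw [Complex.sq_norm, Complex.normSq_apply]
    simp
    ring
  have h4 : ‖(((gv X Y S l).1 : ℂ) + (gv X Y S l).2.1 * I)‖ = (gv X Y S l).2.2 * ‖lv l z‖ := by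
    rw [h2, norm_mul]
    congr 1
    rw [Complex.norm_intCast, abs_of_pos hp]
  rw [h4] at h3
  have h5 : (((gv X Y S l).1 : ℝ) ^ 2 + ((gv X Y S l).2.1 : ℝ) ^ 2) * (den : ℝ) ^ 2 ≤
      (num : ℝ) ^ 2 * ((gv X Y S l).2.2 : ℝ) ^ 2 := by exact_mod_cast h
  rw [← h3] at h5
  have h6 : (‖lv l z‖ * den) ^ 2 ≤ (num : ℝ) ^ 2 := by
    have h7 : ((gv X Y S l).2.2 : ℝ) ^ 2 * (‖lv l z‖ * den) ^ 2 ≤
        ((gv X Y S l).2.2 : ℝ) ^ 2 * (num : ℝ) ^ 2 := by nlinarith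
    exact le_of_mul_le_mul_left h7 (by positivity)
  rw [le_div_iff₀ hd]
  exact abs_le_of_sq_le_sq' h6 hn |>.2

theorem le_norm_lv {X Y S : ℤ} (hS : 0 < S) {z : ℂ} (hz : z = ((X : ℂ) + Y * I) / S)
    (l : List ℤ) (num den : ℤ) (hden : 0 < den)
    (h : num ^ 2 * (gv X Y S l).2.2 ^ 2 ≤
      ((gv X Y S l).1 ^ 2 + (gv X Y S l).2.1 ^ 2) * den ^ 2) : (num : ℝ) / den ≤ ‖lv l z‖ := by
  obtain ⟨h1, h2⟩ := gv_spec hS hz l
  have hp : (0 : ℝ) < (gv X Y S l).2.2 := by exact_mod_cast h1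
  have hd : (0 : ℝ) < den := by exact_mod_cast hden
  have h3 : ‖(((gv X Y S l).1 : ℂ) + (gv X Y S l).2.1 * I)‖ ^ 2 =
      ((gv X Y S l).1 : ℝ) ^ 2 + ((gv X Y S l).2.1 : ℝ) ^ 2 := by
    rw [Complex.sq_norm, Complex.normSq_apply]
    simp
    ring
  have h4 : ‖(((gv X Y S l).1 : ℂ) + (gv X Y S l).2.1 * I)‖ = (gv X Y S l).2.2 * ‖lv l z‖ := by
    rw [h2, norm_mul]
    congr 1
    rw [Complex.norm_intCast, abs_of_pos hp]
  rw [h4] at h3
  have h5 : (num : ℝ) ^ 2 * ((gv X Y S l).2.2 : ℝ) ^ 2 ≤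
      (((gv X Y S l).1 : ℝ) ^ 2 + ((gv X Y S l).2.1 : ℝ) ^ 2) * (den : ℝ) ^ 2 := by
    exact_mod_cast h
  rw [← h3] at h5
  have h6 : (num : ℝ) ^ 2 ≤ (‖lv l z‖ * den) ^ 2 := by
    have h7 : ((gv X Y S l).2.2 : ℝ) ^ 2 * (num : ℝ) ^ 2 ≤
        ((gv X Y S l).2.2 : ℝ) ^ 2 * (‖lv l z‖ * den) ^ 2 := by nlinarith
    exact le_of_mul_le_mul_left h7 (by positivity)
  rw [div_le_iff₀ hd]
  exact abs_le_of_sq_le_sq' h6 (by positivity) |>.2

theorem lv_append (l : List ℤ) (c : ℤ) (z : ℂ) : lv (l ++ [c]) z = lv l z + c * z ^ l.length := by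
  induction l with
  | nil => simp [lv]
  | cons d t ih =>
    simp only [List.cons_append, lv, ih, List.length_cons]
    ring

theorem PS_eq_lv (a : ℕ → ℤ) (z : ℂ) (n : ℕ) : PS a z n = lv ((List.range (n + 1)).map a) z := by
  induction n with
  | zero => simp [PS, lv]
  | succ n ih =>
    rw [PS_succ, ih, List.range_succ (n := n + 1), List.map_append, List.map_cons, List.map_nil,
      lv_append]
    simp

/-- derivative of a partial sum -/
noncomputable def dPS (a : ℕ → ℤ) (z : ℂ) (n : ℕ) : ℂ :=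
  ∑ k ∈ range n, ((k : ℂ) + 1) * (a (k + 1) : ℂ) * z ^ k

theorem dPS_succ (a : ℕ → ℤ) (z : ℂ) (n : ℕ) :
    dPS a z (n + 1) = dPS a z n + ((n : ℂ) + 1) * (a (n + 1) : ℂ) * z ^ n := by
  rw [dPS, sum_range_succ]; rfl

theorem dPS_eq_lv (a : ℕ → ℤ) (z : ℂ) (n : ℕ) :
    dPS a z n = lv ((List.range n).map (fun k : ℕ => ((k : ℤ) + 1) * a (k + 1))) z := by
  induction n with
  | zero => simp [dPS, lv]
  | succ n ih =>
    rw [dPS_succ, ih, List.range_succ, List.map_append, List.map_cons, List.map_nil, lv_append]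
    simp

theorem g1_eq (r : ℝ) (k : ℕ) : g1 r (k + 1) = ((k : ℝ) + 1) * r ^ k := by
  induction k with
  | zero => simp [g1]
  | succ k ih =>
    have : g1 r (k + 1 + 1) = r * g1 r (k + 1) + r ^ (k + 1) := rfl
    rw [this, ih]
    push_cast
    ring

theorem norm_succ_cast (k : ℕ) : ‖((k : ℂ) + 1)‖ = (k : ℝ) + 1 := by
  have : ((k : ℂ) + 1) = ((k + 1 : ℕ) : ℂ) := by push_cast; ring
  rw [this, Complex.norm_natCast]; push_cast; ring

theorem dterm_le {a : ℕ → ℤ} (ha : ∀ k, a k = -1 ∨ a k = 0 ∨ a k = 1) {q : ℂ} {r : ℝ}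
    (hq : ‖q‖ ≤ r) (k : ℕ) : ‖((k : ℂ) + 1) * (a (k + 1) : ℂ) * q ^ k‖ ≤ g1 r (k + 1) := by
  have hr : 0 ≤ r := (norm_nonneg q).trans hq
  rw [norm_mul, norm_mul, norm_pow, norm_succ_cast, g1_eq]
  calc ((k : ℝ) + 1) * ‖(a (k + 1) : ℂ)‖ * ‖q‖ ^ k ≤ ((k : ℝ) + 1) * 1 * r ^ k := by
        gcongr
        exact abs_int_le_one (ha _)
    _ = _ := by ring

theorem dsummable {a : ℕ → ℤ} (ha : ∀ k, a k = -1 ∨ a k = 0 ∨ a k = 1) {q : ℂ} {r : ℝ}
    (hq : ‖q‖ ≤ r) (hr1 : r < 1) :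
    Summable (fun k : ℕ => ((k : ℂ) + 1) * (a (k + 1) : ℂ) * q ^ k) := by
  have hr : 0 ≤ r := (norm_nonneg q).trans hq
  apply Summable.of_norm_bounded (g := fun k => g1 r (k + 1))
  · have h1 : Summable (fun k : ℕ => (k : ℝ) ^ 1 * r ^ k) :=
      summable_pow_mul_geometric_of_norm_lt_one 1 (by
        rw [Real.norm_eq_abs, abs_of_nonneg hr]; exact hr1)
    have h2 := h1.add (summable_geometric_of_lt_one hr hr1)
    refine h2.congr (fun k => ?_)
    rw [g1_eq]; ring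
  · exact fun k => dterm_le ha hq k

/-- the derivative at a point of the disc, against the derivative of a partial sum -/
theorem norm_deriv_sub_le {a : ℕ → ℤ} (ha : ∀ k, a k = -1 ∨ a k = 0 ∨ a k = 1) {q : ℂ} {r : ℝ}
    (hq : ‖q‖ ≤ r) (hr1 : r < 1) (n : ℕ) :
    ‖(∑' k : ℕ, ((k : ℂ) + 1) * (a (k + 1) : ℂ) * q ^ k) - dPS a q n‖ ≤ ZZ r n := by
  have hr : 0 ≤ r := (norm_nonneg q).trans hq
  have hstep : ∀ m, ‖dPS a q (n + m) - dPS a q n‖ ≤ ZZ r n - ZZ r (n + m) := by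
    intro m
    induction m with
    | zero => simp
    | succ m ih =>
      have h1 : dPS a q (n + (m + 1)) - dPS a q n = (dPS a q (n + m) - dPS a q n) +
          (((n + m : ℕ) : ℂ) + 1) * (a (n + m + 1) : ℂ) * q ^ (n + m) := by
        rw [← add_assoc, dPS_succ]; ring
      rw [h1]
      refine (norm_add_le _ _).trans ?_
      have h2 := dterm_le ha hq (n + m)
      have h3 := ZZ_sub (r := r) hr1 (n + m)
      rw [← add_assoc]
      linarith
  have hlim : Filter.Tendsto (fun m => ‖dPS a q (n + m) - dPS a q n‖) Filter.atTop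
      (nhds ‖(∑' k : ℕ, ((k : ℂ) + 1) * (a (k + 1) : ℂ) * q ^ k) - dPS a q n‖) := by
    have h1 := (dsummable ha hq hr1).hasSum.tendsto_sum_nat
    have h2 := (h1.comp (Filter.tendsto_add_atTop_nat n))
    have h3 : Filter.Tendsto (fun m => dPS a q (n + m)) Filter.atTop
        (nhds (∑' k : ℕ, ((k : ℂ) + 1) * (a (k + 1) : ℂ) * q ^ k)) := by
      refine h2.congr (fun m => ?_)
      simp [dPS, add_comm]
    exact (h3.sub_const _).norm
  apply le_of_tendsto' hlim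
  intro m
  have := hstep m
  have h2 := ZZ_nonneg hr hr1 (n + m)
  linarith

theorem taylor_pow_le {z w : ℂ} {r : ℝ} (hz : ‖z‖ ≤ r) (hw : ‖w‖ ≤ r) (k : ℕ) :
    ‖z ^ (k + 1) - w ^ (k + 1) - ((k : ℂ) + 1) * w ^ k * (z - w)‖ ≤
      ‖z - w‖ ^ 2 * g2 r (k + 1) := by
  have hr : 0 ≤ r := (norm_nonneg z).trans hz
  induction k with
  | zero => simp [g2, g1]
  | succ k ih =>
    have h1 : z ^ (k + 1 + 1) - w ^ (k + 1 + 1) - (((k + 1 : ℕ) : ℂ) + 1) * w ^ (k + 1) * (z - w) =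
        z * (z ^ (k + 1) - w ^ (k + 1) - ((k : ℂ) + 1) * w ^ k * (z - w)) +
        ((k : ℂ) + 1) * w ^ k * (z - w) ^ 2 := by
      push_cast; ring
    rw [h1]
    have h2 : ‖((k : ℂ) + 1) * w ^ k * (z - w) ^ 2‖ ≤ g1 r (k + 1) * ‖z - w‖ ^ 2 := by
      rw [norm_mul, norm_mul, norm_pow, norm_pow, norm_succ_cast, g1_eq]
      gcongr
    have h3 : ‖z * (z ^ (k + 1) - w ^ (k + 1) - ((k : ℂ) + 1) * w ^ k * (z - w))‖ ≤
        r * (‖z - w‖ ^ 2 * g2 r (k + 1)) := by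
      rw [norm_mul]
      exact mul_le_mul hz ih (norm_nonneg _) hr
    refine (norm_add_le _ _).trans ?_
    have h4 : g2 r (k + 1 + 1) = r * g2 r (k + 1) + 2 * g1 r (k + 1) := rfl
    rw [h4]
    have h5 := g1_nonneg hr (k + 1)
    nlinarith [sq_nonneg ‖z - w‖]

theorem PS_taylor {a : ℕ → ℤ} (ha : ∀ k, a k = -1 ∨ a k = 0 ∨ a k = 1) {z w : ℂ} {r : ℝ}
    (hz : ‖z‖ ≤ r) (hw : ‖w‖ ≤ r) (hr1 : r < 1) (n : ℕ) :
    ‖PS a z n - PS a w n - dPS a w n * (z - w)‖ ≤ ‖z - w‖ ^ 2 * (2 / (1 - r) ^ 3) := by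
  have hr : 0 ≤ r := (norm_nonneg z).trans hz
  have h1 : PS a z n - PS a w n - dPS a w n * (z - w) =
      ∑ k ∈ range n, (a (k + 1) : ℂ) * (z ^ (k + 1) - w ^ (k + 1) -
        ((k : ℂ) + 1) * w ^ k * (z - w)) := by
    rw [PS, PS, dPS, sum_range_succ', sum_range_succ', sum_mul]
    simp only [pow_zero, add_sub_add_right_eq_sub]
    rw [← sum_sub_distrib, ← sum_sub_distrib]
    apply sum_congr rfl
    intro k _
    ring
  rw [h1]
  calc ‖∑ k ∈ range n, (a (k + 1) : ℂ) * (z ^ (k + 1) - w ^ (k + 1) -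
        ((k : ℂ) + 1) * w ^ k * (z - w))‖
      ≤ ∑ k ∈ range n, ‖(a (k + 1) : ℂ) * (z ^ (k + 1) - w ^ (k + 1) -
        ((k : ℂ) + 1) * w ^ k * (z - w))‖ := norm_sum_le _ _
    _ ≤ ∑ k ∈ range n, ‖z - w‖ ^ 2 * g2 r (k + 1) := by
        apply sum_le_sum
        intro k _
        rw [norm_mul]
        calc ‖(a (k + 1) : ℂ)‖ * ‖z ^ (k + 1) - w ^ (k + 1) - ((k : ℂ) + 1) * w ^ k * (z - w)‖
            ≤ 1 * (‖z - w‖ ^ 2 * g2 r (k + 1)) := by
              gcongr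
              · exact abs_int_le_one (ha _)
              · exact taylor_pow_le hz hw k
          _ = _ := one_mul _
    _ = ‖z - w‖ ^ 2 * ∑ k ∈ range n, g2 r (k + 1) := by rw [mul_sum]
    _ ≤ ‖z - w‖ ^ 2 * (2 / (1 - r) ^ 3) := by
        gcongr
        have h2 := sum_g2_le hr hr1 (n + 1)
        rw [sum_range_succ'] at h2
        simpa [g2] using h2

theorem dPS_sub_le {a : ℕ → ℤ} (ha : ∀ k, a k = -1 ∨ a k = 0 ∨ a k = 1) {z w : ℂ} {r δ : ℝ}
    (hz : ‖z‖ ≤ r) (hw : ‖w‖ ≤ r) (hr1 : r < 1) (hd : ‖z - w‖ ≤ δ) (n : ℕ) :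
    ‖dPS a z n - dPS a w n‖ ≤ δ * (2 / (1 - r) ^ 3) := by
  have hr : 0 ≤ r := (norm_nonneg z).trans hz
  have hδ : 0 ≤ δ := (norm_nonneg _).trans hd
  have h1 : dPS a z n - dPS a w n =
      ∑ k ∈ range n, ((k : ℂ) + 1) * (a (k + 1) : ℂ) * (z ^ k - w ^ k) := by
    rw [dPS, dPS, ← sum_sub_distrib]
    apply sum_congr rfl
    intro k _
    ring
  have hg : ∀ k : ℕ, ((k : ℝ) + 1) * g1 r k ≤ g2 r (k + 1) := by
    intro k
    induction k with
    | zero => simp [g1, g2]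
    | succ k ih =>
      have e1 : g2 r (k + 1 + 1) = r * g2 r (k + 1) + 2 * g1 r (k + 1) := rfl
      have e2 : g1 r (k + 1) = r * g1 r k + r ^ k := rfl
      have e3 := g1_eq r k
      rw [e1]
      have h5 : r * (((k : ℝ) + 1) * g1 r k) ≤ r * g2 r (k + 1) := mul_le_mul_of_nonneg_left ih hr
      push_cast
      have h6 : ((k : ℝ) + 1 + 1) * g1 r (k + 1) = ((k : ℝ) + 1) * g1 r (k + 1) + g1 r (k + 1) := by
        ring
      have h7 : ((k : ℝ) + 1) * g1 r (k + 1) = r * (((k : ℝ) + 1) * g1 r k) + ((k : ℝ) + 1) * r ^ k := by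
        rw [e2]; ring
      rw [h6, h7, ← e3]
      linarith
  rw [h1]
  calc ‖∑ k ∈ range n, ((k : ℂ) + 1) * (a (k + 1) : ℂ) * (z ^ k - w ^ k)‖
      ≤ ∑ k ∈ range n, ‖((k : ℂ) + 1) * (a (k + 1) : ℂ) * (z ^ k - w ^ k)‖ := norm_sum_le _ _
    _ ≤ ∑ k ∈ range n, δ * g2 r (k + 1) := by
        apply sum_le_sum
        intro k _
        rw [norm_mul, norm_mul, norm_succ_cast]
        calc ((k : ℝ) + 1) * ‖(a (k + 1) : ℂ)‖ * ‖z ^ k - w ^ k‖
            ≤ ((k : ℝ) + 1) * 1 * (δ * g1 r k) := by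
              gcongr
              · exact abs_int_le_one (ha _)
              · exact pow_sub_pow_le hz hw hd k
          _ = δ * (((k : ℝ) + 1) * g1 r k) := by ring
          _ ≤ δ * g2 r (k + 1) := by
              gcongr
              exact hg k
    _ = δ * ∑ k ∈ range n, g2 r (k + 1) := by rw [mul_sum]
    _ ≤ δ * (2 / (1 - r) ^ 3) := by
        gcongr
        have h2 := sum_g2_le hr hr1 (n + 1)
        rw [sum_range_succ'] at h2
        simpa [g2] using h2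

end Pool.Agent.LinPair
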