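import Pool.Agent.Helper284.LPAttr

/-!
Moving a zero by changing one coefficient, first order optimality at a non-real zero of minimal
modulus, transfer of numerical sign conditions.
(Lemmas by helper469, helper193 and others through the job board.)
-/

set_option autoImplicit false

namespace Pool.Agent.LinPair


theorem pow_diff (x y : ℂ) (t : ℝ) (hx : ‖x‖ ≤ t) (hy : ‖y‖ ≤ t) (n : ℕ) :
    ‖x ^ (n + 1) - y ^ (n + 1)‖ ≤ (n + 1) * t ^ n * ‖x - y‖ := by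
  have ht : 0 ≤ t := (norm_nonneg _).trans hx
  induction n with
  | zero => simp
  | succ n ih =>
    have e1 : x ^ (n + 1 + 1) - y ^ (n + 1 + 1) = x * (x ^ (n + 1) - y ^ (n + 1))
        + y ^ (n + 1) * (x - y) := by ring
    rw [e1]
    have e2 : ‖x * (x ^ (n + 1) - y ^ (n + 1))‖ ≤ t * ((n + 1) * t ^ n * ‖x - y‖) := by
      rw [norm_mul]; exact mul_le_mul hx ih (norm_nonneg _) ht
    have e3 : ‖y ^ (n + 1) * (x - y)‖ ≤ t ^ (n + 1) * ‖x - y‖ := by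
      rw [norm_mul, norm_pow]
      exact mul_le_mul_of_nonneg_right (pow_le_pow_left₀ (norm_nonneg _) hy _) (norm_nonneg _)
    calc _ ≤ _ := norm_add_le _ _
      _ ≤ t * ((n + 1) * t ^ n * ‖x - y‖) + t ^ (n + 1) * ‖x - y‖ := add_le_add e2 e3
      _ = _ := by push_cast; ring

theorem err_bound (z z' q : ℂ) (t R : ℝ) (hz : ‖z‖ ≤ t) (hz' : ‖z'‖ ≤ t) (hq : ‖q‖ ≤ t)
    (hzR : ‖z - q‖ ≤ R) (hzR' : ‖z' - q‖ ≤ R) (n : ℕ) :
    t * ‖z ^ (n + 1) - z' ^ (n + 1) - (n + 1) * q ^ n * (z - z')‖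
      ≤ R * ((n + 1) * n) * t ^ n * ‖z - z'‖ := by
  have ht : 0 ≤ t := (norm_nonneg _).trans hz
  have hR : 0 ≤ R := (norm_nonneg _).trans hzR
  induction n with
  | zero => simp
  | succ n ih =>
    have e1 : z ^ (n + 1 + 1) - z' ^ (n + 1 + 1) - ((n + 1 : ℕ) + 1) * q ^ (n + 1) * (z - z') =
        z * (z ^ (n + 1) - z' ^ (n + 1) - (n + 1) * q ^ n * (z - z'))
        + ((z - q) * ((n + 1) * q ^ n) * (z - z') + (z' ^ (n + 1) - q ^ (n + 1)) * (z - z')) := by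
      push_cast; ring
    rw [e1]
    have e2 : ‖z * (z ^ (n + 1) - z' ^ (n + 1) - (n + 1) * q ^ n * (z - z'))‖ ≤
        t * ‖z ^ (n + 1) - z' ^ (n + 1) - (n + 1) * q ^ n * (z - z')‖ := by
      rw [norm_mul]; exact mul_le_mul_of_nonneg_right hz (norm_nonneg _)
    have e3 : ‖(z - q) * ((n + 1) * q ^ n) * (z - z')‖ ≤ R * ((n + 1) * t ^ n) * ‖z - z'‖ := by
      rw [norm_mul, norm_mul, norm_mul, norm_pow]
      have h1 : ‖((n:ℂ) + 1)‖ = (n:ℝ) + 1 := by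
        have : ((n:ℂ) + 1) = ((n + 1 : ℕ) : ℂ) := by push_cast; ring
        rw [this, Complex.norm_natCast]; push_cast; ring
      rw [h1]
      have h2 : ‖q‖ ^ n ≤ t ^ n := pow_le_pow_left₀ (norm_nonneg _) hq _
      gcongr
    have e4 : ‖(z' ^ (n + 1) - q ^ (n + 1)) * (z - z')‖ ≤ (n + 1) * t ^ n * R * ‖z - z'‖ := by
      rw [norm_mul]
      refine mul_le_mul_of_nonneg_right ?_ (norm_nonneg _)
      refine (pow_diff z' q t hz' hq n).trans ?_
      exact mul_le_mul_of_nonneg_left hzR' (by positivity)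
    have e5 : t * ‖z * (z ^ (n + 1) - z' ^ (n + 1) - (n + 1) * q ^ n * (z - z'))
        + ((z - q) * ((n + 1) * q ^ n) * (z - z') + (z' ^ (n + 1) - q ^ (n + 1)) * (z - z'))‖ ≤
        t * (t * ‖z ^ (n + 1) - z' ^ (n + 1) - (n + 1) * q ^ n * (z - z')‖
          + (R * ((n + 1) * t ^ n) * ‖z - z'‖ + (n + 1) * t ^ n * R * ‖z - z'‖)) := by
      refine mul_le_mul_of_nonneg_left ?_ ht
      exact (norm_add_le _ _).trans (add_le_add e2 ((norm_add_le _ _).trans (add_le_add e3 e4)))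
    refine e5.trans ?_
    have e6 : t * (t * ‖z ^ (n + 1) - z' ^ (n + 1) - (n + 1) * q ^ n * (z - z')‖) ≤
      t * (R * ((n + 1) * n) * t ^ n * ‖z - z'‖) := mul_le_mul_of_nonneg_left ih ht
    calc _ = t * (t * ‖z ^ (n + 1) - z' ^ (n + 1) - (n + 1) * q ^ n * (z - z')‖)
          + t * (R * ((n + 1) * t ^ n) * ‖z - z'‖ + (n + 1) * t ^ n * R * ‖z - z'‖) := by ring
      _ ≤ t * (R * ((n + 1) * n) * t ^ n * ‖z - z'‖)
          + t * (R * ((n + 1) * t ^ n) * ‖z - z'‖ + (n + 1) * t ^ n * R * ‖z - z'‖) :=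
          add_le_add e6 le_rfl
      _ = _ := by push_cast; ring

/-- numerical facts -/
theorem num_facts (s : ℝ) (h1 : 1 / 2 ≤ s) (h2 : s ≤ 16 / 25) (m : ℕ) (hm : 12 ≤ m) :
    s ^ m ≤ 48 / 10000 ∧ (m:ℝ) * (s + s ^ m) ^ (m - 1) ≤ 97 / 1000 ∧
    (s + s ^ m) ^ (m - 1) ≤ 12 / 5 * s ^ m := by
  have hs0 : 0 < s := by linarith
  have hR : s ^ m ≤ 48 / 10000 := by
    calc s ^ m ≤ s ^ 12 := pow_le_pow_of_le_one hs0.le (by linarith) hm
      _ ≤ (16 / 25) ^ 12 := pow_le_pow_left₀ hs0.le h2 12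
      _ ≤ 48 / 10000 := by norm_num
  have ht : s + s ^ m ≤ 6448 / 10000 := by linarith
  have ht0 : 0 < s + s ^ m := by positivity
  obtain ⟨n, rfl⟩ : ∃ n, m = n + 12 := ⟨m - 12, by omega⟩
  refine ⟨hR, ?_, ?_⟩
  · have h3 : ∀ n : ℕ, ((n + 12 : ℕ) : ℝ) * (6448 / 10000 : ℝ) ^ (n + 11) ≤ 97 / 1000 := by
      intro n
      induction n with
      | zero => norm_num
      | succ n ih =>
        have h4 : (0:ℝ) ≤ n := Nat.cast_nonneg n
        have h5 : ((n + 1 + 12 : ℕ) : ℝ) * (6448 / 10000) ≤ ((n + 12 : ℕ) : ℝ) := by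
          push_cast; linarith
        calc ((n + 1 + 12 : ℕ) : ℝ) * (6448 / 10000 : ℝ) ^ (n + 1 + 11)
            = (((n + 1 + 12 : ℕ) : ℝ) * (6448 / 10000)) * (6448 / 10000 : ℝ) ^ (n + 11) := by ring
          _ ≤ ((n + 12 : ℕ) : ℝ) * (6448 / 10000 : ℝ) ^ (n + 11) :=
              mul_le_mul_of_nonneg_right h5 (by positivity)
          _ ≤ _ := ih
    have h4 : n + 12 - 1 = n + 11 := by omega
    rw [h4]
    refine le_trans ?_ (h3 n)
    refine mul_le_mul_of_nonneg_left ?_ (Nat.cast_nonneg _)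
    exact pow_le_pow_left₀ ht0.le ht _
  · have h4 : n + 12 - 1 = n + 11 := by omega
    rw [h4]
    -- t^(m-1) = s^(m-1) (1+s^(m-1))^(m-1)
    have h5 : s + s ^ (n + 12) = s * (1 + s ^ (n + 11)) := by ring
    rw [h5, mul_pow]
    have h6 : ∀ n : ℕ, ((n + 11 : ℕ) : ℝ) * (16 / 25 : ℝ) ^ (n + 11) ≤ 9 / 100 := by
      intro n
      induction n with
      | zero => norm_num
      | succ n ih =>
        have h4 : (0:ℝ) ≤ n := Nat.cast_nonneg n
        have h5 : ((n + 1 + 11 : ℕ) : ℝ) * (16 / 25) ≤ ((n + 11 : ℕ) : ℝ) := by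
          push_cast; linarith
        calc ((n + 1 + 11 : ℕ) : ℝ) * (16 / 25 : ℝ) ^ (n + 1 + 11)
            = (((n + 1 + 11 : ℕ) : ℝ) * (16 / 25)) * (16 / 25 : ℝ) ^ (n + 11) := by ring
          _ ≤ ((n + 11 : ℕ) : ℝ) * (16 / 25 : ℝ) ^ (n + 11) :=
              mul_le_mul_of_nonneg_right h5 (by positivity)
          _ ≤ _ := ih
    have h7 : (1 + s ^ (n + 11)) ^ (n + 11) ≤ 6 / 5 := by
      have h8 : 1 + s ^ (n + 11) ≤ Real.exp (s ^ (n + 11)) := by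
        rw [add_comm]; exact Real.add_one_le_exp _
      have h9 : (1 + s ^ (n + 11)) ^ (n + 11) ≤ Real.exp (((n + 11 : ℕ) : ℝ) * s ^ (n + 11)) := by
        rw [Real.exp_nat_mul]
        exact pow_le_pow_left₀ (by positivity) h8 _
      have h10 : ((n + 11 : ℕ) : ℝ) * s ^ (n + 11) ≤ 9 / 100 := by
        refine le_trans ?_ (h6 n)
        exact mul_le_mul_of_nonneg_left (pow_le_pow_left₀ hs0.le h2 _) (Nat.cast_nonneg _)
      have h11 : Real.exp (9 / 100) ≤ 6 / 5 := by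
        have := Real.exp_bound' (x := 9 / 100) (by norm_num) (by norm_num) (n := 2) (by norm_num)
        refine this.trans ?_
        norm_num [Finset.sum_range_succ, Nat.factorial]
      exact h9.trans ((Real.exp_le_exp.mpr h10).trans h11)
    have h8 : s ^ (n + 11) ≤ 2 * s ^ (n + 12) := by
      have : s ^ (n + 12) = s ^ (n + 11) * s := by ring
      rw [this]
      have h9 : 0 < s ^ (n + 11) := by positivity
      nlinarith
    calc s ^ (n + 11) * (1 + s ^ (n + 11)) ^ (n + 11) ≤ s ^ (n + 11) * (6 / 5) :=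
          mul_le_mul_of_nonneg_left h7 (by positivity)
      _ ≤ 12 / 5 * s ^ (n + 12) := by linarith

theorem summable_a (a : ℕ → ℤ) (ha : ∀ k, a k = -1 ∨ a k = 0 ∨ a k = 1) (z : ℂ) (hz : ‖z‖ < 1) :
    Summable (fun k => (a k : ℂ) * z ^ k) := by
  refine Summable.of_norm_bounded (summable_geometric_of_lt_one (norm_nonneg z) hz) ?_
  intro k
  rw [norm_mul, norm_pow]
  have : ‖(a k : ℂ)‖ ≤ 1 := by rcases ha k with h | h | h <;> simp [h]
  have h2 : 0 ≤ ‖z‖ ^ k := by positivity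
  nlinarith

theorem summable_da (a : ℕ → ℤ) (ha : ∀ k, a k = -1 ∨ a k = 0 ∨ a k = 1) (q : ℂ) (hq : ‖q‖ < 1) :
    Summable (fun k : ℕ => ((k : ℂ) + 1) * (a (k + 1) : ℂ) * q ^ k) := by
  have h1 : Summable (fun k : ℕ => (((k + 1).choose 1 : ℕ) : ℝ) * ‖q‖ ^ k) :=
    summable_choose_mul_geometric_of_norm_lt_one 1 (by simpa using hq)
  refine Summable.of_norm_bounded h1 ?_
  intro k
  rw [norm_mul, norm_mul, norm_pow]
  have h2 : ‖(a (k + 1) : ℂ)‖ ≤ 1 := by rcases ha (k + 1) with h | h | h <;> simp [h]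
  have h3 : ‖((k:ℂ) + 1)‖ = (k:ℝ) + 1 := by
    have : ((k:ℂ) + 1) = ((k + 1 : ℕ) : ℂ) := by push_cast; ring
    rw [this, Complex.norm_natCast]; push_cast; ring
  rw [h3, Nat.choose_one_right]
  have h4 : 0 ≤ ‖q‖ ^ k := by positivity
  have h5 : (0:ℝ) ≤ (k:ℝ) + 1 := by positivity
  push_cast
  calc ((k:ℝ) + 1) * ‖(a (k + 1) : ℂ)‖ * ‖q‖ ^ k ≤ ((k:ℝ) + 1) * 1 * ‖q‖ ^ k := by gcongr
    _ = _ := by ring

theorem f_diff (a : ℕ → ℤ) (ha : ∀ k, a k = -1 ∨ a k = 0 ∨ a k = 1) (z z' q : ℂ) (t R : ℝ)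
    (ht0 : 0 < t) (ht1 : t ≤ 645 / 1000)
    (hz : ‖z‖ ≤ t) (hz' : ‖z'‖ ≤ t) (hq : ‖q‖ ≤ t) (hzR : ‖z - q‖ ≤ R) (hzR' : ‖z' - q‖ ≤ R) :
    ‖(∑' k, (a k : ℂ) * z ^ k) - (∑' k, (a k : ℂ) * z' ^ k)
      - (∑' k : ℕ, ((k : ℂ) + 1) * (a (k + 1) : ℂ) * q ^ k) * (z - z')‖ ≤ 45 * R * ‖z - z'‖ := by
  have hR : 0 ≤ R := (norm_nonneg _).trans hzR
  have s1 := summable_a a ha z (by linarith)
  have s2 := summable_a a ha z' (by linarith)
  have s3 := (summable_da a ha q (by linarith)).mul_right (z - z')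
  have s1' := (summable_nat_add_iff 1).mpr s1
  have s2' := (summable_nat_add_iff 1).mpr s2
  have e1 : (∑' k, (a k : ℂ) * z ^ k) = (a 0 : ℂ) + ∑' k, (a (k + 1) : ℂ) * z ^ (k + 1) := by
    rw [s1.tsum_eq_zero_add]; simp
  have e2 : (∑' k, (a k : ℂ) * z' ^ k) = (a 0 : ℂ) + ∑' k, (a (k + 1) : ℂ) * z' ^ (k + 1) := by
    rw [s2.tsum_eq_zero_add]; simp
  have e3 : (∑' k, (a k : ℂ) * z ^ k) - (∑' k, (a k : ℂ) * z' ^ k)
      - (∑' k : ℕ, ((k : ℂ) + 1) * (a (k + 1) : ℂ) * q ^ k) * (z - z') =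
      ∑' k : ℕ, (a (k + 1) : ℂ) * (z ^ (k + 1) - z' ^ (k + 1) - (k + 1) * q ^ k * (z - z')) := by
    rw [e1, e2, ← tsum_mul_right, add_sub_add_left_eq_sub, ← s1'.tsum_sub s2',
      ← (s1'.sub s2').tsum_sub s3]
    apply tsum_congr
    intro k; ring
  rw [e3]
  -- bound
  have hg : HasSum (fun n : ℕ => (((n + 2).choose 2 : ℕ) : ℝ) * t ^ n) (1 / (1 - t) ^ (2 + 1)) :=
    hasSum_choose_mul_geometric_of_norm_lt_one 2 (by
      rw [Real.norm_of_nonneg ht0.le]; linarith)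
  have hg2 : HasSum (fun n : ℕ => (R * ‖z - z'‖) * (2 * ((((n + 2).choose 2 : ℕ) : ℝ) * t ^ n)))
      ((R * ‖z - z'‖) * (2 * (1 / (1 - t) ^ (2 + 1)))) := (hg.mul_left 2).mul_left _
  have hb : ∀ k : ℕ, ‖(a (k + 1) : ℂ) * (z ^ (k + 1) - z' ^ (k + 1) - (k + 1) * q ^ k * (z - z'))‖
      ≤ R * (k + 1) * k * t ^ k * ‖z - z'‖ / t := by
    intro k
    have h2 : ‖(a (k + 1) : ℂ)‖ ≤ 1 := by rcases ha (k + 1) with h | h | h <;> simp [h]
    have h3 := err_bound z z' q t R hz hz' hq hzR hzR' k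
    rw [norm_mul, le_div_iff₀ ht0]
    calc ‖(a (k + 1) : ℂ)‖ * ‖z ^ (k + 1) - z' ^ (k + 1) - (k + 1) * q ^ k * (z - z')‖ * t
        ≤ 1 * ‖z ^ (k + 1) - z' ^ (k + 1) - (k + 1) * q ^ k * (z - z')‖ * t := by gcongr
      _ = t * ‖z ^ (k + 1) - z' ^ (k + 1) - (k + 1) * q ^ k * (z - z')‖ := by ring
      _ ≤ _ := h3
      _ = _ := by ring
  have hsum : HasSum (fun k : ℕ => R * (k + 1) * k * t ^ k * ‖z - z'‖ / t)
      ((R * ‖z - z'‖) * (2 * (1 / (1 - t) ^ (2 + 1)))) := by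
    rw [← hasSum_nat_add_iff' 1]
    simp only [Finset.range_one, Finset.sum_singleton, Nat.cast_zero, mul_zero, zero_mul,
      zero_div, sub_zero]
    refine hg2.congr_fun ?_ |> fun h => h
    intro n
    have h5 : (((n + 2).choose 2 : ℕ) : ℝ) = ((n:ℝ) + 2) * (n + 1) / 2 := by
      rw [Nat.cast_choose_two]; push_cast; ring
    rw [h5]
    push_cast
    field_simp
    ring
  have hfin : (R * ‖z - z'‖) * (2 * (1 / (1 - t) ^ (2 + 1))) ≤ 45 * R * ‖z - z'‖ := by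
    have h6 : 2 * (1 / (1 - t) ^ (2 + 1)) ≤ 45 := by
      have h7 : (355 / 1000 : ℝ) ^ 3 ≤ (1 - t) ^ 3 := pow_le_pow_left₀ (by norm_num) (by linarith) 3
      rw [mul_one_div, div_le_iff₀ (by positivity)]
      norm_num at h7 ⊢
      linarith
    have h8 : 0 ≤ R * ‖z - z'‖ := by positivity
    nlinarith
  exact (tsum_of_norm_bounded hsum hb).trans hfin

/-- moving a simple zero of a power series with coefficients in `{-1,0,1}` when one coefficient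
of large index `m` is changed by `b` -/
theorem perturb (a : ℕ → ℤ) (ha : ∀ k, a k = -1 ∨ a k = 0 ∨ a k = 1) (q : ℂ)
    (h1 : 1 / 2 ≤ ‖q‖) (h2 : ‖q‖ ≤ 16 / 25) (h0 : ∑' k, (a k : ℂ) * q ^ k = 0)
    (hD : 4 ≤ ‖∑' k : ℕ, ((k : ℂ) + 1) * (a (k + 1) : ℂ) * q ^ k‖)
    (m : ℕ) (hm : 12 ≤ m) (b : ℤ) (hb : |b| ≤ 2) :
    ∃ w : ℂ, ‖w - q‖ ≤ ‖q‖ ^ m ∧ ∑' k, (a k : ℂ) * w ^ k + (b : ℂ) * w ^ m = 0 ∧
      ‖w - q + (b : ℂ) * q ^ m / (∑' k : ℕ, ((k : ℂ) + 1) * (a (k + 1) : ℂ) * q ^ k)‖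
        ≤ 4 * m * ‖q‖ ^ (2 * m) := by
  set D : ℂ := ∑' k : ℕ, ((k : ℂ) + 1) * (a (k + 1) : ℂ) * q ^ k with hDdef
  set s : ℝ := ‖q‖ with hs
  obtain ⟨n1, n2, n3⟩ := num_facts s h1 h2 m hm
  set R : ℝ := s ^ m with hR
  have hs0 : 0 < s := by linarith
  have hR0 : 0 < R := by positivity
  set t : ℝ := s + R with ht
  have ht0 : 0 < t := by positivity
  have ht1 : t ≤ 645 / 1000 := by rw [ht]; linarith
  have hm0 : (12:ℝ) ≤ m := by exact_mod_cast hm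
  have hbC : ‖(b : ℂ)‖ ≤ 2 := by
    rw [Complex.norm_intCast]; exact_mod_cast hb
  have hDpos : 0 < ‖D‖ := by linarith
  have hD0 : D ≠ 0 := norm_pos_iff.mp hDpos
  set L : ℝ := (45 * R + 2 * (m * t ^ (m - 1))) / 4 with hL
  have hL1 : L ≤ 1 / 5 := by rw [hL]; linarith
  have hL0 : 0 ≤ L := by rw [hL]; positivity
  have hL2 : L ≤ 4 * m * R := by
    rw [hL]
    have h5 : (m:ℝ) * t ^ (m - 1) ≤ m * (12 / 5 * R) :=
      mul_le_mul_of_nonneg_left n3 (by positivity)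
    nlinarith
  let f : ℂ → ℂ := fun z => ∑' k, (a k : ℂ) * z ^ k
  let T : ℂ → ℂ := fun z => z - (f z + (b : ℂ) * z ^ m) / D
  have hball : ∀ z : ℂ, ‖z - q‖ ≤ R → ‖z‖ ≤ t := by
    intro z hz
    have : z = q + (z - q) := by ring
    rw [this]
    exact (norm_add_le _ _).trans (by rw [ht]; linarith)
  have hqt : ‖q‖ ≤ t := by rw [ht]; linarith
  have hcontr : ∀ z z' : ℂ, ‖z - q‖ ≤ R → ‖z' - q‖ ≤ R → ‖T z - T z'‖ ≤ L * ‖z - z'‖ := by
    intro z z' hz hz'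
    have e1 : T z - T z' = -((f z - f z' - D * (z - z')) + (b : ℂ) * (z ^ m - z' ^ m)) / D := by
      simp only [T]
      field_simp
      ring
    have e2 := f_diff a ha z z' q t R ht0 ht1 (hball z hz) (hball z' hz') hqt hz hz'
    have e3 : ‖z ^ m - z' ^ m‖ ≤ m * t ^ (m - 1) * ‖z - z'‖ := by
      obtain ⟨n, rfl⟩ : ∃ n, m = n + 1 := ⟨m - 1, by omega⟩
      have := pow_diff z z' t (hball z hz) (hball z' hz') n
      simpa using this
    rw [e1, norm_div, norm_neg, div_le_iff₀ hDpos]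
    calc _ ≤ ‖f z - f z' - D * (z - z')‖ + ‖(b : ℂ) * (z ^ m - z' ^ m)‖ := norm_add_le _ _
      _ ≤ 45 * R * ‖z - z'‖ + 2 * (m * t ^ (m - 1) * ‖z - z'‖) := by
          refine add_le_add e2 ?_
          rw [norm_mul]
          exact mul_le_mul hbC e3 (norm_nonneg _) (by norm_num)
      _ = L * ‖z - z'‖ * 4 := by rw [hL]; ring
      _ ≤ L * ‖z - z'‖ * ‖D‖ := mul_le_mul_of_nonneg_left hD (by positivity)
  have hTq : T q - q = -((b : ℂ) * q ^ m / D) := by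
    simp only [T, f, h0]; ring
  have hTqn : ‖T q - q‖ ≤ R / 2 := by
    rw [hTq, norm_neg, norm_div, norm_mul, norm_pow, div_le_iff₀ hDpos]
    calc ‖(b:ℂ)‖ * ‖q‖ ^ m ≤ 2 * R := by
          rw [hR, hs]; exact mul_le_mul_of_nonneg_right hbC (by positivity)
      _ = R / 2 * 4 := by ring
      _ ≤ R / 2 * ‖D‖ := mul_le_mul_of_nonneg_left hD (by positivity)
  have hq0 : ‖q - q‖ ≤ R := by simp [hR0.le]
  have hmaps : Set.MapsTo T (Metric.closedBall q R) (Metric.closedBall q R) := by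
    intro z hz
    rw [Metric.mem_closedBall, dist_eq_norm] at hz ⊢
    have e1 := hcontr z q hz hq0
    have e2 : T z - q = (T z - T q) + (T q - q) := by ring
    rw [e2]
    refine (norm_add_le _ _).trans ?_
    have e3 : L * ‖z - q‖ ≤ 1 / 5 * R := mul_le_mul hL1 hz (norm_nonneg _) (by norm_num)
    linarith
  have hcw : ContractingWith (1 / 5 : NNReal) (hmaps.restrict T _ _) := by
    constructor
    · rw [← NNReal.coe_lt_coe]; push_cast; norm_num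
    · apply LipschitzWith.of_dist_le_mul
      rintro ⟨x, hx⟩ ⟨y, hy⟩
      rw [Metric.mem_closedBall, dist_eq_norm] at hx hy
      rw [Subtype.dist_eq, Subtype.dist_eq]
      simp only [Set.MapsTo.val_restrict_apply]
      rw [dist_eq_norm, dist_eq_norm]
      refine (hcontr x y hx hy).trans ?_
      push_cast
      exact mul_le_mul_of_nonneg_right hL1 (norm_nonneg _)
  obtain ⟨w, hw, hfix, -⟩ := hcw.exists_fixedPoint' (Metric.isClosed_closedBall.isComplete) hmaps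
    (x := q) (by rw [Metric.mem_closedBall, dist_self]; exact hR0.le) (edist_ne_top _ _)
  rw [Metric.mem_closedBall, dist_eq_norm] at hw
  have hTw : T w = w := hfix
  have hgw : f w + (b : ℂ) * w ^ m = 0 := by
    have : (f w + (b : ℂ) * w ^ m) / D = 0 := by
      have h3 : w - (f w + (b : ℂ) * w ^ m) / D = w := hTw
      linear_combination -h3
    rcases div_eq_zero_iff.mp this with h | h
    · exact h
    · exact absurd h hD0
  refine ⟨w, hw, hgw, ?_⟩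
  have e1 : w - q + (b : ℂ) * q ^ m / D = T w - T q := by
    have : T q = q - (b : ℂ) * q ^ m / D := by linear_combination hTq
    rw [hTw, this]; ring
  rw [e1]
  calc ‖T w - T q‖ ≤ L * ‖w - q‖ := hcontr w q hw hq0
    _ ≤ (4 * m * R) * R := mul_le_mul hL2 hw (norm_nonneg _) (by positivity)
    _ = 4 * m * s ^ (2 * m) := by rw [hR]; ring



lemma ser_summable {a : ℕ → ℤ} (ha : ∀ k, a k = -1 ∨ a k = 0 ∨ a k = 1) {w : ℂ} (hw : ‖w‖ < 1) :
    Summable fun k => (a k : ℂ) * w ^ k := by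
  refine Summable.of_norm_bounded (g := fun k => ‖w‖ ^ k)
    (summable_geometric_of_lt_one (norm_nonneg _) hw) fun k => ?_
  rw [norm_mul, norm_pow]
  have : ‖(a k : ℂ)‖ ≤ 1 := by
    rcases ha k with h | h | h <;> rw [h] <;> simp
  calc ‖(a k : ℂ)‖ * ‖w‖ ^ k ≤ 1 * ‖w‖ ^ k := mul_le_mul_of_nonneg_right this (by positivity)
    _ = _ := one_mul _

/-- first order optimality: the coefficients at a non-real zero of minimal modulus -/
theorem sign_rule (q : ℂ)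
    (hmin : ∀ w : ℂ, w.im ≠ 0 → ‖w‖ < 1 → Ser w → ‖q‖ ≤ ‖w‖)
    (h1 : 1 / 2 ≤ ‖q‖) (h2 : ‖q‖ ≤ 16 / 25) (him : 1 / 2 ≤ q.im)
    (a : ℕ → ℤ) (ha : ∀ k, a k = -1 ∨ a k = 0 ∨ a k = 1) (ha0 : a 0 = 1)
    (h0 : ∑' k, (a k : ℂ) * q ^ k = 0) (D : ℂ) (hD : 4 ≤ ‖D‖)
    (m : ℕ) (hm : 12 ≤ m)
    (hp : ∀ b : ℤ, |b| ≤ 2 → ∃ w : ℂ, ‖w - q‖ ≤ ‖q‖ ^ m ∧
      ∑' k, (a k : ℂ) * w ^ k + (b : ℂ) * w ^ m = 0 ∧
      ‖w - q + (b : ℂ) * q ^ m / D‖ ≤ 4 * m * ‖q‖ ^ (2 * m)) :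
    (3 * m * ‖q‖ ^ (2 * m) < ((starRingEnd ℂ) q * q ^ m / D).re → a m = 1) ∧
    (((starRingEnd ℂ) q * q ^ m / D).re < -(3 * m * ‖q‖ ^ (2 * m)) → a m = -1) := by
  set s := ‖q‖ with hs
  set c := ((starRingEnd ℂ) q * q ^ m / D).re with hc
  have hs0 : 0 ≤ s := norm_nonneg _
  have hsm : s ^ m ≤ 1 / 100 := by
    calc s ^ m ≤ (16 / 25) ^ m := pow_le_pow_left₀ hs0 h2 m
      _ ≤ (16 / 25) ^ 12 := pow_le_pow_of_le_one (by norm_num) (by norm_num) hm
      _ ≤ 1 / 100 := by norm_num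
  have hm' : (12 : ℝ) ≤ m := by exact_mod_cast hm
  have key : ∀ b : ℤ, |b| ≤ 2 → (a m + b = -1 ∨ a m + b = 0 ∨ a m + b = 1) →
      (b : ℝ) * c ≤ 3 * m * s ^ (2 * m) := by
    intro b hb hab
    obtain ⟨w, hw1, hw2, hw3⟩ := hp b hb
    have hwn : ‖w‖ < 1 := by
      have : ‖w‖ ≤ ‖q‖ + ‖w - q‖ := by
        calc ‖w‖ = ‖q + (w - q)‖ := by ring_nf
          _ ≤ _ := norm_add_le _ _
      linarith
    have hwim : w.im ≠ 0 := by
      have h3 : |(w - q).im| ≤ ‖w - q‖ := Complex.abs_im_le_norm _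
      rw [Complex.sub_im] at h3
      have h4 := neg_le_of_abs_le h3
      have : 0 < w.im := by linarith
      exact this.ne'
    have hSer : Ser w := by
      refine ⟨Function.update a m (a m + b), ?_, ?_, ?_⟩
      · intro k
        by_cases hk : k = m
        · subst hk; simpa using hab
        · rw [Function.update_of_ne hk]; exact ha k
      · rw [Function.update_of_ne (by omega)]; exact ha0
      · have hsum := (ser_summable ha hwn).hasSum
        have hd : HasSum (fun k => if k = m then (b : ℂ) * w ^ m else 0) ((b : ℂ) * w ^ m) :=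
          hasSum_ite_eq m _
        have h5 := hsum.add hd
        rw [hw2] at h5
        rw [← h5.tsum_eq]
        congr 1
        funext k
        by_cases hk : k = m
        · subst hk
          simp only [Function.update_self, if_true]
          push_cast; ring
        · rw [Function.update_of_ne hk, if_neg hk, add_zero]
    have hle := hmin w hwim hwn hSer
    have hsq : s ^ 2 ≤ ‖w‖ ^ 2 := pow_le_pow_left₀ hs0 hle 2
    have hexp : ‖w‖ ^ 2 = s ^ 2 + 2 * ((starRingEnd ℂ) q * (w - q)).re + ‖w - q‖ ^ 2 := by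
      rw [hs, ← Complex.normSq_eq_norm_sq, ← Complex.normSq_eq_norm_sq, ← Complex.normSq_eq_norm_sq,
        Complex.normSq_apply, Complex.normSq_apply, Complex.normSq_apply]
      simp only [Complex.mul_re, Complex.conj_re, Complex.conj_im, Complex.sub_re, Complex.sub_im]
      ring
    have hw1' : ‖w - q‖ ^ 2 ≤ s ^ (2 * m) := by
      rw [mul_comm 2 m, pow_mul]
      exact pow_le_pow_left₀ (norm_nonneg _) hw1 2
    have h6 : -(s ^ (2 * m)) / 2 ≤ ((starRingEnd ℂ) q * (w - q)).re := by linarith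
    have h7 : ((starRingEnd ℂ) q * (w - q)).re = -((b : ℝ) * c) +
        ((starRingEnd ℂ) q * (w - q + (b : ℂ) * q ^ m / D)).re := by
      have e1 : (starRingEnd ℂ) q * (w - q + (b : ℂ) * q ^ m / D) =
          (starRingEnd ℂ) q * (w - q) + ((b : ℝ) : ℂ) * ((starRingEnd ℂ) q * q ^ m / D) := by
        push_cast; ring
      rw [e1, Complex.add_re, Complex.re_ofReal_mul, hc]
      ring
    have h8 : ((starRingEnd ℂ) q * (w - q + (b : ℂ) * q ^ m / D)).re ≤ s * (4 * m * s ^ (2 * m)) := by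
      refine (Complex.re_le_norm _).trans ?_
      rw [norm_mul, Complex.norm_conj]
      exact mul_le_mul_of_nonneg_left hw3 hs0
    have hp0 : 0 ≤ s ^ (2 * m) := by positivity
    have h9 : s * (4 * m * s ^ (2 * m)) ≤ 16 / 25 * (4 * m * s ^ (2 * m)) :=
      mul_le_mul_of_nonneg_right h2 (by positivity)
    have h10 : (b : ℝ) * c ≤ (16 / 25 * 4 * m + 1 / 2) * s ^ (2 * m) := by
      have : (16 / 25 * 4 * m + 1 / 2) * s ^ (2 * m) =
        16 / 25 * (4 * m * s ^ (2 * m)) + s ^ (2 * m) / 2 := by ring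
      rw [this]; linarith
    refine h10.trans ?_
    apply mul_le_mul_of_nonneg_right _ hp0
    linarith
  constructor
  · intro hlt
    by_contra hne
    have := key 1 (by norm_num) (by rcases ha m with h | h | h <;> [(right; left; omega); (right; right; omega); exact absurd h hne])
    push_cast at this
    linarith
  · intro hlt
    by_contra hne
    have := key (-1) (by norm_num) (by rcases ha m with h | h | h <;> [exact absurd h hne; (left; omega); (right; left; omega)])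
    push_cast at this
    linarith



lemma mul_sub_one_bound {a b : ℂ} {α β : ℝ} (ha : ‖a - 1‖ ≤ α) (hb : ‖b - 1‖ ≤ β) :
    ‖a * b - 1‖ ≤ (1 + α) * (1 + β) - 1 := by
  have hα : 0 ≤ α := (norm_nonneg _).trans ha
  have e : a * b - 1 = (a - 1) * (b - 1) + (a - 1) + (b - 1) := by ring
  rw [e]
  have h1 : ‖(a - 1) * (b - 1)‖ ≤ α * β := by
    rw [norm_mul]
    exact mul_le_mul ha hb (norm_nonneg _) hα
  calc ‖(a - 1) * (b - 1) + (a - 1) + (b - 1)‖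
      ≤ ‖(a - 1) * (b - 1)‖ + ‖a - 1‖ + ‖b - 1‖ := norm_add₃_le
    _ ≤ α * β + α + β := by linarith
    _ = (1 + α) * (1 + β) - 1 := by ring

lemma pow_sub_one_bound {a : ℂ} {x : ℝ} (ha : ‖a - 1‖ ≤ x) (n : ℕ) :
    ‖a ^ n - 1‖ ≤ (1 + x) ^ n - 1 := by
  induction n with
  | zero => simp
  | succ n ih =>
    have := mul_sub_one_bound ih ha
    rw [pow_succ, pow_succ]
    calc ‖a ^ n * a - 1‖ ≤ (1 + ((1 + x) ^ n - 1)) * (1 + x) - 1 := this
      _ = (1 + x) ^ n * (1 + x) - 1 := by ring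

/-- `(1+x)^n ≤ 1/(1-nx)` in product form -/
lemma pow_bound (x : ℝ) (hx0 : 0 ≤ x) (hx1 : x ≤ 1) (n : ℕ) :
    (1 + x) ^ n * (1 - n * x) ≤ 1 := by
  have h1 : 1 + (n : ℝ) * (-x) ≤ (1 + (-x)) ^ n := one_add_mul_le_pow (by linarith) n
  have h2 : (1 + x) ^ n * (1 + (-x)) ^ n ≤ 1 := by
    rw [← mul_pow]
    apply pow_le_one₀
    · nlinarith
    · nlinarith
  have h3 : 0 ≤ (1 + x) ^ n := by positivity
  calc (1 + x) ^ n * (1 - n * x) = (1 + x) ^ n * (1 + (n : ℝ) * (-x)) := by ring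
    _ ≤ (1 + x) ^ n * (1 + (-x)) ^ n := mul_le_mul_of_nonneg_left h1 h3
    _ ≤ 1 := h2

lemma r_bound (m : ℕ) (hm : 26 ≤ m) :
    (m : ℝ) * (63561 / 100000 : ℝ) ^ (m - 1) ≤ 3125 / 10000000 := by
  induction m, hm using Nat.le_induction with
  | base => norm_num
  | succ m hm ih =>
    have hm' : (26 : ℝ) ≤ m := by exact_mod_cast hm
    have e : m + 1 - 1 = (m - 1) + 1 := by omega
    rw [e, pow_succ]
    have h0 : 0 ≤ (63561 / 100000 : ℝ) ^ (m - 1) := by positivity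
    push_cast
    calc ((m : ℝ) + 1) * ((63561 / 100000 : ℝ) ^ (m - 1) * (63561 / 100000))
        = (((m : ℝ) + 1) * (63561 / 100000)) * (63561 / 100000 : ℝ) ^ (m - 1) := by ring
      _ ≤ m * (63561 / 100000 : ℝ) ^ (m - 1) := by
          apply mul_le_mul_of_nonneg_right _ h0
          linarith
      _ ≤ _ := ih

/-- numerical transfer of the sign condition from the centre `q0, D0` to nearby `q, D` -/
theorem sign_transfer (q q0 D D0 : ℂ) (m : ℕ) (μ : ℝ)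
    (hq0 : 3 / 5 ≤ ‖q0‖) (hq0' : ‖q0‖ ≤ 63561 / 100000) (hq : ‖q - q0‖ ≤ 3 / 2000000)
    (hD0 : 46 / 10 ≤ ‖D0‖) (hD0' : ‖D0‖ ≤ 468 / 100) (hD : ‖D - D0‖ ≤ 18 / 10000)
    (hm : (m = 25 ∧ μ = 1 / 100) ∨ (26 ≤ m ∧ m ≤ 300 ∧ μ = 6 / 1000)) :
    (μ * ‖(starRingEnd ℂ) q0 * q0 ^ m * (starRingEnd ℂ) D0‖ ≤
        ((starRingEnd ℂ) q0 * q0 ^ m * (starRingEnd ℂ) D0).re →
      3 * m * ‖q‖ ^ (2 * m) < ((starRingEnd ℂ) q * q ^ m / D).re) ∧
    (((starRingEnd ℂ) q0 * q0 ^ m * (starRingEnd ℂ) D0).re ≤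
        -(μ * ‖(starRingEnd ℂ) q0 * q0 ^ m * (starRingEnd ℂ) D0‖) →
      ((starRingEnd ℂ) q * q ^ m / D).re < -(3 * m * ‖q‖ ^ (2 * m))) := by
  have hq00 : q0 ≠ 0 := by
    intro h; rw [h, norm_zero] at hq0; norm_num at hq0
  have hD00 : D0 ≠ 0 := by
    intro h; rw [h, norm_zero] at hD0; norm_num at hD0
  have hq0p : 0 < ‖q0‖ := norm_pos_iff.2 hq00
  have hD0p : 0 < ‖D0‖ := norm_pos_iff.2 hD00
  have hm300 : m ≤ 300 := by rcases hm with h | h <;> omega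
  have hm25 : 25 ≤ m := by rcases hm with h | h <;> omega
  -- relative perturbations
  have hu : ‖q / q0 - 1‖ ≤ 1 / 400000 := by
    have e : q / q0 - 1 = (q - q0) / q0 := by field_simp
    rw [e, norm_div, div_le_iff₀ hq0p]
    linarith
  have hw : ‖D / D0 - 1‖ ≤ 4 / 10000 := by
    have e : D / D0 - 1 = (D - D0) / D0 := by field_simp
    rw [e, norm_div, div_le_iff₀ hD0p]
    linarith
  have hw1 : 1 - 4 / 10000 ≤ ‖D / D0‖ := by
    have h1 : ‖(1 : ℂ)‖ ≤ ‖D / D0‖ + ‖D / D0 - 1‖ := by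
      calc ‖(1 : ℂ)‖ = ‖D / D0 - (D / D0 - 1)‖ := by congr 1; ring
        _ ≤ ‖D / D0‖ + ‖D / D0 - 1‖ := norm_sub_le _ _
    rw [norm_one] at h1
    linarith
  have hwp : 0 < ‖D / D0‖ := by linarith
  have hDne : D ≠ 0 := by
    intro h; rw [h, zero_div, norm_zero] at hwp; exact lt_irrefl _ hwp
  -- powers
  have hP1 : (1 + 1 / 400000 : ℝ) ^ (m + 1) ≤ 1 + 754 / 1000000 := by
    have h1 : (1 + 1 / 400000 : ℝ) ^ (m + 1) ≤ (1 + 1 / 400000 : ℝ) ^ 301 :=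
      pow_le_pow_right₀ (by norm_num) (by omega)
    have h2 := pow_bound (1 / 400000) (by norm_num) (by norm_num) 301
    push_cast at h2
    have h3 : (1 + 1 / 400000 : ℝ) ^ 301 ≤ 1 + 754 / 1000000 := by
      by_contra hc
      push Not at hc
      have : (1 + 754 / 1000000 : ℝ) * (1 - 301 * (1 / 400000)) <
          (1 + 1 / 400000 : ℝ) ^ 301 * (1 - 301 * (1 / 400000)) :=
        mul_lt_mul_of_pos_right hc (by norm_num)
      have h4 := lt_of_lt_of_le this h2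
      norm_num at h4
    exact h1.trans h3
  have hP2 : (1 + 1 / 400000 : ℝ) ^ (2 * m) ≤ 1 + 1503 / 1000000 := by
    have h1 : (1 + 1 / 400000 : ℝ) ^ (2 * m) ≤ (1 + 1 / 400000 : ℝ) ^ 600 :=
      pow_le_pow_right₀ (by norm_num) (by omega)
    have h2 := pow_bound (1 / 400000) (by norm_num) (by norm_num) 600
    push_cast at h2
    have h3 : (1 + 1 / 400000 : ℝ) ^ 600 ≤ 1 + 1503 / 1000000 := by
      by_contra hc
      push Not at hc
      have : (1 + 1503 / 1000000 : ℝ) * (1 - 600 * (1 / 400000)) <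
          (1 + 1 / 400000 : ℝ) ^ 600 * (1 - 600 * (1 / 400000)) :=
        mul_lt_mul_of_pos_right hc (by norm_num)
      have h4 := lt_of_lt_of_le this h2
      norm_num at h4
    exact h1.trans h3
  -- the main quotient
  obtain ⟨T, hT⟩ : ∃ T, T = (starRingEnd ℂ) q * q ^ m / D := ⟨_, rfl⟩
  obtain ⟨T0, hT0⟩ : ∃ T0, T0 = (starRingEnd ℂ) q0 * q0 ^ m / D0 := ⟨_, rfl⟩
  obtain ⟨P, hP⟩ : ∃ P, P = (starRingEnd ℂ) (q / q0) * (q / q0) ^ m := ⟨_, rfl⟩
  have hcq0 : (starRingEnd ℂ) q0 ≠ 0 := by simpa using hq00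
  have hrel : T * (D / D0) = T0 * P := by
    rw [hT, hT0, hP, map_div₀, div_pow]
    field_simp
  have hPb : ‖P - 1‖ ≤ 754 / 1000000 := by
    have h1 : ‖(starRingEnd ℂ) (q / q0) - 1‖ ≤ 1 / 400000 := by
      have e : (starRingEnd ℂ) (q / q0) - 1 = (starRingEnd ℂ) (q / q0 - 1) := by simp
      rw [e, RCLike.norm_conj]; exact hu
    have h2 := pow_sub_one_bound hu m
    have h3 := mul_sub_one_bound h1 h2
    rw [hP]
    calc _ ≤ (1 + 1 / 400000 : ℝ) * (1 + ((1 + 1 / 400000) ^ m - 1)) - 1 := h3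
      _ = (1 + 1 / 400000 : ℝ) ^ (m + 1) - 1 := by rw [pow_succ]; ring
      _ ≤ _ := by linarith
  have hdiff : ‖T - T0‖ ≤ 12 / 10000 * ‖T0‖ := by
    have e : (T - T0) * (D / D0) = T0 * ((P - 1) - (D / D0 - 1)) := by
      linear_combination hrel
    have h1 : ‖T - T0‖ * ‖D / D0‖ = ‖T0‖ * ‖(P - 1) - (D / D0 - 1)‖ := by
      rw [← norm_mul, ← norm_mul, e]
    have h2 : ‖(P - 1) - (D / D0 - 1)‖ ≤ 754 / 1000000 + 4 / 10000 :=
      (norm_sub_le _ _).trans (add_le_add hPb hw)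
    have h3 : ‖T - T0‖ * (1 - 4 / 10000) ≤ ‖T0‖ * (754 / 1000000 + 4 / 10000) := by
      calc ‖T - T0‖ * (1 - 4 / 10000) ≤ ‖T - T0‖ * ‖D / D0‖ :=
            mul_le_mul_of_nonneg_left hw1 (norm_nonneg _)
        _ = ‖T0‖ * ‖(P - 1) - (D / D0 - 1)‖ := h1
        _ ≤ _ := mul_le_mul_of_nonneg_left h2 (norm_nonneg _)
    have h4 := norm_nonneg T0
    linarith
  have hre : |T.re - T0.re| ≤ 12 / 10000 * ‖T0‖ := by
    rw [← Complex.sub_re]
    exact (Complex.abs_re_le_norm _).trans hdiff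
  -- T0 and F
  have hF : (starRingEnd ℂ) q0 * q0 ^ m * (starRingEnd ℂ) D0 = T0 * ((‖D0‖ ^ 2 : ℝ) : ℂ) := by
    have h1 : ((‖D0‖ ^ 2 : ℝ) : ℂ) = D0 * (starRingEnd ℂ) D0 := by
      rw [Complex.mul_conj, Complex.normSq_eq_norm_sq]
    rw [hT0, h1]
    field_simp
  have hFn : ‖(starRingEnd ℂ) q0 * q0 ^ m * (starRingEnd ℂ) D0‖ = ‖T0‖ * ‖D0‖ ^ 2 := by
    rw [hF, norm_mul, Complex.norm_real, Real.norm_eq_abs, abs_of_nonneg (by positivity)]
  have hFr : ((starRingEnd ℂ) q0 * q0 ^ m * (starRingEnd ℂ) D0).re = T0.re * ‖D0‖ ^ 2 := by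
    rw [hF, Complex.re_mul_ofReal]
  have hD02 : 0 < ‖D0‖ ^ 2 := by positivity
  have hT0n : ‖T0‖ = ‖q0‖ ^ (m + 1) / ‖D0‖ := by
    rw [hT0, norm_div, norm_mul, RCLike.norm_conj, norm_pow]; ring
  have hT0p : 0 < ‖T0‖ := by rw [hT0n]; positivity
  -- the size estimate
  have hqn : ‖q‖ ≤ ‖q0‖ * (1 + 1 / 400000) := by
    have h1 : ‖q‖ ≤ ‖q0‖ + ‖q - q0‖ := by
      calc ‖q‖ = ‖q0 + (q - q0)‖ := by congr 1; ring
        _ ≤ _ := norm_add_le _ _
    linarith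
  have hq2m : ‖q‖ ^ (2 * m) ≤ ‖q0‖ ^ (2 * m) * (1 + 1503 / 1000000) := by
    calc ‖q‖ ^ (2 * m) ≤ (‖q0‖ * (1 + 1 / 400000)) ^ (2 * m) :=
          pow_le_pow_left₀ (norm_nonneg _) hqn _
      _ = ‖q0‖ ^ (2 * m) * (1 + 1 / 400000) ^ (2 * m) := mul_pow _ _ _
      _ ≤ _ := mul_le_mul_of_nonneg_left hP2 (by positivity)
  have hr : ‖q0‖ ^ (m - 1) ≤ (63561 / 100000 : ℝ) ^ (m - 1) :=
    pow_le_pow_left₀ (norm_nonneg _) hq0' _
  have hkey : 3 * (m : ℝ) * (1 + 1503 / 1000000) * (468 / 100) * ‖q0‖ ^ (m - 1) < μ - 12 / 10000 := by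
    have hm0 : (0 : ℝ) ≤ m := Nat.cast_nonneg _
    have hstep : 3 * (m : ℝ) * (1 + 1503 / 1000000) * (468 / 100) * ‖q0‖ ^ (m - 1) ≤
        3 * (1 + 1503 / 1000000) * (468 / 100) * ((m : ℝ) * (63561 / 100000 : ℝ) ^ (m - 1)) := by
      calc _ ≤ 3 * (m : ℝ) * (1 + 1503 / 1000000) * (468 / 100) * (63561 / 100000 : ℝ) ^ (m - 1) :=
            mul_le_mul_of_nonneg_left hr (by positivity)
        _ = _ := by ring
    rcases hm with ⟨rfl, rfl⟩ | ⟨h26, -, rfl⟩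
    · refine lt_of_le_of_lt hstep ?_
      norm_num
    · refine lt_of_le_of_lt hstep ?_
      have := r_bound m h26
      calc 3 * (1 + 1503 / 1000000) * (468 / 100) * ((m : ℝ) * (63561 / 100000 : ℝ) ^ (m - 1))
          ≤ 3 * (1 + 1503 / 1000000) * (468 / 100) * (3125 / 10000000) :=
            mul_le_mul_of_nonneg_left this (by norm_num)
        _ < _ := by norm_num
  have hsize : 3 * (m : ℝ) * ‖q‖ ^ (2 * m) < (μ - 12 / 10000) * ‖T0‖ := by
    have hm0 : (0 : ℝ) ≤ m := Nat.cast_nonneg _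
    calc 3 * (m : ℝ) * ‖q‖ ^ (2 * m) ≤ 3 * (m : ℝ) * (‖q0‖ ^ (2 * m) * (1 + 1503 / 1000000)) :=
          mul_le_mul_of_nonneg_left hq2m (by positivity)
      _ = (3 * (m : ℝ) * (1 + 1503 / 1000000) * ‖D0‖ * ‖q0‖ ^ (m - 1)) * (‖q0‖ ^ (m + 1) / ‖D0‖) := by
          have e : 2 * m = (m - 1) + (m + 1) := by omega
          rw [e, pow_add]
          field_simp
      _ ≤ (3 * (m : ℝ) * (1 + 1503 / 1000000) * (468 / 100) * ‖q0‖ ^ (m - 1)) *
            (‖q0‖ ^ (m + 1) / ‖D0‖) := by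
          apply mul_le_mul_of_nonneg_right _ (by positivity)
          apply mul_le_mul_of_nonneg_right _ (by positivity)
          exact mul_le_mul_of_nonneg_left hD0' (by positivity)
      _ < (μ - 12 / 10000) * (‖q0‖ ^ (m + 1) / ‖D0‖) :=
          mul_lt_mul_of_pos_right hkey (by positivity)
      _ = (μ - 12 / 10000) * ‖T0‖ := by rw [hT0n]
  rw [hFn, hFr, ← hT]
  have habs := abs_le.1 hre
  constructor
  · intro h
    have h1 : μ * ‖T0‖ ≤ T0.re := by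
      have h2 : (μ * ‖T0‖) * ‖D0‖ ^ 2 ≤ T0.re * ‖D0‖ ^ 2 := by rw [mul_assoc]; exact h
      exact le_of_mul_le_mul_right h2 hD02
    linarith [habs.1]
  · intro h
    have h1 : T0.re ≤ -(μ * ‖T0‖) := by
      have h2 : T0.re * ‖D0‖ ^ 2 ≤ (-(μ * ‖T0‖)) * ‖D0‖ ^ 2 := by
        rw [neg_mul, mul_assoc]; exact h
      exact le_of_mul_le_mul_right h2 hD02
    linarith [habs.2]


end Pool.Agent.LinPair
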