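import Pool.Agent.Helper284.LPSearch

/-!
The branch and bound computation, checked by the kernel.
-/

set_option autoImplicit false

namespace Pool.Agent.LinPair

set_option maxRecDepth 100000 in
theorem chk_run : chk 40399548351731721216000000 1099511627776 416468697705 416470896729
    561206062795 561208261819 60 1 0 0 = true := by decide +kernel

end Pool.Agent.LinPair
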