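import Pool.Agent.Helper284.LPSound

/-!
Soundness of the full search.
-/

set_option autoImplicit false

namespace Pool.Agent.LinPair

open Complex

theorem norm_le_of_sq {z : ℂ} {t : ℝ} (ht : 0 ≤ t) (h : z.re ^ 2 + z.im ^ 2 ≤ t ^ 2) :
    ‖z‖ ≤ t := by
  have h3 : ‖z‖ ^ 2 = z.re ^ 2 + z.im ^ 2 := by
    rw [Complex.sq_norm, Complex.normSq_apply]; ring
  exact abs_le_of_sq_le_sq' (by rw [h3]; exact h) ht |>.2

/-- `q` lies in the box `(p, i, j)` -/
structure InBox (q : ℂ) (p i j : ℕ) : Prop where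
  x1 : (i : ℝ) / p ≤ q.re
  x2 : q.re ≤ ((i : ℝ) + 1) / p
  y1 : (j : ℝ) / p ≤ q.im
  y2 : q.im ≤ ((j : ℝ) + 1) / p

theorem deadBox_sound {a : ℕ → ℤ} {q : ℂ} (ha : ∀ k, a k = -1 ∨ a k = 0 ∨ a k = 1)
    (ha0 : a 0 = 1) (h0 : ∑' k, (a k : ℂ) * q ^ k = 0) {p i j rL rn : ℕ} (hp : 0 < p)
    (hbox : InBox q p i j) (hqi : 0 < q.im) (hrL : rL ≤ 12288)
    (hcor : ((i : ℝ) + 1) ^ 2 + ((j : ℝ) + 1) ^ 2 ≤ ((rL : ℝ) / 16384) ^ 2 * (p : ℝ) ^ 2)
    (hrn : rn < 16384) (hq : ‖q‖ ≤ (rn : ℝ) / 16384) : deadBox p i j rL rn = false := by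
  have hpR : (0 : ℝ) < p := by exact_mod_cast hp
  have hrLR : (rL : ℝ) ≤ 12288 := by exact_mod_cast hrL
  have hrL0 : (0 : ℝ) ≤ rL := Nat.cast_nonneg _
  have hrnR : (rn : ℝ) < 16384 := by exact_mod_cast hrn
  have hi0 : (0 : ℝ) ≤ i := Nat.cast_nonneg _
  have hj0 : (0 : ℝ) ≤ j := Nat.cast_nonneg _
  have hL34 : (rL : ℝ) / 16384 ≤ 3 / 4 := by rw [div_le_iff₀ (by norm_num)]; linarith
  have hL0 : (0 : ℝ) ≤ (rL : ℝ) / 16384 := by positivity
  have hcor1 : (((i : ℝ) + 1) / p) ^ 2 + (((j : ℝ) + 1) / p) ^ 2 ≤ ((rL : ℝ) / 16384) ^ 2 := by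
    rw [div_pow, div_pow, ← add_div, div_le_iff₀ (by positivity)]
    exact hcor
  have hqre : 0 ≤ q.re := le_trans (by positivity) hbox.x1
  have hqL : ‖q‖ ≤ (rL : ℝ) / 16384 := by
    apply norm_le_of_sq hL0
    have h1 : q.re ^ 2 ≤ (((i : ℝ) + 1) / p) ^ 2 := pow_le_pow_left₀ hqre hbox.x2 2
    have h2 : q.im ^ 2 ≤ (((j : ℝ) + 1) / p) ^ 2 := pow_le_pow_left₀ hqi.le hbox.y2 2
    linarith
  set c : ℂ := ⟨((2 * i + 1 : ℕ) : ℝ) / ((2 * p : ℕ) : ℝ), ((2 * j + 1 : ℕ) : ℝ) / ((2 * p : ℕ) : ℝ)⟩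
    with hc
  have hcre : c.re = ((i : ℝ) + 1 / 2) / p := by
    rw [hc]; push_cast; field_simp
  have hcim : c.im = ((j : ℝ) + 1 / 2) / p := by
    rw [hc]; push_cast; field_simp
  have hcL : ‖c‖ ≤ (rL : ℝ) / 16384 := by
    apply norm_le_of_sq hL0
    rw [hcre, hcim]
    have h1 : (((i : ℝ) + 1 / 2) / p) ^ 2 ≤ (((i : ℝ) + 1) / p) ^ 2 := by
      apply pow_le_pow_left₀ (by positivity)
      gcongr
      norm_num
    have h2 : (((j : ℝ) + 1 / 2) / p) ^ 2 ≤ (((j : ℝ) + 1) / p) ^ 2 := by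
      apply pow_le_pow_left₀ (by positivity)
      gcongr
      norm_num
    linarith
  have hip : i + 1 ≤ p := by
    have h1 : ((i : ℝ) + 1) ^ 2 ≤ (p : ℝ) ^ 2 := by
      have h2 : ((rL : ℝ) / 16384) ^ 2 ≤ 1 := by nlinarith
      have h3 : ((rL : ℝ) / 16384) ^ 2 * (p : ℝ) ^ 2 ≤ 1 * (p : ℝ) ^ 2 := by gcongr
      nlinarith [sq_nonneg ((j : ℝ) + 1)]
    have h2 : (i : ℝ) + 1 ≤ p := abs_le_of_sq_le_sq' h1 hpR.le |>.2
    exact_mod_cast h2
  have hjp : j + 1 ≤ p := by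
    have h1 : ((j : ℝ) + 1) ^ 2 ≤ (p : ℝ) ^ 2 := by
      have h2 : ((rL : ℝ) / 16384) ^ 2 ≤ 1 := by nlinarith
      have h3 : ((rL : ℝ) / 16384) ^ 2 * (p : ℝ) ^ 2 ≤ 1 * (p : ℝ) ^ 2 := by gcongr
      nlinarith [sq_nonneg ((i : ℝ) + 1)]
    have h2 : (j : ℝ) + 1 ≤ p := abs_le_of_sq_le_sq' h1 hpR.le |>.2
    exact_mod_cast h2
  have hd : ‖q - c‖ ≤ (7072 / 10000) / (p : ℝ) := by
    apply norm_le_of_sq (by positivity)
    rw [Complex.sub_re, Complex.sub_im, hcre, hcim]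
    have h1 : (q.re - ((i : ℝ) + 1 / 2) / p) ^ 2 ≤ (1 / (2 * p)) ^ 2 := by
      apply sq_le_sq'
      · have h2 := hbox.x1
        have h3 : ((i : ℝ) + 1 / 2) / p = (i : ℝ) / p + 1 / (2 * p) := by field_simp
        rw [h3]; linarith
      · have h2 := hbox.x2
        have h3 : ((i : ℝ) + 1 / 2) / p = ((i : ℝ) + 1) / p - 1 / (2 * p) := by
          field_simp; ring
        rw [h3]; linarith
    have h1' : (q.im - ((j : ℝ) + 1 / 2) / p) ^ 2 ≤ (1 / (2 * p)) ^ 2 := by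
      apply sq_le_sq'
      · have h2 := hbox.y1
        have h3 : ((j : ℝ) + 1 / 2) / p = (j : ℝ) / p + 1 / (2 * p) := by field_simp
        rw [h3]; linarith
      · have h2 := hbox.y2
        have h3 : ((j : ℝ) + 1 / 2) / p = ((j : ℝ) + 1) / p - 1 / (2 * p) := by
          field_simp; ring
        rw [h3]; linarith
    have h4 : (1 / (2 * (p : ℝ))) ^ 2 + (1 / (2 * (p : ℝ))) ^ 2 ≤ ((7072 / 10000) / (p : ℝ)) ^ 2 := by
      rw [div_pow, div_pow, ← add_div, div_le_div_iff₀ (by positivity) (by positivity)]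
      have : (0 : ℝ) < (p : ℝ) ^ 2 := by positivity
      nlinarith
    linarith
  have h16L : 16384 - rL ≠ 0 := by omega
  have h16n : 16384 - rn ≠ 0 := by omega
  have hcastL : ((16384 - rL : ℕ) : ℝ) = 16384 * (1 - (rL : ℝ) / 16384) := by
    rw [Nat.cast_sub (by omega)]; push_cast; ring
  have hcastn : ((16384 - rn : ℕ) : ℝ) = 16384 * (1 - (rn : ℝ) / 16384) := by
    rw [Nat.cast_sub (by omega)]; push_cast; ring
  have h1L : 0 < 1 - (rL : ℝ) / 16384 := by linarith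
  have h1n : 0 < 1 - (rn : ℝ) / 16384 := by
    have : (rn : ℝ) / 16384 < 1 := by rw [div_lt_one (by norm_num)]; exact hrnR
    linarith
  have hBox : Box a q c ((rn : ℝ) / 16384) ((rL : ℝ) / 16384) ((7072 / 10000) / (p : ℝ)) (2 * p)
      (2 * i + 1) (2 * j + 1) rn
      (3501884783130483721634642605 / (p * (16384 - rL) ^ 2) + 1)
      (114749760573619690590523968875765 / (p * (16384 - rL) ^ 3) + 1) := by
    refine ⟨ha, hq, by linarith, hqL, hcL, hL34, hd, hqi, ?_, h0, by omega, by omega, by omega,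
      hc, rfl, ?_, ?_⟩
    · rw [hcim]; positivity
    · have hpos : 0 < p * (16384 - rL) ^ 2 := by positivity
      obtain ⟨h1, _⟩ := nat_div_bounds 3501884783130483721634642605 (p * (16384 - rL) ^ 2) hpos
      push_cast at h1 ⊢
      rw [hcastL] at h1
      have h2 : 2 ^ 64 * (7072 / 10000 / (p : ℝ) / (1 - (rL : ℝ) / 16384) ^ 2) ≤
          3501884783130483721634642605 / ((p : ℝ) * (16384 * (1 - (rL : ℝ) / 16384)) ^ 2) := by
        rw [le_div_iff₀ (by positivity)]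
        have : 2 ^ 64 * (7072 / 10000 / (p : ℝ) / (1 - (rL : ℝ) / 16384) ^ 2) *
          ((p : ℝ) * (16384 * (1 - (rL : ℝ) / 16384)) ^ 2) = 2 ^ 64 * (7072 / 10000) * 16384 ^ 2 := by
          generalize (1 - (rL : ℝ) / 16384) = u at *
          field_simp
        rw [this]; norm_num
      linarith
    · have hpos : 0 < p * (16384 - rL) ^ 3 := by positivity
      obtain ⟨h1, _⟩ := nat_div_bounds 114749760573619690590523968875765 (p * (16384 - rL) ^ 3) hpos
      push_cast at h1 ⊢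
      rw [hcastL] at h1
      have h2 : 2 ^ 64 * (2 * (7072 / 10000 / (p : ℝ)) / (1 - (rL : ℝ) / 16384) ^ 3) ≤
          114749760573619690590523968875765 / ((p : ℝ) * (16384 * (1 - (rL : ℝ) / 16384)) ^ 3) := by
        rw [le_div_iff₀ (by positivity)]
        have : 2 ^ 64 * (2 * (7072 / 10000 / (p : ℝ)) / (1 - (rL : ℝ) / 16384) ^ 3) *
          ((p : ℝ) * (16384 * (1 - (rL : ℝ) / 16384)) ^ 3) =
            2 ^ 64 * (2 * (7072 / 10000)) * 16384 ^ 3 := by
          generalize (1 - (rL : ℝ) / 16384) = u at *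
          field_simp
        rw [this]; norm_num
      linarith
  have hO : (OO : ℝ) = 1180591620717411303424 := by norm_num [OO]
  have hSt : St c ((rn : ℝ) / 16384) 0
      (1180591620717411303424 + (2 * i + 1) * 9223372036854775808 / p)
      (1180591620717411303424 + (2 * j + 1) * 9223372036854775808 / p)
      (18446744073709551616 * rn / (16384 - rn) + 1)
      (4951760157141521099596496896 / (16384 - rn) ^ 2 + 1) 8 1180591620717411303424 := by
    refine ⟨?_, ?_, ?_, rfl, by simp [OO]⟩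
    · have h1 : ‖cx (1180591620717411303424 + (2 * i + 1) * 9223372036854775808 / p)
        (1180591620717411303424 + (2 * j + 1) * 9223372036854775808 / p) OO -
          2 ^ 64 * c ^ (0 + 1)‖ ≤ 3 / 2 := by
        apply norm_le_of_coord
        · obtain ⟨h2, h3⟩ := nat_div_bounds ((2 * i + 1) * 9223372036854775808) p hp
          rw [zero_add, pow_one, Complex.sub_re]
          have h4 : ((2 : ℂ) ^ 64 * c).re = 2 ^ 64 * c.re := by
            have : (2 : ℂ) ^ 64 = ((2 ^ 64 : ℝ) : ℂ) := by push_cast; rfl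
            rw [this, Complex.re_ofReal_mul]
          rw [h4, hcre]
          simp only [cx]
          push_cast at h2 h3 ⊢
          rw [hO, abs_le]
          have h5 : (2 : ℝ) ^ 64 * (((i : ℝ) + 1 / 2) / p) =
            (2 * (i : ℝ) + 1) * 9223372036854775808 / p := by
            field_simp; norm_num
          rw [h5]
          constructor <;> linarith
        · obtain ⟨h2, h3⟩ := nat_div_bounds ((2 * j + 1) * 9223372036854775808) p hp
          rw [zero_add, pow_one, Complex.sub_im]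
          have h4 : ((2 : ℂ) ^ 64 * c).im = 2 ^ 64 * c.im := by
            have : (2 : ℂ) ^ 64 = ((2 ^ 64 : ℝ) : ℂ) := by push_cast; rfl
            rw [this, Complex.im_ofReal_mul]
          rw [h4, hcim]
          simp only [cx]
          push_cast at h2 h3 ⊢
          rw [hO, abs_le]
          have h5 : (2 : ℝ) ^ 64 * (((j : ℝ) + 1 / 2) / p) =
            (2 * (j : ℝ) + 1) * 9223372036854775808 / p := by
            field_simp; norm_num
          rw [h5]
          constructor <;> linarith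
      linarith
    · obtain ⟨h1, _⟩ := nat_div_bounds (18446744073709551616 * rn) (16384 - rn) (by omega)
      push_cast at h1 ⊢
      rw [hcastn] at h1
      have h2 : 2 ^ 64 * WW ((rn : ℝ) / 16384) 0 =
          18446744073709551616 * (rn : ℝ) / (16384 * (1 - (rn : ℝ) / 16384)) := by
        simp only [WW]
        have h3 : (rn : ℝ) = 16384 * ((rn : ℝ) / 16384) := by ring
        generalize (rn : ℝ) / 16384 = u at *
        rw [h3]
        field_simp
        ring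
      linarith
    · obtain ⟨h1, _⟩ := nat_div_bounds 4951760157141521099596496896 ((16384 - rn) ^ 2)
        (by positivity)
      push_cast at h1 ⊢
      rw [hcastn] at h1
      have h2 : 2 ^ 64 * ZZ ((rn : ℝ) / 16384) 0 =
          4951760157141521099596496896 / (16384 * (1 - (rn : ℝ) / 16384)) ^ 2 := by
        simp only [ZZ]
        generalize (1 - (rn : ℝ) / 16384) = u at *
        field_simp
        norm_num
      linarith
  have hfin := dead_mk hBox 150 0 _ _ _ _ _ _ 1199038364791120855040 1180591620717411303424 hSt (by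
    have h1 : cx 1199038364791120855040 1180591620717411303424 1180591620717411303424 -
        2 ^ 64 * PS a c 0 = 0 := by
      rw [PS_zero, ha0]
      apply Complex.ext
      · simp [cx]
        norm_num
      · have h2 : (2 : ℂ) ^ 64 = ((2 ^ 64 : ℝ) : ℂ) := by push_cast; rfl
        simp only [cx, Complex.sub_im, sub_self, zero_sub, Int.cast_one, mul_one, Complex.zero_im,
          neg_eq_zero]
        rw [h2, Complex.ofReal_im]
    rw [h1]
    simp)
  exact hfin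

theorem sel_false {c : ℕ} {rs : List ℕ} {k : ℕ → Bool}
    (h : ∀ r ∈ rs, c ≤ r ^ 2 → k r = false) : sel c rs k = false := by
  induction rs with
  | nil => rfl
  | cons r rs ih =>
    show cond (Nat.ble c (Nat.pow r 2)) (k r) (sel c rs k) = false
    by_cases hc : c ≤ r ^ 2
    · have e : Nat.ble c (Nat.pow r 2) = true := by rw [Nat.ble_eq]; exact hc
      rw [e]
      exact h r (by simp) hc
    · have e : Nat.ble c (Nat.pow r 2) = false := by
        rw [Bool.eq_false_iff, ne_eq, Nat.ble_eq]; exact hc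
      rw [e]
      exact ih (fun r' hr' => h r' (by simp [hr']))

theorem boxT_sound {a : ℕ → ℤ} {q : ℂ} (ha : ∀ k, a k = -1 ∨ a k = 0 ∨ a k = 1)
    (ha0 : a 0 = 1) (h0 : ∑' k, (a k : ℂ) * q ^ k = 0) {p i j : ℕ} (hp : 0 < p)
    (hbox : InBox q p i j) (hqi : 0 < q.im) (hq : ‖q‖ ≤ 10414 / 16384) :
    boxT p i j = false := by
  have hpR : (0 : ℝ) < p := by exact_mod_cast hp
  have hi0 : (0 : ℝ) ≤ i := Nat.cast_nonneg _
  apply sel_false
  intro r hr hc
  have hr1 : r ≤ 12288 := by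
    revert r
    simp only [rlist]
    intro r hr _
    simp only [List.mem_cons, List.not_mem_nil, or_false] at hr
    omega
  have hcor : ((i : ℝ) + 1) ^ 2 + ((j : ℝ) + 1) ^ 2 ≤ ((r : ℝ) / 16384) ^ 2 * (p : ℝ) ^ 2 := by
    have hc' : ((i + 1) ^ 2 + (j + 1) ^ 2) * 268435456 / p ^ 2 + 1 ≤ r ^ 2 := hc
    obtain ⟨h1, _⟩ := nat_div_bounds (((i + 1) ^ 2 + (j + 1) ^ 2) * 268435456) (p ^ 2)
      (by positivity)
    have h2 : ((((i + 1) ^ 2 + (j + 1) ^ 2) * 268435456 / p ^ 2 + 1 : ℕ) : ℝ) ≤ ((r ^ 2 : ℕ) : ℝ) := by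
      exact_mod_cast hc'
    push_cast at h1 h2
    have h3 : (((i : ℝ) + 1) ^ 2 + ((j : ℝ) + 1) ^ 2) * 268435456 / (p : ℝ) ^ 2 ≤ (r : ℝ) ^ 2 := by
      linarith
    rw [div_le_iff₀ (by positivity)] at h3
    have h4 : ((r : ℝ) / 16384) ^ 2 * (p : ℝ) ^ 2 = (r : ℝ) ^ 2 * (p : ℝ) ^ 2 / 268435456 := by
      ring
    rw [h4, le_div_iff₀ (by norm_num)]
    exact h3
  have hqre : 0 ≤ q.re := le_trans (by positivity) hbox.x1
  by_cases hr2 : r ≤ 10414
  · have e : Nat.ble r 10414 = true := by rw [Nat.ble_eq]; exact hr2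
    simp only [e, cond_true]
    apply deadBox_sound ha ha0 h0 hp hbox hqi hr1 hcor (by omega)
    apply norm_le_of_sq (by positivity)
    have h1 : q.re ^ 2 ≤ (((i : ℝ) + 1) / p) ^ 2 := pow_le_pow_left₀ hqre hbox.x2 2
    have h2 : q.im ^ 2 ≤ (((j : ℝ) + 1) / p) ^ 2 := pow_le_pow_left₀ hqi.le hbox.y2 2
    have hcor1 : (((i : ℝ) + 1) / p) ^ 2 + (((j : ℝ) + 1) / p) ^ 2 ≤ ((r : ℝ) / 16384) ^ 2 := by
      rw [div_pow, div_pow, ← add_div, div_le_iff₀ (by positivity)]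
      exact hcor
    linarith
  · have e : Nat.ble r 10414 = false := by
      rw [Bool.eq_false_iff, ne_eq, Nat.ble_eq]; exact hr2
    simp only [e, cond_false]
    apply deadBox_sound ha ha0 h0 hp hbox hqi hr1 hcor (by omega)
    exact_mod_cast hq

theorem cascade {b1 b2 b3 c1 c2 c3 c4 : Bool}
    (h : cond b1 true (cond b2 true (cond b3 true
      (cond c1 (cond c2 (cond c3 c4 false) false) false))) = true) :
    b1 = true ∨ b2 = true ∨ b3 = true ∨ (c1 = true ∧ c2 = true ∧ c3 = true ∧ c4 = true) := by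
  revert h
  cases b1 <;> cases b2 <;> cases b3 <;> cases c1 <;> cases c2 <;> cases c3 <;> cases c4 <;> simp

theorem cascade4 {c1 c2 c3 c4 : Bool}
    (h : cond c1 (cond c2 (cond c3 c4 false) false) false = true) :
    c1 = true ∧ c2 = true ∧ c3 = true ∧ c4 = true := by
  revert h
  cases c1 <;> cases c2 <;> cases c3 <;> cases c4 <;> simp

/-- Soundness of the search. -/
theorem chk_sound {a : ℕ → ℤ} {q : ℂ} (ha : ∀ k, a k = -1 ∨ a k = 0 ∨ a k = 1)
    (ha0 : a 0 = 1) (h0 : ∑' k, (a k : ℂ) * q ^ k = 0) (hqi : 0 < q.im)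
    (hq : ‖q‖ ≤ 10414 / 16384) (RN tp x0 x1 y0 y1 : ℕ) (htp : 0 < tp)
    (hRN : ‖q‖ ^ 2 ≤ (RN : ℝ) / 100000000000000000000000000) (fuel : ℕ) :
    ∀ p i j : ℕ, 0 < p → InBox q p i j → chk RN tp x0 x1 y0 y1 fuel p i j = true →
      (x0 : ℝ) / tp ≤ q.re ∧ q.re ≤ (x1 : ℝ) / tp ∧ (y0 : ℝ) / tp ≤ q.im ∧ q.im ≤ (y1 : ℝ) / tp := by
  have htpR : (0 : ℝ) < tp := by exact_mod_cast htp
  induction fuel with
  | zero => intro p i j _ _ h; exact absurd h (by simp [chk])
  | succ fuel ih =>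
    intro p i j hp hbox h
    have hpR : (0 : ℝ) < p := by exact_mod_cast hp
    have h' : cond (Nat.ble (Nat.succ (Nat.mul RN (Nat.pow p 2)))
      (Nat.mul (Nat.add (Nat.pow i 2) (Nat.pow j 2)) 100000000000000000000000000)) true
      (cond (cond (Nat.ble (Nat.mul x0 p) (Nat.mul i tp))
       (cond (Nat.ble (Nat.mul (Nat.succ i) tp) (Nat.mul x1 p))
       (cond (Nat.ble (Nat.mul y0 p) (Nat.mul j tp))
        (Nat.ble (Nat.mul (Nat.succ j) tp) (Nat.mul y1 p)) false) false) false) true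
      (cond (cond (Nat.ble 16 p) (boxT p i j) false) true
      (cond (chk RN tp x0 x1 y0 y1 fuel (Nat.mul 2 p) (Nat.mul 2 i) (Nat.mul 2 j))
      (cond (chk RN tp x0 x1 y0 y1 fuel (Nat.mul 2 p) (Nat.succ (Nat.mul 2 i)) (Nat.mul 2 j))
      (cond (chk RN tp x0 x1 y0 y1 fuel (Nat.mul 2 p) (Nat.mul 2 i) (Nat.succ (Nat.mul 2 j)))
        (chk RN tp x0 x1 y0 y1 fuel (Nat.mul 2 p) (Nat.succ (Nat.mul 2 i)) (Nat.succ (Nat.mul 2 j)))
          false) false) false))) = true := h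
    rcases cascade h' with h1 | h1 | h1 | ⟨c1, c2, c3, c4⟩
    · exfalso
      rw [Nat.ble_eq] at h1
      have h2 : RN * p ^ 2 < (i ^ 2 + j ^ 2) * 100000000000000000000000000 := h1
      have h3 : (RN : ℝ) * (p : ℝ) ^ 2 < ((i : ℝ) ^ 2 + (j : ℝ) ^ 2) *
          100000000000000000000000000 := by exact_mod_cast h2
      have h4 : ((i : ℝ) / p) ^ 2 + ((j : ℝ) / p) ^ 2 ≤ ‖q‖ ^ 2 := by
        rw [Complex.sq_norm, Complex.normSq_apply]
        have h5 : ((i : ℝ) / p) ^ 2 ≤ q.re ^ 2 := pow_le_pow_left₀ (by positivity) hbox.x1 2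
        have h6 : ((j : ℝ) / p) ^ 2 ≤ q.im ^ 2 := pow_le_pow_left₀ (by positivity) hbox.y1 2
        nlinarith
      have h7 : ((i : ℝ) / p) ^ 2 + ((j : ℝ) / p) ^ 2 ≤
          (RN : ℝ) / 100000000000000000000000000 := h4.trans hRN
      rw [div_pow, div_pow, ← add_div, div_le_div_iff₀ (by positivity) (by norm_num)] at h7
      linarith
    · obtain ⟨e1, e2, e3, e4⟩ := cascade4 h1
      rw [Nat.ble_eq] at e1 e2 e3 e4
      have e1' : x0 * p ≤ i * tp := e1
      have e2' : (i + 1) * tp ≤ x1 * p := e2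
      have e3' : y0 * p ≤ j * tp := e3
      have e4' : (j + 1) * tp ≤ y1 * p := e4
      have f1 : (x0 : ℝ) * p ≤ i * tp := by exact_mod_cast e1'
      have f2 : ((i : ℝ) + 1) * tp ≤ x1 * p := by exact_mod_cast e2'
      have f3 : (y0 : ℝ) * p ≤ j * tp := by exact_mod_cast e3'
      have f4 : ((j : ℝ) + 1) * tp ≤ y1 * p := by exact_mod_cast e4'
      refine ⟨le_trans ?_ hbox.x1, hbox.x2.trans ?_, le_trans ?_ hbox.y1, hbox.y2.trans ?_⟩
      · rw [div_le_div_iff₀ htpR hpR]; exact f1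
      · rw [div_le_div_iff₀ hpR htpR]; exact f2
      · rw [div_le_div_iff₀ htpR hpR]; exact f3
      · rw [div_le_div_iff₀ hpR htpR]; exact f4
    · exfalso
      have h2 := boxT_sound ha ha0 h0 hp hbox hqi hq
      rw [h2] at h1
      cases hb : Nat.ble 16 p <;> simp [hb] at h1
    · have hp2 : 0 < 2 * p := by omega
      have hxs : q.re ≤ ((2 * i : ℕ) + 1 : ℝ) / ((2 * p : ℕ) : ℝ) ∨
          ((2 * i + 1 : ℕ) : ℝ) / ((2 * p : ℕ) : ℝ) ≤ q.re := by
        push_cast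
        exact le_total _ _
      have hys : q.im ≤ ((2 * j : ℕ) + 1 : ℝ) / ((2 * p : ℕ) : ℝ) ∨
          ((2 * j + 1 : ℕ) : ℝ) / ((2 * p : ℕ) : ℝ) ≤ q.im := by
        push_cast
        exact le_total _ _
      have g1 : ((2 * i : ℕ) : ℝ) / ((2 * p : ℕ) : ℝ) ≤ q.re := by
        refine le_trans (le_of_eq ?_) hbox.x1
        push_cast; field_simp
      have g2 : q.re ≤ ((2 * i + 1 : ℕ) + 1 : ℝ) / ((2 * p : ℕ) : ℝ) := by
        refine hbox.x2.trans (le_of_eq ?_)
        push_cast; field_simp; ring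
      have g3 : ((2 * j : ℕ) : ℝ) / ((2 * p : ℕ) : ℝ) ≤ q.im := by
        refine le_trans (le_of_eq ?_) hbox.y1
        push_cast; field_simp
      have g4 : q.im ≤ ((2 * j + 1 : ℕ) + 1 : ℝ) / ((2 * p : ℕ) : ℝ) := by
        refine hbox.y2.trans (le_of_eq ?_)
        push_cast; field_simp; ring
      rcases hxs with hx | hx <;> rcases hys with hy | hy
      · exact ih (2 * p) (2 * i) (2 * j) hp2 ⟨g1, hx, g3, hy⟩ c1
      · exact ih (2 * p) (2 * i) (2 * j + 1) hp2 ⟨g1, hx, hy, g4⟩ c3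
      · exact ih (2 * p) (2 * i + 1) (2 * j) hp2 ⟨hx, g2, g3, hy⟩ c2
      · exact ih (2 * p) (2 * i + 1) (2 * j + 1) hp2 ⟨hx, g2, hy, g4⟩ c4

end Pool.Agent.LinPair
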