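import Pool.Agent.Helper284.LPCheck

/-!
Soundness of the branch and bound procedure.
-/

set_option autoImplicit false

namespace Pool.Agent.LinPair

open Complex

/-- the hypotheses on a box, with centre `c` and zero `q` -/
structure Box (a : ℕ → ℤ) (q c : ℂ) (r rL δ : ℝ) (sh X Y rn D1 D2 : ℕ) : Prop where
  ha : ∀ k, a k = -1 ∨ a k = 0 ∨ a k = 1
  hq : ‖q‖ ≤ r
  hr1 : r < 1
  hqL : ‖q‖ ≤ rL
  hcL : ‖c‖ ≤ rL
  hL : rL ≤ 3 / 4
  hd : ‖q - c‖ ≤ δ
  hqi : 0 < q.im
  hci : 0 < c.im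
  h0 : ∑' k, (a k : ℂ) * q ^ k = 0
  hsh : 0 < sh
  hX : X ≤ sh
  hY : Y ≤ sh
  hc : c = ⟨(X : ℝ) / sh, (Y : ℝ) / sh⟩
  hr : r = (rn : ℝ) / 16384
  hD1 : 2 ^ 64 * (δ / (1 - rL) ^ 2) ≤ D1
  hD2 : 2 ^ 64 * (2 * δ / (1 - rL) ^ 3) ≤ D2

/-- `2^70` -/
def OO : ℕ := 1180591620717411303424

/-- the state of the table at stage `n` -/
structure St (c : ℂ) (r : ℝ) (n U V w z s off : ℕ) : Prop where
  hU : ‖cx U V OO - 2 ^ 64 * c ^ (n + 1)‖ ≤ 6
  hw : 2 ^ 64 * WW r n ≤ w
  hz : 2 ^ 64 * ZZ r n ≤ z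
  hs : s = 6 * (n + 1) + 2
  hoff : off = (n + 1) * OO

theorem cx_add (A B U V o1 o2 : ℕ) : cx (A + U) (B + V) (o1 + o2) = cx A B o1 + cx U V o2 := by
  apply Complex.ext
  · simp only [cx, Complex.add_re]; push_cast; ring
  · simp only [cx, Complex.add_im]; push_cast; ring

theorem St.bound {c : ℂ} {r : ℝ} {n U V w z s off : ℕ} (h : St c r n U V w z s off)
    (hc : ‖c‖ ≤ 1) : |(U : ℝ) - OO| ≤ 2 ^ 64 + 6 ∧ |(V : ℝ) - OO| ≤ 2 ^ 64 + 6 := by
  have h1 : ‖cx U V OO‖ ≤ 2 ^ 64 + 6 := by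
    have h2 : cx U V OO = (cx U V OO - 2 ^ 64 * c ^ (n + 1)) + 2 ^ 64 * c ^ (n + 1) := by ring
    rw [h2]
    refine (norm_add_le _ _).trans ?_
    have h3 : ‖(2 : ℂ) ^ 64 * c ^ (n + 1)‖ ≤ 2 ^ 64 := by
      rw [norm_mul, norm_pow, norm_pow]
      simp only [Complex.norm_ofNat]
      have : ‖c‖ ^ (n + 1) ≤ 1 := pow_le_one₀ (norm_nonneg _) hc
      nlinarith
    linarith [h.hU]
  exact ⟨(Complex.abs_re_le_norm _).trans h1, (Complex.abs_im_le_norm _).trans h1⟩

theorem norm_le_of_coord {z : ℂ} (h1 : |z.re| ≤ 1) (h2 : |z.im| ≤ 1) : ‖z‖ ≤ 3 / 2 := by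
  have h3 : ‖z‖ ^ 2 = z.re ^ 2 + z.im ^ 2 := by
    rw [Complex.sq_norm, Complex.normSq_apply]; ring
  have h4 : z.re ^ 2 ≤ 1 := by rw [← sq_abs]; nlinarith [abs_nonneg z.re]
  have h5 : z.im ^ 2 ≤ 1 := by rw [← sq_abs]; nlinarith [abs_nonneg z.im]
  nlinarith [norm_nonneg z]

theorem St.next {a : ℕ → ℤ} {q c : ℂ} {r rL δ : ℝ} {sh X Y rn D1 D2 : ℕ}
    (hB : Box a q c r rL δ sh X Y rn D1 D2) {n U V w z s off : ℕ}
    (h : St c r n U V w z s off) :
    St c r (n + 1)
      ((U * X + 1180591620717411303424 * (Y + sh) - (V * Y + 1180591620717411303424 * X)) / sh)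
      ((U * Y + V * X + 1180591620717411303424 * sh - 1180591620717411303424 * (X + Y)) / sh)
      (w * rn / 16384 + 1) (z * rn / 16384 + 1 + w) (s + 6)
      (off + 1180591620717411303424) := by
  have hc34 : ‖c‖ ≤ 3 / 4 := hB.hcL.trans hB.hL
  have hc1 : ‖c‖ ≤ 1 := by linarith
  obtain ⟨hb1, hb2⟩ := h.bound hc1
  have hshR : (0 : ℝ) < sh := by exact_mod_cast hB.hsh
  have hXR : (X : ℝ) ≤ sh := by exact_mod_cast hB.hX
  have hYR : (Y : ℝ) ≤ sh := by exact_mod_cast hB.hY
  have hX0 : (0 : ℝ) ≤ X := Nat.cast_nonneg _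
  have hY0 : (0 : ℝ) ≤ Y := Nat.cast_nonneg _
  have hO : (OO : ℝ) = 1180591620717411303424 := by norm_num [OO]
  have hUX : |((U : ℝ) - OO) * X| ≤ (2 ^ 64 + 6) * sh := by
    rw [abs_mul, abs_of_nonneg hX0]
    exact mul_le_mul hb1 hXR hX0 (by positivity)
  have hVY : |((V : ℝ) - OO) * Y| ≤ (2 ^ 64 + 6) * sh := by
    rw [abs_mul, abs_of_nonneg hY0]
    exact mul_le_mul hb2 hYR hY0 (by positivity)
  have hUY : |((U : ℝ) - OO) * Y| ≤ (2 ^ 64 + 6) * sh := by
    rw [abs_mul, abs_of_nonneg hY0]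
    exact mul_le_mul hb1 hYR hY0 (by positivity)
  have hVX : |((V : ℝ) - OO) * X| ≤ (2 ^ 64 + 6) * sh := by
    rw [abs_mul, abs_of_nonneg hX0]
    exact mul_le_mul hb2 hXR hX0 (by positivity)
  rw [abs_le] at hUX hVY hUY hVX
  -- first coordinate
  have hle1 : V * Y + 1180591620717411303424 * X ≤
      U * X + 1180591620717411303424 * (Y + sh) := by
    have : ((V * Y + 1180591620717411303424 * X : ℕ) : ℝ) ≤
      ((U * X + 1180591620717411303424 * (Y + sh) : ℕ) : ℝ) := by
      push_cast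
      rw [hO] at *
      nlinarith
    exact_mod_cast this
  have hle2 : 1180591620717411303424 * (X + Y) ≤
      U * Y + V * X + 1180591620717411303424 * sh := by
    have : ((1180591620717411303424 * (X + Y) : ℕ) : ℝ) ≤
      ((U * Y + V * X + 1180591620717411303424 * sh : ℕ) : ℝ) := by
      push_cast
      rw [hO] at *
      nlinarith
    exact_mod_cast this
  set M1 := U * X + 1180591620717411303424 * (Y + sh) - (V * Y + 1180591620717411303424 * X)
    with hM1
  set M2 := U * Y + V * X + 1180591620717411303424 * sh - 1180591620717411303424 * (X + Y)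
    with hM2
  have hM1R : (M1 : ℝ) / sh = (((U : ℝ) - OO) * X - ((V : ℝ) - OO) * Y) / sh + OO := by
    rw [hM1, Nat.cast_sub hle1]
    push_cast
    rw [hO]
    field_simp
    ring
  have hM2R : (M2 : ℝ) / sh = (((U : ℝ) - OO) * Y + ((V : ℝ) - OO) * X) / sh + OO := by
    rw [hM2, Nat.cast_sub hle2]
    push_cast
    rw [hO]
    field_simp
    ring
  obtain ⟨hf1, hf2⟩ := nat_div_bounds M1 sh hB.hsh
  obtain ⟨hg1, hg2⟩ := nat_div_bounds M2 sh hB.hsh
  refine ⟨?_, ?_, ?_, ?_, ?_⟩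
  · have hnew : cx (M1 / sh) (M2 / sh) OO - 2 ^ 64 * c ^ (n + 1 + 1) =
        (cx U V OO - 2 ^ 64 * c ^ (n + 1)) * c + (cx (M1 / sh) (M2 / sh) OO - cx U V OO * c) := by
      ring
    rw [hnew]
    have herr : ‖cx (M1 / sh) (M2 / sh) OO - cx U V OO * c‖ ≤ 3 / 2 := by
      apply norm_le_of_coord
      · rw [Complex.sub_re, Complex.mul_re, hB.hc]
        simp only [cx]
        rw [abs_le]
        have h5 : ((U : ℝ) - OO) * (X / sh) - ((V : ℝ) - OO) * (Y / sh) =
            (((U : ℝ) - OO) * X - ((V : ℝ) - OO) * Y) / sh := by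
          field_simp
        rw [h5]
        constructor <;> linarith
      · rw [Complex.sub_im, Complex.mul_im, hB.hc]
        simp only [cx]
        rw [abs_le]
        have h5 : ((U : ℝ) - OO) * (Y / sh) + ((V : ℝ) - OO) * (X / sh) =
            (((U : ℝ) - OO) * Y + ((V : ℝ) - OO) * X) / sh := by
          field_simp
        rw [h5]
        constructor <;> linarith
    refine (norm_add_le _ _).trans ?_
    rw [norm_mul]
    have h6 : ‖cx U V OO - 2 ^ 64 * c ^ (n + 1)‖ * ‖c‖ ≤ 6 * (3 / 4) :=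
      mul_le_mul h.hU hc34 (norm_nonneg _) (by norm_num)
    linarith
  · rw [WW_succ]
    have h7 : r * (2 ^ 64 * WW r n) ≤ r * w :=
      mul_le_mul_of_nonneg_left h.hw ((norm_nonneg _).trans hB.hq)
    obtain ⟨h8, _⟩ := nat_div_bounds (w * rn) 16384 (by norm_num)
    push_cast at h8 ⊢
    have h9 : r * w = w * rn / 16384 := by rw [hB.hr]; ring
    linarith
  · show 2 ^ 64 * (r * ZZ r n + WW r n) ≤ _
    have h7 : r * (2 ^ 64 * ZZ r n) ≤ r * z :=
      mul_le_mul_of_nonneg_left h.hz ((norm_nonneg _).trans hB.hq)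
    obtain ⟨h8, _⟩ := nat_div_bounds (z * rn) 16384 (by norm_num)
    push_cast at h8 ⊢
    have h9 : r * z = z * rn / 16384 := by rw [hB.hr]; ring
    linarith [h.hw]
  · rw [h.hs]; ring
  · rw [h.hoff, OO]; ring

/-- Soundness of the search in one box. -/
theorem dead_mk {a : ℕ → ℤ} {q c : ℂ} {r rL δ : ℝ} {sh X Y rn D1 D2 : ℕ}
    (hB : Box a q c r rL δ sh X Y rn D1 D2) (fuel : ℕ) :
    ∀ n U V w z s off A B : ℕ, St c r n U V w z s off →
      ‖cx A B off - 2 ^ 64 * PS a c n‖ ≤ 6 * (n + 1) →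
      dead (mk sh X Y rn D1 D2 fuel U V w z s off) A B = false := by
  induction fuel with
  | zero => intros; rfl
  | succ fuel ih =>
    intro n U V w z s off A B hS hA
    rcases mk_succ sh X Y rn D1 D2 fuel U V w z s off with h | h
    · rw [h]; rfl
    rw [h]
    have hc1 : ‖c‖ ≤ 1 := by linarith [hB.hcL, hB.hL]
    have hL1 : rL < 1 := by linarith [hB.hL]
    obtain ⟨hb1, hb2⟩ := hS.bound hc1
    have hO : (OO : ℝ) = 1180591620717411303424 := by norm_num [OO]
    have hPS := norm_PS_center hB.ha hB.hq hB.hr1 hB.hqL hB.hcL hL1 hB.hd hB.h0 n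
    have hIm := im_PS_center hB.ha hB.hq hB.hr1 hB.hqL hB.hcL hL1 hB.hd hB.hqi hB.hci hB.h0 n
    have hsR : (s : ℝ) = 6 * (n + 1) + 2 := by rw [hS.hs]; push_cast; ring
    have hshR : (0 : ℝ) < sh := by exact_mod_cast hB.hsh
    -- bound on the second coordinate
    have hBoff : |(B : ℝ) - off| ≤ ((Y * (z + D2) / sh + s : ℕ) : ℝ) := by
      have h1 : |((cx A B off) - 2 ^ 64 * PS a c n).im| ≤ 6 * ((n : ℝ) + 1) :=
        (Complex.abs_im_le_norm _).trans hA
      have h2 : ((cx A B off) - 2 ^ 64 * PS a c n).im = ((B : ℝ) - off) - 2 ^ 64 * (PS a c n).im := by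
        rw [Complex.sub_im]
        have : ((2 : ℂ) ^ 64 * PS a c n).im = 2 ^ 64 * (PS a c n).im := by
          have : (2 : ℂ) ^ 64 = ((2 ^ 64 : ℝ) : ℂ) := by push_cast; rfl
          rw [this, Complex.im_ofReal_mul]
        rw [this]
        rfl
      rw [h2] at h1
      have h3 : |(B : ℝ) - off| ≤ 6 * ((n : ℝ) + 1) + 2 ^ 64 * |(PS a c n).im| := by
        have h4 : (B : ℝ) - off = (((B : ℝ) - off) - 2 ^ 64 * (PS a c n).im) +
          2 ^ 64 * (PS a c n).im := by ring
        rw [h4]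
        refine (abs_add_le _ _).trans ?_
        rw [abs_mul, abs_of_pos (by positivity : (0 : ℝ) < 2 ^ 64)]
        linarith
      have h5 : c.im = (Y : ℝ) / sh := by rw [hB.hc]
      obtain ⟨h6, _⟩ := nat_div_bounds (Y * (z + D2)) sh hB.hsh
      have h7 : 2 ^ 64 * |(PS a c n).im| ≤ (Y : ℝ) / sh * (z + D2) := by
        calc 2 ^ 64 * |(PS a c n).im| ≤ 2 ^ 64 * (c.im * (ZZ r n + 2 * δ / (1 - rL) ^ 3)) := by
              gcongr
          _ = (Y : ℝ) / sh * (2 ^ 64 * ZZ r n + 2 ^ 64 * (2 * δ / (1 - rL) ^ 3)) := by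
              rw [h5]; ring
          _ ≤ (Y : ℝ) / sh * (z + D2) := by
              gcongr
              · exact hS.hz
              · exact hB.hD2
      push_cast at h6 ⊢
      have h8 : (Y : ℝ) / sh * (z + D2) = Y * (z + D2) / sh := by ring
      linarith
    rw [abs_le] at hBoff
    have hB1 : B ≤ off + (Y * (z + D2) / sh + s) := by
      have : (B : ℝ) ≤ ((off + (Y * (z + D2) / sh + s) : ℕ) : ℝ) := by
        rw [Nat.cast_add]; linarith
      exact_mod_cast this
    have hB2 : off ≤ B + (Y * (z + D2) / sh + s) := by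
      have : (off : ℝ) ≤ ((B + (Y * (z + D2) / sh + s) : ℕ) : ℝ) := by
        rw [Nat.cast_add]; linarith
      exact_mod_cast this
    -- bound on the norm
    have hN : ((A - off) + (off - A)) ^ 2 + ((B - off) + (off - B)) ^ 2 ≤ (w + D1 + s) ^ 2 := by
      have h1 : ‖cx A B off‖ ≤ ((w + D1 + s : ℕ) : ℝ) := by
        have h2 : cx A B off = (cx A B off - 2 ^ 64 * PS a c n) + 2 ^ 64 * PS a c n := by ring
        rw [h2]
        refine (norm_add_le _ _).trans ?_
        have h3 : ‖(2 : ℂ) ^ 64 * PS a c n‖ ≤ w + D1 := by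
          rw [norm_mul, norm_pow, Complex.norm_ofNat]
          calc (2 : ℝ) ^ 64 * ‖PS a c n‖ ≤ 2 ^ 64 * (WW r n + δ / (1 - rL) ^ 2) := by gcongr
            _ = 2 ^ 64 * WW r n + 2 ^ 64 * (δ / (1 - rL) ^ 2) := by ring
            _ ≤ w + D1 := add_le_add hS.hw hB.hD1
        push_cast
        linarith
      have h4 : ‖cx A B off‖ ^ 2 = ((A : ℝ) - off) ^ 2 + ((B : ℝ) - off) ^ 2 := by
        rw [Complex.sq_norm, Complex.normSq_apply]
        simp only [cx]
        ring
      have h5 : ‖cx A B off‖ ^ 2 ≤ ((w + D1 + s : ℕ) : ℝ) ^ 2 :=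
        pow_le_pow_left₀ (norm_nonneg _) h1 2
      have h6 : ((((A - off) + (off - A)) ^ 2 + ((B - off) + (off - B)) ^ 2 : ℕ) : ℝ) ≤
          (((w + D1 + s) ^ 2 : ℕ) : ℝ) := by
        rw [Nat.cast_add, natsq_cast, natsq_cast, Nat.cast_pow, ← h4]
        exact h5
      exact_mod_cast h6
    apply dead_cons_false hB1 (by omega) hN
    -- the children
    have hnext := hS.next hB
    have hU2 : U ≤ 2361183241434822606848 := by
      have h1 := (abs_le.mp hb1).2
      have : (U : ℝ) ≤ ((2361183241434822606848 : ℕ) : ℝ) := by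
        rw [hO] at h1
        push_cast
        linarith
      exact_mod_cast this
    have hV2 : V ≤ 2361183241434822606848 := by
      have h1 := (abs_le.mp hb2).2
      have : (V : ℝ) ≤ ((2361183241434822606848 : ℕ) : ℝ) := by
        rw [hO] at h1
        push_cast
        linarith
      exact_mod_cast this
    have hSU := hS.hU
    rcases hB.ha (n + 1) with hcase | hcase | hcase
    · left
      apply ih (n + 1) _ _ _ _ _ _ _ _ hnext
      have e1 : cx (A + (2361183241434822606848 - U)) (B + (2361183241434822606848 - V))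
          (off + 1180591620717411303424) = cx A B off - cx U V OO := by
        apply Complex.ext
        · simp only [cx, Complex.sub_re]
          rw [Nat.cast_add, Nat.cast_sub hU2, hO]
          push_cast; ring
        · simp only [cx, Complex.sub_im]
          rw [Nat.cast_add, Nat.cast_sub hV2, hO]
          push_cast; ring
      rw [e1, PS_succ, hcase]
      have e2 : cx A B off - cx U V OO - 2 ^ 64 * (PS a c n + ((-1 : ℤ) : ℂ) * c ^ (n + 1)) =
          (cx A B off - 2 ^ 64 * PS a c n) - (cx U V OO - 2 ^ 64 * c ^ (n + 1)) := by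
        push_cast; ring
      rw [e2]
      refine (norm_sub_le _ _).trans ?_
      push_cast
      linarith
    · right; left
      apply ih (n + 1) _ _ _ _ _ _ _ _ hnext
      have e1 : cx (A + 1180591620717411303424) (B + 1180591620717411303424)
          (off + 1180591620717411303424) = cx A B off := by
        apply Complex.ext
        · simp only [cx]
          push_cast; ring
        · simp only [cx]
          push_cast; ring
      rw [e1, PS_succ, hcase]
      have e2 : cx A B off - 2 ^ 64 * (PS a c n + ((0 : ℤ) : ℂ) * c ^ (n + 1)) =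
          (cx A B off - 2 ^ 64 * PS a c n) := by
        push_cast; ring
      rw [e2]
      push_cast
      linarith
    · right; right
      apply ih (n + 1) _ _ _ _ _ _ _ _ hnext
      have e1 : cx (A + U) (B + V)
          (off + 1180591620717411303424) = cx A B off + cx U V OO := cx_add _ _ _ _ _ _
      rw [e1, PS_succ, hcase]
      have e2 : cx A B off + cx U V OO - 2 ^ 64 * (PS a c n + ((1 : ℤ) : ℂ) * c ^ (n + 1)) =
          (cx A B off - 2 ^ 64 * PS a c n) + (cx U V OO - 2 ^ 64 * c ^ (n + 1)) := by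
        push_cast; ring
      rw [e2]
      refine (norm_add_le _ _).trans ?_
      push_cast
      linarith

end Pool.Agent.LinPair
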