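import Pool.Agent.Helper284.LPRun
import Pool.Agent.Helper284.LPForced
import Pool.Agent.Helper284.LPData
import Pool.Agent.Helper284.LPOpt

/-!
Localisation of the non-real zeros of small modulus; the coefficients of the power series at a
zero of minimal modulus.
-/

set_option autoImplicit false

namespace Pool.Agent.LinPair

open Complex

theorem S1_eq : (S1 : ℝ) = 10 ^ 60 := by norm_num [S1]

theorem ZZ_closed {r : ℝ} (hr1 : r < 1) (n : ℕ) :
    ZZ r n = ((n : ℝ) + 1) * r ^ n / (1 - r) + r ^ (n + 1) / (1 - r) ^ 2 := by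
  have h1 : (1 - r) ≠ 0 := by linarith
  induction n with
  | zero =>
    simp only [ZZ]
    push_cast
    field_simp
    ring
  | succ n ih =>
    have h2 : ZZ r (n + 1) = r * ZZ r n + WW r n := rfl
    rw [h2, ih, WW]
    push_cast
    field_simp
    ring

/-- every non-real zero in the closed first quadrant of modulus at most `0.6356063904` is in a
tiny box -/
theorem localise {q : ℂ} {a : ℕ → ℤ} (ha : ∀ k, a k = -1 ∨ a k = 0 ∨ a k = 1)
    (ha0 : a 0 = 1) (h0 : ∑' k, (a k : ℂ) * q ^ k = 0) (hre : 0 ≤ q.re) (him : 0 < q.im)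
    (hq : ‖q‖ ≤ 6356063904 / 10 ^ 10) :
    (416468697705 : ℝ) / 1099511627776 ≤ q.re ∧ q.re ≤ 416470896729 / 1099511627776 ∧
    (561206062795 : ℝ) / 1099511627776 ≤ q.im ∧ q.im ≤ 561208261819 / 1099511627776 := by
  have h := chk_sound ha ha0 h0 him (hq.trans (by norm_num)) 40399548351731721216000000
    1099511627776 416468697705 416470896729 561206062795 561208261819 (by norm_num) (by
      have h1 : ‖q‖ ^ 2 ≤ (6356063904 / 10 ^ 10) ^ 2 := pow_le_pow_left₀ (norm_nonneg _) hq 2
      refine h1.trans ?_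
      norm_num) 60 1 0 0 (by norm_num) ?_ chk_run
  · push_cast at h
    exact h
  · have h1 : ‖q‖ ≤ 1 := hq.trans (by norm_num)
    have h2 := (Complex.abs_re_le_norm q).trans h1
    have h3 := (Complex.abs_im_le_norm q).trans h1
    rw [abs_le] at h2 h3
    refine ⟨?_, ?_, ?_, ?_⟩
    · simpa using hre
    · simpa using h2.2
    · simpa using him.le
    · simpa using h3.2

/-- the data of a zero in the tiny box -/
structure Tgt (a : ℕ → ℤ) (q : ℂ) : Prop where
  ha : ∀ k, a k = -1 ∨ a k = 0 ∨ a k = 1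
  ha0 : a 0 = 1
  h0 : ∑' k, (a k : ℂ) * q ^ k = 0
  hq : ‖q‖ ≤ 6356063904 / 10 ^ 10
  x1 : (416468697705 : ℝ) / 1099511627776 ≤ q.re
  x2 : q.re ≤ 416470896729 / 1099511627776
  y1 : (561206062795 : ℝ) / 1099511627776 ≤ q.im
  y2 : q.im ≤ 561208261819 / 1099511627776

theorem Tgt.norm_sub_q1 {a : ℕ → ℤ} {q : ℂ} (h : Tgt a q) : ‖q - q1‖ ≤ 3 / 2000000 := by
  apply norm_le_of_sq (by norm_num)
  rw [Complex.sub_re, Complex.sub_im, q1_re, q1_im]
  have e1 : (X1 : ℝ) / S1 = 378777074017180905751270553784999624437672467958834123086276 / 10 ^ 60 := by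
    norm_num [X1, S1]
  have e2 : (Y1 : ℝ) / S1 = 510414940715334451548668891643427241081803698880050844655317 / 10 ^ 60 := by
    norm_num [Y1, S1]
  rw [e1, e2]
  have h1 : (q.re - 378777074017180905751270553784999624437672467958834123086276 / 10 ^ 60) ^ 2 ≤
      (10001 / 10000000000) ^ 2 := by
    apply sq_le_sq'
    · have := h.x1
      have h2 : (-(10001 / 10000000000) : ℝ) ≤ 416468697705 / 1099511627776 -
        378777074017180905751270553784999624437672467958834123086276 / 10 ^ 60 := by norm_num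
      linarith
    · have := h.x2
      have h2 : (416470896729 / 1099511627776 -
        378777074017180905751270553784999624437672467958834123086276 / 10 ^ 60 : ℝ) ≤
          10001 / 10000000000 := by norm_num
      linarith
  have h1' : (q.im - 510414940715334451548668891643427241081803698880050844655317 / 10 ^ 60) ^ 2 ≤
      (10001 / 10000000000) ^ 2 := by
    apply sq_le_sq'
    · have := h.y1
      have h2 : (-(10001 / 10000000000) : ℝ) ≤ 561206062795 / 1099511627776 -
        510414940715334451548668891643427241081803698880050844655317 / 10 ^ 60 := by norm_num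
      linarith
    · have := h.y2
      have h2 : (561208261819 / 1099511627776 -
        510414940715334451548668891643427241081803698880050844655317 / 10 ^ 60 : ℝ) ≤
          10001 / 10000000000 := by norm_num
      linarith
  have h3 : ((10001 / 10000000000 : ℝ)) ^ 2 + (10001 / 10000000000) ^ 2 ≤ (3 / 2000000) ^ 2 := by
    norm_num
  linarith

/-- centre of the tiny box -/
noncomputable def cT : ℂ := ⟨((416469797217 : ℕ) : ℝ) / ((1099511627776 : ℕ) : ℝ),
  ((561207162307 : ℕ) : ℝ) / ((1099511627776 : ℕ) : ℝ)⟩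

theorem cT_norm : ‖cT‖ ≤ 10414 / 16384 := by
  apply norm_le_of_sq (by norm_num)
  simp only [cT]
  norm_num

theorem Tgt.box {a : ℕ → ℤ} {q : ℂ} (h : Tgt a q) :
    Box a q cT (((10414 : ℕ) : ℝ) / 16384) (10414 / 16384) (3 / 2000000) 1099511627776
      416469797217 561207162307 10414 208402151340519 1143872980758142 := by
  have hq : ‖q‖ ≤ 10414 / 16384 := h.hq.trans (by norm_num)
  refine ⟨h.ha, by push_cast; exact hq, by norm_num, hq, cT_norm, by norm_num, ?_, ?_, ?_, h.h0,
    by norm_num, by norm_num, by norm_num, rfl, rfl, by norm_num, by norm_num⟩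
  · apply norm_le_of_sq (by norm_num)
    rw [Complex.sub_re, Complex.sub_im]
    simp only [cT]
    have h1 : (q.re - ((416469797217 : ℕ) : ℝ) / ((1099511627776 : ℕ) : ℝ)) ^ 2 ≤
        (10001 / 10000000000) ^ 2 := by
      push_cast
      apply sq_le_sq'
      · have := h.x1
        have h2 : (-(10001 / 10000000000) : ℝ) ≤ 416468697705 / 1099511627776 -
          416469797217 / 1099511627776 := by norm_num
        linarith
      · have := h.x2
        have h2 : (416470896729 / 1099511627776 -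
          416469797217 / 1099511627776 : ℝ) ≤ 10001 / 10000000000 := by norm_num
        linarith
    have h1' : (q.im - ((561207162307 : ℕ) : ℝ) / ((1099511627776 : ℕ) : ℝ)) ^ 2 ≤
        (10001 / 10000000000) ^ 2 := by
      push_cast
      apply sq_le_sq'
      · have := h.y1
        have h2 : (-(10001 / 10000000000) : ℝ) ≤ 561206062795 / 1099511627776 -
          561207162307 / 1099511627776 := by norm_num
        linarith
      · have := h.y2
        have h2 : (561208261819 / 1099511627776 -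
          561207162307 / 1099511627776 : ℝ) ≤ 10001 / 10000000000 := by norm_num
        linarith
    have h3 : ((10001 / 10000000000 : ℝ)) ^ 2 + (10001 / 10000000000) ^ 2 ≤ (3 / 2000000) ^ 2 := by
      norm_num
    linarith
  · have := h.y1
    have h2 : (0 : ℝ) < 561206062795 / 1099511627776 := by norm_num
    linarith
  · simp only [cT]
    norm_num

theorem st0 : St cT (((10414 : ℕ) : ℝ) / 16384) 0 1187578824462797111296 1190007114500182900736
    32178290248511100592 138934767560345588905 8 1180591620717411303424 := by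
  refine ⟨?_, ?_, ?_, rfl, by simp [OO]⟩
  · have h1 : cx 1187578824462797111296 1190007114500182900736 OO - 2 ^ 64 * cT ^ (0 + 1) = 0 := by
      have h2 : (2 : ℂ) ^ 64 = ((2 ^ 64 : ℝ) : ℂ) := by push_cast; rfl
      apply Complex.ext
      · rw [zero_add, pow_one, Complex.sub_re, h2, Complex.re_ofReal_mul]
        simp only [cx, cT, OO, Complex.zero_re]
        norm_num
      · rw [zero_add, pow_one, Complex.sub_im, h2, Complex.im_ofReal_mul]
        simp only [cx, cT, OO, Complex.zero_im]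
        norm_num
    rw [h1]; simp
  · simp only [WW]
    norm_num
  · simp only [ZZ]
    norm_num

set_option maxRecDepth 100000 in
theorem forced_run : forced ((List.range 24).map (fun k => bitsN.testBit (k + 1)))
    (mk 1099511627776 416469797217 561207162307 10414 208402151340519 1143872980758142 60
      1187578824462797111296 1190007114500182900736 32178290248511100592 138934767560345588905 8
      1180591620717411303424) 1199038364791120855040 1180591620717411303424 = true := by
  decide +kernel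

theorem Tgt.first {a : ℕ → ℤ} {q : ℂ} (h : Tgt a q) (k : ℕ) (hk : k < 24) :
    a (k + 1) = sg (k + 1) := by
  have h1 := forced_sound h.box ((List.range 24).map (fun k => bitsN.testBit (k + 1)))
    60 0 _ _ _ _ _ _ 1199038364791120855040 1180591620717411303424 st0 (by
      have h1 : cx 1199038364791120855040 1180591620717411303424 1180591620717411303424 -
          2 ^ 64 * PS a cT 0 = 0 := by
        rw [PS_zero, h.ha0]
        apply Complex.ext
        · simp [cx]
          norm_num
        · have h2 : (2 : ℂ) ^ 64 = ((2 ^ 64 : ℝ) : ℂ) := by push_cast; rfl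
          simp only [cx, Complex.sub_im, sub_self, zero_sub, Int.cast_one, mul_one,
            Complex.zero_im, neg_eq_zero]
          rw [h2, Complex.ofReal_im]
      rw [h1]
      simp) forced_run k (by simpa using hk)
  have h2 : ((List.range 24).map (fun k => bitsN.testBit (k + 1)))[k]'(by simpa using hk) =
      bitsN.testBit (k + 1) := by simp
  rw [h2] at h1
  rw [show k + 1 = 0 + 1 + k by ring, h1, sg, show 0 + 1 + k = k + 1 by ring]

/-- approximate derivative -/
noncomputable def D0 : ℂ := ((DX : ℂ) + DY * I) / 1000000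

theorem D0_re : D0.re = -1.625577 := by
  have : D0 = (((DX : ℝ) / 1000000 : ℝ) : ℂ) + (((DY : ℝ) / 1000000 : ℝ) : ℂ) * I := by
    rw [D0]; push_cast; ring
  rw [this]; simp [DX]; norm_num

theorem D0_im : D0.im = 4.374515 := by
  have : D0 = (((DX : ℝ) / 1000000 : ℝ) : ℂ) + (((DY : ℝ) / 1000000 : ℝ) : ℂ) * I := by
    rw [D0]; push_cast; ring
  rw [this]; simp [DY]; norm_num

theorem D0_norm : 46 / 10 ≤ ‖D0‖ ∧ ‖D0‖ ≤ 468 / 100 := by
  have h : ‖D0‖ ^ 2 = (-1.625577) ^ 2 + (4.374515) ^ 2 := by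
    rw [Complex.sq_norm, Complex.normSq_apply, D0_re, D0_im]; ring
  constructor
  · have h1 : (46 / 10 : ℝ) ^ 2 ≤ ‖D0‖ ^ 2 := by rw [h]; norm_num
    exact abs_le_of_sq_le_sq' h1 (norm_nonneg _) |>.2
  · have h1 : ‖D0‖ ^ 2 ≤ (468 / 100 : ℝ) ^ 2 := by rw [h]; norm_num
    exact abs_le_of_sq_le_sq' h1 (by norm_num) |>.2

theorem dPS_congr {a b : ℕ → ℤ} {n : ℕ} (h : ∀ k < n, a (k + 1) = b (k + 1)) (z : ℂ) :
    dPS a z n = dPS b z n := by
  apply Finset.sum_congr rfl
  intro k hk
  rw [h k (Finset.mem_range.mp hk)]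

theorem PS_congr {a b : ℕ → ℤ} {n : ℕ} (h : ∀ k ≤ n, a k = b k) (z : ℂ) :
    PS a z n = PS b z n := by
  apply Finset.sum_congr rfl
  intro k hk
  rw [h k (by have := Finset.mem_range.mp hk; omega)]

theorem dPS24 : ‖dPS sg q1 24 - D0‖ ≤ 1 / 100000 := by
  have hS : (0 : ℤ) < S1 := by norm_num [S1]
  obtain ⟨h1, h2⟩ := gv_spec hS (z := q1) rfl
    ((List.range 24).map (fun k : ℕ => ((k : ℤ) + 1) * sg (k + 1)))
  have hc := dP24_check
  rw [dPS_eq_lv]
  generalize hl : (List.range 24).map (fun k : ℕ => ((k : ℤ) + 1) * sg (k + 1)) = l at *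
  generalize hu : (gv X1 Y1 S1 l).1 = u at *
  generalize hv : (gv X1 Y1 S1 l).2.1 = v at *
  generalize hp : (gv X1 Y1 S1 l).2.2 = p at *
  have hpR : (0 : ℝ) < p := by exact_mod_cast h1
  have hpC : (p : ℂ) ≠ 0 := by exact_mod_cast h1.ne'
  have h3 : (p : ℂ) * 1000000 * (lv l q1 - D0) =
      (((u * 1000000 - DX * p : ℤ) : ℝ) : ℂ) + (((v * 1000000 - DY * p : ℤ) : ℝ) : ℂ) * I := by
    have h4 : lv l q1 = ((u : ℂ) + v * I) / p := by rw [h2]; field_simp
    rw [h4, D0]
    field_simp
    push_cast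
    ring
  have h5 : ‖(p : ℂ) * 1000000 * (lv l q1 - D0)‖ ≤ 10 * p := by
    rw [h3]
    apply norm_le_of_sq (by positivity)
    simp only [Complex.add_re, Complex.ofReal_re, Complex.mul_re, Complex.I_re, mul_zero,
      Complex.ofReal_im, Complex.I_im, mul_one, sub_self, add_zero, Complex.add_im,
      Complex.mul_im, zero_add]
    exact_mod_cast hc
  rw [norm_mul, norm_mul, Complex.norm_intCast, abs_of_pos hpR] at h5
  have h6 : ‖(1000000 : ℂ)‖ = 1000000 := by simp
  rw [h6] at h5
  have h7 : p * (1000000 * ‖lv l q1 - D0‖) ≤ p * 10 := by nlinarith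
  have h8 := le_of_mul_le_mul_left h7 hpR
  linarith

theorem Tgt.deriv {a : ℕ → ℤ} {q : ℂ} (h : Tgt a q) :
    ‖(∑' k : ℕ, ((k : ℂ) + 1) * (a (k + 1) : ℂ) * q ^ k) - D0‖ ≤ 18 / 10000 := by
  have hq : ‖q‖ ≤ 10414 / 16384 := h.hq.trans (by norm_num)
  have h1 := norm_deriv_sub_le h.ha hq (by norm_num) 24
  have h2 : dPS a q 24 = dPS sg q 24 := dPS_congr (fun k hk => h.first k hk) q
  rw [h2] at h1
  have h3 := dPS_sub_le sg_mem hq q1_norm_r (by norm_num) h.norm_sub_q1 24
  have h4 := dPS24
  rw [ZZ_closed (by norm_num)] at h1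
  have e : (∑' k : ℕ, ((k : ℂ) + 1) * (a (k + 1) : ℂ) * q ^ k) - D0 =
      ((∑' k : ℕ, ((k : ℂ) + 1) * (a (k + 1) : ℂ) * q ^ k) - dPS sg q 24) +
      (dPS sg q 24 - dPS sg q1 24) + (dPS sg q1 24 - D0) := by ring
  rw [e]
  refine (norm_add₃_le).trans ?_
  have n1 : (((24 : ℕ) : ℝ) + 1) * (10414 / 16384) ^ 24 / (1 - 10414 / 16384) +
      (10414 / 16384) ^ (24 + 1) / (1 - 10414 / 16384) ^ 2 ≤ (141 / 100000 : ℝ) := by norm_num
  have n2 : (3 / 2000000 : ℝ) * (2 / (1 - 10414 / 16384) ^ 3) ≤ 7 / 100000 := by norm_num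
  linarith

theorem Tgt.deriv_ge {a : ℕ → ℤ} {q : ℂ} (h : Tgt a q) :
    4 ≤ ‖∑' k : ℕ, ((k : ℂ) + 1) * (a (k + 1) : ℂ) * q ^ k‖ := by
  have h1 := h.deriv
  have h2 := D0_norm.1
  have h3 : ‖D0‖ ≤ ‖∑' k : ℕ, ((k : ℂ) + 1) * (a (k + 1) : ℂ) * q ^ k‖ +
      ‖(∑' k : ℕ, ((k : ℂ) + 1) * (a (k + 1) : ℂ) * q ^ k) - D0‖ := by
    have e : D0 = (∑' k : ℕ, ((k : ℂ) + 1) * (a (k + 1) : ℂ) * q ^ k) -
      ((∑' k : ℕ, ((k : ℂ) + 1) * (a (k + 1) : ℂ) * q ^ k) - D0) := by ring
    calc ‖D0‖ = ‖(∑' k : ℕ, ((k : ℂ) + 1) * (a (k + 1) : ℂ) * q ^ k) -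
      ((∑' k : ℕ, ((k : ℂ) + 1) * (a (k + 1) : ℂ) * q ^ k) - D0)‖ := by rw [← e]
      _ ≤ _ := norm_sub_le _ _
  linarith

end Pool.Agent.LinPair
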