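import Mathlib
import Pool.Agent.Helper284.PFIneq
import Pool.Agent.Helper284.PFInv
import Pool.Agent.Helper284.PFOdd
import Pool.Agent.Helper284.PFMono

set_option autoImplicit false

namespace Pool.Agent.Helper284.PFOde

open Pool.Agent.Helper284.PFInv Pool.Agent.Helper284.PFMono

/-- a solution of the equation through a nonzero point has a global polar form -/
theorem polar {n k : ℕ} {γ : ℝ → ℂ}
    (hγ : ∀ t : ℝ, HasDerivAt γ
      (Complex.I * γ t + (γ t * (starRingEnd ℂ) (γ t)) ^ n * (γ t) ^ (k + 1)) t)
    (h0 : γ 0 ≠ 0) :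
    ∃ l θ : ℝ → ℝ,
      (∀ t, γ t = Complex.exp (l t + Complex.I * θ t)) ∧
      (∀ t, HasDerivAt l (Real.exp ((2 * n + k) * l t) * Real.cos (k * θ t)) t) ∧
      (∀ t, HasDerivAt θ (1 + Real.exp ((2 * n + k) * l t) * Real.sin (k * θ t)) t) := by
  have hcont : Continuous γ := continuous_iff_continuousAt.mpr (fun t => (hγ t).continuousAt)
  set a : ℝ → ℂ := fun t => Complex.I + (γ t * (starRingEnd ℂ) (γ t)) ^ n * (γ t) ^ k with ha
  have hconj : Continuous (fun t => (starRingEnd ℂ) (γ t)) := Complex.continuous_conj.comp hcont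
  have hacont : Continuous a := by
    rw [ha]; fun_prop
  set L : ℝ → ℂ := fun t => Complex.log (γ 0) + ∫ x in (0:ℝ)..t, a x with hL
  have hLder : ∀ t, HasDerivAt L (a t) t := by
    intro t
    exact (hacont.integral_hasStrictDerivAt 0 t).hasDerivAt.const_add _
  have hγa : ∀ t, HasDerivAt γ (γ t * a t) t := by
    intro t
    refine (hγ t).congr_deriv ?_
    rw [ha]; ring
  have hconst : ∀ t, HasDerivAt (fun t => γ t * Complex.exp (-L t)) 0 t := by
    intro t
    have h1 := (hLder t).neg.cexp
    have h2 := (hγa t).mul h1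
    refine h2.congr_deriv ?_
    simp only [Pi.neg_apply]
    ring
  have hexp : ∀ t, γ t = Complex.exp (L t) := by
    intro t
    have h1 := is_const_of_deriv_eq_zero (fun t => (hconst t).differentiableAt)
      (fun t => (hconst t).deriv) t 0
    have h2 : γ 0 * Complex.exp (-L 0) = 1 := by
      have h3 : L 0 = Complex.log (γ 0) := by rw [hL]; simp
      rw [h3, Complex.exp_neg, Complex.exp_log h0, mul_inv_cancel₀ h0]
    rw [h2] at h1
    rw [Complex.exp_neg] at h1
    have := Complex.exp_ne_zero (L t)
    field_simp at h1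
    exact h1
  have haexp : ∀ t, a t = Complex.I
      + Complex.exp ((((2 * n + k) * (L t).re : ℝ) : ℂ) + ((k * (L t).im : ℝ) : ℂ) * Complex.I) := by
    intro t
    have h1 : γ t * (starRingEnd ℂ) (γ t) = Complex.exp ((2 * (L t).re : ℝ) : ℂ) := by
      rw [hexp t, ← Complex.exp_conj, ← Complex.exp_add, Complex.add_conj]
    have h2 : (γ t) ^ k = Complex.exp (k * L t) := by
      rw [hexp t, ← Complex.exp_nat_mul]
    simp only [ha]
    rw [h1, h2, ← Complex.exp_nat_mul, ← Complex.exp_add]
    congr 2
    conv_lhs => rw [← Complex.re_add_im (L t)]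
    push_cast
    simp only [Complex.add_re, Complex.ofReal_re, Complex.mul_re, Complex.I_re, mul_zero,
      Complex.ofReal_im, Complex.I_im, mul_one, sub_self, add_zero]
    ring
  have hre : ∀ t, (a t).re = Real.exp ((2 * n + k) * (L t).re) * Real.cos (k * (L t).im) := by
    intro t
    rw [haexp t, Complex.add_re, Complex.I_re, Complex.exp_re]
    simp
  have him : ∀ t, (a t).im = 1 + Real.exp ((2 * n + k) * (L t).re) * Real.sin (k * (L t).im) := by
    intro t
    rw [haexp t, Complex.add_im, Complex.I_im, Complex.exp_im]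
    simp
  refine ⟨fun t => (L t).re, fun t => (L t).im, ?_, ?_, ?_⟩
  · intro t
    rw [hexp t]
    congr 1
    rw [mul_comm Complex.I]
    exact (Complex.re_add_im (L t)).symm
  · intro t
    have h1 : HasDerivAt (fun t => (L t).re) (a t).re t :=
      (Complex.reCLM.hasFDerivAt.comp_hasDerivAt t (hLder t))
    exact h1.congr_deriv (hre t)
  · intro t
    have h1 : HasDerivAt (fun t => (L t).im) (a t).im t :=
      (Complex.imCLM.hasFDerivAt.comp_hasDerivAt t (hLder t))
    exact h1.congr_deriv (him t)

end Pool.Agent.Helper284.PFOde
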