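import Mathlib
import Pool.Agent.Helper284.PFInv
import Pool.Agent.Helper284.PFMono
import Pool.Agent.Helper284.PFLevel
import Pool.Agent.Helper284.PFPeriod
import Pool.Agent.Helper284.PFOde

set_option autoImplicit false

namespace Pool.Agent.Helper284.PFTop

open Pool.Agent.Helper284.PFInv Pool.Agent.Helper284.PFMono Pool.Agent.Helper284.PFLevel
  Pool.Agent.Helper284.PFPeriod Pool.Agent.Helper284.PFOde

/-- numerator of the first integral -/
noncomputable def Qf (n k : ℕ) (z : ℂ) : ℝ :=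
  k + 2 * (n + k) * ((z * (starRingEnd ℂ) z) ^ n * z ^ k).im

theorem Qf_cont (n k : ℕ) : Continuous (Qf n k) := by
  unfold Qf
  have : Continuous (fun z : ℂ => (starRingEnd ℂ) z) := Complex.continuous_conj
  fun_prop

theorem Qf_zero {n k : ℕ} (hk : 0 < k) : Qf n k 0 = k := by
  unfold Qf
  simp [hk.ne']

theorem Qf_exp (n k : ℕ) (l θ : ℝ) : Qf n k (Complex.exp (l + Complex.I * θ))
    = Jf n k l θ * ‖Complex.exp (l + Complex.I * θ)‖ ^ (2 * (n + k)) := by
  have h1 : Complex.exp (l + Complex.I * θ) * (starRingEnd ℂ) (Complex.exp (l + Complex.I * θ))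
      = Complex.exp ((2 * l : ℝ) : ℂ) := by
    rw [← Complex.exp_conj, ← Complex.exp_add]
    congr 1
    simp only [map_add, map_mul, Complex.conj_ofReal, Complex.conj_I]
    push_cast
    ring
  have h2 : ((Complex.exp (l + Complex.I * θ) *
      (starRingEnd ℂ) (Complex.exp (l + Complex.I * θ))) ^ n *
      (Complex.exp (l + Complex.I * θ)) ^ k) =
      Complex.exp ((((2 * n + k) * l : ℝ) : ℂ) + ((k * θ : ℝ) : ℂ) * Complex.I) := by
    rw [h1, ← Complex.exp_nat_mul, ← Complex.exp_nat_mul, ← Complex.exp_add]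
    congr 1
    push_cast
    ring
  have h3 : ‖Complex.exp (l + Complex.I * θ)‖ ^ (2 * (n + k))
      = Real.exp (2 * (n + k) * l) := by
    rw [Complex.norm_exp, ← Real.exp_nat_mul]
    congr 1
    simp
  have h4 : Real.exp (-(2 * ((n:ℝ) + k) * l)) * Real.exp (2 * (n + k) * l) = 1 := by
    rw [← Real.exp_add]; simp
  unfold Qf Jf
  rw [h2, h3, Complex.exp_im]
  have h5 : ((((2 * n + k) * l : ℝ) : ℂ) + ((k * θ : ℝ) : ℂ) * Complex.I).re = (2 * n + k) * l := by
    simp
  have h6 : ((((2 * n + k) * l : ℝ) : ℂ) + ((k * θ : ℝ) : ℂ) * Complex.I).im = k * θ := by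
    simp
  rw [h5, h6, mul_assoc (_ + _), h4, mul_one]

/-- no complete orbit on the zero level of the first integral -/
theorem Qf_ne_zero {n k : ℕ} (hk : 0 < k) {γ : ℝ → ℂ}
    (hγ : ∀ t : ℝ, HasDerivAt γ
      (Complex.I * γ t + (γ t * (starRingEnd ℂ) (γ t)) ^ n * (γ t) ^ (k + 1)) t) :
    Qf n k (γ 0) ≠ 0 := by
  intro hQ
  have hk' : (0:ℝ) < k := by exact_mod_cast hk
  by_cases h0 : γ 0 = 0
  · rw [h0, Qf_zero hk] at hQ
    exact hk'.ne' hQ
  obtain ⟨l, θ, hp, hl, hθ⟩ := polar hγ h0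
  rw [hp 0, Qf_exp] at hQ
  have hJ0 : Jf n k (l 0) (θ 0) = 0 := by
    rcases mul_eq_zero.mp hQ with h | h
    · exact h
    · exfalso
      have := pow_pos (norm_pos_iff.mpr (Complex.exp_ne_zero (l 0 + Complex.I * θ 0)))
        (2 * (n + k))
      linarith
  have hA : ∀ t, (k:ℝ) + 2 * (n + k) * (Real.exp ((2 * n + k) * l t) * Real.sin (k * θ t)) = 0 := by
    intro t
    have h1 : Jf n k (l t) (θ t) = 0 := (J_const hl hθ t).trans hJ0
    unfold Jf at h1
    rcases mul_eq_zero.mp h1 with h | h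
    · exact h
    · exact absurd h (Real.exp_ne_zero _)
  have hc0 : (0:ℝ) < 1 / 2 := by norm_num
  have hspeed : ∀ t, (1:ℝ) / 2 ≤ 1 + Real.exp ((2 * n + k) * l t) * Real.sin (k * θ t) := by
    intro t
    have h1 := hA t
    have hn' : (0:ℝ) ≤ n := Nat.cast_nonneg n
    by_contra hcon
    push Not at hcon
    nlinarith
  obtain ⟨t, ht⟩ := surj_of_deriv hc0 hθ hspeed 0
  have h1 := hA t
  rw [ht] at h1
  simp at h1
  exact hk.ne' h1

/-- positive level sets are covered by any orbit in them -/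
theorem level_subset_range {n k : ℕ} (hk : 0 < k) {γ : ℝ → ℂ} {l θ : ℝ → ℝ} {J : ℝ}
    (hγ : ∀ t, γ t = Complex.exp (l t + Complex.I * θ t))
    (hl : ∀ t, HasDerivAt l (Real.exp ((2 * n + k) * l t) * Real.cos (k * θ t)) t)
    (hθ : ∀ t, HasDerivAt θ (1 + Real.exp ((2 * n + k) * l t) * Real.sin (k * θ t)) t)
    (hJ : 0 < J) (hJl : Jf n k (l 0) (θ 0) = J) {z : ℂ} (hz : z ≠ 0)
    (hQ : Qf n k z = J * ‖z‖ ^ (2 * (n + k))) : z ∈ Set.range γ := by
  have hk' : (0:ℝ) < k := by exact_mod_cast hk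
  have hm := mu_pos (n := n) hk
  have hJt : ∀ t, Jf n k (l t) (θ t) = J := fun t => (J_const hl hθ t).trans hJl
  have hc0 : 0 < 1 / (1 + mu n k) := by positivity
  have hspeed : ∀ t, 1 / (1 + mu n k) ≤ 1 + Real.exp ((2 * n + k) * l t) * Real.sin (k * θ t) :=
    fun t => (speed_lb hk hJ (hJt t)).le
  have hzexp : z = Complex.exp (((Complex.log z).re : ℂ) + Complex.I * ((Complex.log z).im : ℂ)) := by
    rw [mul_comm Complex.I, Complex.re_add_im, Complex.exp_log hz]
  have hJz : Jf n k (Complex.log z).re (Complex.log z).im = J := by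
    have h1 := Qf_exp n k (Complex.log z).re (Complex.log z).im
    rw [← hzexp, hQ] at h1
    have h2 := pow_pos (norm_pos_iff.mpr hz) (2 * (n + k))
    exact (mul_right_cancel₀ h2.ne' h1).symm
  obtain ⟨t, ht⟩ := surj_of_deriv hc0 hθ hspeed (Complex.log z).im
  refine ⟨t, ?_⟩
  have h1 := G_level hk hJ (hJt t)
  have h2 := G_level hk hJ hJz
  rw [ht] at h1
  have h3 : (2 * (n:ℝ) + k) * l t = (2 * n + k) * (Complex.log z).re := by linarith
  have h4 : l t = (Complex.log z).re := by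
    have : (2 * (n:ℝ) + k) ≠ 0 := by positivity
    exact mul_left_cancel₀ this h3
  rw [hγ t, ht, h4, ← hzexp]

/-- the periodic set -/
def PSet (n k : ℕ) : Set ℂ :=
  {z : ℂ | z = 0 ∨ (Complex.I * z + (z * (starRingEnd ℂ) z) ^ n * z ^ (k + 1) ≠ 0 ∧
          ∃ γ : ℝ → ℂ, ∃ T : ℝ, 0 < T ∧
            (∀ t : ℝ, HasDerivAt γ (Complex.I * γ t + (γ t * (starRingEnd ℂ) (γ t)) ^ n * (γ t) ^ (k + 1)) t) ∧
            γ 0 = z ∧ γ T = z)}

theorem comp_pos {n k : ℕ} (hk : 0 < k) {z : ℂ}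
    (hz : z ∈ connectedComponentIn (PSet n k) 0) : 0 < Qf n k z := by
  have hk' : (0:ℝ) < k := by exact_mod_cast hk
  have h0 : (0:ℂ) ∈ PSet n k := Or.inl rfl
  have hsub : connectedComponentIn (PSet n k) 0 ⊆ {z | 0 < Qf n k z} := by
    apply IsPreconnected.subset_left_of_subset_union (v := {z | Qf n k z < 0})
    · exact isOpen_lt continuous_const (Qf_cont n k)
    · exact isOpen_lt (Qf_cont n k) continuous_const
    · rw [Set.disjoint_left]
      intro w h1 h2
      simp only [Set.mem_setOf_eq] at h1 h2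
      linarith
    · intro w hw
      have hw' := connectedComponentIn_subset _ _ hw
      have hne : Qf n k w ≠ 0 := by
        rcases hw' with h | ⟨_, γ, T, _, hγ, hγ0, _⟩
        · rw [h, Qf_zero hk]; exact hk'.ne'
        · rw [← hγ0]; exact Qf_ne_zero hk hγ
      rcases lt_or_gt_of_ne hne with h | h
      · exact Or.inr h
      · exact Or.inl h
    · refine ⟨0, mem_connectedComponentIn h0, ?_⟩
      simp only [Set.mem_setOf_eq]
      rw [Qf_zero hk]; exact hk'
    · exact isPreconnected_connectedComponentIn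
  exact hsub hz

end Pool.Agent.Helper284.PFTop
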